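import Pool.Agent.LibBc83.Def

/-!
The Borel classes `Σ⁰_a`, `Π⁰_a` of a model of ZF for all ordinals `a` of the model, and countable
choice for the sequences of sets in these classes.
-/

namespace Pool.Agent.LibBd83

open Pool.Agent.LibBc83

section

variable {M : Type} (E : M → M → Prop)

/-- `b` is the number `1`: its only element is the empty set. -/
def IsOne (b : M) : Prop := ∀ t, E t b ↔ Emp E t

/-- `1` is an element of `b`; for an ordinal `b` this says that `1 < b`. -/
def GtOne (b : M) : Prop := ∃ o, IsOne E o ∧ E o b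

/-- `A` is in the class `Σ⁰_b`, where the classes `Σ⁰_d`, `d < b`, are given by `F`: a set `c` is
in the class `Σ⁰_d` if the ordered pair `(d, c)` is in `F`. For `b = 1` the open sets, and for `1 < b`
the unions of sequences of complements of sets in the classes `Σ⁰_d`, `d < b`. -/
def StepO (w F b A : M) : Prop :=
  (IsOne E b ∧ Open E w A) ∨
  (GtOne E b ∧ ∃ g, Seq E w g ∧
    (∀ n z, E n w → Rel E g n z → ∃ d c, E d b ∧ Rel E F d c ∧ Compl E w z c) ∧ Union E w A g)

/-- `F` is the Borel hierarchy up to the ordinal `a`: for all `b ≤ a` and all `A`, the pair `(b, A)`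
is in `F` iff `A` is in the class `Σ⁰_b`. -/
def Hier (w a F : M) : Prop := ∀ b A, (b = a ∨ E b a) → (Rel E F b A ↔ StepO E w F b A)

/-- The class `Σ⁰_a` of the model, for an ordinal `a` of the model, `a ≥ 1`. -/
def SigO (a w A : M) : Prop := ∃ F, Hier E w a F ∧ Rel E F a A

/-- The class `Π⁰_a` of the model: the complements of the sets in `Σ⁰_a`. -/
def PiO (a w A : M) : Prop := ∃ c, SigO E a w c ∧ Compl E w A c

/-- `AC_ω(ℝ; Σ⁰_a)`. -/
def ACRo (a : M) : Prop := CC E (InCls E (SigO E a))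

/-- `AC_ω(ℝ; Π⁰_a)`. -/
def ACPo (a : M) : Prop := CC E (InCls E (PiO E a))

/-- `AC_ω(ℝ; unif Σ⁰_a)`. -/
def ACUo (a : M) : Prop := CC E (UnifIn E (SigO E a))

/-- `a` is the ordinal `α` of the model: `a` is a transitive set, and its elements, ordered by `E`,
are isomorphic to the ordinals less than `α`. -/
def IsoOrd (α : Ordinal.{0}) (a : M) : Prop :=
  (∀ x y, E x y → E y a → E x a) ∧
  ∃ f : Set.Iio α → M, (∀ x, E x a ↔ ∃ γ, f γ = x) ∧ ∀ γ δ, E (f γ) (f δ) ↔ γ < δ

end

/-- Question Q1 for the ordinal `α`: is there a model of ZF (in which `α` is an ordinal) with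
`AC_ω(ℝ; Σ⁰_α)` in which `AC_ω(ℝ; Σ⁰_{α+1})` fails? -/
def Q1 (α : Ordinal.{0}) : Prop :=
  ∃ (M : Type) (E : M → M → Prop) (a a' : M), IsZF E ∧ IsoOrd E α a ∧ Suc E a' a ∧
    ACRo E a ∧ ¬ ACRo E a'

/-- Question Q2 for the ordinal `α`: is there a model of ZF (in which `α` is an ordinal) with
`AC_ω(ℝ; unif Σ⁰_α)` in which `AC_ω(ℝ; unif Σ⁰_{α+1})` fails? -/
def Q2 (α : Ordinal.{0}) : Prop :=
  ∃ (M : Type) (E : M → M → Prop) (a a' : M), IsZF E ∧ IsoOrd E α a ∧ Suc E a' a ∧
    ACUo E a ∧ ¬ ACUo E a'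

end Pool.Agent.LibBd83
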