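import Pool.Agent.LibBd83.F2b

/-!
BD83 F3. The filters for all countable ordinals `α ≥ 1`.
-/

namespace Pool.Agent.LibBd83

open Set Filter

theorem fil (α : Ordinal.{0}) (h1 : 1 ≤ α) (hc : (Set.Iio α).Countable) :
    ∃ 𝓕 : Filter ℕ, 𝓕 ≤ cofinite ∧
      (∀ P, SG (Clop Cn) α P → LimRep 𝓕 P) ∧
      (∃ Q, SG (Clop Cn) (α + 1) Q ∧ Good 𝓕 Q) ∧ ∃ Q, SG (Clop Cn) (α + 1) Qᶜ ∧ Good 𝓕 Q := by
  induction α using WellFoundedLT.induction with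
  | ind α ih =>
    rcases h1.eq_or_lt with h | h
    · rw [← h]
      exact fil_one
    · obtain ⟨e, he, -, he'⟩ := exists_cof α h hc
      choose 𝓕 h𝓕 h𝓕' using fun m => ih (e m) (he m).2 (he m).1
        (hc.mono (Set.Iio_subset_Iio (he m).2.le))
      choose hl hg using h𝓕'
      choose Q₁ hQ₁ using fun m => (hg m).1
      choose Q₂ hQ₂ using fun m => (hg m).2
      exact ⟨sumF 𝓕, sum_cofinite 𝓕 h𝓕, fun P hP => sum_limRep h e he' 𝓕 hl P hP,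
        sum_good₁ h e (fun m => (he m).2) 𝓕 Q₂ hQ₂, sum_good₂ h e (fun m => (he m).2) 𝓕 Q₁ hQ₁⟩

end Pool.Agent.LibBd83
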