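import Pool.Agent.LibBd83.Def

/-!
BD83 M3. The values of `gg b`, `b` fixed, avoid a given value with large probability.

Plan. `gg_eq_iff`: the sum of the powers `2 ^ l`, `l < i`, `w (b, i, l)`, has the binary digits
`w (b, i, l)`; so if `gg b w i = gg b w' i` then `w (b, i, l) = w' (b, i, l)` for `l < i` (induction
on the range, or uniqueness of binary expansions: `Finset.sum_two_pow...`/`Nat.testBit`; direct: for
`s t : Finset ℕ`, `∑ l ∈ s, 2 ^ l = ∑ l ∈ t, 2 ^ l` implies `s = t`, see
`Finset.geomSum_injective`, `Nat.geomSum_injective` or `Finset.equivBitIndices`). `mu_gg_le`: if the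
set is not empty, choose `w₀` in it; the set is contained in the box
`Set.pi (image of range i under l ↦ (b, i, l)) (fun c => {w₀ c})`, with measure `(1/2)^i` by
`Measure.infinitePi_pi`.
-/

namespace Pool.Agent.LibBd83

open MeasureTheory Set Filter

private theorem M3_gg (b i : ℕ) (w : W) :
    gg b w i = ∑ l ∈ (Finset.range i).filter (fun l => w (b, i, l) = true), 2 ^ l := by
  unfold gg
  rw [Finset.sum_filter]

theorem gg_inj (b i : ℕ) (w w' : W) (h : gg b w i = gg b w' i) (l : ℕ) (hl : l < i) :
    w (b, i, l) = w' (b, i, l) := by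
  rw [M3_gg, M3_gg] at h
  have h1 := Finset.geomSum_injective (n := 2) le_rfl h
  have h2 : l ∈ (Finset.range i).filter (fun l => w (b, i, l) = true) ↔
      l ∈ (Finset.range i).filter (fun l => w' (b, i, l) = true) := by rw [h1]
  rw [Finset.mem_filter, Finset.mem_filter] at h2
  have h3 : l ∈ Finset.range i := Finset.mem_range.2 hl
  have h4 : w (b, i, l) = true ↔ w' (b, i, l) = true :=
    ⟨fun h => (h2.1 ⟨h3, h⟩).2, fun h => (h2.2 ⟨h3, h⟩).2⟩
  exact Bool.eq_iff_iff.2 h4

theorem measurable_gg (b : ℕ) : Measurable (gg b) := by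
  rw [measurable_pi_iff]
  intro i
  unfold gg
  refine Finset.measurable_sum _ fun l _ => ?_
  refine Measurable.ite ?_ measurable_const measurable_const
  have h : Measurable (fun w : W => w (b, i, l)) := measurable_pi_apply (b, i, l)
  exact h (measurableSet_singleton true)

/-- `gg b` depends only on the block `b`. -/
theorem dp_gg (b : ℕ) : Dp (cs {b}) (gg b) := by
  intro w w' h
  funext i
  unfold gg
  refine Finset.sum_congr rfl fun l _ => ?_
  rw [h (b, i, l) rfl]

private theorem M3_coin (x : Bool) : coin {x} = 1 / 2 := by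
  unfold coin
  rw [PMF.toMeasure_apply_singleton _ _ (measurableSet_singleton x), PMF.uniformOfFintype_apply]
  simp

theorem mu_gg_le (b i m : ℕ) : mu {w | gg b w i = m} ≤ (1 / 2 : ENNReal) ^ i := by
  classical
  rcases Set.eq_empty_or_nonempty {w : W | gg b w i = m} with h | ⟨w₀, hw₀⟩
  · rw [h, measure_empty]
    exact zero_le
  · let S : Finset Jx := (Finset.range i).image (fun l => ((b, i, l) : Jx))
    have hsub : {w : W | gg b w i = m} ⊆ Set.pi (S : Set Jx) (fun c => {w₀ c}) := by
      intro w hw c hc
      obtain ⟨l, hl, rfl⟩ := Finset.mem_image.1 (Finset.mem_coe.1 hc)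
      exact gg_inj b i w w₀ (hw.trans hw₀.symm) l (Finset.mem_range.1 hl)
    refine (measure_mono hsub).trans ?_
    unfold mu
    rw [Measure.infinitePi_pi _ (fun c _ => measurableSet_singleton _)]
    rw [Finset.prod_congr rfl (fun c _ => M3_coin (w₀ c)), Finset.prod_const,
      Finset.card_image_of_injective _ (fun x y h => by simpa using h), Finset.card_range]

end Pool.Agent.LibBd83
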