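import Pool.Agent.LibBd83.S2

/-!
BD83 S3. The algebras of sets which we use.

Plan. `isAlg_clop`: `IsClopen.compl`, `IsClopen.inter`. `isAlg_MS`, `isAlg_MD`: immediate.
`isAlg_RB`: `univ`: `m = 0`, `U s = univ`; `compl`: `(U s)ᶜ`; `inter`: for `(m, U)` and `(m', U')` take
`M = max m m'` and `s ↦ U (s.take m) ∩ U' (s.take m')` (`(seg x M).take m = seg x m` for `m ≤ M`:
`List.map_take`, `List.take_range`). `isAlg_CM`: `compl`: the set `{y | ¬ ((z, y) ∈ E ↔ ..)}` does not
change; `inter`: it is contained in the union of those for `E` and `E'` (`ε / 2`).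
`measurable_of_mem_RB`: the set is `⋃ s, U s ×ˢ {x | seg x m = s}` (a countable union; `seg · m` is
measurable with values in the countable discrete set of lists; `measurable_seg`).
-/

namespace Pool.Agent.LibBd83

open MeasureTheory Set

theorem isAlg_clop (Z : Type*) [TopologicalSpace Z] : IsAlg (Clop Z) :=
  ⟨isClopen_univ, fun _ hA => IsClopen.compl hA, fun _ hA _ hA' => IsClopen.inter hA hA'⟩

theorem isAlg_MS : IsAlg MS := by
  refine ⟨?_, ?_, ?_⟩
  · change MeasurableSet (univ : Set W)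
    exact MeasurableSet.univ
  · intro A hA
    change MeasurableSet Aᶜ
    have h : MeasurableSet A := hA
    exact h.compl
  · intro A hA A' hA'
    change MeasurableSet (A ∩ A')
    have h : MeasurableSet A := hA
    have h' : MeasurableSet A' := hA'
    exact h.inter h'

theorem isAlg_MD (D : Set Jx) : IsAlg (MD D) := by
  refine ⟨⟨MeasurableSet.univ, fun _ _ _ => Iff.rfl⟩, ?_, ?_⟩
  · rintro A ⟨h1, h2⟩
    exact ⟨h1.compl, fun w w' h => not_congr (h2 w w' h)⟩
  · rintro A ⟨h1, h2⟩ A' ⟨h1', h2'⟩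
    exact ⟨h1.inter h1', fun w w' h => and_congr (h2 w w' h) (h2' w w' h)⟩

theorem take_seg (x : ℕ → ℕ) {m M : ℕ} (h : m ≤ M) : (seg x M).take m = seg x m := by
  unfold seg
  rw [← List.map_take, List.take_range, min_eq_left h]

theorem measurableSet_seg (m : ℕ) (s : List ℕ) : MeasurableSet {x : ℕ → ℕ | seg x m = s} := by
  induction m generalizing s with
  | zero =>
    by_cases hs : s = []
    · subst hs
      have h1 : {x : ℕ → ℕ | seg x 0 = []} = univ := by
        ext x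
        simp [seg]
      rw [h1]
      exact MeasurableSet.univ
    · have h1 : {x : ℕ → ℕ | seg x 0 = s} = ∅ := by
        ext x
        simp only [mem_ofPred_eq, mem_empty_iff_false, iff_false]
        intro h
        exact hs (by rw [← h]; rfl)
      rw [h1]
      exact MeasurableSet.empty
  | succ m ih =>
    have h0 : ∀ x : ℕ → ℕ, seg x (m + 1) = seg x m ++ [x m] := by
      intro x
      unfold seg
      rw [List.range_succ, List.map_append]
      rfl
    rcases List.eq_nil_or_concat s with rfl | ⟨s', a, rfl⟩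
    · have h1 : {x : ℕ → ℕ | seg x (m + 1) = []} = ∅ := by
        ext x
        simp [h0]
      rw [h1]
      exact MeasurableSet.empty
    · have h1 : {x : ℕ → ℕ | seg x (m + 1) = s' ++ [a]} =
          {x : ℕ → ℕ | seg x m = s'} ∩ {x : ℕ → ℕ | x m = a} := by
        ext x
        simp only [mem_ofPred_eq, mem_inter_iff, h0]
        constructor
        · intro h
          obtain ⟨h2, h3⟩ := List.append_inj' h rfl
          exact ⟨h2, by simpa using h3⟩
        · rintro ⟨h2, h3⟩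
          rw [h2, h3]
      have h2 : MeasurableSet {x : ℕ → ℕ | x m = a} :=
        measurableSet_eq_fun (measurable_pi_apply m) measurable_const
      simpa only [List.concat_eq_append, h1] using (ih s').inter h2

theorem isAlg_RB {𝓤 : Set (Set W)} (h : IsAlg 𝓤) : IsAlg (RB 𝓤) := by
  refine ⟨?_, ?_, ?_⟩
  · exact ⟨0, fun _ => univ, fun _ => h.univ, by ext p; simp⟩
  · rintro R ⟨m, U, hU, rfl⟩
    exact ⟨m, fun s => (U s)ᶜ, fun s => h.compl _ (hU s), rfl⟩
  · rintro R ⟨m, U, hU, rfl⟩ R' ⟨m', U', hU', rfl⟩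
    refine ⟨max m m', fun s => U (s.take m) ∩ U' (s.take m'),
      fun s => h.inter _ (hU _) _ (hU' _), ?_⟩
    ext p
    simp only [mem_inter_iff, mem_ofPred_eq]
    rw [take_seg p.2 (le_max_left m m'), take_seg p.2 (le_max_right m m')]

theorem isAlg_CM {Z Y : Type*} [TopologicalSpace Z] [MeasurableSpace Y] (ν : Measure Y) :
    IsAlg (CM (Z := Z) ν) := by
  refine ⟨⟨?_, ?_⟩, ?_, ?_⟩
  · intro z
    exact MeasurableSet.univ
  · intro z ε hε
    refine Filter.Eventually.of_forall fun z' => ?_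
    have h1 : {y : Y | ¬ ((z, y) ∈ (univ : Set (Z × Y)) ↔ (z', y) ∈ (univ : Set (Z × Y)))} = ∅ := by
      ext y
      simp
    rw [h1, measure_empty]
    exact hε
  · rintro E ⟨h1, h2⟩
    refine ⟨fun z => (h1 z).compl, ?_⟩
    intro z ε hε
    filter_upwards [h2 z ε hε] with z' hz'
    have h3 : {y : Y | ¬ ((z, y) ∈ Eᶜ ↔ (z', y) ∈ Eᶜ)} = {y : Y | ¬ ((z, y) ∈ E ↔ (z', y) ∈ E)} := by
      ext y
      simp only [mem_ofPred_eq, mem_compl_iff, not_iff_not]
    rw [h3]
    exact hz'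
  · rintro E ⟨h1, h2⟩ E' ⟨h1', h2'⟩
    refine ⟨fun z => (h1 z).inter (h1' z), ?_⟩
    intro z ε hε
    have hε2 : 0 < ε / 2 := ENNReal.half_pos hε.ne'
    filter_upwards [h2 z (ε / 2) hε2, h2' z (ε / 2) hε2] with z' hz' hz''
    have h3 : {y : Y | ¬ ((z, y) ∈ E ∩ E' ↔ (z', y) ∈ E ∩ E')} ⊆
        {y : Y | ¬ ((z, y) ∈ E ↔ (z', y) ∈ E)} ∪ {y : Y | ¬ ((z, y) ∈ E' ↔ (z', y) ∈ E')} := by
      intro y hy
      simp only [mem_union, mem_ofPred_eq, mem_inter_iff] at hy ⊢
      by_contra hcon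
      push Not at hcon
      exact hy (and_congr hcon.1 hcon.2)
    calc ν {y : Y | ¬ ((z, y) ∈ E ∩ E' ↔ (z', y) ∈ E ∩ E')}
        ≤ ν ({y : Y | ¬ ((z, y) ∈ E ↔ (z', y) ∈ E)} ∪ {y : Y | ¬ ((z, y) ∈ E' ↔ (z', y) ∈ E')}) :=
          measure_mono h3
      _ ≤ ν {y : Y | ¬ ((z, y) ∈ E ↔ (z', y) ∈ E)} + ν {y : Y | ¬ ((z, y) ∈ E' ↔ (z', y) ∈ E')} :=
          measure_union_le _ _
      _ < ε / 2 + ε / 2 := ENNReal.add_lt_add hz' hz''
      _ = ε := ENNReal.add_halves ε

theorem measurable_of_mem_RB {R : Set (W × (ℕ → ℕ))} (h : R ∈ RB MS) : MeasurableSet R := by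
  obtain ⟨m, U, hU, rfl⟩ := h
  have h1 : {p : W × (ℕ → ℕ) | p.1 ∈ U (seg p.2 m)} =
      ⋃ s : List ℕ, U s ×ˢ {x : ℕ → ℕ | seg x m = s} := by
    ext p
    simp only [mem_ofPred_eq, mem_iUnion, mem_prod]
    constructor
    · intro hp
      exact ⟨seg p.2 m, hp, rfl⟩
    · rintro ⟨s, hp, rfl⟩
      exact hp
  rw [h1]
  refine MeasurableSet.iUnion fun s => ?_
  have h2 : MeasurableSet (U s) := hU s
  exact h2.prod (measurableSet_seg m s)

end Pool.Agent.LibBd83
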