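import Pool.Agent.LibBd83.B0
import Pool.Agent.LibBd83.S3
import Pool.Agent.LibBd83.M3

/-!
BD83 G2. The sets `A_b`: the real `x` agrees with `gg b w` on a set in `Q`.

Plan. `clopen_dep`: `Cn` is compact; for each `x ∈ D` there is `m` such that all `y` which agree with
`x` below `m` are in `D` (`D` is open; basic neighbourhoods in the product topology), and in the same
way for `x ∉ D`; finitely many of these cylinders cover `Cn`, take the largest `m`.
`sg_Rb`: `SG.preimage` with `g (w, x) = fun i => decide (x i = gg b w i)`; for a clopen `D` with `m` from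
`clopen_dep`, the preimage is in `RB (MD (cs {b}))`: with this `m` and
`U s = {w | (fun i => decide (s[i]? = some (gg b w i))) ∈ D}` (for `s = seg x m` and `i < m`,
`s[i]? = some (x i)`; the values for `i ≥ m` do not matter); `U s` is measurable (`measurable_gg`; it
depends on the values `gg b w i`, `i < m`, only) and depends only on `cs {b}` (`dp_gg`).
`Rb_inv`: for `γ : Gp 𝓕`, for almost all `i` (in `𝓕`) `gg b (tr γ w) i = gg b w i`; `Good.inv`.
`Rb_self`: `Good.top`. `Rb_inf`: `Good.inf`.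
-/

namespace Pool.Agent.LibBd83

open MeasureTheory Set Filter

theorem clopen_dep (D : Set Cn) (hD : IsClopen D) :
    ∃ m : ℕ, ∀ x y : Cn, (∀ i < m, x i = y i) → (x ∈ D ↔ y ∈ D) := by
  classical
  have h1 : ∀ x : Cn, ∃ m : ℕ, ∀ y : Cn, y ∈ PiNat.cylinder x m → (y ∈ D ↔ x ∈ D) := by
    intro x
    have hop : ∀ U : Set Cn, IsOpen U → x ∈ U → ∃ m : ℕ, PiNat.cylinder x m ⊆ U := by
      intro U hU hx
      obtain ⟨v, ⟨z, m, rfl⟩, hxv, hvU⟩ :=
        (PiNat.isTopologicalBasis_cylinders (fun _ : ℕ => Bool)).exists_subset_of_mem_open hx hU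
      exact ⟨m, by rw [PiNat.mem_cylinder_iff_eq.1 hxv]; exact hvU⟩
    by_cases hx : x ∈ D
    · obtain ⟨m, hm⟩ := hop D hD.isOpen hx
      exact ⟨m, fun y hy => ⟨fun _ => hx, fun _ => hm hy⟩⟩
    · obtain ⟨m, hm⟩ := hop Dᶜ hD.compl.isOpen hx
      exact ⟨m, fun y hy => ⟨fun h => absurd h (hm hy), fun h => absurd h hx⟩⟩
  choose m hm using h1
  obtain ⟨t, ht⟩ := isCompact_univ.elim_finite_subcover (fun x : Cn => PiNat.cylinder x (m x))
    (fun x => PiNat.isOpen_cylinder _ x (m x))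
    (fun x _ => Set.mem_iUnion.2 ⟨x, PiNat.self_mem_cylinder x (m x)⟩)
  refine ⟨t.sup m, fun x y hxy => ?_⟩
  obtain ⟨z, hz, hxz⟩ := Set.mem_iUnion₂.1 (ht (Set.mem_univ x))
  have hmz : m z ≤ t.sup m := Finset.le_sup hz
  have hyz : y ∈ PiNat.cylinder z (m z) := by
    rw [PiNat.mem_cylinder_iff] at hxz ⊢
    intro i hi
    rw [← hxy i (lt_of_lt_of_le hi hmz)]
    exact hxz i hi
  exact (hm z x hxz).trans (hm z y hyz).symm

/-- The set of the pairs `(w, x)` such that `x` agrees with `gg b w` on a set in `Q`. -/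
def Rb (b : ℕ) (Q : Set Cn) : Set (W × (ℕ → ℕ)) :=
  {p | (fun i => decide (p.2 i = gg b p.1 i)) ∈ Q}

theorem sg_Rb (b : ℕ) {Q : Set Cn} {β : Ordinal.{0}} (hQ : SG (Clop Cn) β Q) :
    SG (RB (MD (cs {b}))) β (Rb b Q) := by
  refine SG.preimage (fun (p : W × (ℕ → ℕ)) (i : ℕ) => decide (p.2 i = gg b p.1 i)) ?_ hQ
  intro D hD
  refine SG.of_mem (isAlg_RB (isAlg_MD _)) ?_ le_rfl
  obtain ⟨m, hm⟩ := clopen_dep D hD
  refine ⟨m, fun s => {w | (fun i => decide (s[i]? = some (gg b w i))) ∈ D}, ?_, ?_⟩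
  · intro s
    refine ⟨?_, ?_⟩
    · have h1 : Measurable fun w : W => fun i : ℕ => decide (s[i]? = some (gg b w i)) := by
        rw [measurable_pi_iff]
        intro i
        have h2 : Measurable fun w : W => gg b w i := (measurable_pi_iff.1 (measurable_gg b)) i
        exact (measurable_from_top (f := fun k : ℕ => decide (s[i]? = some k))).comp h2
      exact h1 (IsClopen.isOpen hD).measurableSet
    · intro w w' hw
      have h1 : gg b w = gg b w' := dp_gg b w w' hw
      simp only [Set.mem_setOf_eq, h1]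
  · ext p
    have h1 : ∀ i < m, decide (p.2 i = gg b p.1 i) = decide ((seg p.2 m)[i]? = some (gg b p.1 i)) := by
      intro i hi
      have h2 : (seg p.2 m)[i]? = some (p.2 i) := by
        unfold seg
        rw [List.getElem?_map, List.getElem?_range hi]
        rfl
      rw [h2]
      simp only [Option.some.injEq]
    exact hm _ _ h1

theorem Rb_compl (b : ℕ) (Q : Set Cn) : (Rb b Q)ᶜ = Rb b Qᶜ := by
  rfl

theorem Rb_inv {𝓕 : Filter ℕ} (b : ℕ) {Q : Set Cn} (hQ : Good 𝓕 Q) (γ : Gp 𝓕) (w : W)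
    (x : ℕ → ℕ) : (tr γ.1 w, x) ∈ Rb b Q ↔ (w, x) ∈ Rb b Q := by
  have h1 : ∀ᶠ i in 𝓕, gg b (tr γ.1 w) i = gg b w i := by
    filter_upwards [γ.2 b] with i hi
    unfold gg
    refine Finset.sum_congr rfl fun l _ => ?_
    have h2 : tr γ.1 w (b, i, l) = w (b, i, l) := by
      unfold tr
      rw [hi l, Bool.false_xor]
    rw [h2]
  constructor
  · intro h
    refine hQ.inv _ _ ?_ h
    filter_upwards [h1] with i hi
    simp only [hi]
  · intro h
    refine hQ.inv _ _ ?_ h
    filter_upwards [h1] with i hi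
    simp only [hi]

theorem Rb_self {𝓕 : Filter ℕ} (b : ℕ) {Q : Set Cn} (hQ : Good 𝓕 Q) (w : W) :
    (w, gg b w) ∈ Rb b Q := by
  have h1 : (fun i => decide (gg b w i = gg b w i)) = fun _ : ℕ => true := by
    funext i
    exact decide_eq_true rfl
  show (fun i => decide (gg b w i = gg b w i)) ∈ Q
  rw [h1]
  exact hQ.top

theorem Rb_inf {𝓕 : Filter ℕ} (b : ℕ) {Q : Set Cn} (hQ : Good 𝓕 Q) (w : W) (x : ℕ → ℕ)
    (h : (w, x) ∈ Rb b Q) : {i | x i = gg b w i}.Infinite := by
  have h1 := hQ.inf _ h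
  have h2 : {i | decide (x i = gg b w i) = true} = {i | x i = gg b w i} := by
    ext i
    simp only [Set.mem_setOf_eq, decide_eq_true_eq]
  rw [← h2]
  exact h1

end Pool.Agent.LibBd83
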