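import Pool.Agent.LibBd83.M2
import Pool.Agent.LibBd83.M3

/-!
BD83 M3b. Borel-Cantelli: a function which is independent of the block `b` agrees with `gg b` only
finitely often.

Plan. For fixed `i` let `A i = {w | f w i = gg b w i}`, measurable. With `D = cs {b}` and `mp_mx D`,
`mu (A i) = (mu.prod mu) {p | f (mx D p.1 p.2) i = gg b (mx D p.1 p.2) i}`; here
`f (mx D w u) = f w` (`hd`, since `b ∉ F`) and `gg b (mx D w u) = gg b u` (`dp_gg`), so by
`Measure.prod_apply` it is `∫⁻ w, mu {u | f w i = gg b u i} ≤ (1/2)^i` (`mu_gg_le`).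
Then `measure_limsup_cofinite_eq_zero` or `measure_setOf_frequently_eq_zero` (Borel-Cantelli,
`∑' i, (1/2)^i ≠ ⊤`), and `{i | ..}.Infinite ↔ ∃ᶠ i in cofinite, ..` or `atTop`
(`Nat.frequently_atTop_iff_infinite`).
-/

namespace Pool.Agent.LibBd83

open MeasureTheory Set Filter

theorem bc (F : Set ℕ) (b : ℕ) (hb : b ∉ F) (f : W → ℕ → ℕ) (hf : Measurable f)
    (hd : Dp (cs F) f) : mu {w | {i | f w i = gg b w i}.Infinite} = 0 := by
  have hA : ∀ i, MeasurableSet {w | f w i = gg b w i} := by
    intro i
    exact measurableSet_eq_fun ((measurable_pi_apply i).comp hf) ((measurable_pi_apply i).comp (measurable_gg b))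
  have hle : ∀ i, mu {w | f w i = gg b w i} ≤ (1 / 2 : ENNReal) ^ i := by
    intro i
    rw [← (mp_mx (cs {b})).measure_preimage (hA i).nullMeasurableSet]
    have h1 : (fun p : W × W => mx (cs {b}) p.1 p.2) ⁻¹' {w | f w i = gg b w i} =
        {p : W × W | f p.1 i = gg b p.2 i} := by
      ext p
      have h2 : f (mx (cs {b}) p.1 p.2) = f p.1 := by
        apply hd
        intro c hc
        apply mx_of_notMem
        intro hcb
        apply hb
        have h3 : c.1 = b := hcb
        rw [← h3]
        exact hc
      have h4 : gg b (mx (cs {b}) p.1 p.2) = gg b p.2 := by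
        apply dp_gg
        intro c hc
        exact mx_of_mem hc _ _
      simp only [mem_preimage, mem_setOf_eq, h2, h4]
    rw [h1]
    have hm : MeasurableSet {p : W × W | f p.1 i = gg b p.2 i} :=
      measurableSet_eq_fun (((measurable_pi_apply i).comp hf).comp measurable_fst)
        (((measurable_pi_apply i).comp (measurable_gg b)).comp measurable_snd)
    rw [Measure.prod_apply hm]
    calc ∫⁻ w, mu (Prod.mk w ⁻¹' {p : W × W | f p.1 i = gg b p.2 i}) ∂mu
        ≤ ∫⁻ _, (1 / 2 : ENNReal) ^ i ∂mu := by
          apply lintegral_mono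
          intro w
          have h5 : Prod.mk w ⁻¹' {p : W × W | f p.1 i = gg b p.2 i} = {u | gg b u i = f w i} := by
            ext u
            simp only [mem_preimage, mem_setOf_eq]
            exact eq_comm
          show mu (Prod.mk w ⁻¹' {p : W × W | f p.1 i = gg b p.2 i}) ≤ (1 / 2 : ENNReal) ^ i
          rw [h5]
          exact mu_gg_le b i _
      _ = (1 / 2 : ENNReal) ^ i := by
          rw [lintegral_const, measure_univ, mul_one]
  have hsum : ∑' i, mu {w | f w i = gg b w i} ≠ ⊤ := by
    refine ne_top_of_le_ne_top ?_ (ENNReal.tsum_le_tsum hle)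
    rw [ENNReal.tsum_geometric]
    rw [Ne, ENNReal.inv_eq_top, tsub_eq_zero_iff_le]
    push Not
    norm_num
  have h := measure_setOf_frequently_eq_zero hsum
  refine le_antisymm ?_ zero_le'
  rw [← h]
  apply measure_mono
  intro w hw
  exact Nat.frequently_atTop_iff_infinite.2 hw

end Pool.Agent.LibBd83
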