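import Pool.Agent.LibBd83.N2
import Pool.Agent.LibBd83.G2
import Pool.Agent.LibBd83.M3b

/-!
BD83 G3b. The sequence of the sets `A_b` has no choice function.

Plan. Let `f` be a name, `c = X.vSeq f ⊓ ⨅ n, ⨅ y, (X.rl f (nat n) y ⇨ X.mem y (A n))`, `F` a finite
set with `X.Supp (fixS 𝓕 F) f`, and `b ∉ F`. Let `Y k l = ⨆ y, X.rl f (nat b) y ⊓ X.dig y k l`, fixed by
`fixS 𝓕 F` (reindex; `SM.rl_act`, `SM.dig_act`, `SM.supp_nat`); `h` from `exists_sf` for `Y`. Below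
`c ⊓ rl f (nat b) y`: `y` is real, `Y k l = dig y k l` (`SM.vSeq_uniq`, `SM.ext_dig`), so `realV Y`
(`SM.vReal_le`) and `eq y (nm h)` (`SM.vReal_le_eq`, `SM.rn_le_eq`), hence
`mem (nm h) (A b) = cl {w | (w, h w) ∈ Rb b Q}`, which is `⊥` by `Rb_inf` and `bc`
(`Dp (cs F) h.1`, `b ∉ F`). Since `c ≤ ⨆ y, rl f (nat b) y` (`SM.vSeq_ex`), `c = ⊥`.
-/

namespace Pool.Agent.LibBd83

open MeasureTheory Set Filter Pool.Agent.LibTk83 Pool.Agent.LibBc83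

variable {𝓕 : Filter ℕ} (h𝓕 : 𝓕 ≤ cofinite) (X : SM MB (Gp 𝓕) (famD 𝓕))

include h𝓕

omit h𝓕 in
private theorem G3b_equiv {d a b : MB} (h : d ≤ (a ⇨ b) ⊓ (b ⇨ a)) : d ⊓ a = d ⊓ b := by
  have h1 : d ⊓ a ≤ b := le_himp_iff.1 (h.trans inf_le_left)
  have h2 : d ⊓ b ≤ a := le_himp_iff.1 (h.trans inf_le_right)
  exact le_antisymm (le_inf inf_le_left h1) (le_inf inf_le_left h2)

omit h𝓕 in
private theorem G3b_equiv' {d a b : MB} (h : d ⊓ a = d ⊓ b) : d ≤ (a ⇨ b) ⊓ (b ⇨ a) := by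
  refine le_inf ?_ ?_
  · rw [le_himp_iff, h]
    exact inf_le_right
  · rw [le_himp_iff, ← h]
    exact inf_le_right

omit h𝓕 in
private theorem G3b_realV {d : MB} {x Y : ℕ → ℕ → MB} (h : ∀ n m, d ⊓ x n m = d ⊓ Y n m)
    (hx : d ≤ realV x) : d ≤ realV Y := by
  unfold realV at hx ⊢
  refine le_iInf fun n => ?_
  have hn := hx.trans (iInf_le _ n)
  refine le_inf ?_ (le_iInf fun m => le_iInf fun m' => le_iInf fun hmm => ?_)
  · calc d = d ⊓ ⨆ m, x n m := (inf_eq_left.2 (hn.trans inf_le_left)).symm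
      _ = ⨆ m, d ⊓ x n m := inf_iSup_eq _ _
      _ ≤ ⨆ m, Y n m := iSup_mono fun m => by
          rw [h]
          exact inf_le_right
  · have h1 : d ≤ (x n m ⊓ x n m')ᶜ :=
      hn.trans (inf_le_right.trans ((iInf_le _ m).trans ((iInf_le _ m').trans (iInf_le _ hmm))))
    rw [le_compl_iff_disjoint_right, disjoint_iff] at h1 ⊢
    rw [inf_inf_distrib_left, ← h, ← h, ← inf_inf_distrib_left]
    exact h1

theorem no_choice (Q : Set Cn) (hQ : Good 𝓕 Q) (A : ℕ → X.N)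
    (hA : ∀ b, ∀ f : SF, X.mem (nm X f) (A b) = cl {w | (w, f.1 w) ∈ Rb b Q})
    (hreal : ∀ b x, X.mem x (A b) ≤ X.vReal x) (f : X.N) :
    (X.vSeq f ⊓ ⨅ n, ⨅ y, (X.rl f (X.nat n) y ⇨ X.mem y (A n))) = ⊥ := by
  obtain ⟨S, ⟨F, hF, rfl⟩, hS⟩ := X.supp f
  obtain ⟨b, hb⟩ : ∃ b, b ∉ F := hF.exists_notMem
  obtain ⟨c, hc⟩ : ∃ c, c = X.vSeq f ⊓ ⨅ n, ⨅ y, (X.rl f (X.nat n) y ⇨ X.mem y (A n)) :=
    ⟨_, rfl⟩
  rw [← hc]
  have hc1 : c ≤ X.vSeq f := by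
    rw [hc]
    exact inf_le_left
  have hc2 : ∀ y, c ⊓ X.rl f (X.nat b) y ≤ X.mem y (A b) := by
    intro y
    rw [← le_himp_iff, hc]
    exact inf_le_right.trans ((iInf_le _ b).trans (iInf_le _ y))
  obtain ⟨Y, hY⟩ : ∃ Y : ℕ → ℕ → MB, ∀ k l, Y k l = ⨆ y, X.rl f (X.nat b) y ⊓ X.dig y k l :=
    ⟨_, fun _ _ => rfl⟩
  have hYi : ∀ γ ∈ fixS 𝓕 F, ∀ k l, γ • Y k l = Y k l := by
    intro γ hγ k l
    have h3 : (⨆ y, X.rl f (X.nat b) (X.act γ y) ⊓ X.dig (X.act γ y) k l) =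
        ⨆ y, X.rl f (X.nat b) y ⊓ X.dig y k l :=
      (SM.act_surj (X := X) γ).iSup_comp (fun y => X.rl f (X.nat b) y ⊓ X.dig y k l)
    rw [hY, ← h3, h3, smul_iSup', ← h3]
    refine iSup_congr fun y => ?_
    rw [smul_inf', ← X.dig_act, ← X.rl_act]
    have h1 := (X.ext_rl_mid (X.act γ f) (X.act γ y)).congr
      (X.supp_nat Set.univ b γ (Set.mem_univ γ))
    have h2 := (X.ext_rl_left (X.nat b) (X.act γ y)).congr (hS γ hγ)
    beta_reduce at h1 h2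
    rw [h1, h2]
  obtain ⟨h, hdp, hh⟩ := exists_sf h𝓕 hF Y hYi
  have h0 : cl {w | (w, h.1 w) ∈ Rb b Q} = ⊥ := by
    apply RO.ext
    intro p
    refine ⟨fun hp => ?_, fun hp => (RO.not_mem_bot hp).elim⟩
    obtain ⟨r, hr, s, hs, hrs⟩ := hp p le_rfl
    exfalso
    apply s.2.2
    refine measure_mono_null ?_ (measure_union_null hs (bc F b hb h.1 h.2.1 hdp))
    intro w hw
    by_cases hw' : (w, h.1 w) ∈ Rb b Q
    · exact Or.inr (Rb_inf b hQ w (h.1 w) hw')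
    · exact Or.inl ⟨hw, hw'⟩
  rw [eq_bot_iff]
  calc c = c ⊓ ⨆ y, X.rl f (X.nat b) y :=
        (inf_eq_left.2 (hc1.trans (SM.vSeq_ex (X := X) f b))).symm
    _ = ⨆ y, c ⊓ X.rl f (X.nat b) y := inf_iSup_eq _ _
    _ ≤ ⊥ := iSup_le fun y => ?_
  obtain ⟨d, hd⟩ : ∃ d, d = c ⊓ X.rl f (X.nat b) y := ⟨_, rfl⟩
  rw [← hd]
  have hdc : d ≤ c := by
    rw [hd]
    exact inf_le_left
  have hdr : d ≤ X.rl f (X.nat b) y := by
    rw [hd]
    exact inf_le_right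
  have hdm : d ≤ X.mem y (A b) := by
    rw [hd]
    exact hc2 y
  have hdv : d ≤ X.vReal y := hdm.trans (hreal b y)
  have hdY : ∀ k l, d ⊓ X.dig y k l = d ⊓ Y k l := by
    intro k l
    apply le_antisymm
    · refine le_inf inf_le_left ?_
      rw [hY]
      exact le_iSup_of_le y (inf_le_inf_right _ hdr)
    · refine le_inf inf_le_left ?_
      rw [hY, inf_iSup_eq]
      refine iSup_le fun y' => ?_
      refine le_trans ?_ (X.ext_dig k l y' y)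
      refine le_inf ?_ (inf_le_right.trans inf_le_right)
      refine le_trans ?_ (SM.vSeq_uniq (X := X) f y' y b)
      exact le_inf (le_inf (inf_le_left.trans (hdc.trans hc1)) (inf_le_right.trans inf_le_left))
        (inf_le_left.trans hdr)
  have hdV : d ≤ realV Y := G3b_realV hdY (hdv.trans (SM.vReal_le (X := X) y))
  have hdf : ∀ k l, d ⊓ X.dig y k l = d ⊓ fB h.1 k l := fun k l =>
    (hdY k l).trans (G3b_equiv (hdV.trans (hh k l)))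
  have hde : d ≤ X.eq (X.rn (X.dig y) (X.symF_dig y)) (nm X h) :=
    (le_iInf fun k => le_iInf fun l => G3b_equiv' (hdf k l)).trans
      (X.rn_le_eq (X.dig y) (fB h.1) (X.symF_dig y) (symF_sf h))
  have hde' : d ≤ X.eq y (nm X h) :=
    (le_inf (hdv.trans (SM.vReal_le_eq (X := X) y (X.symF_dig y))) hde).trans
      (X.eqax.trans _ _ _)
  rw [← h0, ← hA b h]
  exact (le_inf hde' hdm).trans (X.eqax.meml _ _ _)

end Pool.Agent.LibBd83
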