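import Pool.Agent.LibBd83.S3

/-!
BD83 S4. There are sets which are properly `Σ⁰_α`, for countable `α ≥ 1`.

Plan. Let `Z = Cn × Cn`. Show by strong induction on `α` (`Ordinal.induction` or
`WellFoundedLT.induction`) that there is a universal set `U : Set (Cn × Cn)` with
`SG (Clop (Cn × Cn)) α U`, such that each `A` with `SG (Clop Cn) α A` is `{x | (y, x) ∈ U}` for some `y`.
`α = 1`: the clopen subsets of `Cn` are countably many (`Cn` is compact with a countable basis of
clopen sets; or: each clopen set depends on finitely many coordinates), and nonempty, so there is an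
enumeration `C n`; `U = ⋃ n, {(y, x) | y n = true ∧ x ∈ C n}`, and for `A = ⋃ n, f n` take `y n = true`
iff `C n` is one of the `f m`. (Here `∅` is clopen, but the sets with `y n = false` just do not occur.)
`1 < α`: let `e : ℕ → Iio α` take each value infinitely often and have range all ordinals `γ` with
`1 ≤ γ < α` (countably many, nonempty): for a surjection `s` from `ℕ` put `e n = s n.unpair.1`.
Let `U γ` be universal for `γ`, and
`U = ⋃ n, {(y, x) | ((fun m => y (Nat.pair n m)), x) ∉ U (e n)}`, a union of complements of preimages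
under continuous maps (`SG.preimage`; the preimages of clopen sets are clopen). Let
`A = ⋃ k, (f k)ᶜ`, `SG (γ k) (f k)` (`1 ≤ γ k` by `SG.one_le`). Choose an injection `k ↦ n k` with
`e (n k) = γ k`: for `s a = γ k` take `n k = Nat.pair a k` (injective in `k`). For `n = n k` let `y (pair n ·)`
be a code of `f k` for `U (e n)`, for the other `n` a code of `univ` (`SG.of_mem`), whose complement
is empty. Finally `P = {x | (x, x) ∈ U}` (preimage under the diagonal); if `Pᶜ` were in the class,
`Pᶜ = {x | (y, x) ∈ U}` for some `y`, and `y ∈ Pᶜ ↔ (y, y) ∈ U ↔ y ∈ P`, a contradiction.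
-/

namespace Pool.Agent.LibBd83

open Set

/-- `U` is universal for the class of `α`. -/
private def S4_Un (α : Ordinal.{0}) (U : Set (Cn × Cn)) : Prop :=
  SG (Clop (Cn × Cn)) α U ∧ ∀ A : Set Cn, SG (Clop Cn) α A → ∃ y : Cn, {x | (y, x) ∈ U} = A

private theorem S4_pre {X Y : Type*} [TopologicalSpace X] [TopologicalSpace Y] {g : X → Y}
    (hg : Continuous g) {α : Ordinal.{0}} {D : Set Y} (hD : SG (Clop Y) α D) :
    SG (Clop X) α (g ⁻¹' D) := by
  refine SG.preimage g (fun E hE => ?_) hD
  exact SG.of_mem (isAlg_clop X) (IsClopen.preimage hE hg) le_rfl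

private theorem S4_one : ∃ U, S4_Un 1 U := by
  have hcount : Countable (TopologicalSpace.Clopens Cn) :=
    TopologicalSpace.Clopens.countable_iff_secondCountable.2 inferInstance
  obtain ⟨C, hC⟩ := exists_surjective_nat (TopologicalSpace.Clopens Cn)
  refine ⟨⋃ n, {p : Cn × Cn | p.1 n = true ∧ p.2 ∈ C n}, SG.base _ ?_, ?_⟩
  · intro n
    have h1 : IsClopen ((fun p : Cn × Cn => p.1 n) ⁻¹' {true}) :=
      IsClopen.preimage (isClopen_discrete _) (by fun_prop)
    have h2 : IsClopen ((fun p : Cn × Cn => p.2) ⁻¹' (C n : Set Cn)) :=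
      IsClopen.preimage (C n).isClopen (by fun_prop)
    exact h1.inter h2
  · intro A hA
    obtain ⟨f, hf, rfl⟩ := SG.one_iff.1 hA
    classical
    refine ⟨fun n => decide (∃ m, (C n : Set Cn) = f m), ?_⟩
    ext x
    simp only [mem_setOf_eq, mem_iUnion, decide_eq_true_eq]
    constructor
    · rintro ⟨n, ⟨m, hm⟩, hx⟩
      refine ⟨m, ?_⟩
      rw [← hm]
      exact hx
    · rintro ⟨m, hx⟩
      obtain ⟨n, hn⟩ := hC ⟨f m, hf m⟩
      have hn' : (C n : Set Cn) = f m := by rw [hn]; rfl
      refine ⟨n, ⟨m, hn'⟩, ?_⟩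
      show x ∈ (C n : Set Cn)
      rw [hn']
      exact hx

private theorem S4_univ (α : Ordinal.{0}) : 1 ≤ α → (Set.Iio α).Countable → ∃ U, S4_Un α U := by
  induction α using WellFoundedLT.induction with
  | ind α ih =>
    intro h1 hc
    rcases eq_or_lt_of_le h1 with h | h
    · rw [← h]
      exact S4_one
    · have hS : (Set.Ico (1 : Ordinal.{0}) α).Countable := hc.mono fun γ hγ => hγ.2
      have : Countable (Set.Ico (1 : Ordinal.{0}) α) := hS.to_subtype
      have : Nonempty (Set.Ico (1 : Ordinal.{0}) α) := ⟨⟨1, le_rfl, h⟩⟩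
      obtain ⟨s, hs⟩ := exists_surjective_nat (Set.Ico (1 : Ordinal.{0}) α)
      have hU : ∀ a : ℕ, ∃ U, S4_Un (s a : Ordinal.{0}) U := fun a =>
        ih (s a) (s a).2.2 (s a).2.1 (hc.mono (Set.Iio_subset_Iio (s a).2.2.le))
      choose U hU using hU
      have hcont : ∀ n : ℕ, Continuous (fun p : Cn × Cn =>
          (((fun m => p.1 (Nat.pair n m)), p.2) : Cn × Cn)) := fun n => by fun_prop
      refine ⟨⋃ n, ((fun p : Cn × Cn => (((fun m => p.1 (Nat.pair n m)), p.2) : Cn × Cn)) ⁻¹'
        (U n.unpair.1))ᶜ, SG.step α h _ (fun n => (s n.unpair.1 : Ordinal.{0}))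
          (fun n => (s n.unpair.1).2.2) (fun n => S4_pre (hcont n) (hU _).1), ?_⟩
      intro A hA
      obtain ⟨f, γ, hγ, hf, rfl⟩ := (SG.gt_iff h).1 hA
      classical
      have hcode : ∀ n : ℕ, ∃ c : Cn, {x | (c, x) ∈ U n.unpair.1} =
          if (s n.unpair.1 : Ordinal.{0}) = γ n.unpair.2 then f n.unpair.2 else univ := by
        intro n
        apply (hU n.unpair.1).2
        split_ifs with he
        · rw [he]
          exact hf _
        · exact SG.of_mem (isAlg_clop Cn) isClopen_univ (s n.unpair.1).2.1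
      choose c hcd using hcode
      refine ⟨fun N => c N.unpair.1 N.unpair.2, ?_⟩
      ext x
      simp only [mem_setOf_eq, mem_iUnion, mem_compl_iff, mem_preimage, Nat.unpair_pair]
      have hx : ∀ n : ℕ, (c n, x) ∈ U n.unpair.1 ↔
          x ∈ (if (s n.unpair.1 : Ordinal.{0}) = γ n.unpair.2 then f n.unpair.2 else univ) := by
        intro n
        rw [← hcd n]
        rfl
      constructor
      · rintro ⟨n, hn⟩
        have hn' : ¬ (c n, x) ∈ U n.unpair.1 := hn
        rw [hx n] at hn'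
        split_ifs at hn' with he
        · exact ⟨_, hn'⟩
        · exact absurd (mem_univ x) hn'
      · rintro ⟨k, hk⟩
        obtain ⟨a, ha⟩ := hs ⟨γ k, SG.one_le (hf k), hγ k⟩
        refine ⟨Nat.pair a k, ?_⟩
        show ¬ (c (Nat.pair a k), x) ∈ U (Nat.pair a k).unpair.1
        rw [hx (Nat.pair a k)]
        simp only [Nat.unpair_pair]
        rw [if_pos (by rw [ha])]
        exact hk

theorem exists_proper (α : Ordinal.{0}) (h1 : 1 ≤ α) (hc : (Set.Iio α).Countable) :
    ∃ P : Set Cn, SG (Clop Cn) α P ∧ ¬ SG (Clop Cn) α Pᶜ := by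
  obtain ⟨U, hU1, hU2⟩ := S4_univ α h1 hc
  have hd : Continuous (fun x : Cn => ((x, x) : Cn × Cn)) := by fun_prop
  refine ⟨(fun x : Cn => ((x, x) : Cn × Cn)) ⁻¹' U, S4_pre hd hU1, fun h => ?_⟩
  obtain ⟨y, hy⟩ := hU2 _ h
  have h2 : (y, y) ∈ U ↔ y ∈ ((fun x : Cn => ((x, x) : Cn × Cn)) ⁻¹' U)ᶜ := by
    rw [← hy]
    rfl
  have h3 : y ∈ ((fun x : Cn => ((x, x) : Cn × Cn)) ⁻¹' U)ᶜ ↔ ¬ (y, y) ∈ U := Iff.rfl
  rw [h3] at h2
  tauto

end Pool.Agent.LibBd83
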