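import Pool.Agent.LibBd83.T1

/-!
BD83 T2. Small members for `Σ⁰_α` and `Π⁰_α`.

Plan. `small_sig`: unfold `Small`. Let `B₀` be measurable, `DpS (cs F₀) B₀`, `cl B₀ = b` (`exists_dep`), `R`
from `Rep`, and `R' = R ∩ {p | p.1 ∈ B₀}` (`Rep.inter_set`); for all `f : SF`,
`cl {w | (w, f w) ∈ R'} = b ⊓ cl {w | (w, f w) ∈ R} = b ⊓ φ (nm X f)` (`cl_inter`). `R'` is measurable
(`SG.measurable`, `measurable_of_mem_RB`). Let `f : SF`, `Dp (cs F₁) f.1` with `F₁` finite, and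
`F' = F₁ \ F₀`; then `Dp (cs (F₀ ∪ F')) f.1`. `invR_of` gives `InvR 𝓕 F₀ F' R'`, and the hypothesis on
the functions depending on `F₀` gives, for all measurable `g` with `Dp (cs F₀) g`,
`cl {w | (w, g w) ∈ R'} = ⊥`, so `∀ᵐ w, (w, g w) ∉ R'` (`cl_eq_bot`, `⟨g, _⟩ : SF`). `core_sig` gives
`∀ᵐ w, (w, f w) ∉ R'`, so `b ⊓ φ (nm X f) = ⊥`.
`small_pi`: now `R` represents `(φ x)ᶜ`; `R' = Rᶜ ∩ {p | p.1 ∈ B₀}`; `R'ᶜ = R ∪ {p | p.1 ∈ B₀ᶜ}` is in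
`SG (RB MS) α` (`SG.union`, `SG.of_mem`; `{p | p.1 ∈ B₀ᶜ} ∈ RB MS` with `m = 0`). For all `f : SF`,
`cl {w | (w, f w) ∈ R'} = b ⊓ (cl {w | (w, f w) ∈ R})ᶜ = b ⊓ (b ⊓ cl {..})ᶜ = b ⊓ (b ⊓ (φ (nm X f))ᶜ)ᶜ =
b ⊓ φ (nm X f)`. Then `core_pi`.
-/

namespace Pool.Agent.LibBd83

open MeasureTheory Set Filter Pool.Agent.LibTk83 Pool.Agent.LibBc83

private theorem T2_bool {B : Type*} [BooleanAlgebra B] (b x : B) : b ⊓ (b ⊓ x)ᶜ = b ⊓ xᶜ := by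
  rw [compl_inf, inf_sup_left, inf_compl_self, bot_sup_eq]

private theorem T2_meas {β : Ordinal.{0}} {R : Set (W × (ℕ → ℕ))} (hR : SG (RB MS) β R) :
    MeasurableSet R := SG.measurable (fun _ hD => measurable_of_mem_RB hD) hR

private theorem T2_ae {A : Set W} (hA : MeasurableSet A) : cl A = ⊥ ↔ ∀ᵐ w ∂mu, w ∉ A := by
  rw [cl_eq_bot hA, measure_eq_zero_iff_ae_notMem]

private theorem T2_dp {F₀ F₁ : Set ℕ} {f : W → ℕ → ℕ} (h : Dp (cs F₁) f) :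
    Dp (cs (F₀ ∪ F₁ \ F₀)) f := by
  intro w w' hw
  refine h w w' fun c hc => hw c ?_
  change c.1 ∈ F₀ ∪ F₁ \ F₀
  rw [union_diff_self]
  exact Or.inr hc

theorem small_sig {𝓕 : Filter ℕ} (h𝓕 : 𝓕 ≤ cofinite) {α : Ordinal.{0}} {P : Set Cn}
    (hP : LimRep 𝓕 P) (hn : ¬ SG (Clop Cn) α P) : Small 𝓕 true α := by
  intro X F₀ hF₀ φ hφ hi b hb hRep hsm f
  obtain ⟨R, hR, hRep⟩ := hRep
  obtain ⟨B₀, hB₀m, hB₀d, hB₀⟩ := exists_dep h𝓕 F₀ b hb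
  have hR' : SG (RB MS) α (R ∩ {p | p.1 ∈ B₀}) := Rep.inter_set hB₀m hR
  have hcl : ∀ f : SF, cl {w | (w, f.1 w) ∈ R ∩ {p | p.1 ∈ B₀}} = b ⊓ φ (nm X f) := by
    intro f
    have h1 : {w | (w, f.1 w) ∈ R ∩ {p | p.1 ∈ B₀}} = {w | (w, f.1 w) ∈ R} ∩ B₀ := rfl
    rw [h1, cl_inter (meas_R hR f.1 f.2.1) hB₀m, hB₀, inf_comm, ← hRep f]
    rfl
  obtain ⟨F₁, hF₁, hf⟩ := f.2.2
  have hI : InvR 𝓕 F₀ (F₁ \ F₀) (R ∩ {p | p.1 ∈ B₀}) :=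
    invR_of X hF₀ hF₁.diff (fun i hi => hi.2) φ hφ hi b hb _ (T2_meas hR') hcl
  have h0 : ∀ f : W → ℕ → ℕ, Measurable f → Dp (cs F₀) f →
      ∀ᵐ w ∂mu, (w, f w) ∉ R ∩ {p | p.1 ∈ B₀} := by
    intro g hg hgd
    have h2 := (hcl ⟨g, hg, F₀, hF₀, hgd⟩).trans (hsm ⟨g, hg, F₀, hF₀, hgd⟩ hgd)
    exact (T2_ae (meas_R hR' g hg)).1 h2
  have h3 := core_sig hP hn hR' hI h0 f.1 f.2.1 (T2_dp hf)
  rw [← hcl]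
  exact (T2_ae (meas_R hR' f.1 f.2.1)).2 h3

theorem small_pi {𝓕 : Filter ℕ} (h𝓕 : 𝓕 ≤ cofinite) {α : Ordinal.{0}} {P : Set Cn}
    (hP : LimRep 𝓕 P) (hn : ¬ SG (Clop Cn) α Pᶜ) : Small 𝓕 false α := by
  intro X F₀ hF₀ φ hφ hi b hb hRep hsm f
  obtain ⟨R, hR, hRep⟩ := hRep
  obtain ⟨B₀, hB₀m, hB₀d, hB₀⟩ := exists_dep h𝓕 F₀ b hb
  have alg : IsAlg (RB MS) := isAlg_RB isAlg_MS
  have hR' : SG (RB MS) α (Rᶜ ∩ {p | p.1 ∈ B₀})ᶜ := by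
    rw [compl_inter, compl_compl]
    refine SG.union alg hR (SG.of_mem alg ?_ hR.one_le)
    exact ⟨0, fun _ => B₀ᶜ, fun _ => hB₀m.compl, rfl⟩
  have hR'm : MeasurableSet (Rᶜ ∩ {p : W × (ℕ → ℕ) | p.1 ∈ B₀}) := by
    rw [← compl_compl (Rᶜ ∩ {p : W × (ℕ → ℕ) | p.1 ∈ B₀})]
    exact (T2_meas hR').compl
  have hsec : ∀ f : W → ℕ → ℕ, Measurable f →
      MeasurableSet {w | (w, f w) ∈ Rᶜ ∩ {p | p.1 ∈ B₀}} := fun f hf =>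
    (measurable_id.prodMk hf) hR'm
  have hcl : ∀ f : SF, cl {w | (w, f.1 w) ∈ Rᶜ ∩ {p | p.1 ∈ B₀}} = b ⊓ φ (nm X f) := by
    intro f
    have h1 : {w | (w, f.1 w) ∈ Rᶜ ∩ {p | p.1 ∈ B₀}} = {w | (w, f.1 w) ∈ R}ᶜ ∩ B₀ := rfl
    have h2 : b ⊓ (φ (nm X f))ᶜ = b ⊓ cl {w | (w, f.1 w) ∈ R} := hRep f
    have hm := meas_R hR f.1 f.2.1
    rw [h1, cl_inter hm.compl hB₀m, hB₀, cl_compl hm, inf_comm, ← T2_bool, ← h2, T2_bool,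
      compl_compl]
  obtain ⟨F₁, hF₁, hf⟩ := f.2.2
  have hI : InvR 𝓕 F₀ (F₁ \ F₀) (Rᶜ ∩ {p | p.1 ∈ B₀}) :=
    invR_of X hF₀ hF₁.diff (fun i hi => hi.2) φ hφ hi b hb _ hR'm hcl
  have h0 : ∀ f : W → ℕ → ℕ, Measurable f → Dp (cs F₀) f →
      ∀ᵐ w ∂mu, (w, f w) ∉ Rᶜ ∩ {p | p.1 ∈ B₀} := by
    intro g hg hgd
    have h2 := (hcl ⟨g, hg, F₀, hF₀, hgd⟩).trans (hsm ⟨g, hg, F₀, hF₀, hgd⟩ hgd)
    exact (T2_ae (hsec g hg)).1 h2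
  have h3 := core_pi hP hn hR' hI h0 f.1 f.2.1 (T2_dp hf)
  rw [← hcl]
  exact (T2_ae (hsec f.1 f.2.1)).2 h3

end Pool.Agent.LibBd83
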