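import Pool.Agent.LibBd83.Z4

/-!
BD83 Z5. The truth value of the statement of choice for a class of finite order.

Unfold `Fm'.acF` (`Z0.lean`): the value is `⨅ t, vSeq t ⇨ (nonempty terms) ⇨ (terms in the class) ⇨
⨆ f, choice t f`, with `SM.val_seq`, `val_tms` (for `V A = ⨆ x, mem x A` and for `V = vC X s k`, with
`val_clF`; `Ext.iSup`, `Ext.mem_right`, `ext_vC`), `val_choice`. `val_acF_top`: for each `t`, below
`vSeq t`: `(⨅ n, ⨆ A, rl t n A ⊓ ⨆ x, mem x A) ⊓ (⨅ n, ⨆ A, rl t n A ⊓ vC A) ≤ ⨅ n, hypV X (vC X s k) t n`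
(the two `A` are equal by `SM.vSeq_uniq`). `val_acF_bot`: the infimum over `t` is at most the value at
the given `t`, for which the three hypotheses have the value `⊤` and the supremum over `f` is `⊥`
(`chV t f` with `inh t n y = mem y (A n)`, from `ht`).
-/

namespace Pool.Agent.LibBd83

open Pool.Agent.LibBc83

variable {B : Type} [CompleteBooleanAlgebra B] {G : Type} [Group G] [MulAction G B]
  [OrdAct G B] {Fam : Set (Set G)} (X : SM B G Fam)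

private theorem Z5_val (s : Bool) (k : ℕ) (v : ℕ → X.N) (w : ℕ) (hw : v w = X.om) :
    X.val (Fm'.acF s k w) v = ⨅ t, X.vSeq t ⇨ (X.val (Fm'.tms Fm'.nem (w+1) 0) (cons t v) ⇨
      (X.val (Fm'.tms (Fm'.clF s k) (w+1) 0) (cons t v) ⇨
        ⨆ f, X.val (.choice (w+2) 1 0) (cons f (cons t v)))) := by
  have h1 : ∀ t : X.N, ev X.mem X.eq (.seq (w+1) 0) (cons t v) = X.vSeq t :=
    fun t => SM.val_seq (cons t v) (w+1) 0 hw
  unfold Fm'.acF SM.val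
  simp only [ev_all, ev_imp, ev_ex, h1]

omit [OrdAct G B] in
private theorem Z5_nem (u : ℕ → X.N) (w' z : ℕ) :
    X.val (Fm'.nem w' z) u = ⨆ x, X.mem x (u z) := by
  unfold Fm'.nem SM.val
  simp only [ev_ex, ev_mem, cons_zero, cons_succ]

private theorem Z5_ne (v : ℕ → X.N) (w : ℕ) (hw : v w = X.om) (t : X.N) :
    X.vSeq t ⊓ X.val (Fm'.tms Fm'.nem (w+1) 0) (cons t v) =
      X.vSeq t ⊓ ⨅ n : ℕ, ⨆ A, X.rl t (X.nat n) A ⊓ ⨆ x, X.mem x A :=
  val_tms X Fm'.nem (fun A => ⨆ x, X.mem x A) (SM.Ext.iSup fun x => SM.Ext.mem_right x)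
    (cons t v) (w+1) 0 hw fun u w' z _ => Z5_nem X u w' z

private theorem Z5_cl (s : Bool) (k : ℕ) (hk : 1 ≤ k) (v : ℕ → X.N) (w : ℕ) (hw : v w = X.om)
    (t : X.N) :
    X.vSeq t ⊓ X.val (Fm'.tms (Fm'.clF s k) (w+1) 0) (cons t v) =
      X.vSeq t ⊓ ⨅ n : ℕ, ⨆ A, X.rl t (X.nat n) A ⊓ vC X s k A :=
  val_tms X (Fm'.clF s k) (vC X s k) (ext_vC X s k)
    (cons t v) (w+1) 0 hw fun u w' z hu => val_clF X s k hk u w' z hu

private theorem Z5_ch (v : ℕ → X.N) (w : ℕ) (hw : v w = X.om) (t f : X.N) :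
    X.vSeq t ⊓ X.val (.choice (w+2) 1 0) (cons f (cons t v)) = X.vSeq t ⊓ chV X t f :=
  val_choice X (cons f (cons t v)) (w+2) 1 0 hw

private theorem Z5_hyp (V : X.N → B) (hV : X.Ext V) (t : X.N) (n : ℕ) :
    X.vSeq t ⊓ (⨆ A, X.rl t (X.nat n) A ⊓ ⨆ x, X.mem x A) ⊓
      (⨆ A, X.rl t (X.nat n) A ⊓ V A) ≤ hypV X V t n := by
  rw [inf_iSup_eq]
  refine iSup_le fun C => ?_
  rw [inf_iSup_eq, iSup_inf_eq]
  refine iSup_le fun A => ?_
  unfold hypV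
  refine le_iSup_of_le A ?_
  have h1 : X.vSeq t ⊓ (X.rl t (X.nat n) A ⊓ ⨆ x, X.mem x A) ⊓ (X.rl t (X.nat n) C ⊓ V C) ≤
      X.eq C A :=
    le_trans (le_inf (le_inf (inf_le_left.trans inf_le_left) (inf_le_right.trans inf_le_left))
      (inf_le_left.trans (inf_le_right.trans inf_le_left))) (SM.vSeq_uniq t C A n)
  refine le_inf (inf_le_left.trans (inf_le_right.trans inf_le_left)) (le_inf ?_ ?_)
  · exact inf_le_left.trans (inf_le_right.trans inf_le_right)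
  · exact (le_inf h1 (inf_le_right.trans inf_le_right)).trans (hV C A)

theorem val_acF_top (s : Bool) (k : ℕ) (hk : 1 ≤ k) (v : ℕ → X.N) (w : ℕ) (hw : v w = X.om)
    (h : ∀ t : X.N, ∃ f : X.N, X.vSeq t ⊓ (⨅ n, hypV X (vC X s k) t n) ≤ chV X t f) :
    X.val (Fm'.acF s k w) v = ⊤ := by
  rw [Z5_val X s k v w hw, eq_top_iff]
  refine le_iInf fun t => ?_
  rw [le_himp_iff, le_himp_iff, le_himp_iff, top_inf_eq]
  obtain ⟨f, hf⟩ := h t
  have h1 := Z5_ne X v w hw t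
  have h2 := Z5_cl X s k hk v w hw t
  have h3 := Z5_ch X v w hw t f
  have e1 : X.vSeq t ⊓ X.val (Fm'.tms Fm'.nem (w+1) 0) (cons t v) ⊓
      X.val (Fm'.tms (Fm'.clF s k) (w+1) 0) (cons t v) ≤
      ⨅ n : ℕ, ⨆ A, X.rl t (X.nat n) A ⊓ ⨆ x, X.mem x A :=
    inf_le_left.trans (h1.le.trans inf_le_right)
  have e2 : X.vSeq t ⊓ X.val (Fm'.tms Fm'.nem (w+1) 0) (cons t v) ⊓
      X.val (Fm'.tms (Fm'.clF s k) (w+1) 0) (cons t v) ≤
      ⨅ n : ℕ, ⨆ A, X.rl t (X.nat n) A ⊓ vC X s k A :=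
    (inf_le_inf_right _ inf_le_left).trans (h2.le.trans inf_le_right)
  have e3 : X.vSeq t ⊓ X.val (Fm'.tms Fm'.nem (w+1) 0) (cons t v) ⊓
      X.val (Fm'.tms (Fm'.clF s k) (w+1) 0) (cons t v) ≤ X.vSeq t :=
    inf_le_left.trans inf_le_left
  have e4 : X.vSeq t ⊓ X.val (Fm'.tms Fm'.nem (w+1) 0) (cons t v) ⊓
      X.val (Fm'.tms (Fm'.clF s k) (w+1) 0) (cons t v) ≤ ⨅ n, hypV X (vC X s k) t n := by
    refine le_iInf fun n => ?_
    refine le_trans ?_ (Z5_hyp X (vC X s k) (ext_vC X s k) t n)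
    exact le_inf (le_inf e3 (e1.trans (iInf_le _ n))) (e2.trans (iInf_le _ n))
  refine le_iSup_of_le f ?_
  exact (le_inf e3 ((le_inf e3 e4).trans hf)).trans (h3.ge.trans inf_le_right)

theorem val_acF_bot (s : Bool) (k : ℕ) (hk : 1 ≤ k) (v : ℕ → X.N) (w : ℕ) (hw : v w = X.om)
    (t : X.N) (A : ℕ → X.N) (ht : ∀ n y, X.rl t (X.nat n) y = X.eq y (A n))
    (ht' : X.vSeq t = ⊤) (hc : ∀ n, vC X s k (A n) = ⊤) (hne : ∀ n, (⨆ x, X.mem x (A n)) = ⊤)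
    (hno : ∀ f : X.N, (X.vSeq f ⊓ ⨅ n, ⨅ y, (X.rl f (X.nat n) y ⇨ X.mem y (A n))) = ⊥) :
    X.val (Fm'.acF s k w) v = ⊥ := by
  rw [Z5_val X s k v w hw, eq_bot_iff]
  refine (iInf_le _ t).trans ?_
  have h1 := Z5_ne X v w hw t
  have h2 := Z5_cl X s k hk v w hw t
  have h3 := fun f => Z5_ch X v w hw t f
  rw [ht', top_inf_eq, top_inf_eq] at h1 h2
  simp only [ht', top_inf_eq] at h3
  have r : ∀ n, X.rl t (X.nat n) (A n) = ⊤ := fun n => by rw [ht]; exact X.eqax.refl _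
  have g1 : (⨅ n : ℕ, ⨆ A, X.rl t (X.nat n) A ⊓ ⨆ x, X.mem x A) = ⊤ := by
    rw [eq_top_iff]
    refine le_iInf fun n => le_iSup_of_le (A n) ?_
    rw [r, hne, top_inf_eq]
  have g2 : (⨅ n : ℕ, ⨆ A, X.rl t (X.nat n) A ⊓ vC X s k A) = ⊤ := by
    rw [eq_top_iff]
    refine le_iInf fun n => le_iSup_of_le (A n) ?_
    rw [r, hc, top_inf_eq]
  have hi : ∀ n y, X.inh t n y = X.mem y (A n) := by
    intro n y
    unfold SM.inh
    refine le_antisymm (iSup_le fun U => ?_) ?_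
    · rw [ht]
      exact (SM.Ext.mem_right (X := X) y) U (A n)
    · refine le_iSup_of_le (A n) ?_
      rw [r, top_inf_eq]
  have g3 : (⨆ f, X.val (.choice (w+2) 1 0) (cons f (cons t v))) = ⊥ := by
    rw [eq_bot_iff]
    refine iSup_le fun f => ?_
    rw [h3 f]
    unfold chV
    simp only [hi]
    exact (hno f).le
  rw [h1, g1, h2, g2, g3, ht', top_himp, top_himp, top_himp]

end Pool.Agent.LibBd83
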