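import Pool.Agent.LibBd83.Z4

/-!
BD83 Z6. The truth value of the statement of choice for sequences uniformly in a class.

Plan. As `Z5` (`val_acF_top`, `val_acF_bot`), with `Fm'.unif`: its value is
`(terms in the class) ⊓ ⨆ a, (hat t a ⊓ vS k a)` (`val_sigF`), and `vS X k a = ⨆ g, ..` by `vS_gt`
(`1 < k`). `val_acuF_top`: the terms in the class consist of reals (`vS_real`), so below
`vSeq t ⊓ (terms in the class)` one has `vRT X t`, and `val_hat` applies. `val_acuF_bot`: the witness is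
`a` (`vRT X t = ⊤` because `inh t n x = mem x (A n)` and `vS_real`).
-/

namespace Pool.Agent.LibBd83

open Pool.Agent.LibBc83

variable {B : Type} [CompleteBooleanAlgebra B] {G : Type} [Group G] [MulAction G B]
  [OrdAct G B] {Fam : Set (Set G)} (X : SM B G Fam)

omit [OrdAct G B] in
private theorem Z6_unfold (k : ℕ) (v : ℕ → X.N) (w : ℕ) :
    X.val (Fm'.acuF k w) v = ⨅ t, X.val (.seq (w+1) 0) (cons t v) ⇨
      (X.val (Fm'.tms Fm'.nem (w+1) 0) (cons t v) ⇨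
        (X.val (Fm'.tms (Fm'.sigF k) (w+1) 0) (cons t v) ⊓
          (⨆ a, X.val (Fm'.hat (w+2) 1 0) (cons a (cons t v)) ⊓
            X.val (Fm'.sigF k (w+2) 0) (cons a (cons t v))) ⇨
          ⨆ f, X.val (.choice (w+2) 1 0) (cons f (cons t v)))) := by
  simp only [SM.val, Fm'.acuF, Fm'.unif, ev_all, ev_imp, ev_ex, ev_and]

omit [OrdAct G B] in
private theorem Z6_ext_ne : X.Ext (fun A => ⨆ x, X.mem x A) :=
  SM.Ext.iSup fun x => SM.Ext.mem_right x

private theorem Z6_seq (v : ℕ → X.N) (w : ℕ) (hw : v w = X.om) (t : X.N) :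
    X.val (.seq (w+1) 0) (cons t v) = X.vSeq t :=
  SM.val_seq (cons t v) (w+1) 0 hw

private theorem Z6_nem (v : ℕ → X.N) (w : ℕ) (hw : v w = X.om) (t : X.N) :
    X.vSeq t ⊓ X.val (Fm'.tms Fm'.nem (w+1) 0) (cons t v) =
      X.vSeq t ⊓ ⨅ n : ℕ, ⨆ A, X.rl t (X.nat n) A ⊓ ⨆ x, X.mem x A :=
  val_tms X Fm'.nem (fun A => ⨆ x, X.mem x A) (Z6_ext_ne X) (cons t v) (w+1) 0 hw
    fun u w' z _ => by
      simp only [SM.val, Fm'.nem, ev_ex, ev_mem]
      rfl

private theorem Z6_sig (k : ℕ) (hk : 1 ≤ k) (v : ℕ → X.N) (w : ℕ) (hw : v w = X.om) (t : X.N) :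
    X.vSeq t ⊓ X.val (Fm'.tms (Fm'.sigF k) (w+1) 0) (cons t v) =
      X.vSeq t ⊓ ⨅ n : ℕ, ⨆ A, X.rl t (X.nat n) A ⊓ vS X k A :=
  val_tms X (Fm'.sigF k) (vS X k) (ext_vS X k) (cons t v) (w+1) 0 hw
    fun u w' z hu => val_sigF X k hk u w' z hu

private theorem Z6_tr (V : X.N → B) (hV : X.Ext V) (t A A' : X.N) (n : ℕ) :
    X.vSeq t ⊓ X.rl t (X.nat n) A ⊓ X.rl t (X.nat n) A' ⊓ V A ≤ V A' :=
  (inf_le_inf_right _ (SM.vSeq_uniq t A A' n)).trans (hV A A')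

private theorem Z6_real (k : Ordinal.{0}) (t x : X.N) (n : ℕ) :
    (X.vSeq t ⊓ ⨆ A, X.rl t (X.nat n) A ⊓ vS X k A) ⊓ X.inh t n x ≤ X.vReal x := by
  unfold SM.inh
  rw [inf_iSup_eq]
  refine iSup_le fun U => ?_
  rw [inf_iSup_eq, iSup_inf_eq]
  refine iSup_le fun A => ?_
  refine le_trans (le_inf ?_ ?_) (vS_real X k U x)
  · refine le_trans ?_ (Z6_tr X (vS X k) (ext_vS X k) t A U n)
    refine le_inf (le_inf (le_inf ?_ ?_) ?_) ?_
    · exact inf_le_left.trans inf_le_left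
    · exact inf_le_left.trans (inf_le_right.trans inf_le_left)
    · exact inf_le_right.trans inf_le_left
    · exact inf_le_left.trans (inf_le_right.trans inf_le_right)
  · exact inf_le_right.trans inf_le_right

private theorem Z6_hyp (k : Ordinal.{0}) (t : X.N) (n : ℕ) :
    (X.vSeq t ⊓ ⨆ A, X.rl t (X.nat n) A ⊓ ⨆ x, X.mem x A) ⊓
      (⨆ A, X.rl t (X.nat n) A ⊓ vS X k A) ≤ hypV X (vC X true k) t n := by
  unfold hypV
  rw [inf_iSup_eq]
  refine iSup_le fun U => ?_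
  refine le_iSup_of_le U ?_
  rw [inf_iSup_eq, iSup_inf_eq]
  refine iSup_le fun A => ?_
  refine le_inf (inf_le_right.trans inf_le_left) (le_inf ?_ ?_)
  · refine le_trans ?_ (Z6_tr X (fun A => ⨆ x, X.mem x A) (Z6_ext_ne X) t A U n)
    refine le_inf (le_inf (le_inf ?_ ?_) ?_) ?_
    · exact inf_le_left.trans inf_le_left
    · exact inf_le_left.trans (inf_le_right.trans inf_le_left)
    · exact inf_le_right.trans inf_le_left
    · exact inf_le_left.trans (inf_le_right.trans inf_le_right)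
  · exact inf_le_right.trans inf_le_right

theorem val_acuF_top (k : ℕ) (hk : 1 < k) (v : ℕ → X.N) (w : ℕ) (hw : v w = X.om)
    (h : ∀ t a g : X.N, ∃ f : X.N, X.vSeq t ⊓ (⨅ n, hypV X (vC X true k) t n) ⊓ vHat X t a ⊓
      (X.vSeq g ⊓ (vTm X k g ⊓ X.vUn a g)) ≤ chV X t f) :
    X.val (Fm'.acuF k w) v = ⊤ := by
  rw [Z6_unfold, eq_top_iff]
  refine le_iInf fun t => ?_
  rw [le_himp_iff, le_himp_iff, le_himp_iff, top_inf_eq, Z6_seq X v w hw t]
  have hN := Z6_nem X v w hw t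
  have hC := Z6_sig X k hk.le v w hw t
  rw [inf_iSup_eq, inf_iSup_eq]
  refine iSup_le fun a => ?_
  have hS : X.val (Fm'.sigF k (w+2) 0) (cons a (cons t v)) =
      ⨆ g, X.vSeq g ⊓ (vTm X k g ⊓ X.vUn a g) :=
    (val_sigF X k hk.le (cons a (cons t v)) (w+2) 0 hw).trans
      (vS_gt X (by exact_mod_cast hk) a)
  rw [hS, inf_iSup_eq, inf_iSup_eq, inf_iSup_eq]
  refine iSup_le fun g => ?_
  obtain ⟨f, hf⟩ := h t a g
  have hch : X.vSeq t ⊓ X.val (.choice (w+2) 1 0) (cons f (cons t v)) =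
      X.vSeq t ⊓ chV X t f := val_choice X (cons f (cons t v)) (w+2) 1 0 hw
  have hH : vRT X t ⊓ X.val (Fm'.hat (w+2) 1 0) (cons a (cons t v)) =
      vRT X t ⊓ vHat X t a := val_hat X (cons a (cons t v)) (w+2) 1 0 hw
  refine le_iSup_of_le f ?_
  generalize X.val (Fm'.tms Fm'.nem (w+1) 0) (cons t v) = N at hN ⊢
  generalize X.val (Fm'.tms (Fm'.sigF k) (w+1) 0) (cons t v) = C at hC ⊢
  generalize X.val (Fm'.hat (w+2) 1 0) (cons a (cons t v)) = H at hH ⊢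
  generalize X.val (.choice (w+2) 1 0) (cons f (cons t v)) = D at hch ⊢
  obtain ⟨L, hL⟩ : ∃ L : B, L = X.vSeq t ⊓ N ⊓
      (C ⊓ (H ⊓ (X.vSeq g ⊓ (vTm X k g ⊓ X.vUn a g)))) := ⟨_, rfl⟩
  rw [← hL]
  have l1 : L ≤ X.vSeq t := hL.le.trans (inf_le_left.trans inf_le_left)
  have l2 : L ≤ N := hL.le.trans (inf_le_left.trans inf_le_right)
  have l3 : L ≤ C := hL.le.trans (inf_le_right.trans inf_le_left)
  have l4 : L ≤ H := hL.le.trans (inf_le_right.trans (inf_le_right.trans inf_le_left))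
  have l5 : L ≤ X.vSeq g ⊓ (vTm X k g ⊓ X.vUn a g) :=
    hL.le.trans (inf_le_right.trans (inf_le_right.trans inf_le_right))
  have m2 : ∀ n : ℕ, L ≤ ⨆ A, X.rl t (X.nat n) A ⊓ ⨆ x, X.mem x A := fun n =>
    (le_inf l1 l2).trans (hN.le.trans (inf_le_right.trans (iInf_le _ n)))
  have m3 : ∀ n : ℕ, L ≤ ⨆ A, X.rl t (X.nat n) A ⊓ vS X k A := fun n =>
    (le_inf l1 l3).trans (hC.le.trans (inf_le_right.trans (iInf_le _ n)))
  have m4 : L ≤ vRT X t := by
    refine le_iInf fun n => le_iInf fun x => ?_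
    rw [le_himp_iff]
    exact (inf_le_inf_right _ (le_inf l1 (m3 n))).trans (Z6_real X k t x n)
  have m5 : L ≤ vHat X t a := (le_inf m4 l4).trans (hH.le.trans inf_le_right)
  have m6 : L ≤ ⨅ n, hypV X (vC X true k) t n :=
    le_iInf fun n => (le_inf (le_inf l1 (m2 n)) (m3 n)).trans (Z6_hyp X k t n)
  have m7 : L ≤ X.vSeq t ⊓ chV X t f :=
    le_inf l1 ((le_inf (le_inf (le_inf l1 m6) m5) l5).trans hf)
  exact (m7.trans hch.ge).trans inf_le_right

theorem val_acuF_bot (k : ℕ) (hk : 1 ≤ k) (v : ℕ → X.N) (w : ℕ) (hw : v w = X.om)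
    (t a : X.N) (A : ℕ → X.N) (ht : ∀ n y, X.rl t (X.nat n) y = X.eq y (A n))
    (ht' : X.vSeq t = ⊤) (hc : ∀ n, vC X true k (A n) = ⊤)
    (hne : ∀ n, (⨆ x, X.mem x (A n)) = ⊤) (ha : vHat X t a = ⊤) (ha' : vS X k a = ⊤)
    (hno : ∀ f : X.N, (X.vSeq f ⊓ ⨅ n, ⨅ y, (X.rl f (X.nat n) y ⇨ X.mem y (A n))) = ⊥) :
    X.val (Fm'.acuF k w) v = ⊥ := by
  have hcS : ∀ n, vS X k (A n) = ⊤ := fun n => hc n
  have hA : ∀ n, X.rl t (X.nat n) (A n) = ⊤ := fun n => by rw [ht, X.eqax.refl]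
  have hN := Z6_nem X v w hw t
  have hC := Z6_sig X k hk v w hw t
  rw [ht', top_inf_eq, top_inf_eq] at hN hC
  have hN' : X.val (Fm'.tms Fm'.nem (w+1) 0) (cons t v) = ⊤ := by
    rw [hN, eq_top_iff]
    refine le_iInf fun n => le_iSup_of_le (A n) ?_
    rw [hA, hne, top_inf_eq]
  have hC' : X.val (Fm'.tms (Fm'.sigF k) (w+1) 0) (cons t v) = ⊤ := by
    rw [hC, eq_top_iff]
    refine le_iInf fun n => le_iSup_of_le (A n) ?_
    rw [hA, hcS, top_inf_eq]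
  have hinh : ∀ n x, X.inh t n x ≤ X.mem x (A n) := by
    intro n x
    unfold SM.inh
    refine iSup_le fun U => ?_
    rw [ht]
    exact X.eqax.memr x U (A n)
  have hRT : vRT X t = ⊤ := by
    rw [eq_top_iff]
    refine le_iInf fun n => le_iInf fun x => ?_
    rw [le_himp_iff, top_inf_eq]
    have h1 := vS_real X k (A n) x
    rw [hcS, top_inf_eq] at h1
    exact (hinh n x).trans h1
  have hH : vRT X t ⊓ X.val (Fm'.hat (w+2) 1 0) (cons a (cons t v)) =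
      vRT X t ⊓ vHat X t a := val_hat X (cons a (cons t v)) (w+2) 1 0 hw
  rw [hRT, top_inf_eq, top_inf_eq, ha] at hH
  have hS : X.val (Fm'.sigF k (w+2) 0) (cons a (cons t v)) = ⊤ :=
    (val_sigF X k hk (cons a (cons t v)) (w+2) 0 hw).trans ha'
  have hex : (⨆ a, X.val (Fm'.hat (w+2) 1 0) (cons a (cons t v)) ⊓
      X.val (Fm'.sigF k (w+2) 0) (cons a (cons t v))) = ⊤ := by
    rw [eq_top_iff]
    refine le_iSup_of_le a ?_
    rw [hH, hS, top_inf_eq]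
  rw [Z6_unfold, eq_bot_iff]
  refine (iInf_le _ t).trans ?_
  rw [Z6_seq X v w hw t, ht', hN', hC', hex, top_inf_eq, top_himp, top_himp, top_himp]
  refine iSup_le fun f => ?_
  have hch : X.vSeq t ⊓ X.val (.choice (w+2) 1 0) (cons f (cons t v)) =
      X.vSeq t ⊓ chV X t f := val_choice X (cons f (cons t v)) (w+2) 1 0 hw
  rw [ht', top_inf_eq, top_inf_eq] at hch
  rw [hch, ← hno f]
  refine inf_le_inf_left _ (iInf_mono fun n => iInf_mono fun y => ?_)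
  exact himp_le_himp_left (hinh n y)

end Pool.Agent.LibBd83
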