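import Pool.Agent.LibBd83.G4
import Pool.Agent.LibBd83.G3b
import Pool.Agent.LibBd83.T2
import Pool.Agent.LibBd83.Z5
import Pool.Agent.LibBd83.Z6
import Pool.Agent.LibBd83.F3
import Pool.Agent.LibBd83.S4

/-!
The facts on the Boolean-valued models which are used in the two cases of finite and of infinite
ordinals.
-/

namespace Pool.Agent.LibBd83

open MeasureTheory Set Filter Pool.Agent.LibTk83 Pool.Agent.LibBc83

theorem LimRep.compl {𝓕 : Filter ℕ} {P : Set Cn} (h : LimRep 𝓕 P) : LimRep 𝓕 Pᶜ := by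
  obtain ⟨C, hC, h1, h2⟩ := h
  refine ⟨fun i => (C i)ᶜ, fun i => (hC i).compl, fun z hz => ?_, fun z hz => ?_⟩
  · exact h2 z hz
  · filter_upwards [h1 z (not_not.1 hz)] with i hi hi'
    exact hi' hi

/-- The filter along which all sets of the class `α` are limits of clopen sets gives small members
for all classes up to `α`. -/
theorem small_of {𝓕 : Filter ℕ} (h𝓕 : 𝓕 ≤ cofinite) {α : Ordinal.{0}}
    (hc : (Set.Iio α).Countable) (h : ∀ P, SG (Clop Cn) α P → LimRep 𝓕 P) (s : Bool)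
    {γ : Ordinal.{0}} (h1 : 1 ≤ γ) (hγ : γ ≤ α) : Small 𝓕 s γ := by
  obtain ⟨P, hP, hP'⟩ := exists_proper γ h1 (hc.mono (Iio_subset_Iio hγ))
  have hl := h P (hP.mono (isAlg_clop Cn) hγ)
  cases s with
  | true => exact small_sig h𝓕 hl.compl hP'
  | false => exact small_pi h𝓕 hl hP'

variable {𝓕 : Filter ℕ} (h𝓕 : 𝓕 ≤ cofinite) (X : SM MB (Gp 𝓕) (famD 𝓕))

/-- A sequence of functions with a common support gives a choice function. -/
theorem exists_ch {F : Set ℕ} (hF : F.Finite) (t : X.N) (b : MB)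
    (h : ∀ n, ∃ f : SF, Dp (cs F) f.1 ∧ b ≤ X.inh t n (nm X f)) : ∃ f : X.N, b ≤ chV X t f := by
  choose f hf hb using h
  obtain ⟨g, -, hg, hg'⟩ := X.exists_seqN (fun n => nm X (f n)) (fixS_mem hF)
    fun n => supp_nm X (f n) (hf n)
  refine ⟨g, le_inf (hg ▸ le_top) (le_iInf fun n => le_iInf fun y => ?_)⟩
  rw [le_himp_iff, hg', inf_comm]
  have h1 := SM.ext_inh (X := X) t n (nm X (f n)) y
  rw [X.eqax.symm]
  exact (inf_le_inf_left _ (hb n)).trans h1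

include h𝓕 in
theorem ac_pos (s : Bool) {α : Ordinal.{0}} (h1 : 1 ≤ α) (hs : Small 𝓕 s α) (t : X.N) :
    ∃ f : X.N, X.vSeq t ⊓ (⨅ n, hypV X (vC X s α) t n) ≤ chV X t f := by
  obtain ⟨F, hF, h⟩ := exists_choice h𝓕 X (ι := Unit) (fun _ => s) (fun _ => α) (fun _ => h1)
    (fun _ => hs) t
  refine exists_ch X hF t _ fun n => ?_
  obtain ⟨f, hf, hb⟩ := h n
  refine ⟨f, hf, le_trans (inf_le_inf_left _ (iInf_le _ n)) ?_⟩
  have : (fun A => ⨆ _ : Unit, vC X s α A) = vC X s α := by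
    funext A
    exact iSup_const
  rwa [this] at hb

include h𝓕 in
theorem acu_pos {β : Ordinal.{0}} (hs : ∀ γ, 1 ≤ γ → γ < β → Small 𝓕 false γ) (t a g : X.N) :
    ∃ f : X.N, X.vSeq t ⊓ (⨅ n, hypV X (vC X true β) t n) ⊓ vHat X t a ⊓
      (X.vSeq g ⊓ (vTm X β g ⊓ X.vUn a g)) ≤ chV X t f := by
  obtain ⟨F, hF, h⟩ := exists_choiceU h𝓕 X hs t a g
  exact exists_ch X hF t _ h

/-- The data of a sequence without choice function. -/
structure Fail (s : Bool) (β : Ordinal.{0}) (t : X.N) (A : ℕ → X.N) : Prop where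
  rl : ∀ n y, X.rl t (X.nat n) y = X.eq y (A n)
  seq : X.vSeq t = ⊤
  cls : ∀ n, vC X s β (A n) = ⊤
  ne : ∀ n, (⨆ x, X.mem x (A n)) = ⊤
  no : ∀ f : X.N, (X.vSeq f ⊓ ⨅ n, ⨅ y, (X.rl f (X.nat n) y ⇨ X.mem y (A n))) = ⊥

/-- `Π⁰_β ⊆ Σ⁰_β'` for `β < β'`. -/
theorem vS_of_vP {β β' : Ordinal.{0}} (h : β < β') (h1 : 1 < β') {A : X.N} (hA : vP X β A = ⊤)
    (hr : ∀ x, X.mem x A ≤ X.vReal x) : vS X β' A = ⊤ := by
  obtain ⟨S, hS, hA'⟩ := X.supp A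
  obtain ⟨g, -, hg, hg'⟩ := X.exists_seqN (fun _ => A) hS fun _ => hA'
  rw [vS_gt X h1, eq_top_iff]
  refine le_iSup_of_le g ?_
  rw [hg, vTm_top X β' g (fun _ => A) hg' (fun _ => β) (fun _ => h) (fun _ => hA)
    (fun _ => ext_vP X β), vUn_top X A g (fun _ => A) hg' (fun x => (iSup_const).symm)]
  simp

include h𝓕 in
theorem ac_neg (s : Bool) (β : Ordinal.{0}) (Q : Set Cn) (hQ : Good 𝓕 Q)
    (hs : SG (Clop Cn) β (if s then Q else Qᶜ)) :
    ∃ (t : X.N) (A : ℕ → X.N), Fail X s β t A := by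
  choose A h1 h2 h3 h4 h5 using exists_Ab h𝓕 X s β Q hQ hs
  obtain ⟨t, -, ht, ht'⟩ := X.exists_seqN A (fixS_mem finite_empty) h1
  exact ⟨t, A, ⟨ht', ht, h2, h4, no_choice h𝓕 X Q hQ A h5 h3⟩⟩

include h𝓕 in
/-- The uniform case. -/
theorem acu_neg (β : Ordinal.{0}) (Q : Set Cn) (hQ : Good 𝓕 Q) (hs : SG (Clop Cn) β Qᶜ) :
    ∃ (t a : X.N) (A : ℕ → X.N), Fail X true (β + 1) t A ∧ vHat X t a = ⊤ ∧
      vS X (β + 1) a = ⊤ := by
  choose A h1 h2 h3 h4 h5 using exists_Ab h𝓕 X false β Q hQ (by simpa using hs)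
  obtain ⟨t, -, ht, ht'⟩ := X.exists_seqN A (fixS_mem finite_empty) h1
  obtain ⟨a, ha, ha'⟩ := exists_hat h𝓕 X β Q hQ hs A h5 h3 t ht'
  have hb : β < β + 1 := lt_add_one β
  have hb1 : 1 < β + 1 := lt_of_le_of_lt hs.one_le hb
  refine ⟨t, a, A, ⟨ht', ht, fun n => ?_, h4, no_choice h𝓕 X Q hQ A h5 h3⟩, ha', ha⟩
  have h2n : vP X β (A n) = ⊤ := h2 n
  exact vS_of_vP X hb hb1 h2n (h3 n)

end Pool.Agent.LibBd83
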