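import Pool.Agent.LibBd83.M1
import Pool.Agent.LibTk83.RO
import Pool.Agent.LibBc83.SM

/-!
The measure algebra, as the algebra of regular open sets of conditions (measurable sets of positive
measure), and the group of translations which acts on it.
-/

namespace Pool.Agent.LibBd83

open MeasureTheory Set Filter Pool.Agent.LibTk83 Pool.Agent.LibBc83

/-- The conditions: the measurable sets of positive measure. -/
def Pc : Type := {A : Set W // MeasurableSet A ∧ mu A ≠ 0}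

instance : Preorder Pc where
  le A A' := mu (A.1 \ A'.1) = 0
  le_refl A := by simp
  le_trans A A' A'' h h' := by
    refine measure_mono_null (fun w hw => ?_) (measure_union_null h h')
    by_cases hw' : w ∈ A'.1
    · exact Or.inr ⟨hw', hw.2⟩
    · exact Or.inl ⟨hw.1, hw'⟩

theorem Pc.le_def (p q : Pc) : p ≤ q ↔ mu (p.1 \ q.1) = 0 := Iff.rfl

/-- The measure algebra. -/
abbrev MB : Type := RO Pc

/-- The element of the measure algebra given by the measurable set `A`. -/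
def cl (A : Set W) : MB := RO.gen {p | mu (p.1 \ A) = 0}

/-- The group: the translations by `γ` where for each block `b` and almost all `i` (with respect to
`𝓕`) all bits `γ (b, i, l)` are `false`. -/
def Gp (𝓕 : Filter ℕ) : Type := {γ : W // ∀ b, ∀ᶠ i in 𝓕, ∀ l, γ (b, i, l) = false}

variable {𝓕 : Filter ℕ}

instance : Mul (Gp 𝓕) where
  mul γ δ := ⟨tr γ.1 δ.1, fun b => by
    filter_upwards [γ.2 b, δ.2 b] with i h h' l
    simp [tr, h l, h' l]⟩

instance : One (Gp 𝓕) where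
  one := ⟨fun _ => false, fun _ => Eventually.of_forall fun _ _ => rfl⟩

instance : Inv (Gp 𝓕) where
  inv γ := γ

theorem Gp.mul_val (γ δ : Gp 𝓕) : (γ * δ).1 = tr γ.1 δ.1 := rfl
theorem Gp.one_val : (1 : Gp 𝓕).1 = fun _ => false := rfl
theorem Gp.inv_val (γ : Gp 𝓕) : (γ⁻¹).1 = γ.1 := rfl

instance : CommGroup (Gp 𝓕) where
  mul_assoc γ δ ε := Subtype.ext (tr_assoc _ _ _).symm
  one_mul γ := Subtype.ext (funext fun c => by simp [Gp.mul_val, Gp.one_val, tr])
  mul_one γ := Subtype.ext (funext fun c => by simp [Gp.mul_val, Gp.one_val, tr])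
  inv_mul_cancel γ := Subtype.ext (funext fun c => by
    simp [Gp.mul_val, Gp.one_val, Gp.inv_val, tr])
  mul_comm γ δ := Subtype.ext (tr_comm _ _)

theorem mu_tr (γ : W) {A : Set W} (hA : MeasurableSet A) : mu (tr γ ⁻¹' A) = mu A :=
  (mp_tr γ).measure_preimage hA.nullMeasurableSet

instance : MulAction (Gp 𝓕) Pc where
  smul γ p := ⟨tr γ.1 ⁻¹' p.1, measurable_tr γ.1 p.2.1, by
    rw [mu_tr γ.1 p.2.1]
    exact p.2.2⟩
  one_smul p := Subtype.ext (by
    change tr _ ⁻¹' p.1 = p.1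
    have : tr (1 : Gp 𝓕).1 = id := funext fun w => funext fun c => by simp [Gp.one_val, tr]
    rw [this]
    rfl)
  mul_smul γ δ p := Subtype.ext (by
    change tr (γ * δ).1 ⁻¹' p.1 = tr γ.1 ⁻¹' (tr δ.1 ⁻¹' p.1)
    ext w
    simp only [mem_preimage]
    rw [Gp.mul_val, tr_assoc, tr_comm δ.1 γ.1])

theorem smul_val (γ : Gp 𝓕) (p : Pc) : (γ • p).1 = tr γ.1 ⁻¹' p.1 := rfl

theorem pc_smul_le (γ : Gp 𝓕) {p q : Pc} (h : p ≤ q) : γ • p ≤ γ • q := by
  rw [Pc.le_def, smul_val, smul_val, ← preimage_diff, mu_tr γ.1 (p.2.1.diff q.2.1)]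
  exact h

instance : MulAction (Gp 𝓕) MB where
  smul g b :=
    { carrier := {p | g⁻¹ • p ∈ b}
      lower := fun _ _ h hp => RO.mem_of_le (pc_smul_le g⁻¹ h) hp
      reg := by
        intro p hp
        refine RO.mem_of_dense fun q hq => ?_
        have h1 := pc_smul_le g hq
        rw [smul_inv_smul] at h1
        obtain ⟨r, hr, hr'⟩ := hp (g • q) h1
        refine ⟨g⁻¹ • r, ?_, hr'⟩
        have h2 := pc_smul_le g⁻¹ hr
        rwa [inv_smul_smul] at h2 }
  one_smul b := by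
    apply RO.ext
    intro p
    change (1 : Gp 𝓕)⁻¹ • p ∈ b ↔ p ∈ b
    rw [inv_one, one_smul]
  mul_smul g h b := by
    apply RO.ext
    intro p
    change (g * h)⁻¹ • p ∈ b ↔ h⁻¹ • g⁻¹ • p ∈ b
    rw [mul_inv_rev, mul_smul]

theorem mem_smul_iff (g : Gp 𝓕) (b : MB) (p : Pc) : p ∈ g • b ↔ g⁻¹ • p ∈ b := Iff.rfl

instance : OrdAct (Gp 𝓕) MB where
  mono := fun _ _ _ h _ hp => h hp

/-- The elements of the group which do not change the blocks in `F`. -/
def fixS (𝓕 : Filter ℕ) (F : Set ℕ) : Set (Gp 𝓕) := {γ | ∀ c : Jx, c.1 ∈ F → γ.1 c = false}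

/-- The supports: finite sets of blocks. -/
def famD (𝓕 : Filter ℕ) : Set (Set (Gp 𝓕)) := {S | ∃ F : Set ℕ, F.Finite ∧ S = fixS 𝓕 F}

theorem fixS_mem {F : Set ℕ} (hF : F.Finite) : fixS 𝓕 F ∈ famD 𝓕 := ⟨F, hF, rfl⟩

theorem fixS_anti {F F' : Set ℕ} (h : F ⊆ F') : fixS 𝓕 F' ⊆ fixS 𝓕 F :=
  fun _ hγ c hc => hγ c (h hc)

theorem isFam : IsFam (famD 𝓕) where
  ne := ⟨_, fixS_mem finite_empty⟩
  inv := by
    rintro _ ⟨F, -, rfl⟩ γ hγ
    exact hγ
  dir := by
    rintro _ ⟨F, hF, rfl⟩ _ ⟨F', hF', rfl⟩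
    exact ⟨_, fixS_mem (hF.union hF'),
      fun γ hγ => ⟨fixS_anti subset_union_left hγ, fixS_anti subset_union_right hγ⟩⟩
  conj := by
    rintro _ ⟨F, hF, rfl⟩ g
    refine ⟨_, fixS_mem hF, fun h hh => ?_⟩
    rwa [mul_comm, ← mul_assoc, mul_inv_cancel, one_mul]

/-- The symmetric real functions. -/
def SF : Type := {f : W → ℕ → ℕ // Measurable f ∧ ∃ F : Set ℕ, F.Finite ∧ Dp (cs F) f}

end Pool.Agent.LibBd83
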