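import Pool.Agent.LibBd83.B0

/-!
BD83 B1. The map `cl` from the measurable sets onto the measure algebra.

`MB = RO Pc` is the algebra of the regular open sets of conditions (`Pool/Agent/LibTk83/RO.lean`:
`RO.mem_inf`, `RO.mem_iInf`, `RO.mem_iSup`, `RO.mem_sup`, `RO.mem_compl`, `RO.le_def`,
`RO.not_mem_bot`, ...). A condition is a measurable set `p.1` with `p.2 : MeasurableSet p.1 ∧
mu p.1 ≠ 0`, and `q ≤ p` means `mu (q.1 \ p.1) = 0`.
Plan. `mem_cl`: `cl A = RO.gen {p | mu (p.1 \ A) = 0}`; if `mu (p.1 \ A) ≠ 0` then `q = p.1 \ A` is a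
condition `≤ p`, and below it there is no `r` with `mu (r.1 \ A) = 0` (`r.1` would be null).
`cl_le`: if `mu (A \ A') ≠ 0` it is a condition in `cl A` and not in `cl A'`. `cl_compl`: `p` is in
`(cl A)ᶜ` iff no `q ≤ p` is in `cl A`; if `mu (p.1 ∩ A) ≠ 0` then `p.1 ∩ A` is such a `q`. `cl_iUnion`:
`≤`: if `p ∈ cl (⋃ f n)` and `q ≤ p` then `mu (q.1 ∩ f n) ≠ 0` for some `n` and this set is a condition;
`≥`: `cl_le`. `cl_iInter`: by complements. `cl_eq_bot`: if `mu A ≠ 0` then `A` is a condition in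
`cl A`.
-/

namespace Pool.Agent.LibBd83

open MeasureTheory Set Filter Pool.Agent.LibTk83 Pool.Agent.LibBc83

variable {A A' : Set W}

theorem mem_cl (hA : MeasurableSet A) (p : Pc) : p ∈ cl A ↔ mu (p.1 \ A) = 0 := by
  constructor
  · intro h
    by_contra hne
    let q : Pc := ⟨p.1 \ A, p.2.1.diff hA, hne⟩
    have hq : q ≤ p := by
      rw [Pc.le_def]
      change mu ((p.1 \ A) \ p.1) = 0
      rw [sdiff_sdiff_comm, sdiff_self, empty_sdiff, measure_empty]
    obtain ⟨r, hr, s, hs, hrs⟩ := h q hq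
    have hs' : mu (s.1 \ A) = 0 := hs
    refine r.2.2 (measure_mono_null (fun w hw => ?_)
      (measure_union_null ((Pc.le_def _ _).1 hr) (measure_union_null ((Pc.le_def _ _).1 hrs) hs')))
    by_cases h1 : w ∈ q.1
    · by_cases h2 : w ∈ s.1
      · exact Or.inr (Or.inr ⟨h2, h1.2⟩)
      · exact Or.inr (Or.inl ⟨hw, h2⟩)
    · exact Or.inl ⟨hw, h1⟩
  · intro h q hq
    exact ⟨q, le_rfl, p, h, hq⟩

theorem cl_le (hA : MeasurableSet A) (hA' : MeasurableSet A') :
    cl A ≤ cl A' ↔ mu (A \ A') = 0 := by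
  constructor
  · intro h
    by_contra hne
    let q : Pc := ⟨A \ A', hA.diff hA', hne⟩
    have h1 : q ∈ cl A := by
      rw [mem_cl hA]
      change mu ((A \ A') \ A) = 0
      rw [sdiff_sdiff_comm, sdiff_self, empty_sdiff, measure_empty]
    have h2 := h h1
    rw [mem_cl hA'] at h2
    change mu ((A \ A') \ A') = 0 at h2
    rw [sdiff_idem] at h2
    exact hne h2
  · intro h p hp
    rw [mem_cl hA] at hp
    rw [mem_cl hA']
    refine measure_mono_null (fun w hw => ?_) (measure_union_null hp h)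
    by_cases h1 : w ∈ A
    · exact Or.inr ⟨h1, hw.2⟩
    · exact Or.inl ⟨hw.1, h1⟩

theorem cl_mono (hA : MeasurableSet A) (hA' : MeasurableSet A') (h : A ⊆ A') : cl A ≤ cl A' := by
  exact (cl_le hA hA').2 (by rw [sdiff_eq_empty.2 h, measure_empty])

private theorem B1_cl_eq_iff (hA : MeasurableSet A) (hA' : MeasurableSet A') :
    cl A = cl A' ↔ ∀ᵐ w ∂mu, (w ∈ A ↔ w ∈ A') := by
  rw [le_antisymm_iff, cl_le hA hA', cl_le hA' hA, ae_iff, ← measure_union_null_iff]
  have h1 : (A \ A') ∪ (A' \ A) = {w | ¬ (w ∈ A ↔ w ∈ A')} := by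
    ext w
    simp only [mem_union, Set.mem_sdiff, mem_ofPred_eq]
    tauto
  rw [h1]

theorem cl_congr (hA : MeasurableSet A) (hA' : MeasurableSet A')
    (h : ∀ᵐ w ∂mu, (w ∈ A ↔ w ∈ A')) : cl A = cl A' := by
  exact (B1_cl_eq_iff hA hA').2 h

theorem cl_eq_iff (hA : MeasurableSet A) (hA' : MeasurableSet A') :
    cl A = cl A' ↔ ∀ᵐ w ∂mu, (w ∈ A ↔ w ∈ A') := by
  exact B1_cl_eq_iff hA hA'

theorem cl_univ : cl univ = ⊤ := by
  apply RO.ext
  intro p
  rw [mem_cl MeasurableSet.univ, sdiff_univ, measure_empty]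
  exact ⟨fun _ => RO.mem_top, fun _ => rfl⟩

theorem cl_empty : cl ∅ = ⊥ := by
  apply RO.ext
  intro p
  rw [mem_cl MeasurableSet.empty, sdiff_empty]
  exact ⟨fun h => absurd h p.2.2, fun h => absurd h RO.not_mem_bot⟩

theorem cl_eq_bot (hA : MeasurableSet A) : cl A = ⊥ ↔ mu A = 0 := by
  rw [← le_bot_iff, ← cl_empty, cl_le hA MeasurableSet.empty, sdiff_empty]

theorem cl_compl (hA : MeasurableSet A) : cl Aᶜ = (cl A)ᶜ := by
  apply RO.ext
  intro p
  rw [mem_cl hA.compl, RO.mem_compl]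
  constructor
  · intro h q hq hqA
    rw [mem_cl hA] at hqA
    refine q.2.2 (measure_mono_null (fun w hw => ?_)
      (measure_union_null ((Pc.le_def _ _).1 hq) (measure_union_null h hqA)))
    by_cases h1 : w ∈ p.1
    · by_cases h2 : w ∈ A
      · exact Or.inr (Or.inl ⟨h1, fun h3 => h3 h2⟩)
      · exact Or.inr (Or.inr ⟨hw, h2⟩)
    · exact Or.inl ⟨hw, h1⟩
  · intro h
    by_contra hne
    let q : Pc := ⟨p.1 \ Aᶜ, p.2.1.diff hA.compl, hne⟩
    have hq : q ≤ p := by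
      rw [Pc.le_def]
      change mu ((p.1 \ Aᶜ) \ p.1) = 0
      rw [sdiff_sdiff_comm, sdiff_self, empty_sdiff, measure_empty]
    refine h q hq ?_
    rw [mem_cl hA]
    change mu ((p.1 \ Aᶜ) \ A) = 0
    have h1 : (p.1 \ Aᶜ) \ A = ∅ := by
      rw [sdiff_compl, sdiff_eq_empty]
      exact inter_subset_right
    rw [h1, measure_empty]

theorem cl_inter (hA : MeasurableSet A) (hA' : MeasurableSet A') :
    cl (A ∩ A') = cl A ⊓ cl A' := by
  apply RO.ext
  intro p
  rw [mem_cl (hA.inter hA'), RO.mem_inf, mem_cl hA, mem_cl hA', sdiff_inter,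
    measure_union_null_iff]

theorem cl_union (hA : MeasurableSet A) (hA' : MeasurableSet A') :
    cl (A ∪ A') = cl A ⊔ cl A' := by
  have h1 : A ∪ A' = (Aᶜ ∩ A'ᶜ)ᶜ := by rw [compl_inter, compl_compl, compl_compl]
  rw [h1, cl_compl (hA.compl.inter hA'.compl), cl_inter hA.compl hA'.compl, cl_compl hA,
    cl_compl hA', compl_inf, compl_compl, compl_compl]

private theorem B1_iInter {ι : Type*} [Countable ι] (f : ι → Set W)
    (hf : ∀ i, MeasurableSet (f i)) : cl (⋂ i, f i) = ⨅ i, cl (f i) := by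
  apply RO.ext
  intro p
  rw [mem_cl (MeasurableSet.iInter hf), RO.mem_iInf, sdiff_iInter, measure_iUnion_null_iff]
  exact forall_congr' fun i => (mem_cl (hf i) p).symm

theorem cl_iUnion {ι : Type*} [Countable ι] (f : ι → Set W) (hf : ∀ i, MeasurableSet (f i)) :
    cl (⋃ i, f i) = ⨆ i, cl (f i) := by
  have h1 : (⋃ i, f i) = (⋂ i, (f i)ᶜ)ᶜ := by rw [compl_iInter]; simp only [compl_compl]
  rw [h1, cl_compl (MeasurableSet.iInter fun i => (hf i).compl), B1_iInter _ fun i => (hf i).compl,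
    compl_iInf]
  refine iSup_congr fun i => ?_
  rw [cl_compl (hf i), compl_compl]

theorem cl_iInter {ι : Type*} [Countable ι] (f : ι → Set W) (hf : ∀ i, MeasurableSet (f i)) :
    cl (⋂ i, f i) = ⨅ i, cl (f i) := by
  exact B1_iInter f hf

theorem smul_cl {𝓕 : Filter ℕ} (γ : Gp 𝓕) (hA : MeasurableSet A) :
    γ • cl A = cl (tr γ.1 ⁻¹' A) := by
  apply RO.ext
  intro p
  rw [mem_smul_iff, mem_cl hA, mem_cl (measurable_tr γ.1 hA), smul_val, Gp.inv_val]
  have h1 : ∀ w : W, tr γ.1 (tr γ.1 w) = w := by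
    intro w
    funext c
    simp [tr]
  have h2 : tr γ.1 ⁻¹' ((tr γ.1 ⁻¹' p.1) \ A) = p.1 \ (tr γ.1 ⁻¹' A) := by
    ext w
    simp only [mem_preimage, Set.mem_sdiff, h1]
  rw [← h2, mu_tr γ.1 ((measurable_tr γ.1 p.2.1).diff hA)]

end Pool.Agent.LibBd83
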