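import Pool.Agent.LibBd83.B1

/-!
BD83 B2. Every element of the measure algebra is `cl A` for a measurable set `A`, and every
supremum is the supremum of a countable subfamily.

Plan. Main lemma (for any family `b : ι → MB`): there is a countable set of pairs `(i, p)`,
`p ∈ b i`, such that every condition `q` in `⨆ i, b i` meets one of the `p.1` in positive measure. Take
the class of the measurable sets which are countable unions of sets `p.1` with `p ∈ b i` for some `i`;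
it is closed under countable unions, so it has a member `A` of largest measure (`sSup` of the
measures, a sequence tending to it, and the union), say `A = ⋃ n, (p n).1`, `p n ∈ b (i n)`. For each
`i` and `q ∈ b i`, `mu (q.1 \ A) = 0`, by maximality of `A` applied to `A ∪ q.1`. Hence
`⨆ i, b i ≤ cl A` (`mem_cl`), and `cl A ≤ ⨆ n, b (i n)` (if `q ≤ A` mod null then `mu (q.1 ∩ (p n).1) ≠ 0` for
some `n`; this set is a condition `≤ p n`, so it is in `b (i n)`). This gives `exists_countable_sup` with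
`s = range i` (if no `b i` has a member, `A = ∅`, `s = ∅`). `exists_cl`: apply this with
`ι = Unit`, `b = fun _ => b`: `b ≤ cl A ≤ b`.
-/

namespace Pool.Agent.LibBd83

open MeasureTheory Set Filter Pool.Agent.LibTk83 Pool.Agent.LibBc83

private def B2_U {ι : Type*} (T : Set (ι × Pc)) : Set W := ⋃ t ∈ T, t.2.1

private theorem B2_meas {ι : Type*} {T : Set (ι × Pc)} (hT : T.Countable) : MeasurableSet (B2_U T) :=
  MeasurableSet.biUnion hT fun t _ => t.2.2.1

private theorem B2_max {ι : Type*} (b : ι → MB) : ∃ T : Set (ι × Pc), T.Countable ∧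
    (∀ t ∈ T, t.2 ∈ b t.1) ∧ ∀ i, ∀ q ∈ b i, mu (q.1 \ B2_U T) = 0 := by
  set 𝒯 : Set (Set (ι × Pc)) := {T | T.Countable ∧ ∀ t ∈ T, t.2 ∈ b t.1} with h𝒯
  set S : Set ENNReal := (fun T => mu (B2_U T)) '' 𝒯 with hS
  have hne : S.Nonempty := ⟨_, ∅, ⟨countable_empty, fun _ h => absurd h (notMem_empty _)⟩, rfl⟩
  obtain ⟨u, -, hu, huS⟩ := exists_seq_tendsto_sSup hne (OrderTop.bddAbove S)
  choose T hT hTu using huS
  set U : Set (ι × Pc) := ⋃ n, T n with hU
  have hU𝒯 : U ∈ 𝒯 := by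
    refine ⟨countable_iUnion fun n => (hT n).1, fun t ht => ?_⟩
    obtain ⟨n, hn⟩ := mem_iUnion.1 ht
    exact (hT n).2 t hn
  have hle : ∀ n, u n ≤ mu (B2_U U) := by
    intro n
    rw [← hTu n]
    apply measure_mono
    intro w hw
    obtain ⟨t, ht, hw⟩ := mem_iUnion₂.1 hw
    exact mem_iUnion₂.2 ⟨t, mem_iUnion.2 ⟨n, ht⟩, hw⟩
  have hsup : sSup S ≤ mu (B2_U U) := le_of_tendsto' hu hle
  refine ⟨U, hU𝒯.1, hU𝒯.2, fun i q hq => ?_⟩
  have h1 : insert (i, q) U ∈ 𝒯 := by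
    refine ⟨hU𝒯.1.insert _, fun t ht => ?_⟩
    rcases ht with rfl | ht
    · exact hq
    · exact hU𝒯.2 t ht
  have h2 : mu (B2_U (insert (i, q) U)) ≤ mu (B2_U U) := by
    have h0 : mu (B2_U (insert (i, q) U)) ∈ S := ⟨_, h1, rfl⟩
    exact (le_sSup h0).trans hsup
  have h3 : B2_U (insert (i, q) U) = B2_U U ∪ (q.1 \ B2_U U) := by
    unfold B2_U
    rw [biUnion_insert, union_comm, union_sdiff_self]
  rw [h3, measure_union disjoint_sdiff_right (q.2.1.diff (B2_meas hU𝒯.1))] at h2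
  have h4 : mu (B2_U U) ≠ ⊤ := measure_ne_top _ _
  have h5 : mu (B2_U U) + mu (q.1 \ B2_U U) ≤ mu (B2_U U) + 0 := by rwa [add_zero]
  exact le_zero_iff.1 ((ENNReal.add_le_add_iff_left h4).1 h5)

private theorem B2_le {ι : Type*} (b : ι → MB) {T : Set (ι × Pc)} (hT : T.Countable)
    (hb : ∀ t ∈ T, t.2 ∈ b t.1) : cl (B2_U T) ≤ ⨆ i : (Prod.fst '' T), b i.1 := by
  intro q hq
  rw [RO.mem_iSup]
  intro q' hq'
  have h1 : mu (q'.1 \ B2_U T) = 0 := (mem_cl (B2_meas hT) q').1 (RO.mem_of_le hq' hq)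
  have h2 : ∃ t ∈ T, mu (q'.1 ∩ t.2.1) ≠ 0 := by
    by_contra hcon
    push Not at hcon
    apply q'.2.2
    have h3 : q'.1 ⊆ (q'.1 \ B2_U T) ∪ ⋃ t ∈ T, q'.1 ∩ t.2.1 := by
      intro w hw
      by_cases hw2 : w ∈ B2_U T
      · obtain ⟨t, ht, hwt⟩ := mem_iUnion₂.1 hw2
        exact Or.inr (mem_iUnion₂.2 ⟨t, ht, hw, hwt⟩)
      · exact Or.inl ⟨hw, hw2⟩
    exact measure_mono_null h3 (measure_union_null h1 ((measure_biUnion_null_iff hT).2 hcon))
  obtain ⟨t, ht, hm⟩ := h2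
  refine ⟨⟨q'.1 ∩ t.2.1, q'.2.1.inter t.2.2.1, hm⟩, ?_, ⟨t.1, t, ht, rfl⟩, ?_⟩
  · show mu ((q'.1 ∩ t.2.1) \ q'.1) = 0
    rw [sdiff_eq_empty.2 inter_subset_left, measure_empty]
  · refine RO.mem_of_le ?_ (hb t ht)
    show mu ((q'.1 ∩ t.2.1) \ t.2.1) = 0
    rw [sdiff_eq_empty.2 inter_subset_right, measure_empty]

theorem exists_cl (b : MB) : ∃ A, MeasurableSet A ∧ cl A = b := by
  obtain ⟨T, hT, hb, hmax⟩ := B2_max (fun _ : Unit => b)
  refine ⟨B2_U T, B2_meas hT, le_antisymm ?_ ?_⟩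
  · exact (B2_le (fun _ : Unit => b) hT hb).trans (iSup_le fun _ => le_rfl)
  · intro q hq
    exact (mem_cl (B2_meas hT) q).2 (hmax () q hq)

theorem exists_countable_sup {ι : Type*} (b : ι → MB) :
    ∃ s : Set ι, s.Countable ∧ (⨆ i, b i) ≤ ⨆ i : s, b i.1 := by
  obtain ⟨T, hT, hb, hmax⟩ := B2_max b
  refine ⟨Prod.fst '' T, hT.image _, le_trans (iSup_le fun i => ?_) (B2_le b hT hb)⟩
  intro q hq
  exact (mem_cl (B2_meas hT) q).2 (hmax i q hq)

end Pool.Agent.LibBd83
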