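import Pool.Agent.LibBd83.Def

/-!
BD83 M2. Exchanging the coordinates in `D` of two independent points preserves the measure.

Plan. (1) `mu.prod mu` is the image of `Measure.infinitePi (fun _ : Bool × Jx => coin)` under
`Φ ω = (fun j => ω (false, j), fun j => ω (true, j))`: `Measure.infinitePi_map_curry`
(`Mathlib/Probability/ProductMeasure.lean`) and `Measure.infinitePi_map_eval_prod`
(`Mathlib/Probability/Independence/InfinitePi.lean`) for the index set `Bool`. (2) Let
`σ (a, c) = (!a, c)` if `c ∈ D` and `(a, c)` otherwise; `σ` is injective and by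
`Measure.map_infinitePi_infinitePi_of_inj` the map `ω ↦ ω ∘ σ` preserves the measure. (3) The map in
`mp_swap` composed with `Φ` is `Φ` composed with `ω ↦ ω ∘ σ`. `mp_mx` is the first component.
-/

namespace Pool.Agent.LibBd83

open MeasureTheory Set Filter

private noncomputable def M2_Phi : (Bool × Jx → Bool) → W × W :=
  fun ω => (fun j => ω (false, j), fun j => ω (true, j))

private theorem M2_meas_Phi : Measurable M2_Phi := by
  unfold M2_Phi
  fun_prop

private theorem M2_map_Phi :
    (Measure.infinitePi fun _ : Bool × Jx => coin).map M2_Phi = mu.prod mu := by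
  have h1 : (M2_Phi : (Bool × Jx → Bool) → W × W)
      = (fun ω : Bool → Jx → Bool => (ω false, ω true)) ∘ (MeasurableEquiv.curry Bool Jx Bool) := by
    rfl
  have hm : Measurable fun ω : Bool → Jx → Bool => (ω false, ω true) := by fun_prop
  rw [h1, ← Measure.map_map hm (MeasurableEquiv.measurable _)]
  rw [Measure.infinitePi_map_curry (fun (_ : Bool) (_ : Jx) => coin)]
  exact Measure.infinitePi_map_eval_prod (P := fun _ : Bool => Measure.infinitePi fun _ : Jx => coin)
    (i := false) (j := true) (by decide)

open Classical in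
private noncomputable def M2_sig (D : Set Jx) : Bool × Jx → Bool × Jx :=
  fun p => if p.2 ∈ D then (!p.1, p.2) else p

private theorem M2_sig_invol (D : Set Jx) (p : Bool × Jx) : M2_sig D (M2_sig D p) = p := by
  unfold M2_sig
  by_cases h : p.2 ∈ D
  · simp [h]
  · simp [h]

private theorem M2_sig_inj (D : Set Jx) : Function.Injective (M2_sig D) := by
  intro p q h
  have := congrArg (M2_sig D) h
  rwa [M2_sig_invol, M2_sig_invol] at this

private theorem M2_map_sig (D : Set Jx) :
    (Measure.infinitePi fun _ : Bool × Jx => coin).map (fun ω i => ω (M2_sig D i))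
      = Measure.infinitePi fun _ : Bool × Jx => coin :=
  Measure.map_infinitePi_infinitePi_of_inj (P := fun _ : Bool × Jx => coin) (M2_sig_inj D)

private theorem M2_comm (D : Set Jx) :
    (fun p : W × W => (mx D p.1 p.2, mx D p.2 p.1)) ∘ M2_Phi
      = M2_Phi ∘ (fun (ω : Bool × Jx → Bool) i => ω (M2_sig D i)) := by
  funext ω
  refine Prod.ext ?_ ?_
  · funext c
    by_cases h : c ∈ D
    · simp [M2_Phi, mx, M2_sig, h]
    · simp [M2_Phi, mx, M2_sig, h]
  · funext c
    by_cases h : c ∈ D
    · simp [M2_Phi, mx, M2_sig, h]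
    · simp [M2_Phi, mx, M2_sig, h]

theorem mx_of_mem {D : Set Jx} {c : Jx} (h : c ∈ D) (w u : W) : mx D w u c = u c := by
  simp [mx, h]

theorem mx_of_notMem {D : Set Jx} {c : Jx} (h : c ∉ D) (w u : W) : mx D w u c = w c := by
  simp [mx, h]

theorem mx_mx (D : Set Jx) (w u : W) : mx D (mx D w u) (mx D u w) = w := by
  funext c
  by_cases h : c ∈ D
  · simp [mx, h]
  · simp [mx, h]

theorem measurable_mx (D : Set Jx) : Measurable fun p : W × W => mx D p.1 p.2 := by
  rw [measurable_pi_iff]
  intro c
  by_cases h : c ∈ D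
  · simp only [mx, h, if_true]
    fun_prop
  · simp only [mx, h, if_false]
    fun_prop

theorem mp_swap (D : Set Jx) : MeasurePreserving
    (fun p : W × W => (mx D p.1 p.2, mx D p.2 p.1)) (mu.prod mu) (mu.prod mu) := by
  have hm : Measurable fun p : W × W => (mx D p.1 p.2, mx D p.2 p.1) :=
    (measurable_mx D).prodMk ((measurable_mx D).comp measurable_swap)
  refine ⟨hm, ?_⟩
  have hs : Measurable fun (ω : Bool × Jx → Bool) (i : Bool × Jx) => ω (M2_sig D i) := by fun_prop
  conv_lhs => rw [← M2_map_Phi]
  rw [Measure.map_map hm M2_meas_Phi, M2_comm, ← Measure.map_map M2_meas_Phi hs, M2_map_sig,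
    M2_map_Phi]

theorem mp_mx (D : Set Jx) :
    MeasurePreserving (fun p : W × W => mx D p.1 p.2) (mu.prod mu) mu := by
  exact measurePreserving_fst.comp (mp_swap D)

end Pool.Agent.LibBd83
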