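import Pool.Agent.LibBd83.Def

/-!
BD83 M4. Approximation of a measurable set by a set which depends on finitely many coordinates.

Plan. The sets which depend on finitely many coordinates (`measurableCylinders fun _ : Jx => Bool`)
form an algebra of sets which generates the σ-algebra
(`generateFrom_measurableCylinders`, `isSetAlgebra_measurableCylinders`), so they are dense for the
measure: `Measure.MeasureDense.of_generateFrom_isSetAlgebra_finite`
(`Mathlib/MeasureTheory/Measure/SeparableMeasure.lean`), or a direct proof by
`MeasurableSpace.induction_on_inter` or by the outer regularity of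
`AddContent.measure`. A cylinder `cylinder s S` depends only on the coordinates in `s`.
-/

namespace Pool.Agent.LibBd83

open MeasureTheory Set Filter

theorem exists_cyl (A : Set W) (hA : MeasurableSet A) (ε : ENNReal) (hε : 0 < ε) :
    ∃ (K : Finset Jx) (C : Set W), MeasurableSet C ∧ DpS (K : Set Jx) C ∧
      mu {w | ¬ (w ∈ A ↔ w ∈ C)} < ε := by
  have hd : mu.MeasureDense (measurableCylinders fun _ : Jx => Bool) :=
    Measure.MeasureDense.of_generateFrom_isSetAlgebra_finite mu isSetAlgebra_measurableCylinders
      generateFrom_measurableCylinders.symm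
  have hm : (0 : ENNReal) < min ε 1 := lt_min hε one_pos
  have hm1 : min ε 1 ≠ ⊤ := ne_top_of_le_ne_top ENNReal.one_ne_top (min_le_right _ _)
  have hδ : 0 < (min ε 1).toReal := ENNReal.toReal_pos hm.ne' hm1
  obtain ⟨t, ht, hlt⟩ := hd.approx A hA (measure_ne_top _ _) _ hδ
  rw [ENNReal.ofReal_toReal hm1] at hlt
  obtain ⟨K, S, hS, rfl⟩ := (mem_measurableCylinders t).1 ht
  refine ⟨K, cylinder K S, hd.measurable _ ht, ?_, ?_⟩
  · intro w w' h
    rw [mem_cylinder, mem_cylinder]
    have h1 : K.restrict w = K.restrict w' := by
      funext c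
      exact h c.1 c.2
    rw [h1]
  · refine lt_of_eq_of_lt (congrArg mu ?_) (lt_of_lt_of_le hlt (min_le_left _ _))
    ext w
    simp only [mem_setOf_eq, mem_symmDiff]
    tauto

end Pool.Agent.LibBd83
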