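import Pool.Agent.LibBd83.M1
import Pool.Agent.LibBd83.M2
import Pool.Agent.LibBd83.M4

/-!
BD83 M5. The 0-1 law: a set which is almost invariant under the finite changes outside the blocks
in `F` is almost equal to a set which depends only on the coordinates of the blocks in `F`.

Plan. Let `ε > 0`, and `K`, `C` from `exists_cyl A`. Put `K' = {c ∈ K | c.1 ∉ F}` and for `v : W`
let `C v = {w | mx K' w v ∈ C}`, which depends only on the coordinates in `cs F` (a coordinate of `K`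
is in `cs F` or in `K'`). For each `v`, with `γ = rs K' v` (finite support, vanishing on `cs F`):
`mu {w | ¬ (w ∈ A ↔ w ∈ C)} = mu {w | ¬ (tr γ w ∈ A ↔ tr γ w ∈ C)} = mu {w | ¬ (w ∈ A ↔ tr γ w ∈ C)}`
(`mp_tr`, `h`). The average over `v` of the last number is
`(mu.prod mu) {(w, v) | ¬ (w ∈ A ↔ tr (rs K' v) w ∈ C)}`, and `tr (rs K' v) w = mx K' w (tr w v)`; by
`mp_shear` this is `(mu.prod mu) {(w, v) | ¬ (w ∈ A ↔ mx K' w v ∈ C)}`, the average over `v` of
`mu {w | ¬ (w ∈ A ↔ w ∈ C v)}` (`Measure.prod_apply_symm`). The average is less than `ε`, so there is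
`v` with `mu {w | ¬ (w ∈ A ↔ w ∈ C v)} < ε`. Apply this with `ε = 2^{-n}` to get sets `B n` which depend
only on `cs F`, and let `A' = limsup B n` (`{w | ∃ᶠ n in atTop, w ∈ B n}`); by Borel-Cantelli
(`measure_setOf_frequently_eq_zero`) almost every `w` is in `A` iff it is in `B n` for almost all `n`
iff it is in `A'`.
-/

namespace Pool.Agent.LibBd83

open MeasureTheory Set Filter

private theorem M5_measurable_iff {α : Type*} [MeasurableSpace α] {s t : Set α}
    (hs : MeasurableSet s) (ht : MeasurableSet t) : MeasurableSet {x | ¬ (x ∈ s ↔ x ∈ t)} := by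
  have h1 : {x | ¬ (x ∈ s ↔ x ∈ t)} = (s \ t) ∪ (t \ s) := by
    ext x
    simp only [mem_ofPred_eq, mem_union, Set.mem_sdiff]
    tauto
  rw [h1]
  exact (hs.diff ht).union (ht.diff hs)

private theorem M5_tr_rs (D : Set Jx) (v w : W) : tr (rs D v) w = mx D w (tr w v) := by
  funext c
  by_cases hc : c ∈ D
  · simp [tr, rs, mx, hc, Bool.xor_comm]
  · simp [tr, rs, mx, hc]

private theorem M5_rs_eq (D : Set Jx) (v : W) : rs D v = mx D (fun _ => false) v := by
  funext c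
  simp [rs, mx]

private theorem M5_approx (F : Set ℕ) (A : Set W) (hA : MeasurableSet A)
    (h : ∀ γ : W, {c | γ c = true}.Finite → (∀ c : Jx, c.1 ∈ F → γ c = false) →
      mu {w | ¬ (tr γ w ∈ A ↔ w ∈ A)} = 0) (ε : ENNReal) (hε : 0 < ε) :
    ∃ B, MeasurableSet B ∧ DpS (cs F) B ∧ mu {w | ¬ (w ∈ A ↔ w ∈ B)} < ε := by
  obtain ⟨K, C, hC, hCd, hCm⟩ := exists_cyl A hA ε hε
  set K' : Set Jx := {c | c ∈ K ∧ c.1 ∉ F} with hK'
  have hmeas2 : Measurable fun p : W × W => mx K' p.1 p.2 := measurable_mx K'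
  have hCv : ∀ v : W, MeasurableSet {w | mx K' w v ∈ C} := fun v =>
    (hmeas2.comp (measurable_id.prodMk measurable_const)) hC
  have hdep : ∀ v : W, DpS (cs F) {w | mx K' w v ∈ C} := by
    intro v w w' hw
    refine hCd _ _ fun c hc => ?_
    by_cases hcK : c ∈ K'
    · rw [mx_of_mem hcK, mx_of_mem hcK]
    · rw [mx_of_notMem hcK, mx_of_notMem hcK]
      apply hw
      by_contra hcF
      exact hcK ⟨hc, hcF⟩
  have hpt : ∀ v : W, mu {w | ¬ (w ∈ A ↔ tr (rs K' v) w ∈ C)} = mu {w | ¬ (w ∈ A ↔ w ∈ C)} := by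
    intro v
    have hγ := h (rs K' v) ?_ ?_
    · have h1 : mu {w | ¬ (tr (rs K' v) w ∈ A ↔ tr (rs K' v) w ∈ C)} =
          mu {w | ¬ (w ∈ A ↔ w ∈ C)} :=
        (mp_tr (rs K' v)).measure_preimage (M5_measurable_iff hA hC).nullMeasurableSet
      rw [← h1]
      apply measure_congr
      have h2 : ∀ᵐ w ∂mu, (tr (rs K' v) w ∈ A ↔ w ∈ A) := hγ
      filter_upwards [h2] with w hw
      apply propext
      change (¬ (w ∈ A ↔ tr (rs K' v) w ∈ C)) ↔
        (¬ (tr (rs K' v) w ∈ A ↔ tr (rs K' v) w ∈ C))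
      rw [hw]
    · refine K.finite_toSet.subset fun c hc => ?_
      by_contra hcK
      have hcK' : c ∉ K' := fun h' => hcK h'.1
      have : rs K' v c = true := hc
      simp [rs, hcK'] at this
    · intro c hc
      have hcK' : c ∉ K' := fun h' => h'.2 hc
      simp [rs, hcK']
  set T2 : Set (W × W) := {p | ¬ (p.1 ∈ A ↔ mx K' p.1 p.2 ∈ C)} with hT2
  have hT2m : MeasurableSet T2 := M5_measurable_iff (measurable_fst hA) (hmeas2 hC)
  have hshear : (mu.prod mu) {p : W × W | ¬ (p.1 ∈ A ↔ tr (rs K' p.2) p.1 ∈ C)} =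
      (mu.prod mu) T2 := by
    have h1 := mp_shear.measure_preimage hT2m.nullMeasurableSet
    rw [← h1]
    congr 1
    ext p
    simp only [hT2, mem_ofPred_eq, mem_preimage, M5_tr_rs]
  have hTm : MeasurableSet {p : W × W | ¬ (p.1 ∈ A ↔ tr (rs K' p.2) p.1 ∈ C)} := by
    have h2 : Measurable fun p : W × W => tr (rs K' p.2) p.1 := by
      have h3 : Measurable fun p : W × W => rs K' p.2 := by
        simp only [M5_rs_eq]
        exact hmeas2.comp (measurable_const.prodMk measurable_snd)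
      exact measurable_tr'.comp (h3.prodMk measurable_fst)
    exact M5_measurable_iff (measurable_fst hA) (h2 hC)
  have h3 : (mu.prod mu) {p : W × W | ¬ (p.1 ∈ A ↔ tr (rs K' p.2) p.1 ∈ C)} < ε := by
    rw [Measure.prod_apply_symm hTm]
    have h4 : ∀ v : W, mu ((fun w => (w, v)) ⁻¹'
        {p : W × W | ¬ (p.1 ∈ A ↔ tr (rs K' p.2) p.1 ∈ C)}) = mu {w | ¬ (w ∈ A ↔ w ∈ C)} := hpt
    simp only [h4, lintegral_const, measure_univ, mul_one]
    exact hCm
  rw [hshear, Measure.prod_apply_symm hT2m] at h3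
  have h5 : ∃ v, mu {w | ¬ (w ∈ A ↔ mx K' w v ∈ C)} < ε := by
    by_contra hcon
    have hcon : ∀ v, ε ≤ mu {w | ¬ (w ∈ A ↔ mx K' w v ∈ C)} := fun v => not_lt.1 fun h' => hcon ⟨v, h'⟩
    have h6 : ∫⁻ _ : W, ε ∂mu ≤ ∫⁻ v, mu ((fun w => (w, v)) ⁻¹' T2) ∂mu :=
      lintegral_mono fun v => hcon v
    rw [lintegral_const, measure_univ, mul_one] at h6
    exact absurd h3 (not_lt.2 h6)
  obtain ⟨v, hv⟩ := h5
  exact ⟨{w | mx K' w v ∈ C}, hCv v, hdep v, hv⟩

theorem zero_one (F : Set ℕ) (A : Set W) (hA : MeasurableSet A)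
    (h : ∀ γ : W, {c | γ c = true}.Finite → (∀ c : Jx, c.1 ∈ F → γ c = false) →
      mu {w | ¬ (tr γ w ∈ A ↔ w ∈ A)} = 0) :
    ∃ A', MeasurableSet A' ∧ DpS (cs F) A' ∧ mu {w | ¬ (w ∈ A ↔ w ∈ A')} = 0 := by
  have hpos : ∀ n : ℕ, (0 : ENNReal) < (2⁻¹ : ENNReal) ^ n := fun n => by
    apply ENNReal.pow_pos
    simp
  choose B hBm hBd hBe using fun n : ℕ => M5_approx F A hA h ((2⁻¹ : ENNReal) ^ n) (hpos n)
  refine ⟨{w | ∃ᶠ n in atTop, w ∈ B n}, ?_, ?_, ?_⟩
  · have h1 : {w | ∃ᶠ n in atTop, w ∈ B n} = ⋂ n : ℕ, ⋃ m : ℕ, ⋃ _ : n ≤ m, B m := by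
      ext w
      simp [frequently_atTop]
    rw [h1]
    exact MeasurableSet.iInter fun n => MeasurableSet.iUnion fun m =>
      MeasurableSet.iUnion fun _ => hBm m
  · intro w w' hw
    exact frequently_congr (Eventually.of_forall fun n => hBd n w w' hw)
  · have h1 : mu {w | ∃ᶠ n in atTop, ¬ (w ∈ A ↔ w ∈ B n)} = 0 := by
      apply measure_setOfPred_frequently_eq_zero
      have h2 : ∑' n : ℕ, mu {w | ¬ (w ∈ A ↔ w ∈ B n)} ≤ ∑' n : ℕ, (2⁻¹ : ENNReal) ^ n :=
        ENNReal.tsum_le_tsum fun n => (hBe n).le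
      refine ne_top_of_le_ne_top ?_ h2
      rw [ENNReal.tsum_geometric, ENNReal.one_sub_inv_two, inv_inv]
      exact ENNReal.ofNat_ne_top
    refine measure_mono_null (fun w hw => ?_) h1
    by_contra hcon
    have hcon' : ∀ᶠ n in atTop, (w ∈ A ↔ w ∈ B n) := by
      have := not_frequently.1 hcon
      filter_upwards [this] with n hn
      exact not_not.1 hn
    apply hw
    constructor
    · intro hwA
      have : ∀ᶠ n in atTop, w ∈ B n := by
        filter_upwards [hcon'] with n hn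
        exact hn.1 hwA
      exact this.frequently
    · intro hwB
      have hwB' : ∃ᶠ n in atTop, w ∈ B n := hwB
      obtain ⟨n, hn1, hn2⟩ := (hwB'.and_eventually hcon').exists
      exact hn2.2 hn1

end Pool.Agent.LibBd83
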