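import Pool.Agent.LibBd83.B2
import Pool.Agent.LibBd83.M5

/-!
BD83 B3. An element of the measure algebra with the support `F` is given by a measurable set which
depends only on the coordinates of the blocks in `F`.

Plan. `b = cl A` (`exists_cl`). If `γ : W` has finite support and vanishes on `cs F`, then
`⟨γ, _⟩ : Gp 𝓕` (for each `b` almost all `i` have `γ (b, i, l) = false` for all `l`, since `𝓕 ≤ cofinite`:
`h𝓕.. (Filter.le_def)`, the set of the exceptional `i` is finite) is in `fixS 𝓕 F`, so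
`cl (tr γ ⁻¹' A) = cl A` (`smul_cl`), which gives the hypothesis of `zero_one` (`cl_eq_iff`,
`ae_iff`). Then `cl_congr`.
-/

namespace Pool.Agent.LibBd83

open MeasureTheory Set Filter Pool.Agent.LibTk83 Pool.Agent.LibBc83

theorem exists_dep {𝓕 : Filter ℕ} (h𝓕 : 𝓕 ≤ cofinite) (F : Set ℕ) (b : MB)
    (h : ∀ γ ∈ fixS 𝓕 F, γ • b = b) :
    ∃ A, MeasurableSet A ∧ DpS (cs F) A ∧ cl A = b := by
  obtain ⟨A, hA, rfl⟩ := exists_cl b
  have h0 : ∀ γ : W, {c | γ c = true}.Finite → (∀ c : Jx, c.1 ∈ F → γ c = false) →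
      mu {w | ¬ (tr γ w ∈ A ↔ w ∈ A)} = 0 := by
    intro γ hfin hF
    have hg : ∀ b, ∀ᶠ i in 𝓕, ∀ l, γ (b, i, l) = false := by
      intro b
      apply h𝓕
      have h1 : {i : ℕ | ∃ l, γ (b, i, l) = true}.Finite := by
        refine (hfin.image fun c : Jx => c.2.1).subset ?_
        rintro i ⟨l, hl⟩
        exact ⟨(b, i, l), hl, rfl⟩
      refine Filter.mem_of_superset h1.compl_mem_cofinite ?_
      intro i hi
      show ∀ l, γ (b, i, l) = false
      intro l
      by_contra hne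
      exact hi ⟨l, by simpa using hne⟩
    have h2 := h (⟨γ, hg⟩ : Gp 𝓕) hF
    rw [smul_cl (⟨γ, hg⟩ : Gp 𝓕) hA, cl_eq_iff (measurable_tr γ hA) hA] at h2
    exact ae_iff.1 h2
  obtain ⟨A', hA', hd, hm⟩ := zero_one F A hA h0
  refine ⟨A', hA', hd, ?_⟩
  apply cl_congr hA' hA
  have h3 : ∀ᵐ w ∂mu, (w ∈ A ↔ w ∈ A') := ae_iff.2 hm
  filter_upwards [h3] with w hw
  exact hw.symm

end Pool.Agent.LibBd83
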