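import Mathlib

/-!
Definitions: the sample space, Borel classes over an algebra of sets, limits along a filter.
-/

namespace Pool.Agent.LibBd83

open MeasureTheory Set Filter

/-! ### The sample space -/

/-- The places of the bits: block, number, place. -/
abbrev Jx : Type := ℕ × ℕ × ℕ

/-- The sample space. -/
abbrev W : Type := Jx → Bool

/-- The fair coin. -/
noncomputable def coin : Measure Bool := (PMF.uniformOfFintype Bool).toMeasure

instance : IsProbabilityMeasure coin := by unfold coin; infer_instance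

/-- The product measure. -/
noncomputable def mu : Measure W := Measure.infinitePi fun _ : Jx => coin

instance : IsProbabilityMeasure mu := by unfold mu; infer_instance

/-- Translation. -/
def tr (γ w : W) : W := fun c => xor (γ c) (w c)

open Classical in
/-- The point which is `u` on `D` and `w` elsewhere. -/
noncomputable def mx (D : Set Jx) (w u : W) : W := fun c => if c ∈ D then u c else w c

open Classical in
/-- The point which is `w` on `D` and `false` elsewhere. -/
noncomputable def rs (D : Set Jx) (w : W) : W := fun c => if c ∈ D then w c else false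

/-- The coordinates of the blocks in `F`. -/
def cs (F : Set ℕ) : Set Jx := {c | c.1 ∈ F}

/-- `f` depends only on the coordinates in `D`. -/
def Dp {α : Type*} (D : Set Jx) (f : W → α) : Prop := ∀ w w' : W, (∀ c ∈ D, w c = w' c) → f w = f w'

/-- `A` depends only on the coordinates in `D`. -/
def DpS (D : Set Jx) (A : Set W) : Prop :=
  ∀ w w' : W, (∀ c ∈ D, w c = w' c) → (w ∈ A ↔ w' ∈ A)

/-- The number coded by the first `i` bits of the place `(b, i)`. -/
def gg (b : ℕ) (w : W) (i : ℕ) : ℕ := ∑ l ∈ Finset.range i, if w (b, i, l) then 2 ^ l else 0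

/-! ### Classes of sets -/

section

variable {X : Type*}

/-- For a class `𝓑` of subsets of `X`, the class `Σ⁰_β` over `𝓑`: for `β = 1` the countable unions of
sets in `𝓑`, for `β > 1` the countable unions of complements of sets in lower classes. -/
inductive SG (𝓑 : Set (Set X)) : Ordinal.{0} → Set X → Prop
  | base (f : ℕ → Set X) (h : ∀ n, f n ∈ 𝓑) : SG 𝓑 1 (⋃ n, f n)
  | step (β : Ordinal.{0}) (hβ : 1 < β) (f : ℕ → Set X) (γ : ℕ → Ordinal.{0})
      (hγ : ∀ n, γ n < β) (h : ∀ n, SG 𝓑 (γ n) (f n)) : SG 𝓑 β (⋃ n, (f n)ᶜ)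

/-- `𝓑` is an algebra of sets. -/
structure IsAlg (𝓑 : Set (Set X)) : Prop where
  univ : Set.univ ∈ 𝓑
  compl : ∀ A ∈ 𝓑, Aᶜ ∈ 𝓑
  inter : ∀ A ∈ 𝓑, ∀ A' ∈ 𝓑, A ∩ A' ∈ 𝓑

end

/-- The Cantor space. -/
abbrev Cn : Type := ℕ → Bool

/-- The clopen subsets of a space. -/
def Clop (Z : Type*) [TopologicalSpace Z] : Set (Set Z) := {A | IsClopen A}

/-- The first `m` values of `x`. -/
def seg (x : ℕ → ℕ) (m : ℕ) : List ℕ := (List.range m).map x

/-- The sets `{(w, x) | w ∈ U (x | m)}`, where the sets `U s` are in the class `𝓤`. -/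
def RB (𝓤 : Set (Set W)) : Set (Set (W × (ℕ → ℕ))) :=
  {R | ∃ (m : ℕ) (U : List ℕ → Set W), (∀ s, U s ∈ 𝓤) ∧ R = {p | p.1 ∈ U (seg p.2 m)}}

/-- The measurable sets. -/
def MS : Set (Set W) := {A | MeasurableSet A}

/-- The measurable sets which depend only on the coordinates in `D`. -/
def MD (D : Set Jx) : Set (Set W) := {A | MeasurableSet A ∧ DpS D A}

/-- The subsets of `Z × Y` with measurable sections, which depend continuously (in measure) on the
point `z`. -/
def CM {Z Y : Type*} [TopologicalSpace Z] [MeasurableSpace Y] (ν : Measure Y) :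
    Set (Set (Z × Y)) :=
  {E | (∀ z, MeasurableSet {y | (z, y) ∈ E}) ∧
    ∀ z, ∀ ε : ENNReal, 0 < ε → ∀ᶠ z' in nhds z,
      ν {y | ¬ ((z, y) ∈ E ↔ (z', y) ∈ E)} < ε}

/-! ### Limits along a filter -/

/-- `P` is the limit of clopen sets along `𝓕`. -/
def LimRep (𝓕 : Filter ℕ) (P : Set Cn) : Prop :=
  ∃ C : ℕ → Set Cn, (∀ i, IsClopen (C i)) ∧ (∀ z ∈ P, ∀ᶠ i in 𝓕, z ∈ C i) ∧
    ∀ z ∉ P, ∀ᶠ i in 𝓕, z ∉ C i

/-- `Q` is a set of infinite subsets of `ℕ` (given by their characteristic functions) which contains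
the set `ℕ` and is invariant under changes outside a set in `𝓕`. -/
structure Good (𝓕 : Filter ℕ) (Q : Set Cn) : Prop where
  top : (fun _ => true) ∈ Q
  inv : ∀ x y : Cn, (∀ᶠ i in 𝓕, x i = y i) → x ∈ Q → y ∈ Q
  inf : ∀ x ∈ Q, {i | x i = true}.Infinite

/-- The coordinates which are replaced: those of blocks in `F` with numbers `i` such that `z` is not
in `C i`. -/
def Dz (F : Set ℕ) (C : ℕ → Set Cn) (z : Cn) : Set Jx := {c | c.1 ∈ F ∧ z ∉ C c.2.1}

/-- The set `E_z`. -/
noncomputable def Ez (F : Set ℕ) (C : ℕ → Set Cn) (f : W → ℕ → ℕ) (R : Set (W × (ℕ → ℕ))) (z : Cn) :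
    Set (W × W) :=
  {p | (mx (Dz F C z) p.1 p.2, f p.1) ∈ R}

/-- The hypothesis of invariance: changes by `γ` in the blocks of `F'`, vanishing modulo `𝓕`. -/
def InvR (𝓕 : Filter ℕ) (F₀ F' : Set ℕ) (R : Set (W × (ℕ → ℕ))) : Prop :=
  ∀ f : W → ℕ → ℕ, Measurable f → Dp (cs (F₀ ∪ F')) f →
    ∀ γ : W, (∀ c : Jx, c.1 ∉ F' → γ c = false) →
      (∀ b, ∀ᶠ i in 𝓕, ∀ l, γ (b, i, l) = false) →
      ∀ᵐ w ∂mu, ((w, f w) ∈ R ↔ (tr γ w, f w) ∈ R)

end Pool.Agent.LibBd83
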