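import Pool.Agent.LibBd83.S3

/-!
BD83 F1. Cofinal sequences; the filter for `α = 1` (typed by helper32).
-/

namespace Pool.Agent.LibBd83

open Set Filter

theorem exists_cof (α : Ordinal.{0}) (h1 : 1 < α) (hc : (Set.Iio α).Countable) :
    ∃ e : ℕ → Ordinal.{0}, (∀ m, 1 ≤ e m ∧ e m < α) ∧ Monotone e ∧
      ∀ β < α, ∀ᶠ m in atTop, β ≤ e m := by
  obtain ⟨s, hs⟩ := (hc.mono (s₁ := {γ | 1 ≤ γ ∧ γ < α}) fun γ hγ => hγ.2).exists_eq_range
    ⟨1, le_refl 1, h1⟩
  have hs' : ∀ n, 1 ≤ s n ∧ s n < α := by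
    intro n
    have : s n ∈ Set.range s := ⟨n, rfl⟩
    rw [← hs] at this
    exact this
  refine ⟨partialSups s, ?_, (partialSups s).monotone, ?_⟩
  · intro m
    refine ⟨(hs' m).1.trans (le_partialSups s m), ?_⟩
    induction m with
    | zero => rw [partialSups_zero]; exact (hs' 0).2
    | succ n ih => rw [partialSups_add_one]; exact max_lt ih (hs' (n + 1)).2
  · intro β hβ
    rcases lt_or_ge β 1 with h | h
    · filter_upwards with m
      exact h.le.trans ((hs' m).1.trans (le_partialSups s m))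
    · have : β ∈ Set.range s := by
        rw [← hs]
        exact ⟨h, hβ⟩
      obtain ⟨k, hk⟩ := this
      filter_upwards [eventually_ge_atTop k] with m hm
      rw [← hk]
      exact le_partialSups_of_le s hm

private theorem F1_clopen (i : ℕ) (b : Bool) : IsClopen {x : Cn | x i = b} := by
  have h : IsClopen ({b} : Set Bool) := isClopen_discrete {b}
  exact h.preimage (continuous_apply i)

private theorem F1_ev (b : Bool) :
    SG (Clop Cn) (1 + 1) {x : Cn | ∀ᶠ i in atTop, x i = b} := by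
  have hlt : (1 : Ordinal.{0}) < 1 + 1 := (lt_add_iff_pos_right 1).2 zero_lt_one
  have h1 : ∀ k : ℕ, SG (Clop Cn) 1
      (⋃ i : ℕ, if k ≤ i then {x : Cn | x i = b}ᶜ else ∅) := by
    intro k
    refine SG.base _ fun i => ?_
    split_ifs
    · exact (F1_clopen i b).compl
    · exact isClopen_empty
  have h2 := SG.step (𝓑 := Clop Cn) (1 + 1) hlt
    (fun k : ℕ => ⋃ i : ℕ, if k ≤ i then {x : Cn | x i = b}ᶜ else ∅) (fun _ => 1)
    (fun _ => hlt) h1
  have h3 : {x : Cn | ∀ᶠ i in atTop, x i = b} =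
      ⋃ k : ℕ, (⋃ i : ℕ, if k ≤ i then {x : Cn | x i = b}ᶜ else ∅)ᶜ := by
    ext x
    rw [Set.mem_ofPred_eq, eventually_atTop, Set.mem_iUnion]
    refine exists_congr fun k => ?_
    rw [Set.mem_compl_iff, Set.mem_iUnion, not_exists]
    refine forall_congr' fun i => ?_
    by_cases h : k ≤ i
    · rw [if_pos h, Set.mem_compl_iff, not_not]
      exact ⟨fun h' => h' h, fun h' _ => h'⟩
    · rw [if_neg h]
      exact ⟨fun _ h' => h', fun _ h' => absurd h' h⟩
  rw [h3]
  exact h2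

theorem fil_one : ∃ 𝓕 : Filter ℕ, 𝓕 ≤ cofinite ∧
    (∀ P, SG (Clop Cn) 1 P → LimRep 𝓕 P) ∧
    (∃ Q, SG (Clop Cn) (1 + 1) Q ∧ Good 𝓕 Q) ∧ ∃ Q, SG (Clop Cn) (1 + 1) Qᶜ ∧ Good 𝓕 Q := by
  refine ⟨atTop, by rw [Nat.cofinite_eq_atTop], ?_, ?_, ?_⟩
  · intro P hP
    obtain ⟨f, hf, rfl⟩ := SG.one_iff.1 hP
    refine ⟨fun i => ⋃ n ∈ Finset.range i, f n, ?_, ?_, ?_⟩
    · intro i
      exact isClopen_biUnion_finset fun n _ => hf n
    · intro z hz
      obtain ⟨n, hn⟩ := Set.mem_iUnion.1 hz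
      filter_upwards [eventually_gt_atTop n] with i hi
      exact Set.mem_iUnion₂.2 ⟨n, Finset.mem_range.2 hi, hn⟩
    · intro z hz
      filter_upwards with i hi
      obtain ⟨n, -, hn⟩ := Set.mem_iUnion₂.1 hi
      exact hz (Set.mem_iUnion.2 ⟨n, hn⟩)
  · refine ⟨{x : Cn | ∀ᶠ i in atTop, x i = true}, F1_ev true, ?_, ?_, ?_⟩
    · exact Eventually.of_forall fun _ => rfl
    · intro x y h hx
      have hx' : ∀ᶠ i in atTop, x i = true := hx
      show ∀ᶠ i in atTop, y i = true
      filter_upwards [h, hx'] with i h1 h2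
      rw [← h1, h2]
    · intro x hx
      have hx' : ∀ᶠ i in atTop, x i = true := hx
      exact Nat.frequently_atTop_iff_infinite.1 hx'.frequently
  · refine ⟨{x : Cn | ∃ᶠ i in atTop, x i = true}, ?_, ?_, ?_, ?_⟩
    · have h : {x : Cn | ∃ᶠ i in atTop, x i = true}ᶜ =
          {x : Cn | ∀ᶠ i in atTop, x i = false} := by
        ext x
        rw [Set.mem_compl_iff, Set.mem_ofPred_eq, Set.mem_ofPred_eq, not_frequently]
        simp only [Bool.not_eq_true]
      rw [h]
      exact F1_ev false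
    · exact (Eventually.of_forall fun _ => rfl).frequently
    · intro x y h hx
      have hx' : ∃ᶠ i in atTop, x i = true := hx
      show ∃ᶠ i in atTop, y i = true
      exact (hx'.and_eventually h).mono fun i hi => by rw [← hi.2, hi.1]
    · intro x hx
      exact Nat.frequently_atTop_iff_infinite.1 hx

end Pool.Agent.LibBd83
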