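import Pool.Agent.LibBd83.F1

/-!
BD83 F2. The filter for `α > 1`: the Fubini sum of filters for smaller ordinals.

`e`, `𝓕 m` are given as in the hypotheses. Let `𝓖 = bind atTop (fun m => map (Nat.pair m) (𝓕 m))`;
`(∀ᶠ i in 𝓖, p i) ↔ ∀ᶠ m in atTop, ∀ᶠ j in 𝓕 m, p (Nat.pair m j)` (`eventually_bind`,
`eventually_map`). Plan for `sum_limRep`: let `SG (Clop Cn) α P`, `1 < α`, so `P = ⋃ n, (f n)ᶜ`,
`SG (Clop Cn) (γ n) (f n)`, `γ n < α`. If `γ n ≤ e m` then `LimRep (𝓕 m) (f n)` (`SG.mono`); choose the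
clopen sets `C n m j` for it (`choose` with the hypothesis `γ n ≤ e m`; use `∅`ᶜ or a default set
otherwise), and put `D (Nat.pair m j) = ⋃ n < m with γ n ≤ e m, (C n m j)ᶜ` (a finite union of clopen
sets; define `D i` with `i.unpair`). If `z ∈ P`, `z ∉ f n`: for all `m > n` with `γ n ≤ e m`
(almost all `m`) one has `∀ᶠ j in 𝓕 m, z ∉ C n m j`, so `z ∈ D (Nat.pair m j)`. If `z ∉ P`, `z ∈ f n`
for all `n`, then for each `m`: for all `n < m` with `γ n ≤ e m`, `∀ᶠ j in 𝓕 m, z ∈ C n m j`; finite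
intersection (`eventually_all_finset` or `Finset.eventually_all`), so `∀ᶠ j, z ∉ D (Nat.pair m j)`.
`sum_cofinite`: for `a = Nat.pair m' j'`: `∀ m, ∀ᶠ j in 𝓕 m, Nat.pair m j ≠ a`
(`Nat.pair_eq_pair`, `𝓕 m ≤ cofinite`). (`𝓖 ≤ cofinite` iff `∀ a, ∀ᶠ i in 𝓖, i ≠ a`:
`le_cofinite_iff_eventually_ne`.)
-/

namespace Pool.Agent.LibBd83

open Set Filter

/-- The sum of filters. -/
def sumF (𝓕 : ℕ → Filter ℕ) : Filter ℕ :=
  Filter.bind atTop fun m => Filter.map (Nat.pair m) (𝓕 m)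

theorem eventually_sumF (𝓕 : ℕ → Filter ℕ) (p : ℕ → Prop) :
    (∀ᶠ i in sumF 𝓕, p i) ↔ ∀ᶠ m in atTop, ∀ᶠ j in 𝓕 m, p (Nat.pair m j) := by
  rw [sumF, Filter.eventually_bind]
  rfl

theorem sum_cofinite (𝓕 : ℕ → Filter ℕ) (h : ∀ m, 𝓕 m ≤ cofinite) : sumF 𝓕 ≤ cofinite := by
  rw [le_cofinite_iff_eventually_ne]
  intro a
  rw [eventually_sumF]
  refine Eventually.of_forall fun m => ?_
  have h1 := le_cofinite_iff_eventually_ne.1 (h m) a.unpair.2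
  filter_upwards [h1] with j hj hc
  apply hj
  rw [← hc, Nat.unpair_pair]

theorem sum_limRep {α : Ordinal.{0}} (h1 : 1 < α) (e : ℕ → Ordinal.{0})
    (he : ∀ β < α, ∀ᶠ m in atTop, β ≤ e m) (𝓕 : ℕ → Filter ℕ)
    (h : ∀ m P, SG (Clop Cn) (e m) P → LimRep (𝓕 m) P) (P : Set Cn) (hP : SG (Clop Cn) α P) :
    LimRep (sumF 𝓕) P := by
  classical
  obtain ⟨f, γ, hγ, hf, rfl⟩ := (SG.gt_iff h1).1 hP
  have key : ∀ n m, ∃ C : ℕ → Set Cn, (∀ i, IsClopen (C i)) ∧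
      (γ n ≤ e m → (∀ z ∈ f n, ∀ᶠ i in 𝓕 m, z ∈ C i) ∧ ∀ z ∉ f n, ∀ᶠ i in 𝓕 m, z ∉ C i) := by
    intro n m
    by_cases hle : γ n ≤ e m
    · obtain ⟨C, c1, c2, c3⟩ := h m (f n) (SG.mono (isAlg_clop Cn) hle (hf n))
      exact ⟨C, c1, fun _ => ⟨c2, c3⟩⟩
    · exact ⟨fun _ => ∅, fun _ => isClopen_empty, fun h' => absurd h' hle⟩
  choose C hC1 hC2 using key
  refine ⟨fun i => ⋃ n ∈ (Finset.range i.unpair.1).filter (fun n => γ n ≤ e i.unpair.1),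
    (C n i.unpair.1 i.unpair.2)ᶜ, ?_, ?_, ?_⟩
  · intro i
    exact isClopen_biUnion_finset (fun n _ => (hC1 n _ _).compl)
  · intro z hz
    obtain ⟨n, hn⟩ := mem_iUnion.1 hz
    rw [eventually_sumF]
    filter_upwards [eventually_gt_atTop n, he (γ n) (hγ n)] with m hm hme
    filter_upwards [(hC2 n m hme).2 z hn] with j hj
    simp only [Nat.unpair_pair, mem_iUnion, Finset.mem_filter, Finset.mem_range, exists_prop]
    exact ⟨n, ⟨hm, hme⟩, hj⟩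
  · intro z hz
    rw [eventually_sumF]
    refine Eventually.of_forall fun m => ?_
    have h2 : ∀ᶠ j in 𝓕 m, ∀ n ∈ (Finset.range m).filter (fun n => γ n ≤ e m), z ∈ C n m j := by
      rw [Filter.eventually_all_finset]
      intro n hn
      refine (hC2 n m (Finset.mem_filter.1 hn).2).1 z ?_
      by_contra hc
      exact hz (mem_iUnion.2 ⟨n, hc⟩)
    filter_upwards [h2] with j hj
    simp only [Nat.unpair_pair, mem_iUnion, exists_prop, not_exists, not_and]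
    intro n hn hc
    exact hc (hj n hn)

end Pool.Agent.LibBd83
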