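import Pool.Agent.LibBd83.F2

/-!
BD83 F2b. The invariant sets for the sum of filters.

Plan. `sum_good₁`: `Q = {x | ∀ᶠ m in atTop, (fun j => x (Nat.pair m j)) ∈ Q' m}`
`= ⋃ k, (⋃ m, ⋃ (_ : k ≤ m), {x | (fun j => x (Nat.pair m j)) ∈ (Q' m)ᶜ})ᶜ`; the inner sets are preimages
of `(Q' m)ᶜ` under continuous maps (`SG.preimage`), in the class `e m + 1 ≤ α` (`SG.mono`,
`Order.succ_le_of_lt`/`Ordinal.add_one_le_iff`), so the inner union is in the class `α` and
`Q` in `α + 1`. `Good`: `inv`: for almost all `m`, the rows of `x` and `y` agree modulo `𝓕 m`; `inf`: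
some row is in `Q' m`, it has infinitely many values `true`, and `j ↦ Nat.pair m j` is injective.
`sum_good₂`: `Q = {x | ∃ᶠ m in atTop, (fun j => x (Nat.pair m j)) ∈ Q m}`, whose complement is
`{x | ∀ᶠ m in atTop, (fun j => x (Nat.pair m j)) ∉ Q m}`, in the same way.
-/

namespace Pool.Agent.LibBd83

open Set Filter

private theorem F2b_key {α : Ordinal.{0}} (h1 : 1 < α) (e : ℕ → Ordinal.{0}) (he : ∀ m, e m < α)
    (A : ℕ → Set Cn) (h : ∀ m, SG (Clop Cn) (e m + 1) (A m)) :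
    SG (Clop Cn) (α + 1) {x | ∀ᶠ m in atTop, (fun j => x (Nat.pair m j)) ∉ A m} := by
  classical
  have hE : {x : Cn | ∀ᶠ m in atTop, (fun j => x (Nat.pair m j)) ∉ A m} =
      ⋃ k : ℕ, (⋃ m : ℕ, (if k ≤ m then (fun x : Cn => fun j => x (Nat.pair m j)) ⁻¹' (A m)
        else ∅))ᶜ := by
    ext x
    simp only [Set.mem_ofPred_eq, Set.mem_iUnion, Set.mem_compl_iff, not_exists,
      Filter.eventually_atTop]
    constructor
    · rintro ⟨k, hk⟩
      refine ⟨k, fun m hm => ?_⟩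
      by_cases hkm : k ≤ m
      · rw [if_pos hkm] at hm
        exact hk m hkm hm
      · rw [if_neg hkm] at hm
        exact hm
    · rintro ⟨k, hk⟩
      refine ⟨k, fun m hm hx => hk m ?_⟩
      rw [if_pos hm]
      exact hx
  rw [hE]
  have h1' : (1 : Ordinal.{0}) < α + 1 := lt_of_lt_of_le h1 (by simp)
  refine SG.step (α + 1) h1' _ (fun _ => α) (fun _ => by simp) (fun k => ?_)
  refine SG.iUnion _ (fun m => ?_)
  by_cases hkm : k ≤ m
  · rw [if_pos hkm]
    have hle : e m + 1 ≤ α := Order.add_one_le_of_lt (he m)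
    refine SG.mono (isAlg_clop Cn) hle ?_
    refine SG.preimage _ (fun D hD => ?_) (h m)
    refine SG.of_mem (isAlg_clop Cn) ?_ le_rfl
    have hc : Continuous (fun x : Cn => fun j => x (Nat.pair m j)) :=
      continuous_pi fun j => continuous_apply _
    exact IsClopen.preimage hD hc
  · rw [if_neg hkm]
    exact SG.of_mem (isAlg_clop Cn) isClopen_empty h1.le

private theorem F2b_inf {m : ℕ} {x : Cn} (h : {j | x (Nat.pair m j) = true}.Infinite) :
    {i | x i = true}.Infinite := by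
  have hinj : Function.Injective (Nat.pair m) := by
    intro a b hab
    exact (Nat.pair_eq_pair.mp hab).2
  have h2 := h.image (f := Nat.pair m) hinj.injOn
  refine h2.mono ?_
  rintro _ ⟨j, hj, rfl⟩
  exact hj

theorem sum_good₁ {α : Ordinal.{0}} (h1 : 1 < α) (e : ℕ → Ordinal.{0}) (he : ∀ m, e m < α)
    (𝓕 : ℕ → Filter ℕ) (Q : ℕ → Set Cn)
    (h : ∀ m, SG (Clop Cn) (e m + 1) (Q m)ᶜ ∧ Good (𝓕 m) (Q m)) :
    ∃ Q', SG (Clop Cn) (α + 1) Q' ∧ Good (sumF 𝓕) Q' := by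
  classical
  refine ⟨{x | ∀ᶠ m in atTop, (fun j => x (Nat.pair m j)) ∈ Q m}, ?_, ?_, ?_, ?_⟩
  · have := F2b_key h1 e he (fun m => (Q m)ᶜ) (fun m => (h m).1)
    simpa only [Set.mem_compl_iff, not_not] using this
  · exact Filter.Eventually.of_forall fun m => (h m).2.top
  · intro x y hxy hx
    rw [eventually_sumF] at hxy
    have hx' : ∀ᶠ m in atTop, (fun j => x (Nat.pair m j)) ∈ Q m := hx
    change ∀ᶠ m in atTop, (fun j => y (Nat.pair m j)) ∈ Q m
    filter_upwards [hxy, hx'] with m hm hm'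
    exact (h m).2.inv _ _ hm hm'
  · intro x hx
    have hx' : ∀ᶠ m in atTop, (fun j => x (Nat.pair m j)) ∈ Q m := hx
    obtain ⟨m, hm⟩ := hx'.exists
    exact F2b_inf ((h m).2.inf _ hm)

theorem sum_good₂ {α : Ordinal.{0}} (h1 : 1 < α) (e : ℕ → Ordinal.{0}) (he : ∀ m, e m < α)
    (𝓕 : ℕ → Filter ℕ) (Q : ℕ → Set Cn)
    (h : ∀ m, SG (Clop Cn) (e m + 1) (Q m) ∧ Good (𝓕 m) (Q m)) :
    ∃ Q', SG (Clop Cn) (α + 1) Q'ᶜ ∧ Good (sumF 𝓕) Q' := by
  classical
  refine ⟨{x | ∃ᶠ m in atTop, (fun j => x (Nat.pair m j)) ∈ Q m}, ?_, ?_, ?_, ?_⟩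
  · have := F2b_key h1 e he Q (fun m => (h m).1)
    have hE : {x : Cn | ∃ᶠ m in atTop, (fun j => x (Nat.pair m j)) ∈ Q m}ᶜ =
        {x | ∀ᶠ m in atTop, (fun j => x (Nat.pair m j)) ∉ Q m} := by
      ext x
      simp only [Set.mem_compl_iff, Set.mem_ofPred_eq, Filter.not_frequently]
    rw [hE]
    exact this
  · exact (Filter.Eventually.of_forall fun m => (h m).2.top).frequently
  · intro x y hxy hx
    rw [eventually_sumF] at hxy
    have hx' : ∃ᶠ m in atTop, (fun j => x (Nat.pair m j)) ∈ Q m := hx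
    change ∃ᶠ m in atTop, (fun j => y (Nat.pair m j)) ∈ Q m
    refine (hx'.and_eventually hxy).mono ?_
    rintro m ⟨hm', hm⟩
    exact (h m).2.inv _ _ hm hm'
  · intro x hx
    have hx' : ∃ᶠ m in atTop, (fun j => x (Nat.pair m j)) ∈ Q m := hx
    obtain ⟨m, hm⟩ := hx'.exists
    exact F2b_inf ((h m).2.inf _ hm)

end Pool.Agent.LibBd83
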