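import Pool.Agent.LibBd83.A1
import Pool.Agent.LibBc83.I2
import Pool.Agent.LibBc83.ZB
import Pool.Agent.LibBc83.Henkin

/-!
The theorem for the classes of finite order.
-/

namespace Pool.Agent.LibBd83

open MeasureTheory Set Filter Pool.Agent.LibTk83 Pool.Agent.LibBc83

theorem top_ne_bot_MB : (⊤ : MB) ≠ ⊥ := by
  rw [← cl_univ]
  intro h
  rw [cl_eq_bot MeasurableSet.univ] at h
  simp at h

theorem countable_Iio_nat (n : ℕ) : (Set.Iio (n : Ordinal.{0})).Countable := by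
  refine (Set.countable_range (fun k : ℕ => (k : Ordinal.{0}))).mono ?_
  intro γ hγ
  obtain ⟨k, rfl⟩ := Ordinal.lt_omega0.1 (lt_trans hγ (Ordinal.nat_lt_omega0 n))
  exact ⟨k, rfl⟩

/-- For each `n ≥ 1` there is a model of ZF with countable choice for `Σ⁰ₙ`, for `Π⁰ₙ` and for
uniformly `Σ⁰ₙ₊₁` sequences, but not for `Σ⁰ₙ₊₁`, not for `Π⁰ₙ₊₁` and not for uniformly `Σ⁰ₙ₊₂`
sequences. -/
theorem exists_fin (n : ℕ) (hn : 1 ≤ n) : ∃ (M : Type) (E : M → M → Prop), IsZF E ∧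
    ACR E n ∧ ACP E n ∧ ACU E (n + 1) ∧ ¬ ACR E (n + 1) ∧ ¬ ACP E (n + 1) ∧ ¬ ACU E (n + 2) := by
  have hn' : (1 : Ordinal.{0}) ≤ (n : Ordinal.{0}) := by exact_mod_cast hn
  have hc := countable_Iio_nat n
  obtain ⟨𝓕, h𝓕, hL, ⟨Q₁, hQ₁, hG₁⟩, ⟨Q₂, hQ₂, hG₂⟩⟩ := fil n hn' hc
  let X : SM MB (Gp 𝓕) (famD 𝓕) := mkSM isFam
  have hsm : ∀ (s : Bool) (γ : Ordinal.{0}), 1 ≤ γ → γ ≤ n → Small 𝓕 s γ :=
    fun s γ h1 h2 => small_of h𝓕 hc hL s h1 h2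
  let v₀ : ℕ → X.N := fun _ => X.om
  have hv : v₀ 0 = X.om := rfl
  have e1 : X.val (Fm'.acF true n 0) v₀ = ⊤ :=
    val_acF_top X true n hn v₀ 0 hv fun t => ac_pos h𝓕 X true hn' (hsm _ _ hn' le_rfl) t
  have e2 : X.val (Fm'.acF false n 0) v₀ = ⊤ :=
    val_acF_top X false n hn v₀ 0 hv fun t => ac_pos h𝓕 X false hn' (hsm _ _ hn' le_rfl) t
  have e3 : X.val (Fm'.acuF (n + 1) 0) v₀ = ⊤ := by
    refine val_acuF_top X (n + 1) (by omega) v₀ 0 hv fun t a g => ?_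
    refine acu_pos h𝓕 X (fun γ h1 h2 => hsm false γ h1 ?_) t a g
    rw [Nat.cast_succ] at h2
    exact Order.lt_add_one_iff.1 h2
  have e4 : X.val (Fm'.acF true (n + 1) 0) v₀ = ⊥ := by
    obtain ⟨t, A, h⟩ := ac_neg h𝓕 X true _ Q₁ hG₁ (by simpa using hQ₁)
    refine val_acF_bot X true (n + 1) (by omega) v₀ 0 hv t A h.rl h.seq ?_ h.ne h.no
    rw [Nat.cast_succ]
    exact h.cls
  have e5 : X.val (Fm'.acF false (n + 1) 0) v₀ = ⊥ := by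
    obtain ⟨t, A, h⟩ := ac_neg h𝓕 X false _ Q₂ hG₂ (by simpa using hQ₂)
    refine val_acF_bot X false (n + 1) (by omega) v₀ 0 hv t A h.rl h.seq ?_ h.ne h.no
    rw [Nat.cast_succ]
    exact h.cls
  have e6 : X.val (Fm'.acuF (n + 2) 0) v₀ = ⊥ := by
    obtain ⟨t, a, A, h, ha, ha'⟩ := acu_neg h𝓕 X _ Q₂ hG₂ hQ₂
    have hcast : ((n + 2 : ℕ) : Ordinal.{0}) = (n : Ordinal.{0}) + 1 + 1 := by
      rw [show n + 2 = (n + 1) + 1 from rfl, Nat.cast_succ, Nat.cast_succ]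
    refine val_acuF_bot X (n + 2) (by omega) v₀ 0 hv t a A h.rl h.seq ?_ h.ne ha ?_ h.no
    · rw [hcast]
      exact h.cls
    · rw [hcast]
      exact ha'
  obtain ⟨M, E, c, h1, h2⟩ := henkin X.eqax ⊤ top_ne_bot_MB v₀ 1 (by norm_num) (fun _ _ => rfl)
  have : Nonempty M := ⟨c 0⟩
  have hZF : IsZF E := isZF_of_ax fun f hf v => h1 f (fun v => (val_ax X f hf v).ge) v
  have hom : Om E (c 0) := by
    have := h2 (.om 0) (SM.val_om v₀ 0 rfl).ge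
    rwa [sat_om] at this
  have hneg : ∀ f : Fm, X.val f v₀ = ⊥ → ¬ Sat E f c := by
    intro f hf
    have := h2 (.neg f) (by
      change ⊤ ≤ (X.val f v₀)ᶜ
      rw [hf, compl_bot])
    rwa [sat_neg] at this
  have s1 := h2 _ e1.ge
  have s2 := h2 _ e2.ge
  have s3 := h2 _ e3.ge
  have s4 := hneg _ e4
  have s5 := hneg _ e5
  have s6 := hneg _ e6
  rw [sat_acF hZF _ _ _ _ hom] at s1 s2 s4 s5
  rw [sat_acuF hZF _ _ _ hom] at s3 s6
  exact ⟨M, E, hZF, by simpa using s1, by simpa using s2, s3, by simpa using s4,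
    by simpa using s5, s6⟩

end Pool.Agent.LibBd83
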