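import Pool.Agent.LibBd83.V0
import Pool.Agent.LibBc83.RH

/-!
BD83 V2. Sufficient conditions for the truth value `⊤` of: open, union of a sequence, complement.

Plan. `vOpen_top`: unfold `vOpen` (`Fm.opn`; the private lemma `RE_open` in `LibBc83/RE.lean` can be
copied): for `x` in `A` one needs `⨆ n, mem n om ⊓ ⨅ y, vReal y ⇨ (agree below n x y ⇨ mem y A)`; by
`h'`, `mem x A ≤ ⨆ s, str (dig x) s ⊓ c s`, `c s = ⨅ y, vReal y ⊓ str (dig y) s ⇨ mem y A`; for given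
`s` take `n = nat s.length`: if `y` agrees with `x` below `s.length` and `str (dig x) s` then
`str (dig y) s` (`dig y l a` for `l < s.length`, `s[l] = a`, from
`⨅ i, mem i n ⇨ ⨅ m, (rl x i m ⇨ rl y i m) ⊓ ..` at `i = nat l`, `m = nat a`, `mem_nat_of_lt`).
`vUn_top`: unfold `vUn` (`Fm.union`; private lemma `RD_vUn_eq` in `LibBc83/RD.lean`): the value is
`⨅ x, (mem x A ⇨ ⨆ n, ⨆ z, mem n om ⊓ (rl g n z ⊓ mem x z)) ⊓ (.. ⇨ mem x A)`; with `hg`:
`⨆ n, ⨆ z, ..` is `⨆ n : ℕ, mem x (C n)` (`SM.iSup_om`, and `Ext`).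
-/

namespace Pool.Agent.LibBd83

open Pool.Agent.LibBc83

variable {B : Type} [CompleteBooleanAlgebra B] {G : Type} [Group G] [MulAction G B]
  [OrdAct G B] {Fam : Set (Set G)} (X : SM B G Fam)

section V2_help

open Pool.Agent.LibBc83.SM

variable {X}

/-- agreement below `n` -/
private noncomputable def V2_ag (n x y : X.N) : B :=
  ⨅ i, X.mem i n ⇨ ⨅ m, (X.rl x i m ⇨ X.rl y i m) ⊓ (X.rl y i m ⇨ X.rl x i m)

private theorem V2_open (U : X.N) : X.vOpen U = (⨅ x, X.mem x U ⇨ X.vReal x) ⊓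
    ⨅ x, X.mem x U ⇨ ⨆ n, X.mem n X.om ⊓ ⨅ y, X.vReal y ⇨ (V2_ag n x y ⇨ X.mem y U) := by
  have hr : ∀ (v : ℕ → X.N) (w x : ℕ), v w = X.om →
      ev X.mem X.eq (.real w x) v = X.vReal (v x) := fun v w x h => val_real v w x h
  have hl : ∀ (v : ℕ → X.N) (f x y : ℕ),
      ev X.mem X.eq (.rel f x y) v = X.rl (v f) (v x) (v y) := fun v f x y => val_rel v f x y
  have h2 : ∀ x : X.N, ev X.mem X.eq (.real 2 0) (cons x (cons U fun _ => X.om)) = X.vReal x :=
    fun x => hr _ 2 0 rfl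
  have h3 : ∀ x n y : X.N, ev X.mem X.eq (.real 4 0)
      (cons y (cons n (cons x (cons U fun _ => X.om)))) = X.vReal y :=
    fun x n y => hr _ 4 0 rfl
  have h4 : ∀ x n y : X.N, ev X.mem X.eq (.agr 1 2 0)
      (cons y (cons n (cons x (cons U fun _ => X.om)))) = V2_ag n x y := by
    intro x n y
    simp only [Fm.agr, ev_all, ev_imp, ev_iff, ev_mem, hl]
    rfl
  unfold vOpen SM.val Fm.opn
  simp only [ev_and, ev_all, ev_imp, ev_ex, ev_mem]
  refine congrArg₂ (fun a c : B => a ⊓ c) ?_ ?_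
  · refine iInf_congr fun x => ?_
    exact congrArg (fun a => X.mem x U ⇨ a) (h2 x)
  · refine iInf_congr fun x => ?_
    refine congrArg (fun a => X.mem x U ⇨ a) ?_
    refine iSup_congr fun n => ?_
    refine congrArg (fun a => X.mem n X.om ⊓ a) ?_
    refine iInf_congr fun y => ?_
    exact congrArg₂ (fun a c => a ⇨ (c ⇨ X.mem y U)) (h3 x n y) (h4 x n y)

private theorem V2_ag_str (x y : X.N) (s : List ℕ) :
    V2_ag (X.nat s.length) x y ⊓ str (X.dig x) s ≤ str (X.dig y) s := by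
  refine le_iInf fun l => le_iInf fun m => le_iInf fun hl => ?_
  have hn : l < s.length := (List.getElem?_eq_some_iff.1 hl).1
  have h1 : V2_ag (X.nat s.length) x y ≤ X.dig x l m ⇨ X.dig y l m := by
    unfold V2_ag
    refine (iInf_le _ (X.nat l)).trans ?_
    rw [X.mem_nat_of_lt hn, top_himp]
    exact (iInf_le _ (X.nat m)).trans inf_le_left
  have h2 : str (X.dig x) s ≤ X.dig x l m :=
    (iInf_le _ l).trans ((iInf_le _ m).trans (iInf_le _ hl))
  exact (inf_le_inf h1 h2).trans himp_inf_le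

private theorem V2_vUn_eq (A g : X.N) : X.vUn A g =
    ⨅ x, (X.mem x A ⇨ ⨆ n, ⨆ z, X.mem n X.om ⊓ (X.rl g n z ⊓ X.mem x z)) ⊓
      ((⨆ n, ⨆ z, X.mem n X.om ⊓ (X.rl g n z ⊓ X.mem x z)) ⇨ X.mem x A) := by
  have hl : ∀ (v : ℕ → X.N) (f x y : ℕ),
      ev X.mem X.eq (.rel f x y) v = X.rl (v f) (v x) (v y) := fun v f x y => val_rel v f x y
  unfold vUn SM.val Fm.union
  simp only [ev_and, ev_all, ev_ex, ev_iff, ev_mem, hl, cons_zero, cons_succ]

private theorem V2_un (g x : X.N) (C : ℕ → X.N)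
    (hg : ∀ n y, X.rl g (X.nat n) y = X.eq y (C n)) :
    (⨆ n, ⨆ z, X.mem n X.om ⊓ (X.rl g n z ⊓ X.mem x z)) = ⨆ n, X.mem x (C n) := by
  have hE : X.Ext (fun n => ⨆ z, X.rl g n z ⊓ X.mem x z) :=
    Ext.iSup fun z => Ext.inf (X.ext_rl_mid g z) (Ext.const _)
  have h1 : (⨆ n, ⨆ z, X.mem n X.om ⊓ (X.rl g n z ⊓ X.mem x z)) =
      ⨆ n, X.mem n X.om ⊓ ⨆ z, X.rl g n z ⊓ X.mem x z :=
    iSup_congr fun n => (inf_iSup_eq _ _).symm
  rw [h1, iSup_om hE]
  refine iSup_congr fun n => ?_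
  apply le_antisymm
  · refine iSup_le fun z => ?_
    rw [hg]
    exact Ext.mem_right x z (C n)
  · refine le_iSup_of_le (C n) ?_
    rw [hg, X.eqax.refl, top_inf_eq]

end V2_help

theorem vOpen_top (A : X.N) (h : ∀ x, X.mem x A ≤ X.vReal x)
    (h' : ∀ x, X.mem x A ≤ ⨆ s : List ℕ, str (X.dig x) s ⊓
      ⨅ y, X.vReal y ⊓ str (X.dig y) s ⇨ X.mem y A) : X.vOpen A = ⊤ := by
  rw [V2_open, eq_top_iff]
  refine le_inf (le_iInf fun x => ?_) (le_iInf fun x => ?_)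
  · rw [le_himp_iff, top_inf_eq]
    exact h x
  · rw [le_himp_iff, top_inf_eq]
    refine (le_inf (h x) (h' x)).trans ?_
    rw [inf_iSup_eq]
    refine iSup_le fun s => ?_
    refine le_iSup_of_le (X.nat s.length) (le_inf ?_ (le_iInf fun y => ?_))
    · rw [X.nat_mem_om]
      exact le_top
    · rw [le_himp_iff, le_himp_iff]
      have h1 : (⨅ y, X.vReal y ⊓ str (X.dig y) s ⇨ X.mem y A) ≤
          X.vReal y ⊓ str (X.dig y) s ⇨ X.mem y A := iInf_le _ y
      have h2 := V2_ag_str x y s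
      refine le_trans (le_inf ?_ ?_) (himp_inf_le (a := X.vReal y ⊓ str (X.dig y) s)
        (b := X.mem y A))
      · exact (inf_le_left.trans (inf_le_left.trans (inf_le_right.trans inf_le_right))).trans h1
      · refine le_inf (inf_le_left.trans inf_le_right) ?_
        refine le_trans (le_inf inf_le_right ?_) h2
        exact inf_le_left.trans (inf_le_left.trans (inf_le_right.trans inf_le_left))

theorem vUn_top (A g : X.N) (C : ℕ → X.N) (hg : ∀ n y, X.rl g (X.nat n) y = X.eq y (C n))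
    (hA : ∀ x, X.mem x A = ⨆ n, X.mem x (C n)) : X.vUn A g = ⊤ := by
  rw [V2_vUn_eq]
  refine iInf_eq_top.2 fun x => ?_
  rw [V2_un g x C hg, hA, himp_self, inf_idem]

theorem vCo_top (z c : X.N) (h : ∀ x, X.mem x z = X.vReal x ⊓ (X.mem x c)ᶜ) : vCo X z c = ⊤ := by
  unfold vCo
  refine iInf_eq_top.2 fun x => ?_
  rw [h, himp_self, inf_idem]

theorem vTm_top (β : Ordinal.{0}) (g : X.N) (C : ℕ → X.N)
    (hg : ∀ n y, X.rl g (X.nat n) y = X.eq y (C n)) (γ : ℕ → Ordinal.{0}) (hγ : ∀ n, γ n < β)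
    (hC : ∀ n, vP X (γ n) (C n) = ⊤) (hE : ∀ n, X.Ext (vP X (γ n))) : vTm X β g = ⊤ := by
  unfold vTm
  refine iInf_eq_top.2 fun n => iInf_eq_top.2 fun z => ?_
  rw [himp_eq_top_iff, hg]
  refine le_iSup_of_le ⟨γ n, hγ n⟩ ?_
  have h1 := hE n (C n) z
  rw [hC n, inf_top_eq, X.eqax.symm] at h1
  exact h1

end Pool.Agent.LibBd83
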