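import Pool.Agent.LibBd83.R1
import Pool.Agent.LibBd83.V2

/-!
BD83 G1. Names of the sets given by `R` in the classes over the sets which depend on the
blocks in `F`.

Plan. `exists_set`: strong induction on `β` (for all `R`). `β = 1`: `R = ⋃ n, D n`,
`D n = {p | p.1 ∈ U n (seg p.2 (m n))}`, `U n s ∈ MD (cs F)`. Let
`φ x = ⨆ n, ⨆ s, ⨆ (_ : s.length = m n), str (X.dig x) s ⊓ cl (U n s)` and `A` from `SM.exists_rset`
(`Ext`: `str (dig x) s` respects equality (`SM.ext_dig`, `Ext.iInf`); `Inv`: `SM.dig_act`,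
`smul_iSup'`, `smul_inf'`, and `γ • cl (U n s) = cl (U n s)` for `γ ∈ fixS 𝓕 F`, `smul_cl`, `DpS`).
`mem (nm f) A = cl {w | (w, f w) ∈ R}` by `str_nm`, `cl_inter`, `cl_iUnion`, `vReal_nm`. `vS X 1 A = ⊤` by
`vS_one`, `vOpen_top`: below `str (dig x) s ⊓ cl (U n s)`, for each `y` with
`vReal y ⊓ str (dig y) s`, `y` is in `A`.
`1 < β`: `R = ⋃ n, (D n)ᶜ`, `SG (RB (MD (cs F))) (γ n) (D n)`; names `C n` of `D n` by induction, with the
support `fixS 𝓕 F`; `D' n` with `mem x (D' n) = vReal x ⊓ (mem x (C n))ᶜ` (`SM.exists_rset`), so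
`vCo X (D' n) (C n) = ⊤` (`vCo_top`) and `vP X (γ n) (D' n) = ⊤`; `g` the sequence of the `D' n`
(`SM.exists_seqN`), and `A` with `mem x A = vReal x ⊓ ⨆ n, (mem x (C n))ᶜ = ⨆ n, mem x (D' n)`;
`vS_gt`, `vTm_top` (`ext_vP`), `vUn_top`.
`exists_setP`: the complement of the name for `Rᶜ`.
`eq_of_nm`: `SM.ext` or `SM.eq_top_of`: for each `x`, `mem x A ≤ vReal x ⊓ mem x A ≤
⨆ f, eq x (nm f) ⊓ mem (nm f) A ≤ mem x A'` (`le_iSup_nm`).
`fixS_cl`: `smul_cl`: `tr γ w` and `w` agree on `cs F`.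
-/

namespace Pool.Agent.LibBd83

open MeasureTheory Set Filter Pool.Agent.LibTk83 Pool.Agent.LibBc83

variable {𝓕 : Filter ℕ} (X : SM MB (Gp 𝓕) (famD 𝓕))

theorem fixS_cl {F : Set ℕ} {A : Set W} (hA : A ∈ MD (cs F)) (γ : Gp 𝓕) (hγ : γ ∈ fixS 𝓕 F) :
    γ • cl A = cl A := by
  rw [smul_cl γ hA.1]
  congr 1
  ext w
  refine hA.2 (tr γ.1 w) w fun c hc => ?_
  simp only [tr]
  rw [hγ c hc, Bool.false_xor]

private theorem G1_ext_str (s : List ℕ) : X.Ext (fun x => str (X.dig x) s) := by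
  unfold str
  exact SM.Ext.iInf fun i => SM.Ext.iInf fun m => SM.Ext.iInf fun _ => X.ext_dig i m

private theorem G1_str_act (g : Gp 𝓕) (x : X.N) (s : List ℕ) :
    str (X.dig (X.act g x)) s = g • str (X.dig x) s := by
  unfold str
  rw [smul_iInf']
  refine iInf_congr fun i => ?_
  rw [smul_iInf']
  refine iInf_congr fun m => ?_
  rw [smul_iInf']
  exact iInf_congr fun _ => X.dig_act g x i m

private theorem G1_seg_length (x : ℕ → ℕ) (m : ℕ) : (seg x m).length = m := by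
  simp [seg]

private theorem G1_measurableSet_seg (f : SF) (m : ℕ) (s : List ℕ) :
    MeasurableSet {w | seg (f.1 w) m = s} :=
  f.2.1 (measurableSet_seg m s)

private theorem G1_iUnion_pos {p : Prop} {A : Set W} (hp : p) : (⋃ (_ : p), A) = A := by
  ext w
  simp [hp]

private theorem G1_iUnion_neg {p : Prop} {A : Set W} (hp : ¬ p) : (⋃ (_ : p), A) = ∅ := by
  ext w
  simp [hp]

private theorem G1_base {F : Set ℕ} (hF : F.Finite) (D : ℕ → Set (W × (ℕ → ℕ)))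
    (h : ∀ n, D n ∈ RB (MD (cs F))) :
    ∃ A : X.N, X.Supp (fixS 𝓕 F) A ∧ vS X 1 A = ⊤ ∧ (∀ x, X.mem x A ≤ X.vReal x) ∧
      ∀ f : SF, X.mem (nm X f) A = cl {w | (w, f.1 w) ∈ ⋃ n, D n} := by
  choose m U hU hD using h
  have hE : X.Ext (fun x => ⨆ n, ⨆ s : List ℕ, ⨆ (_ : s.length = m n),
      str (X.dig x) s ⊓ cl (U n s)) :=
    SM.Ext.iSup fun n => SM.Ext.iSup fun s => SM.Ext.iSup fun _ =>
      SM.Ext.inf (G1_ext_str X s) (SM.Ext.const _)
  have hI : X.Inv (fixS 𝓕 F) (fun x => ⨆ n, ⨆ s : List ℕ, ⨆ (_ : s.length = m n),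
      str (X.dig x) s ⊓ cl (U n s)) := by
    intro g hg x
    beta_reduce
    rw [smul_iSup']
    refine iSup_congr fun n => ?_
    rw [smul_iSup']
    refine iSup_congr fun s => ?_
    rw [smul_iSup']
    refine iSup_congr fun _ => ?_
    rw [smul_inf', fixS_cl (hU n s) g hg, G1_str_act]
  obtain ⟨A, hA1, hA2⟩ := SM.exists_rset (X := X) hE (fixS_mem hF) hI
  have hr : ∀ x, X.mem x A ≤ X.vReal x := fun x => (hA2 x).le.trans inf_le_left
  refine ⟨A, hA1, ?_, hr, ?_⟩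
  · rw [vS_one]
    refine vOpen_top X A hr fun x => ?_
    rw [hA2 x]
    refine inf_le_right.trans (iSup_le fun n => iSup_le fun s => iSup_le fun hs => ?_)
    refine le_iSup_of_le s (inf_le_inf_left _ (le_iInf fun y => ?_))
    rw [le_himp_iff, hA2 y]
    refine le_inf (inf_le_right.trans inf_le_left) ?_
    exact le_iSup_of_le n (le_iSup_of_le s (le_iSup_of_le hs
      (le_inf (inf_le_right.trans inf_le_right) inf_le_left)))
  · intro f
    rw [hA2 (nm X f), vReal_nm, top_inf_eq]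
    have hset : {w | (w, f.1 w) ∈ ⋃ n, D n} = ⋃ n, ⋃ s : List ℕ, ⋃ (_ : s.length = m n),
        ({w | seg (f.1 w) s.length = s} ∩ U n s) := by
      ext w
      simp only [mem_ofPred_eq, mem_iUnion, mem_inter_iff]
      constructor
      · rintro ⟨n, hn⟩
        rw [hD n] at hn
        refine ⟨n, seg (f.1 w) (m n), G1_seg_length _ _, ?_, hn⟩
        rw [G1_seg_length]
      · rintro ⟨n, s, hs, hs', hw⟩
        refine ⟨n, ?_⟩
        rw [hD n]
        change w ∈ U n (seg (f.1 w) (m n))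
        rw [← hs, hs']
        exact hw
    have hms : ∀ n (s : List ℕ), MeasurableSet ({w | seg (f.1 w) s.length = s} ∩ U n s) :=
      fun n s => (G1_measurableSet_seg f s.length s).inter (hU n s).1
    rw [hset, cl_iUnion _ fun n => MeasurableSet.iUnion fun s => MeasurableSet.iUnion fun _ =>
      hms n s]
    refine iSup_congr fun n => ?_
    rw [cl_iUnion _ fun s => MeasurableSet.iUnion fun _ => hms n s]
    refine iSup_congr fun s => ?_
    by_cases hs : s.length = m n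
    · rw [iSup_pos hs, G1_iUnion_pos hs,
        cl_inter (G1_measurableSet_seg f s.length s) (hU n s).1, str_nm]
    · rw [iSup_neg hs, G1_iUnion_neg hs, cl_empty]

private theorem G1_rb {F : Set ℕ} : RB (MD (cs F)) ⊆ RB MS := by
  rintro R ⟨m, U, hU, rfl⟩
  exact ⟨m, U, fun s => (hU s).1, rfl⟩

private theorem G1_step {F : Set ℕ} (hF : F.Finite) (β : Ordinal.{0}) (hβ : 1 < β)
    (D : ℕ → Set (W × (ℕ → ℕ))) (γ : ℕ → Ordinal.{0}) (hγ : ∀ n, γ n < β)
    (h : ∀ n, SG (RB (MD (cs F))) (γ n) (D n))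
    (ih : ∀ n, ∃ A : X.N, X.Supp (fixS 𝓕 F) A ∧ vS X (γ n) A = ⊤ ∧
      (∀ x, X.mem x A ≤ X.vReal x) ∧ ∀ f : SF, X.mem (nm X f) A = cl {w | (w, f.1 w) ∈ D n}) :
    ∃ A : X.N, X.Supp (fixS 𝓕 F) A ∧ vS X β A = ⊤ ∧ (∀ x, X.mem x A ≤ X.vReal x) ∧
      ∀ f : SF, X.mem (nm X f) A = cl {w | (w, f.1 w) ∈ ⋃ n, (D n)ᶜ} := by
  choose C hC1 hC2 hC3 hC4 using ih
  have hE : ∀ n, X.Ext (fun x => (X.mem x (C n))ᶜ) := fun n =>
    SM.Ext.compl (SM.Ext.mem_left (C n))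
  have hI : ∀ n, X.Inv (fixS 𝓕 F) (fun x => (X.mem x (C n))ᶜ) := by
    intro n g hg x
    beta_reduce
    rw [smul_compl']
    exact congrArg _ (SM.Inv.mem (hC1 n) g hg x)
  have hDn : ∀ n, ∃ u, X.Supp (fixS 𝓕 F) u ∧ ∀ x, X.mem x u = X.vReal x ⊓ (X.mem x (C n))ᶜ :=
    fun n => SM.exists_rset (X := X) (hE n) (fixS_mem hF) (hI n)
  choose D' hD1 hD2 using hDn
  obtain ⟨g, hg1, hg2, hg3⟩ := SM.exists_seqN X D' (fixS_mem hF) hD1
  obtain ⟨A, hA1, hA2⟩ := SM.exists_rset (X := X) (φ := fun x => ⨆ n, (X.mem x (C n))ᶜ)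
    (SM.Ext.iSup hE) (fixS_mem hF) (by
      intro g hg x
      beta_reduce
      rw [smul_iSup']
      exact iSup_congr fun n => hI n g hg x)
  have hr : ∀ x, X.mem x A ≤ X.vReal x := fun x => (hA2 x).le.trans inf_le_left
  refine ⟨A, hA1, ?_, hr, ?_⟩
  · rw [vS_gt X hβ, eq_top_iff]
    refine le_iSup_of_le g ?_
    rw [hg2]
    have h1 : vTm X β g = ⊤ := by
      refine vTm_top X β g D' hg3 γ hγ (fun n => ?_) (fun n => ext_vP X (γ n))
      rw [vP, eq_top_iff]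
      refine le_iSup_of_le (C n) ?_
      rw [hC2 n, vCo_top X (D' n) (C n) (hD2 n), top_inf_eq]
    have h2 : X.vUn A g = ⊤ := by
      refine vUn_top X A g D' hg3 fun x => ?_
      rw [hA2 x, inf_iSup_eq]
      exact iSup_congr fun n => (hD2 n x).symm
    rw [h1, h2, top_inf_eq, top_inf_eq]
  · intro f
    have hm : ∀ n, MeasurableSet {w | (w, f.1 w) ∈ D n} := fun n =>
      meas_R (SG.alg_mono G1_rb (h n)) f.1 f.2.1
    have hset : {w | (w, f.1 w) ∈ ⋃ n, (D n)ᶜ} = ⋃ n, {w | (w, f.1 w) ∈ D n}ᶜ := by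
      ext w
      simp only [mem_ofPred_eq, mem_iUnion, mem_compl_iff]
    rw [hA2 (nm X f), vReal_nm, top_inf_eq, hset, cl_iUnion _ fun n => (hm n).compl]
    refine iSup_congr fun n => ?_
    rw [hC4 n f, cl_compl (hm n)]

theorem exists_set {F : Set ℕ} (hF : F.Finite) (β : Ordinal.{0}) (R : Set (W × (ℕ → ℕ)))
    (hR : SG (RB (MD (cs F))) β R) :
    ∃ A : X.N, X.Supp (fixS 𝓕 F) A ∧ vS X β A = ⊤ ∧ (∀ x, X.mem x A ≤ X.vReal x) ∧
      ∀ f : SF, X.mem (nm X f) A = cl {w | (w, f.1 w) ∈ R} := by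
  induction hR with
  | base f h => exact G1_base X hF f h
  | step β hβ f γ hγ h ih => exact G1_step X hF β hβ f γ hγ h ih

end Pool.Agent.LibBd83
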