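import Pool.Agent.LibBd83.G1

/-!
BD83 G1b. Names of sets in `Π⁰_β`; equality of names of sets of reals.

Plan. `exists_setP`: let `C` be the name for `Rᶜ` (`exists_set`) and `A` with
`mem x A = vReal x ⊓ (mem x C)ᶜ` (`SM.exists_rset`; support by `SM.supp_of_mem` or from
`exists_rset`); `vCo X A C = ⊤` (`vCo_top`), `cl_compl`, `vReal_nm`; the sets `{w | (w, f w) ∈ R}` are
measurable (`meas_R` with `SG.alg_mono`, complement).
`eq_of_nm`: `SM.eq_top_of`: for each `x`, `mem x A ≤ vReal x ⊓ mem x A ≤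
⨆ f, eq x (nm f) ⊓ mem (nm f) A = ⨆ f, eq x (nm f) ⊓ mem (nm f) A' ≤ mem x A'` (`le_iSup_nm`).
-/

namespace Pool.Agent.LibBd83

open MeasureTheory Set Filter Pool.Agent.LibTk83 Pool.Agent.LibBc83

variable {𝓕 : Filter ℕ} (X : SM MB (Gp 𝓕) (famD 𝓕))

theorem exists_setP {F : Set ℕ} (hF : F.Finite) (β : Ordinal.{0}) (R : Set (W × (ℕ → ℕ)))
    (hR : SG (RB (MD (cs F))) β Rᶜ) :
    ∃ A : X.N, X.Supp (fixS 𝓕 F) A ∧ vP X β A = ⊤ ∧ (∀ x, X.mem x A ≤ X.vReal x) ∧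
      ∀ f : SF, X.mem (nm X f) A = cl {w | (w, f.1 w) ∈ R} := by
  obtain ⟨C, hC1, hC2, -, hC4⟩ := exists_set X hF β Rᶜ hR
  obtain ⟨A, hA1, hA2⟩ := SM.exists_rset (X := X) (φ := fun x => (X.mem x C)ᶜ)
    (SM.Ext.compl (SM.Ext.mem_left C)) (fixS_mem hF) (by
      intro g hg x
      change (X.mem (X.act g x) C)ᶜ = g • (X.mem x C)ᶜ
      have h1 : X.mem (X.act g x) C = g • X.mem x C := SM.Inv.mem hC1 g hg x
      rw [h1, smul_compl'])
  refine ⟨A, hA1, ?_, fun x => ?_, fun f => ?_⟩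
  · rw [vP, eq_top_iff]
    refine le_trans ?_ (le_iSup (fun c => vS X β c ⊓ vCo X A c) C)
    change ⊤ ≤ vS X β C ⊓ vCo X A C
    rw [hC2, vCo_top X A C hA2, top_inf_eq]
  · rw [hA2]
    exact inf_le_left
  · have hm : MeasurableSet {w | (w, f.1 w) ∈ Rᶜ} := by
      refine meas_R (β := β) (SG.alg_mono ?_ hR) f.1 f.2.1
      rintro _ ⟨m, U, hU, rfl⟩
      exact ⟨m, U, fun s => (hU s).1, rfl⟩
    rw [hA2, vReal_nm, hC4, top_inf_eq, ← cl_compl hm]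
    congr 1
    ext w
    simp only [mem_compl_iff, mem_setOf_eq, not_not]

private theorem G1b_le (h𝓕 : 𝓕 ≤ cofinite) (A A' : X.N) (hA : ∀ x, X.mem x A ≤ X.vReal x)
    (h : ∀ f : SF, X.mem (nm X f) A = X.mem (nm X f) A') (x : X.N) :
    X.mem x A ≤ X.mem x A' := by
  refine (le_inf (hA x) le_rfl).trans ?_
  refine (le_iSup_nm h𝓕 X (fun x => X.mem x A) (SM.Ext.mem_left A) x).trans ?_
  refine iSup_le fun f => ?_
  change X.eq x (nm X f) ⊓ X.mem (nm X f) A ≤ _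
  rw [h f, X.eqax.symm]
  exact (SM.Ext.mem_left A') (nm X f) x

theorem eq_of_nm (h𝓕 : 𝓕 ≤ cofinite) (A A' : X.N) (hA : ∀ x, X.mem x A ≤ X.vReal x)
    (hA' : ∀ x, X.mem x A' ≤ X.vReal x) (h : ∀ f : SF, X.mem (nm X f) A = X.mem (nm X f) A') :
    X.eq A A' = ⊤ :=
  SM.eq_top_of A A' fun x => le_antisymm (G1b_le X h𝓕 A A' hA h x)
    (G1b_le X h𝓕 A' A hA' (fun f => (h f).symm) x)

end Pool.Agent.LibBd83
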