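import Pool.Agent.LibBd83.G1b
import Pool.Agent.LibBd83.G2

/-!
BD83 G3. The names of the sets `A_b`.

Plan. `exists_Ab`: `A` from `exists_set` or `exists_setP` (`sg_Rb`, `Rb_compl`) for `F = {b}`. Support: for
every `γ : Gp 𝓕`, `X.eq (X.act γ A) A = ⊤` by `eq_of_nm`: `mem x (act γ A) ≤ vReal x` (reindex,
`SM.vReal_act`), and `mem (nm f) (act γ A) = γ • mem (act γ⁻¹ (nm f)) A = γ • mem (nm (trf γ⁻¹ f)) A
(`act_nm`) = γ • cl {w | (w, f (tr γ w)) ∈ Rb b Q}` (`γ⁻¹.1 = γ.1`) `= cl {w | (tr γ w, f w) ∈ Rb b Q}`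
(`smul_cl`, `tr_tr`) `= cl {w | (w, f w) ∈ Rb b Q}` (`Rb_inv`). Nonempty: `nm X ⟨gg b, _⟩`, `Rb_self`.
-/

namespace Pool.Agent.LibBd83

open MeasureTheory Set Filter Pool.Agent.LibTk83 Pool.Agent.LibBc83

variable {𝓕 : Filter ℕ} (h𝓕 : 𝓕 ≤ cofinite) (X : SM MB (Gp 𝓕) (famD 𝓕))

private theorem G3_meas (s : Bool) (β : Ordinal.{0}) (R : Set (W × (ℕ → ℕ)))
    (hs : SG (RB MS) β (if s then R else Rᶜ)) (f : W → ℕ → ℕ) (hf : Measurable f) :
    MeasurableSet {w | (w, f w) ∈ R} := by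
  cases s with
  | true => exact meas_R hs f hf
  | false =>
    have h := meas_R hs f hf
    have h2 := h.compl
    have h3 : {w | (w, f w) ∈ R} = {w | (w, f w) ∈ (if (false : Bool) then R else Rᶜ)}ᶜ := by
      ext w
      simp
    rw [h3]
    exact h2

private theorem G3_aux (h𝓕 : 𝓕 ≤ cofinite) (Q : Set Cn) (hQ : Good 𝓕 Q) (b : ℕ) (A : X.N)
    (hle : ∀ x, X.mem x A ≤ X.vReal x)
    (hm : ∀ f : SF, MeasurableSet {w | (w, f.1 w) ∈ Rb b Q})
    (hv : ∀ f : SF, X.mem (nm X f) A = cl {w | (w, f.1 w) ∈ Rb b Q}) :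
    X.Supp (fixS 𝓕 ∅) A ∧ (⨆ x, X.mem x A) = ⊤ := by
  constructor
  · intro γ _
    apply eq_of_nm X h𝓕
    · intro x
      obtain ⟨y, rfl⟩ := SM.act_surj γ x
      rw [X.mem_act, SM.vReal_act]
      exact OrdAct.mono γ _ _ (hle y)
    · exact hle
    · intro f
      have hff : trf γ (trf γ f) = f := by
        apply Subtype.ext
        funext w
        change f.1 (tr γ.1 (tr γ.1 w)) = f.1 w
        rw [tr_tr]
      have h1 := act_nm X γ (trf γ f)
      rw [hff] at h1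
      have h2 : X.mem (nm X f) (X.act γ A) = X.mem (X.act γ (nm X (trf γ f))) (X.act γ A) := by
        apply le_antisymm
        · have h3 := X.eqax.meml (nm X f) (X.act γ (nm X (trf γ f))) (X.act γ A)
          rw [X.eqax.symm, h1, top_inf_eq] at h3
          exact h3
        · have h3 := X.eqax.meml (X.act γ (nm X (trf γ f))) (nm X f) (X.act γ A)
          rw [h1, top_inf_eq] at h3
          exact h3
      rw [h2, X.mem_act, hv, hv, smul_cl γ (hm (trf γ f))]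
      congr 1
      ext w
      change (tr γ.1 w, f.1 (tr γ.1 (tr γ.1 w))) ∈ Rb b Q ↔ (w, f.1 w) ∈ Rb b Q
      rw [tr_tr]
      exact Rb_inv b hQ γ w (f.1 w)
  · rw [eq_top_iff]
    let f : SF := ⟨gg b, measurable_gg b, {b}, Set.finite_singleton b, dp_gg b⟩
    refine le_iSup_of_le (nm X f) ?_
    rw [hv]
    have h1 : {w | (w, f.1 w) ∈ Rb b Q} = univ := by
      ext w
      simp only [mem_setOf_eq, mem_univ, iff_true]
      exact Rb_self b hQ w
    rw [h1, cl_univ]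

include h𝓕

theorem exists_Ab (s : Bool) (β : Ordinal.{0}) (Q : Set Cn) (hQ : Good 𝓕 Q)
    (hs : SG (Clop Cn) β (if s then Q else Qᶜ)) (b : ℕ) :
    ∃ A : X.N, X.Supp (fixS 𝓕 ∅) A ∧ vC X s β A = ⊤ ∧ (∀ x, X.mem x A ≤ X.vReal x) ∧
      (⨆ x, X.mem x A) = ⊤ ∧ ∀ f : SF, X.mem (nm X f) A = cl {w | (w, f.1 w) ∈ Rb b Q} := by
  have hRB : RB (MD (cs {b})) ⊆ RB MS := by
    rintro R ⟨m, U, hU, rfl⟩
    exact ⟨m, U, fun s => (hU s).1, rfl⟩
  have hm : ∀ f : SF, MeasurableSet {w | (w, f.1 w) ∈ Rb b Q} := by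
    intro f
    apply G3_meas s β
    · cases s with
      | true => exact (sg_Rb b hs).alg_mono hRB
      | false =>
        have h := (sg_Rb b hs).alg_mono hRB
        simp only [Bool.false_eq_true, if_false] at h ⊢
        rw [Rb_compl]
        exact h
    · exact f.2.1
  cases s with
  | true =>
    obtain ⟨A, -, h2, h3, h4⟩ := exists_set X (Set.finite_singleton b) β (Rb b Q) (sg_Rb b hs)
    obtain ⟨h5, h6⟩ := G3_aux X h𝓕 Q hQ b A h3 hm h4
    exact ⟨A, h5, h2, h3, h6, h4⟩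
  | false =>
    obtain ⟨A, -, h2, h3, h4⟩ := exists_setP X (Set.finite_singleton b) β (Rb b Q)
      (by rw [Rb_compl]; exact sg_Rb b hs)
    obtain ⟨h5, h6⟩ := G3_aux X h𝓕 Q hQ b A h3 hm h4
    exact ⟨A, h5, h2, h3, h6, h4⟩

end Pool.Agent.LibBd83
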