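import Pool.Agent.LibBd83.Z2b

/-!
BD83 Z3. The truth value of `Hat`.

Plan. Unfold `Fm'.hat`: the value is
`⨅ z, mem z a ⇔ ⨆ n, ⨆ A, ⨆ x, mem n om ⊓ (rl t n A ⊓ (mem x A ⊓ prep n x z))`; the supremum over `n` with
`mem n om` is a supremum over `nat n`, `n : ℕ` (`SM.iSup_om` with an `Ext` predicate: it is the value
of a formula, `Ext.val`; or `SM.mem_om` and `ev_congr`). Below `vRT t`, for `x` with
`rl t (nat n) A ⊓ mem x A`, `x` is real, so `val_prep` applies and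
`⨆ A, rl t (nat n) A ⊓ mem x A = inh t n x`.
-/

namespace Pool.Agent.LibBd83

open Pool.Agent.LibBc83

variable {B : Type} [CompleteBooleanAlgebra B] {G : Type} [Group G] [MulAction G B]
  [OrdAct G B] {Fam : Set (Set G)} (X : SM B G Fam)

/-- The truth value of: all members of the terms of `t` are reals. -/
noncomputable def vRT (t : X.N) : B := ⨅ n : ℕ, ⨅ x, X.inh t n x ⇨ X.vReal x

/-- The truth value of: `z` is `n⌢x` with `x` in the `n`-th term of `t`, for some `n`. -/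
noncomputable def vIn (t z : X.N) : B :=
  ⨆ n : ℕ, ⨆ x, X.inh t n x ⊓ (X.vReal x ⊓ X.eq z (prepN X n x))

/-- The truth value of: `a` is the set of the reals `n⌢x` with `x` in the `n`-th term of `t`. -/
noncomputable def vHat (t a : X.N) : B :=
  ⨅ z, (X.mem z a ⇨ vIn X t z) ⊓ (vIn X t z ⇨ X.mem z a)

omit [OrdAct G B] in
private theorem Z3_ext_val (f : Fm) (x A z : X.N) (v : ℕ → X.N) :
    X.Ext (fun n => X.val f (cons x (cons A (cons n (cons z v))))) := by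
  intro n m
  refine ev_congr X.eqax f _ _ _ fun k => ?_
  match k with
  | 0 =>
    change _ ≤ X.eq x x
    rw [X.eqax.refl]
    exact le_top
  | 1 =>
    change _ ≤ X.eq A A
    rw [X.eqax.refl]
    exact le_top
  | 2 => exact le_rfl
  | 3 =>
    change _ ≤ X.eq z z
    rw [X.eqax.refl]
    exact le_top
  | k + 4 =>
    change _ ≤ X.eq (v k) (v k)
    rw [X.eqax.refl]
    exact le_top

private theorem Z3_val (v : ℕ → X.N) (w s a : ℕ) : X.val (Fm'.hat w s a) v =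
    ⨅ z, (X.mem z (v a) ⇨ ⨆ n, ⨆ A, ⨆ x, X.mem n (v w) ⊓ (X.rl (v s) n A ⊓ (X.mem x A ⊓
      X.val (Fm'.prep (w + 4) 2 0 3) (cons x (cons A (cons n (cons z v))))))) ⊓
    ((⨆ n, ⨆ A, ⨆ x, X.mem n (v w) ⊓ (X.rl (v s) n A ⊓ (X.mem x A ⊓
      X.val (Fm'.prep (w + 4) 2 0 3) (cons x (cons A (cons n (cons z v))))))) ⇨
      X.mem z (v a)) := by
  have h2 : ∀ (w : ℕ → X.N) (z x y : ℕ),
      ev X.mem X.eq (.rel z x y) w = X.rl (w z) (w x) (w y) := fun w z x y =>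
    SM.val_rel w z x y
  simp only [SM.val, Fm'.hat, ev_all, ev_iff, ev_ex, ev_and, ev_mem, h2, cons_zero, cons_succ]

omit [MulAction G B] [OrdAct G B] [Group G] in
private theorem Z3_bool (R p m V P E : B) (h : R ⊓ (p ⊓ m) ≤ V) (hP : V ⊓ P = V ⊓ E) :
    R ⊓ (p ⊓ (m ⊓ P)) = R ⊓ (p ⊓ (m ⊓ (V ⊓ E))) := by
  have h1 : R ⊓ (p ⊓ (m ⊓ P)) = (R ⊓ (p ⊓ m)) ⊓ P := by ac_rfl
  have h2 : R ⊓ (p ⊓ m) = (R ⊓ (p ⊓ m)) ⊓ V := (inf_eq_left.2 h).symm
  rw [h1, h2]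
  have h3 : R ⊓ (p ⊓ m) ⊓ V ⊓ P = R ⊓ (p ⊓ (m ⊓ (V ⊓ P))) := by ac_rfl
  rw [h3, hP]

omit [MulAction G B] [OrdAct G B] [Group G] in
private theorem Z3_iff (R S T m : B) (h : R ⊓ S = R ⊓ T) :
    R ⊓ ((m ⇨ S) ⊓ (S ⇨ m)) = R ⊓ ((m ⇨ T) ⊓ (T ⇨ m)) := by
  have key : ∀ S T : B, R ⊓ S = R ⊓ T → R ⊓ ((m ⇨ S) ⊓ (S ⇨ m)) ≤
      R ⊓ ((m ⇨ T) ⊓ (T ⇨ m)) := by
    intro S T h
    refine le_inf inf_le_left (le_inf ?_ ?_)
    · rw [le_himp_iff]
      have h1 : R ⊓ ((m ⇨ S) ⊓ (S ⇨ m)) ⊓ m ≤ R ⊓ S := by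
        refine le_inf (inf_le_left.trans inf_le_left) ?_
        calc R ⊓ ((m ⇨ S) ⊓ (S ⇨ m)) ⊓ m ≤ (m ⇨ S) ⊓ m :=
              inf_le_inf_right _ (inf_le_right.trans inf_le_left)
          _ ≤ S := himp_inf_le
      rw [h] at h1
      exact h1.trans inf_le_right
    · rw [le_himp_iff]
      have h1 : R ⊓ ((m ⇨ S) ⊓ (S ⇨ m)) ⊓ T ≤ R ⊓ T :=
        le_inf (inf_le_left.trans inf_le_left) inf_le_right
      rw [← h] at h1
      calc R ⊓ ((m ⇨ S) ⊓ (S ⇨ m)) ⊓ T ≤ (S ⇨ m) ⊓ S :=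
            le_inf (inf_le_left.trans (inf_le_right.trans inf_le_right))
              (h1.trans inf_le_right)
        _ ≤ m := himp_inf_le
  exact le_antisymm (key S T h) (key T S h.symm)

private theorem Z3_vRT (t x A : X.N) (k : ℕ) :
    vRT X t ⊓ (X.rl t (X.nat k) A ⊓ X.mem x A) ≤ X.vReal x := by
  have h1 : vRT X t ≤ X.inh t k x ⇨ X.vReal x := (iInf_le _ k).trans (iInf_le _ x)
  have h2 : X.rl t (X.nat k) A ⊓ X.mem x A ≤ X.inh t k x :=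
    le_iSup_of_le A le_rfl
  calc vRT X t ⊓ (X.rl t (X.nat k) A ⊓ X.mem x A) ≤ (X.inh t k x ⇨ X.vReal x) ⊓ X.inh t k x :=
        inf_le_inf h1 h2
    _ ≤ X.vReal x := himp_inf_le

private theorem Z3_in (v : ℕ → X.N) (w s : ℕ) (hw : v w = X.om) (z : X.N) :
    vRT X (v s) ⊓ (⨆ n, ⨆ A, ⨆ x, X.mem n (v w) ⊓ (X.rl (v s) n A ⊓ (X.mem x A ⊓
      X.val (Fm'.prep (w + 4) 2 0 3) (cons x (cons A (cons n (cons z v))))))) =
    vRT X (v s) ⊓ vIn X (v s) z := by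
  have e1 : (⨆ n, ⨆ A, ⨆ x, X.mem n (v w) ⊓ (X.rl (v s) n A ⊓ (X.mem x A ⊓
      X.val (Fm'.prep (w + 4) 2 0 3) (cons x (cons A (cons n (cons z v))))))) =
      ⨆ k : ℕ, ⨆ A, ⨆ x, X.rl (v s) (X.nat k) A ⊓ (X.mem x A ⊓
      X.val (Fm'.prep (w + 4) 2 0 3) (cons x (cons A (cons (X.nat k) (cons z v))))) := by
    rw [hw, ← SM.iSup_om (φ := fun n => ⨆ A, ⨆ x, X.rl (v s) n A ⊓ (X.mem x A ⊓
      X.val (Fm'.prep (w + 4) 2 0 3) (cons x (cons A (cons n (cons z v))))))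
      (SM.Ext.iSup fun A => SM.Ext.iSup fun x => SM.Ext.inf (X.ext_rl_mid (v s) A)
        (SM.Ext.inf (SM.Ext.const _) (Z3_ext_val X _ x A z v)))]
    refine iSup_congr fun n => ?_
    rw [inf_iSup_eq]
    refine iSup_congr fun A => ?_
    rw [inf_iSup_eq]
  rw [e1, vIn, inf_iSup_eq, inf_iSup_eq]
  refine iSup_congr fun k => ?_
  rw [inf_iSup_eq, inf_iSup_eq]
  have e2 : ∀ x, vRT X (v s) ⊓ (X.inh (v s) k x ⊓ (X.vReal x ⊓ X.eq z (prepN X k x))) =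
      ⨆ A, vRT X (v s) ⊓ (X.rl (v s) (X.nat k) A ⊓ (X.mem x A ⊓
        (X.vReal x ⊓ X.eq z (prepN X k x)))) := by
    intro x
    rw [SM.inh, iSup_inf_eq, inf_iSup_eq]
    refine iSup_congr fun A => ?_
    rw [inf_assoc (X.rl (v s) (X.nat k) A)]
  rw [iSup_congr e2, iSup_comm]
  refine iSup_congr fun A => ?_
  rw [inf_iSup_eq]
  refine iSup_congr fun x => ?_
  refine Z3_bool _ _ _ _ _ _ (Z3_vRT X (v s) x A k) ?_
  exact val_prep X (cons x (cons A (cons (X.nat k) (cons z v)))) (w + 4) 2 0 3 k hw rfl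

private theorem Z3_vIn_act (g : G) (t z : X.N) :
    vIn X (X.act g t) (X.act g z) = g • vIn X t z := by
  unfold vIn
  rw [smul_iSup']
  refine iSup_congr fun n => ?_
  rw [smul_iSup', ← (SM.act_surj (X := X) g).iSup_comp]
  refine iSup_congr fun x => ?_
  rw [SM.inh_act, SM.vReal_act, smul_inf', smul_inf']
  congr 2
  rw [← X.eq_act]
  exact ((SM.Ext.eq_right (X.act g z)).congr (act_prepN X n g x)).symm

theorem val_hat (v : ℕ → X.N) (w s a : ℕ) (hw : v w = X.om) :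
    vRT X (v s) ⊓ X.val (Fm'.hat w s a) v = vRT X (v s) ⊓ vHat X (v s) (v a) := by
  rw [Z3_val, vHat]
  haveI : Nonempty X.N := ⟨X.om⟩
  rw [inf_iInf, inf_iInf]
  refine iInf_congr fun z => ?_
  exact Z3_iff _ _ _ _ (Z3_in X v w s hw z)

theorem vHat_act (g : G) (t a : X.N) : vHat X (X.act g t) (X.act g a) = g • vHat X t a := by
  unfold vHat
  rw [smul_iInf', ← (SM.act_surj (X := X) g).iInf_comp]
  refine iInf_congr fun z => ?_
  rw [smul_inf', smul_himp', smul_himp', X.mem_act, Z3_vIn_act]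

end Pool.Agent.LibBd83
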