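import Pool.Agent.LibBd83.T4
import Pool.Agent.LibBd83.Z3

/-!
BD83 T5. Members for the terms of a sequence which is uniformly in `Σ⁰_β`.

Plan. Let `F` be a finite set with `X.Supp (fixS 𝓕 F)` for `t`, `a`, `g` (finite union of supports). Fix
`n`; let `b` be the left side of the inequality; it is fixed by `fixS 𝓕 F`, and `b ⊓ inh t n x ≤ vReal x`
(`vC_real`, `SM.vSeq_uniq`). For `m : ℕ` let `φ m x = X.vReal x ⊓ X.inh g m (prepN X n x)` (`Ext`:
`eq_prepN`, `SM.ext_inh`; invariant: `act_prepN`, `SM.inh_act`, `SM.vReal_act`). Then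
(1) `b ⊓ φ m x ≤ inh t n x`: `inh g m z ⊓ vUn a g ≤ mem z a ≤ vIn t z` for `z = prepN n x` (`vHat`), and
`vIn t (prepN n x)` gives `x'` in the `n`-th term with `x = x'` (`prepN_inj`, `prepN_ne`).
(2) `b ≤ ⨆ m, ⨆ x, φ m x`: `b ≤ ⨆ x, inh t n x`, such `x` is real, `prepN n x` is in `a` (`vHat`, `vIn`),
so in some `g m` (`SM.vUn_mem`).
(3) For fixed `m`, `exists_small` for `φ m`, `b m = b ⊓ ⨆ x, φ m x`, index set `ι = Set.Iio β` (the
`γ` with `1 ≤ γ`; for `γ = 0` `vP X 0 = ⊥`; use `ι = {γ // 1 ≤ γ ∧ γ < β}`), `s = false`, `α γ = γ`,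
`c γ = b ⊓ ⨆ z, rl g (nat m) z ⊓ vP X γ z` (`b ≤ ⨆ γ, c γ` by `vTm`, `SM.vSeq_ex`). `Rep`: for each `z`,
`rep_vP X γ z` gives `R` in `SG (RB MS) γ` which represents `(mem x z)ᶜ`; the set
`R' = {(w, x) | (w, n⌢x) ∈ R}` (preimage, `SG.preimage`; the preimage of a set in `RB MS` is in
`RB MS`) represents `(mem (prepN n x) z)ᶜ` since `eq (prepN n (nm f)) (nm (pre n f)) = ⊤`
(`prepN_nm`), and below `vSeq g ⊓ rl g (nat m) z`, `inh g m = mem · z` (`SM.vSeq_uniq`).
So there are `f m` with `Dp (cs F) (f m).1` and `b ⊓ ⨆ x, φ m x ≤ φ m (nm (f m))`, hence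
`≤ inh t n (nm (f m))` by (1). (4) `exists_max` for `φ = inh t n` gives one `f` with
`b ⊓ inh t n (nm (f m)) ≤ inh t n (nm f)` for all `m`, so `b ≤ inh t n (nm f)` by (2).
-/

namespace Pool.Agent.LibBd83

open MeasureTheory Set Filter Pool.Agent.LibTk83 Pool.Agent.LibBc83

/-- The function `n⌢f`. -/
def pre (n : ℕ) (f : SF) : SF := ⟨fun w k => if k = 0 then n else f.1 w (k - 1), by
    refine measurable_pi_iff.2 fun k => ?_
    by_cases hk : k = 0
    · simp only [hk, if_true]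
      exact measurable_const
    · simp only [hk, if_false]
      exact (measurable_pi_apply (k - 1)).comp f.2.1, by
    obtain ⟨F, hF, h⟩ := f.2.2
    refine ⟨F, hF, fun w w' hw => ?_⟩
    dsimp only
    rw [h w w' hw]⟩

variable {𝓕 : Filter ℕ} (h𝓕 : 𝓕 ≤ cofinite) (X : SM MB (Gp 𝓕) (famD 𝓕))

/-- The function `n⌢x`. -/
private def cn (n : ℕ) (x : ℕ → ℕ) : ℕ → ℕ := fun k => if k = 0 then n else x (k - 1)

private theorem pre_val (n : ℕ) (f : SF) (w : W) : (pre n f).1 w = cn n (f.1 w) := rfl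

private theorem seg_cn (n : ℕ) (x : ℕ → ℕ) (m : ℕ) : seg (cn n x) m = (n :: seg x m).take m := by
  cases m with
  | zero => rfl
  | succ m =>
    rw [List.take_succ_cons, take_seg x (Nat.le_succ m)]
    unfold seg
    rw [List.range_succ_eq_map, List.map_cons, List.map_map]
    rfl

theorem prepN_nm (n : ℕ) (f : SF) : X.eq (prepN X n (nm X f)) (nm X (pre n f)) = ⊤ := by
  have h : ∀ k l, pd n (X.dig (nm X f)) k l = fB (pre n f).1 k l := by
    intro k l
    cases k with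
    | zero =>
      change (if l = n then (⊤ : MB) else ⊥) = cl {w | n = l}
      by_cases hl : l = n
      · rw [if_pos hl, ← cl_univ]
        congr 1
        ext w
        simp [hl]
      · rw [if_neg hl, ← cl_empty]
        congr 1
        ext w
        simp [Ne.symm hl]
    | succ k =>
      change X.dig (nm X f) k l = cl {w | f.1 w k = l}
      exact dig_nm X f k l
  rw [eq_top_iff]
  refine le_trans ?_ (X.rn_le_eq _ _ (symF_pd n (X.symF_dig (nm X f))) (symF_sf (pre n f)))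
  refine le_iInf fun k => le_iInf fun l => ?_
  rw [h k l, himp_self, inf_idem]

/-! ### Invariance -/

section

variable {B : Type} [CompleteBooleanAlgebra B] {G : Type} [Group G] [MulAction G B]
  [OrdAct G B] {Fam : Set (Set G)} (X : SM B G Fam)

private theorem ext_inhL (x : X.N) (j : ℕ) : X.Ext (fun h => X.inh h j x) := by
  unfold SM.inh
  exact SM.Ext.iSup fun U => SM.Ext.inf (X.ext_rl_left (X.nat j) U) (SM.Ext.const _)

private theorem T5_rl_nat_act (g : G) (t A : X.N) (n : ℕ) :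
    X.rl (X.act g t) (X.nat n) (X.act g A) = g • X.rl t (X.nat n) A := by
  rw [← X.rl_act]
  exact ((X.ext_rl_mid (X.act g t) (X.act g A)).congr
    (X.supp_nat Set.univ n g (Set.mem_univ g))).symm

private theorem T5_hypV_act {V : X.N → B} (hV : ∀ g A, V (X.act g A) = g • V A) (g : G) (t : X.N) (n : ℕ) :
    hypV X V (X.act g t) n = g • hypV X V t n := by
  unfold hypV
  rw [smul_iSup', ← (SM.act_surj (X := X) g).iSup_comp]
  refine iSup_congr fun A => ?_
  rw [smul_inf', smul_inf', T5_rl_nat_act, hV, smul_iSup', ← (SM.act_surj (X := X) g).iSup_comp]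
  congr 2
  exact iSup_congr fun x => X.mem_act g x A

private theorem T5_ext_hypV (V : X.N → B) (n : ℕ) : X.Ext (fun t => hypV X V t n) := by
  unfold hypV
  exact SM.Ext.iSup fun A => SM.Ext.inf (X.ext_rl_left (X.nat n) A) (SM.Ext.const _)

private theorem T5_ext_vIn (z : X.N) : X.Ext (fun t => vIn X t z) := by
  unfold vIn
  exact SM.Ext.iSup fun n => SM.Ext.iSup fun x => SM.Ext.inf (ext_inhL X x n) (SM.Ext.const _)

private theorem T5_ext_vHat_left (a : X.N) : X.Ext (fun t => vHat X t a) := by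
  unfold vHat
  exact SM.Ext.iInf fun z => SM.Ext.inf
    (SM.Ext.himp (SM.Ext.const _) (T5_ext_vIn X z)) (SM.Ext.himp (T5_ext_vIn X z) (SM.Ext.const _))

private theorem T5_ext_vHat_right (t : X.N) : X.Ext (fun a => vHat X t a) := by
  unfold vHat
  exact SM.Ext.iInf fun z => SM.Ext.inf
    (SM.Ext.himp (SM.Ext.mem_right z) (SM.Ext.const _))
    (SM.Ext.himp (SM.Ext.const _) (SM.Ext.mem_right z))

private theorem T5_vTm_act (β : Ordinal.{0}) (g : G) (u : X.N) :
    vTm X β (X.act g u) = g • vTm X β u := by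
  unfold vTm
  rw [smul_iInf']
  refine iInf_congr fun n => ?_
  rw [smul_iInf', ← (SM.act_surj (X := X) g).iInf_comp]
  refine iInf_congr fun z => ?_
  rw [smul_himp', T5_rl_nat_act, smul_iSup']
  congr 1
  exact iSup_congr fun γ => vP_act X γ.1 g z

private theorem T5_ext_vTm (β : Ordinal.{0}) : X.Ext (vTm X β) := by
  unfold vTm
  exact SM.Ext.iInf fun n => SM.Ext.iInf fun z => SM.Ext.himp (X.ext_rl_left (X.nat n) z)
    (SM.Ext.const _)

private theorem T5_vUn_act (g : G) (A u : X.N) : X.vUn (X.act g A) (X.act g u) = g • X.vUn A u := by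
  unfold SM.vUn
  rw [← SM.val_act]
  refine ev_congr_top X.eqax _ _ _ fun n => ?_
  match n with
  | 0 => exact X.eqax.refl _
  | 1 => exact X.eqax.refl _
  | n + 2 =>
    change X.eq X.om (X.act g X.om) = ⊤
    rw [X.eqax.symm]
    exact X.supp_om Set.univ g (Set.mem_univ g)

private theorem T5_ext_vUn_left (u : X.N) : X.Ext (fun A => X.vUn A u) := SM.Ext.val _ _

private theorem T5_ext_vUn_right (A : X.N) : X.Ext (fun u => X.vUn A u) := SM.Ext.val₁ _ _ _

/-- The left side of the inequality. -/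
private noncomputable def bT (β : Ordinal.{0}) (t a g : X.N) : B :=
  X.vSeq t ⊓ (⨅ n, hypV X (vC X true β) t n) ⊓ vHat X t a ⊓
    (X.vSeq g ⊓ (vTm X β g ⊓ X.vUn a g))

private theorem smul_bT {S : Set G} {β : Ordinal.{0}} {t a g : X.N} (ht : X.Supp S t) (ha : X.Supp S a)
    (hg : X.Supp S g) {γ : G} (hγ : γ ∈ S) : γ • bT X β t a g = bT X β t a g := by
  unfold bT
  rw [smul_inf', smul_inf', smul_inf', smul_inf', smul_inf', smul_iInf', ← X.vSeq_act, ← X.vSeq_act,
    ← vHat_act, ← T5_vTm_act, ← T5_vUn_act]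
  have h1 : X.vSeq (X.act γ t) = X.vSeq t := X.ext_vSeq.congr (ht γ hγ)
  have h2 : X.vSeq (X.act γ g) = X.vSeq g := X.ext_vSeq.congr (hg γ hγ)
  have h3 : vHat X (X.act γ t) (X.act γ a) = vHat X t a :=
    ((T5_ext_vHat_left X (X.act γ a)).congr (ht γ hγ)).trans
      ((T5_ext_vHat_right X t).congr (ha γ hγ))
  have h4 : vTm X β (X.act γ g) = vTm X β g := (T5_ext_vTm X β).congr (hg γ hγ)
  have h5 : X.vUn (X.act γ a) (X.act γ g) = X.vUn a g :=
    ((T5_ext_vUn_left X (X.act γ g)).congr (ha γ hγ)).trans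
      ((T5_ext_vUn_right X a).congr (hg γ hγ))
  have h6 : ∀ n, γ • hypV X (vC X true β) t n = hypV X (vC X true β) t n := fun n => by
    rw [← T5_hypV_act X (fun g A => vC_act X true β g A)]
    exact (T5_ext_hypV X _ n).congr (ht γ hγ)
  rw [h1, h2, h3, h4, h5]
  simp only [h6]

variable {X} in
private theorem bT_seqt {β : Ordinal.{0}} {t a g : X.N} : bT X β t a g ≤ X.vSeq t :=
  inf_le_left.trans (inf_le_left.trans inf_le_left)

variable {X} in
private theorem bT_hyp {β : Ordinal.{0}} {t a g : X.N} (n : ℕ) :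
    bT X β t a g ≤ hypV X (vC X true β) t n :=
  inf_le_left.trans (inf_le_left.trans (inf_le_right.trans (iInf_le _ n)))

variable {X} in
private theorem bT_hat {β : Ordinal.{0}} {t a g : X.N} : bT X β t a g ≤ vHat X t a :=
  inf_le_left.trans inf_le_right

variable {X} in
private theorem bT_seqg {β : Ordinal.{0}} {t a g : X.N} : bT X β t a g ≤ X.vSeq g :=
  inf_le_right.trans inf_le_left

variable {X} in
private theorem bT_tm {β : Ordinal.{0}} {t a g : X.N} : bT X β t a g ≤ vTm X β g :=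
  inf_le_right.trans (inf_le_right.trans inf_le_left)

variable {X} in
private theorem bT_un {β : Ordinal.{0}} {t a g : X.N} : bT X β t a g ≤ X.vUn a g :=
  inf_le_right.trans (inf_le_right.trans inf_le_right)

/-- Below `rl g (nat m) z`, the `m`-th term is `z`. -/
private theorem inh_eq_mem (g z y : X.N) (m : ℕ) :
    X.vSeq g ⊓ X.rl g (X.nat m) z ⊓ X.inh g m y = X.vSeq g ⊓ X.rl g (X.nat m) z ⊓ X.mem y z := by
  apply le_antisymm
  · refine le_inf inf_le_left ?_
    unfold SM.inh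
    rw [inf_iSup_eq]
    refine iSup_le fun U => ?_
    have h1 := X.vSeq_uniq g U z m
    have h2 : X.vSeq g ⊓ X.rl g (X.nat m) z ⊓ (X.rl g (X.nat m) U ⊓ X.mem y U) ≤
        X.eq U z ⊓ X.mem y U := by
      refine le_inf (le_trans ?_ h1) (inf_le_right.trans inf_le_right)
      exact le_inf (le_inf (inf_le_left.trans inf_le_left) (inf_le_right.trans inf_le_left))
        (inf_le_left.trans inf_le_right)
    exact h2.trans (SM.Ext.mem_right y U z)
  · refine le_inf inf_le_left ?_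
    unfold SM.inh
    exact le_iSup_of_le z (le_inf (inf_le_left.trans inf_le_right) inf_le_right)

private theorem bT_real {β : Ordinal.{0}} {t a g : X.N} (n : ℕ) (x : X.N) :
    bT X β t a g ⊓ X.inh t n x ≤ X.vReal x := by
  have h0 : bT X β t a g ⊓ X.inh t n x ≤ X.vSeq t ⊓ hypV X (vC X true β) t n ⊓ X.inh t n x :=
    inf_le_inf_right _ (le_inf bT_seqt (bT_hyp n))
  refine h0.trans ?_
  unfold hypV
  rw [inf_iSup_eq, iSup_inf_eq]
  refine iSup_le fun A => ?_
  have h1 : X.vSeq t ⊓ (X.rl t (X.nat n) A ⊓ ((⨆ x, X.mem x A) ⊓ vC X true β A)) ⊓ X.inh t n x ≤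
      vC X true β A ⊓ X.mem x A := by
    refine le_inf (inf_le_left.trans (inf_le_right.trans (inf_le_right.trans inf_le_right))) ?_
    have h2 := (inh_eq_mem X t A x n).le
    refine le_trans ?_ (h2.trans inf_le_right)
    refine le_inf (le_inf (inf_le_left.trans inf_le_left)
      (inf_le_left.trans (inf_le_right.trans inf_le_left))) inf_le_right
  exact h1.trans (vC_real X true β A x)

/-- The truth value of: `x` is a real and `n⌢x` is in the `m`-th term of `g`. -/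
private noncomputable def phT (g : X.N) (n m : ℕ) (x : X.N) : B :=
  X.vReal x ⊓ X.inh g m (prepN X n x)

private theorem ext_phT (g : X.N) (n m : ℕ) : X.Ext (phT X g n m) := by
  intro x y
  refine le_inf ?_ ?_
  · exact (inf_le_inf_left _ inf_le_left).trans (X.ext_vReal x y)
  · refine (inf_le_inf (eq_prepN X n x y) inf_le_right).trans ?_
    exact X.ext_inh g m _ _

private theorem inv_phT {S : Set G} {g : X.N} (hg : X.Supp S g) (n m : ℕ) : X.Inv S (phT X g n m) := by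
  intro γ hγ x
  unfold phT
  rw [smul_inf', X.vReal_act, ← X.inh_act]
  congr 1
  have h1 : X.inh g m (X.act γ (prepN X n x)) = X.inh g m (prepN X n (X.act γ x)) :=
    (X.ext_inh g m).congr (act_prepN X n γ x)
  have h2 : X.inh (X.act γ g) m (X.act γ (prepN X n x)) = X.inh g m (X.act γ (prepN X n x)) :=
    (ext_inhL X _ m).congr (hg γ hγ)
  rw [h2, h1]

private theorem phT_le {β : Ordinal.{0}} {t a g : X.N} (n m : ℕ) (x : X.N) :
    bT X β t a g ⊓ phT X g n m x ≤ X.inh t n x := by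
  have h1 : bT X β t a g ⊓ phT X g n m x ≤ X.mem (prepN X n x) a := by
    have h2 : X.vUn a g ⊓ X.inh g m (prepN X n x) ≤ X.mem (prepN X n x) a := by
      unfold SM.inh
      rw [inf_iSup_eq]
      refine iSup_le fun U => ?_
      rw [← inf_assoc]
      exact X.mem_of_vUn a g _ U m
    exact (inf_le_inf bT_un inf_le_right).trans h2
  have h3 : bT X β t a g ⊓ phT X g n m x ≤ vIn X t (prepN X n x) := by
    have h4 : vHat X t a ⊓ X.mem (prepN X n x) a ≤ vIn X t (prepN X n x) :=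
      le_himp_iff.1 ((iInf_le _ (prepN X n x)).trans inf_le_left)
    exact (le_inf (inf_le_left.trans bT_hat) h1).trans h4
  have h5 : bT X β t a g ⊓ phT X g n m x ≤ X.vReal x := inf_le_right.trans inf_le_left
  refine (le_inf h3 h5).trans ?_
  unfold vIn
  rw [iSup_inf_eq]
  refine iSup_le fun n' => ?_
  rw [iSup_inf_eq]
  refine iSup_le fun x' => ?_
  by_cases hn : n = n'
  · subst hn
    have h6 : X.inh t n x' ⊓ (X.vReal x' ⊓ X.eq (prepN X n x) (prepN X n x')) ⊓ X.vReal x ≤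
        X.eq x' x ⊓ X.inh t n x' := by
      refine le_inf ?_ (inf_le_left.trans inf_le_left)
      rw [X.eqax.symm x' x]
      refine le_trans ?_ (prepN_inj X n x x')
      exact le_inf (le_inf inf_le_right (inf_le_left.trans (inf_le_right.trans inf_le_left)))
        (inf_le_left.trans (inf_le_right.trans inf_le_right))
    exact h6.trans (X.ext_inh t n x' x)
  · rw [prepN_ne X hn, inf_bot_eq, inf_bot_eq, bot_inf_eq]
    exact bot_le

private theorem bT_le {β : Ordinal.{0}} {t a g : X.N} (n : ℕ) :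
    bT X β t a g ≤ ⨆ m, bT X β t a g ⊓ ⨆ x, phT X g n m x := by
  have h1 : bT X β t a g ≤ ⨆ x, X.inh t n x := by
    refine (bT_hyp n).trans ?_
    unfold hypV
    refine iSup_le fun A => ?_
    rw [← inf_assoc, inf_iSup_eq, iSup_inf_eq]
    refine iSup_le fun x => le_iSup_of_le x ?_
    unfold SM.inh
    exact inf_le_left.trans (le_iSup (fun U => X.rl t (X.nat n) U ⊓ X.mem x U) A)
  have h2 : bT X β t a g ≤ ⨆ x, bT X β t a g ⊓ X.inh t n x := by
    rw [← inf_iSup_eq]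
    exact le_inf le_rfl h1
  refine h2.trans (iSup_le fun x => ?_)
  have h3 : bT X β t a g ⊓ X.inh t n x ≤ X.vReal x := bT_real X n x
  have h4 : bT X β t a g ⊓ X.inh t n x ≤ vIn X t (prepN X n x) := by
    unfold vIn
    refine le_iSup_of_le n (le_iSup_of_le x (le_inf inf_le_right (le_inf h3 ?_)))
    rw [X.eqax.refl]
    exact le_top
  have h5 : bT X β t a g ⊓ X.inh t n x ≤ X.mem (prepN X n x) a := by
    have h6 : vHat X t a ⊓ vIn X t (prepN X n x) ≤ X.mem (prepN X n x) a :=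
      le_himp_iff.1 ((iInf_le _ (prepN X n x)).trans inf_le_right)
    exact (le_inf (inf_le_left.trans bT_hat) h4).trans h6
  have h7 : bT X β t a g ⊓ X.inh t n x ≤ ⨆ m, X.inh g m (prepN X n x) := by
    refine (le_inf (inf_le_left.trans bT_un) h5).trans ?_
    exact X.vUn_mem a g (prepN X n x)
  have h8 : bT X β t a g ⊓ X.inh t n x ≤
      (bT X β t a g ⊓ X.vReal x) ⊓ ⨆ m, X.inh g m (prepN X n x) :=
    le_inf (le_inf inf_le_left h3) h7
  refine h8.trans ?_
  rw [inf_iSup_eq]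
  refine iSup_mono fun m => ?_
  refine le_inf (inf_le_left.trans inf_le_left) (le_iSup_of_le x ?_)
  exact le_inf (inf_le_left.trans inf_le_right) inf_le_right

/-- The truth value of: the `m`-th term of `g` is in the class `Π⁰_δ`. -/
private noncomputable def cT (g : X.N) (m : ℕ) (δ : Ordinal.{0}) : B :=
  ⨆ z, X.rl g (X.nat m) z ⊓ vP X δ z

private theorem smul_cT {S : Set G} {g : X.N} (hg : X.Supp S g) (m : ℕ) (δ : Ordinal.{0}) {γ : G}
    (hγ : γ ∈ S) : γ • cT X g m δ = cT X g m δ := by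
  have h1 : X.Ext (fun g => cT X g m δ) := by
    unfold cT
    exact SM.Ext.iSup fun z => SM.Ext.inf (X.ext_rl_left (X.nat m) z) (SM.Ext.const _)
  have h2 : cT X (X.act γ g) m δ = γ • cT X g m δ := by
    unfold cT
    rw [smul_iSup', ← (SM.act_surj (X := X) γ).iSup_comp]
    refine iSup_congr fun z => ?_
    rw [smul_inf', T5_rl_nat_act, vP_act]
  rw [← h2]
  exact h1.congr (hg γ hγ)

private theorem bT_cT {β : Ordinal.{0}} {t a g : X.N} (m : ℕ) :
    bT X β t a g ≤ ⨆ δ : {δ : Ordinal.{0} // 1 ≤ δ ∧ δ < β}, bT X β t a g ⊓ cT X g m δ.1 := by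
  rw [← inf_iSup_eq]
  refine le_inf le_rfl ?_
  have h1 : bT X β t a g ≤ vTm X β g ⊓ ⨆ z, X.rl g (X.nat m) z :=
    le_inf bT_tm (bT_seqg.trans (X.vSeq_ex g m))
  refine h1.trans ?_
  rw [inf_iSup_eq]
  refine iSup_le fun z => ?_
  have h2 : vTm X β g ⊓ X.rl g (X.nat m) z ≤ ⨆ γ : Set.Iio β, vP X γ.1 z :=
    le_himp_iff.1 ((iInf_le _ m).trans (iInf_le _ z))
  refine (le_inf inf_le_right h2).trans ?_
  rw [inf_iSup_eq]
  refine iSup_le fun γ => ?_
  by_cases h0 : γ.1 = 0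
  · have h3 : vP X γ.1 z = ⊥ := by
      unfold vP
      rw [h0]
      simp only [vS_zero, bot_inf_eq, iSup_bot]
    rw [h3, inf_bot_eq]
    exact bot_le
  · have h4 : 1 ≤ γ.1 := Order.one_le_iff_ne_zero.2 h0
    refine le_iSup_of_le ⟨γ.1, h4, γ.2⟩ ?_
    exact le_iSup (fun z => X.rl g (X.nat m) z ⊓ vP X γ.1 z) z

end

/-! ### Representation -/

private theorem T5_compl {B : Type} [CompleteBooleanAlgebra B] {b x y : B} (h : b ⊓ x = b ⊓ y) :
    b ⊓ xᶜ = b ⊓ yᶜ := by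
  have h1 : ∀ z : B, b ⊓ (b ⊓ z)ᶜ = b ⊓ zᶜ := fun z => by
    rw [compl_inf, inf_sup_left, inf_compl_eq_bot, bot_sup_eq]
  rw [← h1 x, h, h1]

private theorem T5_pre {n : ℕ} {δ : Ordinal.{0}} {R : Set (W × (ℕ → ℕ))} (hR : SG (RB MS) δ R) :
    SG (RB MS) δ ((fun p : W × (ℕ → ℕ) => (p.1, cn n p.2)) ⁻¹' R) := by
  refine SG.preimage _ (fun D hD => ?_) hR
  obtain ⟨m, U, hU, rfl⟩ := hD
  refine SG.of_mem (isAlg_RB isAlg_MS) ⟨m, fun s => U ((n :: s).take m), fun s => hU _, ?_⟩ le_rfl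
  ext p
  simp only [mem_preimage, mem_ofPred_eq]
  rw [seg_cn]

private theorem T5_rep (g z : X.N) (n m : ℕ) {δ : Ordinal.{0}} (h1 : 1 ≤ δ) :
    Rep X δ (fun x => (phT X g n m x)ᶜ) (X.vSeq g ⊓ X.rl g (X.nat m) z ⊓ vP X δ z) := by
  obtain ⟨R, hR, hf⟩ := rep_vP X δ h1 z
  refine ⟨_, T5_pre (n := n) hR, fun f => ?_⟩
  have h2 : phT X g n m (nm X f) = X.inh g m (nm X (pre n f)) := by
    unfold phT
    rw [vReal_nm, top_inf_eq]
    exact (X.ext_inh g m).congr (prepN_nm X n f)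
  have h3 : X.vSeq g ⊓ X.rl g (X.nat m) z ⊓ (X.inh g m (nm X (pre n f)))ᶜ =
      X.vSeq g ⊓ X.rl g (X.nat m) z ⊓ (X.mem (nm X (pre n f)) z)ᶜ :=
    T5_compl (inh_eq_mem X g z (nm X (pre n f)) m)
  have h4 : vP X δ z ⊓ (X.mem (nm X (pre n f)) z)ᶜ =
      vP X δ z ⊓ cl {w | (w, (pre n f).1 w) ∈ R} := hf (pre n f)
  change X.vSeq g ⊓ X.rl g (X.nat m) z ⊓ vP X δ z ⊓ (phT X g n m (nm X f))ᶜ =
    X.vSeq g ⊓ X.rl g (X.nat m) z ⊓ vP X δ z ⊓ cl {w | (w, (pre n f).1 w) ∈ R}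
  rw [h2, inf_right_comm, h3, inf_right_comm, inf_assoc, h4, ← inf_assoc]

include h𝓕

private theorem T5_small {β : Ordinal.{0}} (hs : ∀ γ, 1 ≤ γ → γ < β → Small 𝓕 false γ) {F : Set ℕ}
    (hF : F.Finite) {t a g : X.N} (ht : X.Supp (fixS 𝓕 F) t) (ha : X.Supp (fixS 𝓕 F) a)
    (hg : X.Supp (fixS 𝓕 F) g) (n m : ℕ) :
    ∃ f : SF, Dp (cs F) f.1 ∧ bT X β t a g ⊓ (⨆ x, phT X g n m x) ≤ phT X g n m (nm X f) := by
  have hb : ∀ γ ∈ fixS 𝓕 F, γ • bT X β t a g = bT X β t a g := fun γ hγ =>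
    smul_bT X ht ha hg hγ
  have hi := inv_phT X hg n m
  refine exists_small h𝓕 X hF (phT X g n m) (ext_phT X g n m) hi
    (bT X β t a g ⊓ ⨆ x, phT X g n m x) ?_ (ι := {δ : Ordinal.{0} // 1 ≤ δ ∧ δ < β})
    (fun _ => false) (fun δ => δ.1) (fun δ => hs δ.1 δ.2.1 δ.2.2)
    (fun δ => bT X β t a g ⊓ cT X g m δ.1) ?_ ?_ ?_ ?_ inf_le_right
  · intro γ hγ
    have h1 : (⨆ x, phT X g n m x) = ⨆ x, phT X g n m (X.act γ x) :=
      ((SM.act_surj (X := X) γ).iSup_comp (phT X g n m)).symm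
    rw [smul_inf', hb γ hγ, smul_iSup']
    congr 1
    exact (iSup_congr fun x => (hi γ hγ x).symm).trans h1.symm
  · intro δ γ hγ
    rw [smul_inf', hb γ hγ, smul_cT X hg m δ.1 hγ]
  · intro δ
    have h1 : Rep X δ.1 (fun x => (phT X g n m x)ᶜ)
        (⨆ z, X.vSeq g ⊓ X.rl g (X.nat m) z ⊓ vP X δ.1 z) :=
      Rep.iSup δ.2.1 _ fun z => T5_rep X g z n m δ.2.1
    refine Rep.anti h1 ?_
    unfold cT
    rw [inf_iSup_eq]
    refine iSup_mono fun z => ?_
    rw [← inf_assoc]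
    exact inf_le_inf_right _ (inf_le_inf_right _ bT_seqg)
  · exact inf_le_left.trans (bT_cT X m)
  · exact fun x => inf_le_right.trans inf_le_left

theorem exists_choiceU {β : Ordinal.{0}} (hs : ∀ γ, 1 ≤ γ → γ < β → Small 𝓕 false γ)
    (t a g : X.N) :
    ∃ F : Set ℕ, F.Finite ∧ ∀ n, ∃ f : SF, Dp (cs F) f.1 ∧
      X.vSeq t ⊓ (⨅ n, hypV X (vC X true β) t n) ⊓ vHat X t a ⊓
        (X.vSeq g ⊓ (vTm X β g ⊓ X.vUn a g)) ≤ X.inh t n (nm X f) := by
  obtain ⟨_, ⟨F1, hF1, rfl⟩, h1⟩ := X.supp t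
  obtain ⟨_, ⟨F2, hF2, rfl⟩, h2⟩ := X.supp a
  obtain ⟨_, ⟨F3, hF3, rfl⟩, h3⟩ := X.supp g
  have hF : (F1 ∪ F2 ∪ F3).Finite := (hF1.union hF2).union hF3
  have ht : X.Supp (fixS 𝓕 (F1 ∪ F2 ∪ F3)) t := SM.Supp.mono
    (fixS_anti (subset_union_left.trans subset_union_left)) h1
  have ha : X.Supp (fixS 𝓕 (F1 ∪ F2 ∪ F3)) a := SM.Supp.mono
    (fixS_anti (subset_union_right.trans subset_union_left)) h2
  have hg : X.Supp (fixS 𝓕 (F1 ∪ F2 ∪ F3)) g := SM.Supp.mono
    (fixS_anti subset_union_right) h3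
  refine ⟨F1 ∪ F2 ∪ F3, hF, fun n => ?_⟩
  change ∃ f : SF, Dp (cs (F1 ∪ F2 ∪ F3)) f.1 ∧ bT X β t a g ≤ X.inh t n (nm X f)
  have hinv : X.Inv (fixS 𝓕 (F1 ∪ F2 ∪ F3)) (X.inh t n) := by
    intro γ hγ x
    rw [← X.inh_act]
    exact ((ext_inhL X _ n).congr (ht γ hγ)).symm
  obtain ⟨f, hf, hmax⟩ := exists_max h𝓕 X hF (X.inh t n) (X.ext_inh t n) hinv (bT X β t a g)
    (bT_real X n)
  refine ⟨f, hf, ?_⟩
  refine (bT_le X n).trans (iSup_le fun m => ?_)
  obtain ⟨f', hf', hle⟩ := T5_small h𝓕 X hs hF ht ha hg n m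
  refine le_trans (le_inf inf_le_left hle) ?_
  refine le_trans (le_inf inf_le_left (phT_le X n m (nm X f'))) (hmax f' hf')

end Pool.Agent.LibBd83
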