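import Pool.Agent.LibBd83.G3
import Pool.Agent.LibBd83.T5

/-!
BD83 G4. The union of the sets `b⌢A_b`.

Plan. For each `b` let `R' b = {(w, x) | x 0 = b ∧ (w, fun k => x (k + 1)) ∈ Rb b Q}`; its complement
is in `SG (RB (MD (cs {b}))) β`: union of `{(w, x) | x 0 ≠ b}` (in `RB`, `m = 1`, `SG.of_mem`) and the
preimage of `(Rb b Q)ᶜ = Rb b Qᶜ` (`sg_Rb`, `Rb_compl`) under the shift (`SG.preimage`; the preimage of
a set `{(w, x) | w ∈ U (seg x m)}` under the shift is in `RB`, with `m + 1` and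
`U' s = U s.tail`). Let `D b` be the name given by `exists_setP`; it has the support `fixS 𝓕 ∅`
(`eq_of_nm` and `Rb_inv`, as in `exists_Ab`), `vP X β (D b) = ⊤`. Let `g` be the sequence of the `D b`
(`SM.exists_seqN`) and `a` with `mem x a = vReal x ⊓ ⨆ b, mem x (D b)` (`SM.exists_rset`). Then
`vS X (β + 1) a = ⊤` by `vS_gt` (`1 < β + 1` because `1 ≤ β`: `SG.one_le`), `vTm_top`, `vUn_top`.
`vHat X t a = ⊤`: for each name `z`, `mem z a = vIn t z`. Both are `Ext` in `z` and at most `vReal z`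
(`vReal_prepN`, `SM.vReal_le`), so (`le_iSup_nm`) it is enough to look at `z = nm X f`:
`mem (nm f) a = ⨆ b, cl {w | f w 0 = b ∧ (w, shift f w) ∈ Rb b Q}`; and
`vIn t (nm f) = ⨆ n, ⨆ x, mem x (A n) ⊓ (vReal x ⊓ eq (nm f) (prepN n x))` (`inh t n x = mem x (A n)` from
`ht`); `≥` part: take `x = nm (shift f)`: `cl {f 0 = n} ≤ eq (nm f) (prepN n (nm (shift f)))`
(`SM.rn_le_eq`); `≤` part: replace `x` by `nm h` (`le_iSup_nm`); `eq (nm f) (nm (pre n h))` implies
`f 0 = n` and `shift f = h` (`prepN_nm`, `prepN_inj`, digits).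
-/

namespace Pool.Agent.LibBd83

open MeasureTheory Set Filter Pool.Agent.LibTk83 Pool.Agent.LibBc83

private def G4_R (b : ℕ) (Q : Set Cn) : Set (W × (ℕ → ℕ)) :=
  {p | p.2 0 = b ∧ (p.1, fun k => p.2 (k + 1)) ∈ Rb b Q}

private theorem G4_seg (x : ℕ → ℕ) (m : ℕ) : (seg x (m + 1)).tail = seg (fun k => x (k + 1)) m := by
  unfold seg
  rw [List.range_succ_eq_map]
  simp [Function.comp_def]

private theorem G4_sg (b : ℕ) {Q : Set Cn} {β : Ordinal.{0}} (hs : SG (Clop Cn) β Qᶜ) :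
    SG (RB (MD (cs {b}))) β (G4_R b Q)ᶜ := by
  have hB := isAlg_RB (isAlg_MD (cs {b}))
  have h1 : SG (RB (MD (cs {b}))) β {p : W × (ℕ → ℕ) | p.2 0 ≠ b} := by
    refine SG.of_mem hB ⟨1, fun s => if s = [b] then ∅ else univ, fun s => ?_, ?_⟩ hs.one_le
    · by_cases h : s = [b]
      · simp only [h, if_true]
        exact ⟨MeasurableSet.empty, fun _ _ _ => Iff.rfl⟩
      · simp only [h, if_false]
        exact ⟨MeasurableSet.univ, fun _ _ _ => Iff.rfl⟩
    · ext p
      have h2 : seg p.2 1 = [p.2 0] := rfl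
      by_cases h : p.2 0 = b
      · simp [h2, h]
      · simp [h2, h]
  have h2 : SG (RB (MD (cs {b}))) β
      ((fun p : W × (ℕ → ℕ) => (p.1, fun k => p.2 (k + 1))) ⁻¹' (Rb b Q)ᶜ) := by
    refine SG.preimage _ (fun D hD => ?_) (by rw [Rb_compl]; exact sg_Rb b hs)
    obtain ⟨m, U, hU, rfl⟩ := hD
    refine SG.of_mem hB ⟨m + 1, fun s => U s.tail, fun s => hU _, ?_⟩ le_rfl
    ext p
    simp only [mem_preimage, mem_setOf_eq, G4_seg]
  have h3 := SG.union hB h1 h2
  have h4 : (G4_R b Q)ᶜ = {p : W × (ℕ → ℕ) | p.2 0 ≠ b} ∪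
      ((fun p : W × (ℕ → ℕ) => (p.1, fun k => p.2 (k + 1))) ⁻¹' (Rb b Q)ᶜ) := by
    ext p
    simp only [G4_R, mem_compl_iff, mem_setOf_eq, mem_union, mem_preimage]
    tauto
  rw [h4]
  exact h3

private theorem G4_meas (b : ℕ) {Q : Set Cn} {β : Ordinal.{0}} (hs : SG (Clop Cn) β Qᶜ)
    (f : W → ℕ → ℕ) (hf : Measurable f) : MeasurableSet {w | (w, f w) ∈ G4_R b Q} := by
  have h1 : SG (RB MS) β (G4_R b Q)ᶜ := by
    refine SG.alg_mono ?_ (G4_sg b hs)
    rintro R ⟨m, U, hU, rfl⟩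
    exact ⟨m, U, fun s => (hU s).1, rfl⟩
  have h2 := (meas_R h1 f hf).compl
  have h3 : {w | (w, f w) ∈ (G4_R b Q)ᶜ}ᶜ = {w | (w, f w) ∈ G4_R b Q} := by
    ext w
    simp
  rwa [h3] at h2

/-- The shift. -/
private def G4_sh (f : SF) : SF := ⟨fun w k => f.1 w (k + 1), by
    refine measurable_pi_iff.2 fun k => ?_
    exact (measurable_pi_apply (k + 1)).comp f.2.1, by
    obtain ⟨F, hF, h⟩ := f.2.2
    refine ⟨F, hF, fun w w' hw => ?_⟩
    dsimp only
    rw [h w w' hw]⟩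

variable {𝓕 : Filter ℕ} (h𝓕 : 𝓕 ≤ cofinite) (X : SM MB (Gp 𝓕) (famD 𝓕))

private theorem G4_trtr (γ : Gp 𝓕) (f : SF) : trf γ (trf γ f) = f := by
  apply Subtype.ext
  funext w
  change f.1 (tr γ.1 (tr γ.1 w)) = f.1 w
  rw [tr_tr]

private theorem G4_supp (h𝓕 : 𝓕 ≤ cofinite) (β : Ordinal.{0}) (Q : Set Cn) (hQ : Good 𝓕 Q)
    (hs : SG (Clop Cn) β Qᶜ) (b : ℕ) (D : X.N) (hreal : ∀ x, X.mem x D ≤ X.vReal x)
    (hD : ∀ f : SF, X.mem (nm X f) D = cl {w | (w, f.1 w) ∈ G4_R b Q}) :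
    X.Supp (fixS 𝓕 ∅) D := by
  intro γ _
  refine eq_of_nm X h𝓕 _ _ (fun x => ?_) hreal (fun f => ?_)
  · obtain ⟨x, rfl⟩ := SM.act_surj (X := X) γ x
    rw [X.mem_act, SM.vReal_act, smul_le_iff']
    exact hreal x
  · have h1 := act_nm X γ (trf γ f)
    rw [G4_trtr] at h1
    have h2 := (SM.Ext.mem_left (X := X) (X.act γ D)).congr h1
    beta_reduce at h2
    rw [← h2, X.mem_act, hD, smul_cl γ (G4_meas b hs _ (trf γ f).2.1), hD]
    congr 1
    ext w
    simp only [mem_preimage, mem_setOf_eq]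
    change (tr γ.1 w, f.1 (tr γ.1 (tr γ.1 w))) ∈ G4_R b Q ↔ _
    rw [tr_tr]
    simp only [G4_R, mem_setOf_eq]
    rw [Rb_inv b hQ γ w]

include h𝓕

private theorem G4_le (φ ψ : X.N → MB) (hφ : X.Ext φ) (hψ : X.Ext ψ) (h : ∀ z, φ z ≤ X.vReal z)
    (h' : ∀ f : SF, φ (nm X f) ≤ ψ (nm X f)) (z : X.N) : φ z ≤ ψ z := by
  have h1 := le_iSup_nm h𝓕 X φ hφ z
  refine (le_inf (h z) le_rfl).trans (h1.trans (iSup_le fun f => ?_))
  refine (inf_le_inf_left _ (h' f)).trans ?_
  rw [X.eqax.symm]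
  exact hψ _ _

omit h𝓕 in
private theorem G4_eq (f : SF) (n : ℕ) :
    cl {w | f.1 w 0 = n} ≤ X.eq (nm X f) (prepN X n (nm X (G4_sh f))) := by
  refine le_trans ?_ (X.rn_le_eq (fB f.1) (pd n (X.dig (nm X (G4_sh f)))) (symF_sf f)
    (symF_pd n (X.symF_dig _)))
  refine le_iInf fun k => le_iInf fun m => ?_
  cases k with
  | zero =>
    change _ ≤ (fB f.1 0 m ⇨ if m = n then ⊤ else ⊥) ⊓ ((if m = n then ⊤ else ⊥) ⇨ fB f.1 0 m)
    by_cases h : m = n
    · subst h
      rw [if_pos rfl]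
      refine le_inf ?_ ?_
      · rw [himp_top]
        exact le_top
      · rw [top_himp]
        exact le_rfl
    · rw [if_neg h]
      refine le_inf ?_ ?_
      · rw [le_himp_iff]
        unfold fB
        rw [← cl_inter (measurableSet_f f.2.1 0 n) (measurableSet_f f.2.1 0 m)]
        have h1 : {w | f.1 w 0 = n} ∩ {w | f.1 w 0 = m} = ∅ := by
          ext w
          simp only [mem_inter_iff, mem_setOf_eq, mem_empty_iff_false, iff_false, not_and]
          intro h1 h2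
          exact h (h2.symm.trans h1)
        rw [h1, cl_empty]
      · rw [bot_himp]
        exact le_top
  | succ k =>
    change _ ≤ (fB f.1 (k + 1) m ⇨ X.dig (nm X (G4_sh f)) k m) ⊓
      (X.dig (nm X (G4_sh f)) k m ⇨ fB f.1 (k + 1) m)
    rw [dig_nm]
    have h1 : cl {w | (G4_sh f).1 w k = m} = fB f.1 (k + 1) m := rfl
    rw [h1, himp_self, inf_idem]
    exact le_top

theorem exists_hat (β : Ordinal.{0}) (Q : Set Cn) (hQ : Good 𝓕 Q)
    (hs : SG (Clop Cn) β Qᶜ) (A : ℕ → X.N)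
    (hA : ∀ b, ∀ f : SF, X.mem (nm X f) (A b) = cl {w | (w, f.1 w) ∈ Rb b Q})
    (hreal : ∀ b x, X.mem x (A b) ≤ X.vReal x) (t : X.N)
    (ht : ∀ n y, X.rl t (X.nat n) y = X.eq y (A n)) :
    ∃ a : X.N, vS X (β + 1) a = ⊤ ∧ vHat X t a = ⊤ := by
  choose D hDs hDP hDr hDm using fun b : ℕ =>
    exists_setP X (finite_singleton b) β (G4_R b Q) (G4_sg b hs)
  have hsupp : ∀ b, X.Supp (fixS 𝓕 ∅) (D b) := fun b =>
    G4_supp X h𝓕 β Q hQ hs b (D b) (hDr b) (hDm b)
  obtain ⟨g, -, hgs, hg⟩ := X.exists_seqN D (fixS_mem finite_empty) hsupp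
  obtain ⟨a, -, ha⟩ := SM.exists_rset (X := X) (φ := fun x => ⨆ b, X.mem x (D b))
    (SM.Ext.iSup fun b => SM.Ext.mem_left (D b)) (fixS_mem finite_empty)
    (fun γ hγ x => by
      beta_reduce
      rw [smul_iSup']
      exact iSup_congr fun b => SM.Inv.mem (hsupp b) γ hγ x)
  have ha' : ∀ x, X.mem x a = ⨆ b, X.mem x (D b) := by
    intro x
    rw [ha]
    exact inf_eq_right.2 (iSup_le fun b => hDr b x)
  refine ⟨a, ?_, ?_⟩
  · have h1 : (1 : Ordinal.{0}) < β + 1 := by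
      have := hs.one_le
      exact lt_of_le_of_lt this (lt_add_one β)
    rw [vS_gt X h1, eq_top_iff]
    refine le_iSup_of_le g ?_
    rw [hgs, vTm_top X (β + 1) g D hg (fun _ => β) (fun _ => lt_add_one β) hDP
      (fun _ => ext_vP X β), vUn_top X a g D hg ha']
    simp
  · have hinh : ∀ n x, X.inh t n x = X.mem x (A n) := by
      intro n x
      unfold SM.inh
      apply le_antisymm
      · refine iSup_le fun U => ?_
        rw [ht]
        exact SM.Ext.mem_right x U (A n)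
      · refine le_iSup_of_le (A n) ?_
        rw [ht, X.eqax.refl, top_inf_eq]
    have hIn : ∀ z, vIn X t z = ⨆ n : ℕ, ⨆ x, X.mem x (A n) ⊓ (X.vReal x ⊓ X.eq z (prepN X n x)) := by
      intro z
      unfold vIn
      exact iSup_congr fun n => iSup_congr fun x => by rw [hinh]
    have hInE : X.Ext (vIn X t) := by
      unfold vIn
      exact SM.Ext.iSup fun n => SM.Ext.iSup fun x => SM.Ext.inf (SM.Ext.const _)
        (SM.Ext.inf (SM.Ext.const _) (SM.Ext.eq_left _))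
    have hInr : ∀ z, vIn X t z ≤ X.vReal z := by
      intro z
      rw [hIn]
      refine iSup_le fun n => iSup_le fun x => ?_
      refine inf_le_right.trans ?_
      rw [inf_comm, X.eqax.symm]
      refine le_trans (inf_le_inf_left _ ?_) (SM.ext_vReal (prepN X n x) z)
      rw [vReal_prepN]
      exact SM.vReal_le x
    have h1 : ∀ z, X.mem z a ≤ vIn X t z := by
      refine G4_le h𝓕 X _ _ (SM.Ext.mem_left a) hInE (fun z => ?_) (fun f => ?_)
      · rw [ha]
        exact inf_le_left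
      · rw [ha', hIn]
        refine iSup_le fun b => le_iSup_of_le b (le_iSup_of_le (nm X (G4_sh f)) ?_)
        rw [hDm, hA, vReal_nm, top_inf_eq]
        have hset : {w | (w, f.1 w) ∈ G4_R b Q} =
            {w | f.1 w 0 = b} ∩ {w | (w, (G4_sh f).1 w) ∈ Rb b Q} := rfl
        have hm : MeasurableSet {w | (w, (G4_sh f).1 w) ∈ Rb b Q} := by
          have h2 : SG (RB MS) β (Rb b Q)ᶜ := by
            rw [Rb_compl]
            refine SG.alg_mono ?_ (sg_Rb b hs)
            rintro R ⟨m, U, hU, rfl⟩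
            exact ⟨m, U, fun s => (hU s).1, rfl⟩
          have h3 := (meas_R h2 (G4_sh f).1 (G4_sh f).2.1).compl
          have h4 : {w | (w, (G4_sh f).1 w) ∈ (Rb b Q)ᶜ}ᶜ = {w | (w, (G4_sh f).1 w) ∈ Rb b Q} := by
            ext w
            simp
          rwa [h4] at h3
        rw [hset, cl_inter (measurableSet_f f.2.1 0 b) hm]
        exact le_inf inf_le_right (inf_le_left.trans (G4_eq X f b))
    have h2 : ∀ z, vIn X t z ≤ X.mem z a := by
      refine G4_le h𝓕 X _ _ hInE (SM.Ext.mem_left a) hInr (fun f => ?_)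
      rw [hIn]
      refine iSup_le fun n => iSup_le fun x => ?_
      have hE : X.Ext (fun x => X.mem x (A n) ⊓ (X.vReal x ⊓ X.eq (nm X f) (prepN X n x))) := by
        refine SM.Ext.inf (SM.Ext.mem_left _) (SM.Ext.inf SM.ext_vReal ?_)
        intro x y
        refine (inf_le_inf_right _ (eq_prepN X n x y)).trans ?_
        exact SM.Ext.eq_right (nm X f) (prepN X n x) (prepN X n y)
      refine G4_le h𝓕 X _ (fun _ => X.mem (nm X f) a) hE (SM.Ext.const _)
        (fun x => inf_le_right.trans inf_le_left) (fun h => ?_) x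
      beta_reduce
      rw [hA, ha', vReal_nm, top_inf_eq]
      refine le_iSup_of_le n ?_
      have h3 := (SM.Ext.eq_right (nm X f)).congr (prepN_nm X n h)
      beta_reduce at h3
      rw [h3]
      have h4 : X.mem (nm X (pre n h)) (D n) = cl {w | (w, h.1 w) ∈ Rb n Q} := by
        rw [hDm]
        congr 1
        ext w
        simp [G4_R, pre]
      rw [← h4, inf_comm, X.eqax.symm]
      exact SM.Ext.mem_left (D n) _ _
    unfold vHat
    rw [eq_top_iff]
    refine le_iInf fun z => le_inf ?_ ?_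
    · rw [himp_eq_top_iff.2 (h1 z)]
    · rw [himp_eq_top_iff.2 (h2 z)]

end Pool.Agent.LibBd83
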