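import Pool.Agent.LibBc83.Henkin

/-!
BD83 H2. A version of `henkin` (`LibBc83/Henkin.lean`, copy and modify its proof) with infinitely many
given names, and with one omitted type: each element of the set named by `v₀ 1` is one of the
elements named by `v₀ 3`, `v₀ 4`, ....

Plan. In the construction the list of names `V` is the interleaving of the given names
(`V (2 * i) = v₀ i`) and of new ones (`V (2 * i + 1)`): at the step `n`, the formula `t.1` with the
assignment given by the list `t.2` is decided, where all indices in `t.2` are `< 2 * n` (or any bound), and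
the Henkin witness becomes `V (2 * n + 1)`. The tasks are now of two kinds (type
`(Fm × List ℕ) ⊕ ℕ`, each occurs infinitely often): for the task `inr i` decide `mem (V i) (v₀ 1)`: if
`s.1 ⊓ mem (V i) (v₀ 1) ≠ ⊥`, then, since this is at most `⨆ k, eq (V i) (v₀ (k + 3))` (`ho`), there is `k` with
`s.1 ⊓ mem (V i) (v₀ 1) ⊓ eq (V i) (v₀ (k + 3)) ≠ ⊥`, which is the next element; otherwise nothing is changed
(and then `s.1 ≤ (mem (V i) (v₀ 1))ᶜ`). So the filter `F` satisfies in addition: if `F (mem (V i) (v₀ 1))` then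
`F (eq (V i) (v₀ (k + 3)))` for some `k`. The quotient `M` is built as in `henkin`, with
`c i =` the class of `2 * i`. For an element `x` of `M`, `x` is the class of some `i`, and `E x (c 1)`
means `F (mem (V i) (v₀ 1))`, so `x = c (k + 3)` for some `k`.
-/

namespace Pool.Agent.LibBd83

open Pool.Agent.LibBc83

universe u v

section

variable {N : Type u} {B : Type v} [CompleteBooleanAlgebra B] {mem eq : N → N → B}

/-- The names: the given ones and the new ones alternate. -/
private def H2_itl (v w : ℕ → N) : ℕ → N := fun i => if i % 2 = 0 then v (i / 2) else w (i / 2)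

private theorem H2_itl_even (v w : ℕ → N) (i : ℕ) : H2_itl v w (2 * i) = v i := by
  unfold H2_itl
  rw [if_pos (by omega), show 2 * i / 2 = i by omega]

private theorem H2_itl_odd (v w : ℕ → N) (i : ℕ) : H2_itl v w (2 * i + 1) = w i := by
  unfold H2_itl
  rw [if_neg (by omega), show (2 * i + 1) / 2 = i by omega]

private theorem H2_itl_congr (v : ℕ → N) {w w' : ℕ → N} {k : ℕ} (h : ∀ i, i < k → w i = w' i) (i : ℕ)
    (hi : i < 2 * k) : H2_itl v w i = H2_itl v w' i := by
  unfold H2_itl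
  split
  · rfl
  · exact h _ (by omega)

/-- The requirement on two consecutive states of the construction. -/
private def H2_Nxt (mem eq : N → N → B) (v₀ : ℕ → N) (k : ℕ) (t : (Fm × List ℕ) ⊕ ℕ)
    (s s' : B × (ℕ → N)) : Prop :=
  s'.1 ≠ ⊥ ∧ s'.1 ≤ s.1 ∧ (∀ i, i < k → s'.2 i = s.2 i) ∧
  (∀ p, t = Sum.inl p →
    s'.1 ≤ ev mem eq p.1 (asg (H2_itl v₀ s.2) p.2) ∨
    (s'.1 ≤ (ev mem eq p.1 (asg (H2_itl v₀ s.2) p.2))ᶜ ∧
      ∀ g, p.1 = .all g → s'.1 ≤ (ev mem eq g (cons (s'.2 k) (asg (H2_itl v₀ s.2) p.2)))ᶜ)) ∧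
  (∀ i, t = Sum.inr i → s'.1 ≤ (mem (H2_itl v₀ s.2 i) (v₀ 1))ᶜ ∨
    ∃ l, s'.1 ≤ eq (H2_itl v₀ s.2 i) (v₀ (l + 3)))

private theorem H2_exists_nxt (v₀ : ℕ → N) (ho : ∀ x, mem x (v₀ 1) ≤ ⨆ k, eq x (v₀ (k + 3)))
    (k : ℕ) (t : (Fm × List ℕ) ⊕ ℕ) (s : B × (ℕ → N)) (hs : s.1 ≠ ⊥) :
    ∃ s', H2_Nxt mem eq v₀ k t s s' := by
  classical
  rcases t with p | i
  · by_cases h1 : s.1 ⊓ ev mem eq p.1 (asg (H2_itl v₀ s.2) p.2) = ⊥
    · have h2 : s.1 ≤ (ev mem eq p.1 (asg (H2_itl v₀ s.2) p.2))ᶜ := by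
        rw [le_compl_iff_disjoint_right, disjoint_iff]
        exact h1
      by_cases h3 : ∃ g, p.1 = .all g
      · obtain ⟨g, hg⟩ := h3
        have h4 : ∃ x, s.1 ⊓ (ev mem eq g (cons x (asg (H2_itl v₀ s.2) p.2)))ᶜ ≠ ⊥ := by
          by_contra hcon
          push Not at hcon
          apply hs
          have h5 : s.1 ≤ ev mem eq p.1 (asg (H2_itl v₀ s.2) p.2) := by
            rw [hg, ev_all]
            refine le_iInf fun x => ?_
            have := hcon x
            rw [← disjoint_iff, disjoint_compl_right_iff] at this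
            exact this
          rw [← h1]
          exact (inf_eq_left.2 h5).symm
        obtain ⟨x, hx⟩ := h4
        refine ⟨(s.1 ⊓ (ev mem eq g (cons x (asg (H2_itl v₀ s.2) p.2)))ᶜ,
          Function.update s.2 k x), hx, inf_le_left, fun i hi => Function.update_of_ne hi.ne _ _,
          fun p' hp' => ?_, fun i hi => by cases hi⟩
        obtain rfl : p = p' := Sum.inl.inj hp'
        refine Or.inr ⟨inf_le_left.trans h2, fun g' hg' => ?_⟩
        rw [hg] at hg'
        cases hg'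
        simp
      · refine ⟨s, hs, le_rfl, fun _ _ => rfl, fun p' hp' => ?_, fun i hi => by cases hi⟩
        obtain rfl : p = p' := Sum.inl.inj hp'
        exact Or.inr ⟨h2, fun g hg => absurd ⟨g, hg⟩ h3⟩
    · refine ⟨(s.1 ⊓ ev mem eq p.1 (asg (H2_itl v₀ s.2) p.2), s.2), h1, inf_le_left,
        fun _ _ => rfl, fun p' hp' => ?_, fun i hi => by cases hi⟩
      obtain rfl : p = p' := Sum.inl.inj hp'
      exact Or.inl inf_le_right
  · by_cases h1 : s.1 ⊓ mem (H2_itl v₀ s.2 i) (v₀ 1) = ⊥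
    · refine ⟨s, hs, le_rfl, fun _ _ => rfl, fun p hp => (by cases hp), fun i' hi' => ?_⟩
      obtain rfl : i = i' := Sum.inr.inj hi'
      left
      rw [le_compl_iff_disjoint_right, disjoint_iff]
      exact h1
    · have h2 : ∃ l, s.1 ⊓ mem (H2_itl v₀ s.2 i) (v₀ 1) ⊓ eq (H2_itl v₀ s.2 i) (v₀ (l + 3)) ≠ ⊥ := by
        by_contra hcon
        push Not at hcon
        apply h1
        have h3 : s.1 ⊓ mem (H2_itl v₀ s.2 i) (v₀ 1) ≤
            ⨆ l, eq (H2_itl v₀ s.2 i) (v₀ (l + 3)) := inf_le_right.trans (ho _)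
        rw [← inf_eq_left.2 h3, inf_iSup_eq]
        simp only [hcon, iSup_const]
      obtain ⟨l, hl⟩ := h2
      refine ⟨(s.1 ⊓ mem (H2_itl v₀ s.2 i) (v₀ 1) ⊓ eq (H2_itl v₀ s.2 i) (v₀ (l + 3)), s.2), hl,
        inf_le_left.trans inf_le_left, fun _ _ => rfl, fun p hp => (by cases hp), fun i' hi' => ?_⟩
      obtain rfl : i = i' := Sum.inr.inj hi'
      exact Or.inr ⟨l, inf_le_right⟩

/-- The data given by the construction. -/
private structure H2_Gen (mem eq : N → N → B) (b : B) (v₀ : ℕ → N) where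
  /-- the elements of the filter -/
  F : B → Prop
  /-- the names -/
  V : ℕ → N
  init : ∀ i, V (2 * i) = v₀ i
  base : F b
  mono : ∀ a a', a ≤ a' → F a → F a'
  inf : ∀ a a', F a → F a' → F (a ⊓ a')
  ne : ¬ F ⊥
  dec : ∀ f e, F (ev mem eq f (asg V e)) ∨ (F (ev mem eq f (asg V e))ᶜ ∧
    ∀ g, f = .all g → ∃ i, F (ev mem eq g (cons (V i) (asg V e)))ᶜ)
  om : ∀ i, F (mem (V i) (v₀ 1)) → ∃ l, F (eq (V i) (v₀ (l + 3)))

private theorem H2_exists_gen (b : B) (hb : b ≠ ⊥) (v₀ : ℕ → N)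
    (ho : ∀ x, mem x (v₀ 1) ≤ ⨆ k, eq x (v₀ (k + 3))) : Nonempty (H2_Gen mem eq b v₀) := by
  classical
  have : Nonempty ((Fm × List ℕ) ⊕ ℕ) := ⟨Sum.inr 0⟩
  obtain ⟨s, hs⟩ := exists_surjective_nat ((Fm × List ℕ) ⊕ ℕ)
  let en : ℕ → (Fm × List ℕ) ⊕ ℕ := fun n => s n.unpair.1
  have hen : ∀ t m, ∃ n, m ≤ n ∧ en n = t := by
    intro t m
    obtain ⟨a, ha⟩ := hs t
    refine ⟨Nat.pair a m, Nat.right_le_pair a m, ?_⟩
    simp [en, ha]
  choose! nx hnx using fun (n : ℕ) (s : B × (ℕ → N)) (hs : s.1 ≠ ⊥) =>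
    H2_exists_nxt (mem := mem) (eq := eq) v₀ ho n (en n) s hs
  let S : ℕ → B × (ℕ → N) := fun n => Nat.rec (b, v₀) (fun n s => nx n s) n
  have hS1 : ∀ n, S (n + 1) = nx n (S n) := fun n => rfl
  have hSne : ∀ n, (S n).1 ≠ ⊥ := by
    intro n
    induction n with
    | zero => exact hb
    | succ n ih =>
      rw [hS1]
      exact (hnx n _ ih).1
  have hSn : ∀ n, H2_Nxt mem eq v₀ n (en n) (S n) (S (n + 1)) := fun n => hnx n _ (hSne n)
  have hanti : ∀ m n, m ≤ n → (S n).1 ≤ (S m).1 := by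
    intro m n hmn
    induction n, hmn using Nat.le_induction with
    | base => exact le_rfl
    | succ n _ ih => exact (hSn n).2.1.trans ih
  have hfix : ∀ m n, m ≤ n → ∀ i, i < m → (S n).2 i = (S m).2 i := by
    intro m n hmn i hi
    induction n, hmn using Nat.le_induction with
    | base => rfl
    | succ n hn ih => exact ((hSn n).2.2.1 i (by omega)).trans ih
  let w : ℕ → N := fun i => (S (i + 1)).2 i
  have hw : ∀ n i, i < n → (S n).2 i = w i := by
    intro n i hi
    exact hfix (i + 1) n (by omega) i (by omega)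
  let V : ℕ → N := H2_itl v₀ w
  have hV : ∀ n i, i < 2 * n → H2_itl v₀ (S n).2 i = V i := fun n i hi =>
    H2_itl_congr v₀ (hw n) i hi
  have hasg : ∀ n (e : List ℕ), 0 < n → (∀ i ∈ e, i < 2 * n) →
      asg (H2_itl v₀ (S n).2) e = asg V e := by
    intro n e hn he
    funext i
    refine hV n _ ?_
    rw [List.getD_eq_getElem?_getD]
    cases h : e[i]? with
    | none => simp; omega
    | some j => exact he j (List.mem_of_getElem? h)
  have hF : ∀ a a', (∃ n, (S n).1 ≤ a) → (∃ n, (S n).1 ≤ a') → ∃ n, (S n).1 ≤ a ⊓ a' :=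
    fun a a' ⟨n, hn⟩ ⟨m, hm⟩ => ⟨max n m, le_inf
      ((hanti _ _ (le_max_left n m)).trans hn) ((hanti _ _ (le_max_right n m)).trans hm)⟩
  have hnb : ¬ ∃ n, (S n).1 ≤ ⊥ := fun ⟨n, hn⟩ => hSne n (le_bot_iff.1 hn)
  refine ⟨{
    F := fun a => ∃ n, (S n).1 ≤ a
    V := V
    init := fun i => H2_itl_even v₀ w i
    base := ⟨0, le_rfl⟩
    mono := fun a a' h ⟨n, hn⟩ => ⟨n, hn.trans h⟩
    inf := hF
    ne := hnb
    dec := ?_
    om := ?_ }⟩
  · intro f e
    obtain ⟨n, hn, hn'⟩ := hen (Sum.inl (f, e)) (e.sum + 1)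
    have hval : ∀ i ∈ e, i < 2 * n := by
      intro i hi
      have := List.le_sum_of_mem hi
      omega
    have h := (hSn n).2.2.2.1 (f, e) hn'
    have h0 : 0 < n := by omega
    rcases h with h | ⟨h, h'⟩
    · left
      refine ⟨n + 1, ?_⟩
      rw [hasg n e h0 hval] at h
      exact h
    · right
      rw [hasg n e h0 hval] at h h'
      refine ⟨⟨n + 1, h⟩, fun g hg => ⟨2 * n + 1, n + 1, ?_⟩⟩
      have h2 : V (2 * n + 1) = (S (n + 1)).2 n := H2_itl_odd v₀ w n
      rw [h2]
      exact h' g hg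
  · intro i hi
    obtain ⟨n, hn, hn'⟩ := hen (Sum.inr i) (i + 1)
    have h := (hSn n).2.2.2.2 i hn'
    rw [hV n i (by omega)] at h
    rcases h with h | ⟨l, hl⟩
    · exfalso
      apply hnb
      rw [← inf_compl_eq_bot (a := mem (V i) (v₀ 1))]
      exact hF _ _ hi ⟨n + 1, h⟩
    · exact ⟨l, n + 1, hl⟩

private theorem H2_asg_map {X : Type*} (v : ℕ → X) (w : ℕ → X) (h : ∀ i, v (2 * i) = w i)
    (e : List ℕ) : asg v (e.map (2 * ·)) = asg w e := by
  funext n
  unfold asg
  rw [List.getD_eq_getElem?_getD, List.getD_eq_getElem?_getD, List.getElem?_map]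
  cases e[n]? with
  | none => exact h 0
  | some j => exact h j

end

theorem henkin2 {N : Type u} {B : Type v} [CompleteBooleanAlgebra B] {mem eq : N → N → B}
    (H : EqAx mem eq) (b : B) (hb : b ≠ ⊥) (v₀ : ℕ → N)
    (ho : ∀ x, mem x (v₀ 1) ≤ ⨆ k, eq x (v₀ (k + 3))) :
    ∃ (M : Type) (E : M → M → Prop) (c : ℕ → M),
      (∀ f, (∀ v, b ≤ ev mem eq f v) → ∀ v', Sat E f v') ∧
      (∀ (f : Fm) (e : List ℕ), b ≤ ev mem eq f (asg v₀ e) → Sat E f (asg c e)) ∧
      ∀ x, E x (c 1) → ∃ k, x = c (k + 3) := by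
  classical
  obtain ⟨G⟩ := H2_exists_gen (mem := mem) (eq := eq) b hb v₀ ho
  let st : Setoid ℕ :=
    { r := fun i j => G.F (eq (G.V i) (G.V j))
      iseqv :=
        { refl := fun i => by
            rw [H.refl]
            exact G.mono _ _ le_top G.base
          symm := fun {i j} h => by
            rw [H.symm]
            exact h
          trans := fun {i j k} h h' => G.mono _ _ (H.trans _ _ _) (G.inf _ _ h h') } }
  let E : Quotient st → Quotient st → Prop := Quotient.lift₂ (fun i j => G.F (mem (G.V i) (G.V j))) (by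
    have key : ∀ i j i' j', G.F (eq (G.V i) (G.V i')) → G.F (eq (G.V j) (G.V j')) →
        G.F (mem (G.V i) (G.V j)) → G.F (mem (G.V i') (G.V j')) := by
      intro i j i' j' h1 h2 h
      exact G.mono _ _ (H.memr _ _ _) (G.inf _ _ h2 (G.mono _ _ (H.meml _ _ _) (G.inf _ _ h1 h)))
    intro i j i' j' h1 h2
    refine propext ⟨key i j i' j' h1 h2, key i' j' i j ?_ ?_⟩
    · rw [H.symm]
      exact h1
    · rw [H.symm]
      exact h2)
  let cl : ℕ → Quotient st := fun i => Quotient.mk st i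
  have hneg : ∀ f e, G.F (ev mem eq f (asg G.V e))ᶜ ↔ ¬ G.F (ev mem eq f (asg G.V e)) := by
    intro f e
    constructor
    · intro h h'
      apply G.ne
      rw [← inf_compl_eq_bot (a := ev mem eq f (asg G.V e))]
      exact G.inf _ _ h' h
    · intro h
      rcases G.dec f e with h' | h'
      · exact absurd h' h
      · exact h'.1
  have truth : ∀ f e, Sat E f (asg cl e) ↔ G.F (ev mem eq f (asg G.V e)) := by
    intro f
    induction f with
    | mem i j => exact fun e => Iff.rfl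
    | eq i j => exact fun e => Quotient.eq (r := st)
    | neg f ih => exact fun e => (not_congr (ih e)).trans (hneg f e).symm
    | and f g ihf ihg =>
      intro e
      refine (and_congr (ihf e) (ihg e)).trans ⟨fun h => G.inf _ _ h.1 h.2, fun h => ?_⟩
      exact ⟨G.mono _ _ inf_le_left h, G.mono _ _ inf_le_right h⟩
    | all f ih =>
      intro e
      constructor
      · intro h
        by_contra hcon
        rcases G.dec (.all f) e with h' | ⟨-, h'⟩
        · exact hcon h'
        · obtain ⟨i, hi⟩ := h' f rfl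
          rw [cons_asg, hneg] at hi
          apply hi
          rw [← ih, ← cons_asg]
          exact h (cl i)
      · intro h a
        obtain ⟨i, rfl⟩ := Quotient.exists_rep a
        change Sat E f (cons (cl i) (asg cl e))
        rw [cons_asg, ih, ← cons_asg]
        exact G.mono _ _ (iInf_le _ (G.V i)) h
  refine ⟨Quotient st, E, fun i => cl (2 * i), ?_, ?_, ?_⟩
  · intro f hf v'
    choose r hr using fun i => Quotient.exists_rep (v' i)
    have h1 : Sat E f v' ↔ Sat E f (asg cl ((List.range f.bd).map r)) := by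
      refine sat_bd f _ _ fun n hn => ?_
      rw [← hr n]
      simp [asg, cl, hn]
    rw [h1, truth]
    exact G.mono _ _ (hf _) G.base
  · intro f e hf
    rw [← H2_asg_map cl (fun i => cl (2 * i)) (fun i => rfl) e, truth,
      H2_asg_map G.V v₀ G.init e]
    exact G.mono _ _ hf G.base
  · intro x hx
    obtain ⟨i, rfl⟩ := Quotient.exists_rep x
    have h1 : G.F (mem (G.V i) (G.V (2 * 1))) := hx
    rw [G.init] at h1
    obtain ⟨l, hl⟩ := G.om i h1
    refine ⟨l, ?_⟩
    apply Quotient.sound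
    show G.F (eq (G.V i) (G.V (2 * (l + 3))))
    rw [G.init]
    exact hl

end Pool.Agent.LibBd83
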