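import Pool.Agent.LibBd83.M1
import Pool.Agent.LibBd83.M2

/-!
BD83 K1. The measure of `E_z` if `z` is in almost all `C i`.

Plan. Let `D = Dz F' C z`. By `hz`, for each `v : W` the point `γ = rs D v` satisfies the hypotheses in
`InvR` (if `z ∈ C i` then `(b, i, l) ∉ D`), so `∀ᵐ w, ((w, f w) ∈ R ↔ (tr (rs D v) w, f w) ∈ R)`. By Fubini
(`Measure.ae_prod_iff`-like: `MeasureTheory.Measure.ae_prod_mem_iff_ae_ae_mem` or
`measure_prod_null`; the set `{(w, v) | ..}` is measurable because `R` is, `f` is, and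
`(w, v) ↦ tr (rs D v) w` is measurable) this holds for almost all `(w, v)`. Pull back by the shear
(`mp_shear.quasiMeasurePreserving.ae`): for almost all `(w, u)`:
`(w, f w) ∈ R ↔ (tr (rs D (tr w u)) w, f w) ∈ R`, and `tr (rs D (tr w u)) w = mx D w u` (pointwise). So
`Ez` is almost equal to `{p | (p.1, f p.1) ∈ R}`, whose measure is that of `{w | (w, f w) ∈ R}`
(`Measure.measurePreserving_fst`-like, `mu` is a probability measure; `Measure.prod_prod` with
`univ`).
-/

namespace Pool.Agent.LibBd83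

open MeasureTheory Set Filter

theorem measurable_rs (D : Set Jx) : Measurable (rs D) := by
  classical
  refine measurable_pi_iff.mpr fun c => ?_
  by_cases hc : c ∈ D
  · have : (fun w : W => rs D w c) = fun w => w c := by
      funext w
      simp only [rs, if_pos hc]
    rw [this]
    exact measurable_pi_apply c
  · have : (fun w : W => rs D w c) = fun _ => false := by
      funext w
      simp only [rs, if_neg hc]
    rw [this]
    exact measurable_const

theorem tr_rs_tr (D : Set Jx) (w u : W) : tr (rs D (tr w u)) w = mx D w u := by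
  classical
  funext c
  by_cases hc : c ∈ D
  · simp only [tr, rs, mx, if_pos hc]
    cases w c <;> cases u c <;> rfl
  · simp only [tr, rs, mx, if_neg hc]
    cases w c <;> rfl

theorem ez_pos {𝓕 : Filter ℕ} {F₀ F' : Set ℕ} {R : Set (W × (ℕ → ℕ))} (hR : MeasurableSet R)
    (hI : InvR 𝓕 F₀ F' R) (f : W → ℕ → ℕ) (hf : Measurable f) (hd : Dp (cs (F₀ ∪ F')) f)
    (C : ℕ → Set Cn) (z : Cn) (hz : ∀ᶠ i in 𝓕, z ∈ C i) :
    mu.prod mu (Ez F' C f R z) = mu {w | (w, f w) ∈ R} := by
  classical
  have hA : MeasurableSet {p : W × W | (p.1, f p.1) ∈ R} :=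
    hR.preimage (measurable_fst.prodMk (hf.comp measurable_fst))
  have hB : MeasurableSet {p : W × W | (tr (rs (Dz F' C z) p.2) p.1, f p.1) ∈ R} := by
    refine hR.preimage (Measurable.prodMk ?_ (hf.comp measurable_fst))
    exact measurable_tr'.comp (((measurable_rs _).comp measurable_snd).prodMk measurable_fst)
  have hN : MeasurableSet {p : W × W | ¬ ((p.1, f p.1) ∈ R ↔
      (tr (rs (Dz F' C z) p.2) p.1, f p.1) ∈ R)} := by
    have h1 := (hA.diff hB).union (hB.diff hA)
    convert h1 using 1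
    ext p
    simp only [Set.mem_ofPred_eq, Set.mem_union, Set.mem_sdiff]
    tauto
  have h0 : (mu.prod mu) {p : W × W | ¬ ((p.1, f p.1) ∈ R ↔
      (tr (rs (Dz F' C z) p.2) p.1, f p.1) ∈ R)} = 0 := by
    rw [Measure.prod_apply_symm hN]
    have h2 : ∀ v : W, mu ((fun w : W => (w, v)) ⁻¹' {p : W × W | ¬ ((p.1, f p.1) ∈ R ↔
        (tr (rs (Dz F' C z) p.2) p.1, f p.1) ∈ R)}) = 0 := by
      intro v
      have h3 := hI f hf hd (rs (Dz F' C z) v) (fun c hc => by
        have : c ∉ Dz F' C z := fun h => hc h.1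
        simp only [rs, if_neg this]) (fun b => hz.mono fun i hi l => by
        have : (b, i, l) ∉ Dz F' C z := fun h => h.2 hi
        simp only [rs, if_neg this])
      exact h3
    simp only [h2, lintegral_zero]
  have h4 := mp_shear.measure_preimage hN.nullMeasurableSet
  rw [h0] at h4
  have h5 : Ez F' C f R z =ᵐ[mu.prod mu] {p : W × W | (p.1, f p.1) ∈ R} := by
    have h6 : ∀ᵐ p ∂(mu.prod mu), (p ∈ Ez F' C f R z ↔ p ∈ {p : W × W | (p.1, f p.1) ∈ R}) := by
      have h7 : ∀ᵐ p : W × W ∂(mu.prod mu), ((p.1, f p.1) ∈ R ↔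
          (tr (rs (Dz F' C z) (tr p.1 p.2)) p.1, f p.1) ∈ R) := h4
      filter_upwards [h7] with p hp
      rw [tr_rs_tr] at hp
      exact hp.symm
    exact h6.mono fun p hp => propext hp
  rw [measure_congr h5]
  have h8 : {p : W × W | (p.1, f p.1) ∈ R} = {w : W | (w, f w) ∈ R} ×ˢ (Set.univ : Set W) := by
    ext p
    simp only [Set.mem_ofPred_eq, Set.mem_prod, Set.mem_univ, and_true]
  rw [h8, Measure.prod_prod, measure_univ, mul_one]

end Pool.Agent.LibBd83
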