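import Pool.Agent.LibBd83.K1

/-!
BD83 K2. `E_z` is a null set if `z` is in almost no `C i`.

Plan. Let `D = Dz F' C z` and `D' = {c | c.1 ∈ F' ∧ z ∈ C c.2.1}`, so `cs F' = D ∪ D'`.
(1) Exchange on `D` (`mp_swap D`, `mx_mx`): the measure of `Ez` is that of
`{p | (p.1, f (mx D p.1 p.2)) ∈ R}` (the preimage of `Ez` under the swap
`(w, u) ↦ (mx D w u, mx D u w)` is `{(w, u) | (w, f (mx D w u)) ∈ R}`). By Fubini
(`Measure.prod_apply_symm`, `lintegral_eq_zero_iff` or `measure_prod_null`) it is enough that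
`mu {w | (w, g w) ∈ R} = 0` for each fixed `u`, where `g w = f (mx D w u)`; `g` is measurable and
depends only on `cs F₀ ∪ D'`.
(2) For each `v`, let `γ = rs D' v`; by `hz` it satisfies the hypotheses in `InvR`. `InvR` for the
function `w ↦ g (tr γ w)` gives `(w, g (tr γ w)) ∈ R ↔ (tr γ w, g (tr γ w)) ∈ R` for almost all `w`; so
`mu {w | (w, g (tr γ w)) ∈ R} = mu {w | (tr γ w, g (tr γ w)) ∈ R} = mu {w | (w, g w) ∈ R}` (`mp_tr`).
(3) Hence `mu {w | (w, g w) ∈ R}` is the average over `v` of `mu {w | (w, g (tr (rs D' v) w)) ∈ R}`,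
i.e. `(mu.prod mu) {(w, v) | (w, g (tr (rs D' v) w)) ∈ R}` which by the shear (`mp_shear`,
`tr_rs_tr`) is `(mu.prod mu) {(w, v) | (w, g (mx D' w v)) ∈ R}`; for fixed `v` the function
`w ↦ g (mx D' w v)` depends only on `cs F₀`, so by `h0` all sections are null. All sets are measurable
(`R`, `f`, `mx`, `tr`, `rs` are).
-/

namespace Pool.Agent.LibBd83

open MeasureTheory Set Filter

private theorem K2_null {R : Set (W × (ℕ → ℕ))} (hR : MeasurableSet R)
    (h : W → W → ℕ → ℕ) (hm : Measurable fun p : W × W => h p.1 p.2)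
    (h0 : ∀ u, mu {w | (w, h w u) ∈ R} = 0) :
    mu.prod mu {p : W × W | (p.1, h p.1 p.2) ∈ R} = 0 := by
  have hS : MeasurableSet {p : W × W | (p.1, h p.1 p.2) ∈ R} :=
    (measurable_fst.prodMk hm) hR
  rw [Measure.prod_apply_symm hS]
  have : ∀ u, mu ((fun w => (w, u)) ⁻¹' {p : W × W | (p.1, h p.1 p.2) ∈ R}) = 0 := by
    intro u
    exact h0 u
  rw [lintegral_congr this, lintegral_zero]

private theorem K2_const {R : Set (W × (ℕ → ℕ))} (hR : MeasurableSet R)
    (h : W → W → ℕ → ℕ) (hm : Measurable fun p : W × W => h p.1 p.2) (a : ENNReal)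
    (h0 : ∀ u, mu {w | (w, h w u) ∈ R} = a) :
    mu.prod mu {p : W × W | (p.1, h p.1 p.2) ∈ R} = a := by
  have hS : MeasurableSet {p : W × W | (p.1, h p.1 p.2) ∈ R} :=
    (measurable_fst.prodMk hm) hR
  rw [Measure.prod_apply_symm hS]
  have : ∀ u, mu ((fun w => (w, u)) ⁻¹' {p : W × W | (p.1, h p.1 p.2) ∈ R}) = a := by
    intro u
    exact h0 u
  rw [lintegral_congr this, lintegral_const, measure_univ, mul_one]

private theorem K2_rs_of_notMem {D : Set Jx} {c : Jx} (h : c ∉ D) (w : W) : rs D w c = false := by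
  simp [rs, h]

theorem ez_zero {𝓕 : Filter ℕ} {F₀ F' : Set ℕ} {R : Set (W × (ℕ → ℕ))} (hR : MeasurableSet R)
    (hI : InvR 𝓕 F₀ F' R)
    (h0 : ∀ f : W → ℕ → ℕ, Measurable f → Dp (cs F₀) f → ∀ᵐ w ∂mu, (w, f w) ∉ R)
    (f : W → ℕ → ℕ) (hf : Measurable f) (hd : Dp (cs (F₀ ∪ F')) f)
    (C : ℕ → Set Cn) (z : Cn) (hz : ∀ᶠ i in 𝓕, z ∉ C i) :
    mu.prod mu (Ez F' C f R z) = 0 := by
  set D : Set Jx := Dz F' C z with hD
  set D' : Set Jx := {c | c.1 ∈ F' ∧ z ∈ C c.2.1} with hD'
  -- measurability of `Ez`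
  have hEm : MeasurableSet (Ez F' C f R z) := by
    have : Measurable fun p : W × W => (mx D p.1 p.2, f p.1) :=
      (measurable_mx D).prodMk (hf.comp measurable_fst)
    exact this hR
  -- exchange on `D`
  have h1 : mu.prod mu (Ez F' C f R z)
      = mu.prod mu {p : W × W | (p.1, f (mx D p.1 p.2)) ∈ R} := by
    rw [← (mp_swap D).measure_preimage hEm.nullMeasurableSet]
    congr 1
    ext p
    simp only [Ez, mem_preimage, mem_ofPred_eq, ← hD, mx_mx]
  rw [h1]
  refine K2_null hR (fun w u => f (mx D w u)) (hf.comp (measurable_mx D)) ?_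
  intro u
  -- the function `g`
  set g : W → ℕ → ℕ := fun w => f (mx D w u) with hg
  have hgm : Measurable g := hf.comp ((measurable_mx D).comp (measurable_id.prodMk measurable_const))
  have hgd : Dp (cs F₀ ∪ D') g := by
    intro w w' hw
    apply hd
    intro c hc
    by_cases hcD : c ∈ D
    · rw [mx_of_mem hcD, mx_of_mem hcD]
    · rw [mx_of_notMem hcD, mx_of_notMem hcD]
      apply hw
      rcases hc with hc | hc
      · exact Or.inl hc
      · right
        refine ⟨hc, ?_⟩
        by_contra hzc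
        exact hcD ⟨hc, hzc⟩
  have hgd' : Dp (cs (F₀ ∪ F')) g := by
    intro w w' hw
    apply hgd
    intro c hc
    apply hw
    rcases hc with hc | hc
    · exact Or.inl hc
    · exact Or.inr hc.1
  have hRg : MeasurableSet {w | (w, g w) ∈ R} := (measurable_id.prodMk hgm) hR
  -- averaging
  have h2 : ∀ v, mu {w | (w, g (tr (rs D' v) w)) ∈ R} = mu {w | (w, g w) ∈ R} := by
    intro v
    have hγ1 : ∀ c : Jx, c.1 ∉ F' → rs D' v c = false := by
      intro c hc
      exact K2_rs_of_notMem (fun h => hc h.1) v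
    have hγ2 : ∀ b, ∀ᶠ i in 𝓕, ∀ l, rs D' v (b, i, l) = false := by
      intro b
      filter_upwards [hz] with i hi l
      exact K2_rs_of_notMem (fun h => hi h.2) v
    have hm2 : Measurable fun w => g (tr (rs D' v) w) := hgm.comp (measurable_tr _)
    have hdd : Dp (cs (F₀ ∪ F')) fun w => g (tr (rs D' v) w) := by
      intro w w' hw
      apply hgd'
      intro c hc
      simp only [tr, hw c hc]
    have hae := hI (fun w => g (tr (rs D' v) w)) hm2 hdd (rs D' v) hγ1 hγ2
    have e1 : mu {w | (w, g (tr (rs D' v) w)) ∈ R}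
        = mu {w | (tr (rs D' v) w, g (tr (rs D' v) w)) ∈ R} := by
      apply measure_congr
      filter_upwards [hae] with w hw
      exact propext hw
    rw [e1]
    exact (mp_tr (rs D' v)).measure_preimage hRg.nullMeasurableSet
  have hm3 : Measurable fun p : W × W => g (tr (rs D' p.2) p.1) :=
    hgm.comp (measurable_tr'.comp (((measurable_rs D').comp measurable_snd).prodMk measurable_fst))
  have h3 : mu.prod mu {p : W × W | (p.1, g (tr (rs D' p.2) p.1)) ∈ R} = mu {w | (w, g w) ∈ R} :=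
    K2_const hR (fun w v => g (tr (rs D' v) w)) hm3 _ h2
  have hAm : MeasurableSet {p : W × W | (p.1, g (tr (rs D' p.2) p.1)) ∈ R} :=
    (measurable_fst.prodMk hm3) hR
  have h4 : mu.prod mu {p : W × W | (p.1, g (tr (rs D' p.2) p.1)) ∈ R}
      = mu.prod mu {p : W × W | (p.1, g (mx D' p.1 p.2)) ∈ R} := by
    rw [← mp_shear.measure_preimage hAm.nullMeasurableSet]
    congr 1
    ext p
    simp only [mem_preimage, mem_ofPred_eq, tr_rs_tr]
  have h5 : mu.prod mu {p : W × W | (p.1, g (mx D' p.1 p.2)) ∈ R} = 0 := by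
    refine K2_null hR (fun w v => g (mx D' w v)) (hgm.comp (measurable_mx D')) ?_
    intro v
    have hm5 : Measurable fun w => g (mx D' w v) :=
      hgm.comp ((measurable_mx D').comp (measurable_id.prodMk measurable_const))
    have hd5 : Dp (cs F₀) fun w => g (mx D' w v) := by
      intro w w' hw
      apply hgd
      intro c hc
      by_cases hcD : c ∈ D'
      · rw [mx_of_mem hcD, mx_of_mem hcD]
      · rw [mx_of_notMem hcD, mx_of_notMem hcD]
        rcases hc with hc | hc
        · exact hw c hc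
        · exact absurd hc hcD
    have := h0 _ hm5 hd5
    rw [ae_iff] at this
    simpa using this
  show mu {w | (w, g w) ∈ R} = 0
  rw [← h3, h4, h5]

end Pool.Agent.LibBd83
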