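import Pool.Agent.LibBd83.S3

/-!
BD83 K3. The set of the points `z` for which the section of `E` has measure `> r` is in the same
class as `E`.

Plan. Strong induction on `β` (`WellFoundedLT.induction` or `Ordinal.induction`), for all `E` and `r`.
Sections: `s z E = {y | (z, y) ∈ E}`, measurable for `E` in `SG (CM ν) β` (induction on the predicate,
or `SG.preimage` with `y ↦ (z, y)` and `SG.measurable`).
`β = 1`: `E = ⋃ f n`, `f n ∈ CM ν`. `ν (s z E) > r` iff there is `N` with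
`ν (⋃ n < N, s z (f n)) > r` (`measure_iUnion_eq_iSup` for the increasing finite unions,
`lt_iSup_iff`). For fixed `N` the set of these `z` is open: the finite union is in `CM ν`
(`isAlg_CM`), and if `ν (s z G) > r`, `G ∈ CM ν`, take `ε = ν (s z G) - r`; for `z'` near `z`,
`ν (s z G) ≤ ν (s z' G) + ν {y | ¬ ((z,y) ∈ G ↔ (z',y) ∈ G)} < ν (s z' G) + ε`, so `ν (s z' G) > r`
(`r ≠ ⊤`, all is finite). An open subset of `Cn` is a countable union of clopen sets
(`Cn` has a countable basis of clopen sets: e.g. `isTopologicalBasis_isClopen` and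
`IsTopologicalBasis.open_eq_sUnion` with a countable subfamily (`Set.Countable`, second countable:
`IsTopologicalBasis.exists_countable`...), or directly cylinders `{x | ∀ i < n, x i = s i}`).
`1 < β`: `E = ⋃ (f n)ᶜ`, `SG (CM ν) (γ n) (f n)`. `ν (s z E) > r` iff there is `N` with
`ν (⋃ n < N, (s z (f n))ᶜ) > r`, i.e. `ν (⋂ n < N, s z (f n)) < 1 - r`
(`prob_compl_eq_one_sub`; if `r ≥ 1` the set is empty and it is in the class as `univᶜ`;
assume `r < 1`), iff there are `N` and a rational (or from a countable dense set) `q < 1 - r` with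
`¬ (q < ν (⋂ n < N, s z (f n)))`. For fixed `N > 0` let `δ < β` be the maximum of `γ n`, `n < N`
(and `1`); `⋂ n < N, f n` is in the class `δ` (`SG.mono`, `SG.iInter_lt`), so by induction
`{z | q < ν ..}` is in `SG (Clop Cn) δ`, and the set is a countable union of complements of such
sets (`SG.gt_iff` with a reindexing of the pairs `(N, q)`, or `SG.compl` and
`SG.iUnion_countable`).
-/

namespace Pool.Agent.LibBd83

open MeasureTheory Set Filter

theorem isOpen_sg (A : Set Cn) (hA : IsOpen A) : SG (Clop Cn) 1 A := by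
  rw [SG.one_iff]
  refine ⟨fun n => {x | ∀ y : Cn, (∀ i < n, y i = x i) → y ∈ A}, fun n => ?_, ?_⟩
  · show IsClopen {x : Cn | ∀ y : Cn, (∀ i < n, y i = x i) → y ∈ A}
    have h1 : {x : Cn | ∀ y : Cn, (∀ i < n, y i = x i) → y ∈ A} =
        (fun (x : Cn) (i : Fin n) => x i) ⁻¹'
          {u : Fin n → Bool | ∀ y : Cn, (∀ i : Fin n, y i = u i) → y ∈ A} := by
      ext x
      constructor
      · intro h y hy
        exact h y fun i hi => hy ⟨i, hi⟩
      · intro h y hy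
        exact h y fun i => hy i i.2
    rw [h1]
    exact (isClopen_discrete _).preimage (by fun_prop)
  · ext x
    rw [mem_iUnion]
    constructor
    · intro hx
      obtain ⟨I, u, hu, hsub⟩ := isOpen_pi_iff.1 hA x hx
      obtain ⟨n, hn⟩ := Finset.exists_nat_subset_range I
      refine ⟨n, fun y hy => hsub fun i hi => ?_⟩
      rw [hy i (Finset.mem_range.1 (hn hi))]
      exact (hu i hi).2
    · rintro ⟨n, hn⟩
      exact hn x fun _ _ => rfl

private theorem K3_sec {Y : Type*} [MeasurableSpace Y] (ν : Measure Y) {β : Ordinal.{0}} {E : Set (Cn × Y)}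
    (hE : SG (CM ν) β E) (z : Cn) : MeasurableSet {y | (z, y) ∈ E} := by
  induction hE with
  | base f h =>
    have h1 : {y | (z, y) ∈ ⋃ n, f n} = ⋃ n, {y | (z, y) ∈ f n} := by
      ext y
      simp only [mem_iUnion]
      exact Iff.rfl.trans (by simp)
    rw [h1]
    exact MeasurableSet.iUnion fun n => (h n).1 z
  | step β hβ f γ hγ h ih =>
    have h1 : {y | (z, y) ∈ ⋃ n, (f n)ᶜ} = ⋃ n, {y | (z, y) ∈ f n}ᶜ := by
      ext y
      simp only [mem_iUnion]
      exact Iff.rfl.trans (by simp)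
    rw [h1]
    exact MeasurableSet.iUnion fun n => (ih n).compl

private theorem K3_alg {X : Type*} {𝓑 : Set (Set X)} (hB : IsAlg 𝓑) (f : ℕ → Set X) (h : ∀ n, f n ∈ 𝓑) (N : ℕ) :
    (⋃ n, ⋃ (_ : n < N), f n) ∈ 𝓑 := by
  induction N with
  | zero =>
    have h1 : (⋃ n, ⋃ (_ : n < 0), f n) = univᶜ := by
      rw [compl_univ]
      ext x
      simp
    rw [h1]
    exact hB.compl _ hB.univ
  | succ N ih =>
    have h1 : (⋃ n, ⋃ (_ : n < N + 1), f n) = ((⋃ n, ⋃ (_ : n < N), f n)ᶜ ∩ (f N)ᶜ)ᶜ := by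
      rw [compl_inter, compl_compl, compl_compl]
      ext x
      simp only [mem_iUnion, mem_union]
      constructor
      · rintro ⟨n, hn, hx⟩
        rcases Nat.lt_succ_iff_lt_or_eq.1 hn with h2 | rfl
        · exact Or.inl ⟨n, h2, hx⟩
        · exact Or.inr hx
      · rintro (⟨n, hn, hx⟩ | hx)
        · exact ⟨n, Nat.lt_succ_of_lt hn, hx⟩
        · exact ⟨N, Nat.lt_succ_self N, hx⟩
    rw [h1]
    exact hB.compl _ (hB.inter _ (hB.compl _ ih) _ (hB.compl _ (h N)))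

private theorem K3_open {Y : Type*} [MeasurableSpace Y] (ν : Measure Y) [IsProbabilityMeasure ν]
    {G : Set (Cn × Y)} (hG : G ∈ CM ν) (r : ENNReal) : IsOpen {z : Cn | r < ν {y | (z, y) ∈ G}} := by
  rw [isOpen_iff_eventually]
  intro z hz
  have hε : 0 < ν {y | (z, y) ∈ G} - r := tsub_pos_of_lt hz
  filter_upwards [hG.2 z _ hε] with z' hz'
  show r < ν {y | (z', y) ∈ G}
  by_contra hcon
  push Not at hcon
  have h1 : {y | (z, y) ∈ G} ⊆ {y | (z', y) ∈ G} ∪ {y | ¬ ((z, y) ∈ G ↔ (z', y) ∈ G)} := by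
    intro y hy
    by_cases hy' : (z', y) ∈ G
    · exact Or.inl hy'
    · refine Or.inr fun h => hy' (h.1 hy)
  have h2 : ν {y | (z, y) ∈ G} < r + (ν {y | (z, y) ∈ G} - r) := by
    calc ν {y | (z, y) ∈ G} ≤ ν {y | (z', y) ∈ G} + ν {y | ¬ ((z, y) ∈ G ↔ (z', y) ∈ G)} :=
          (measure_mono h1).trans (measure_union_le _ _)
      _ < ν {y | (z', y) ∈ G} + (ν {y | (z, y) ∈ G} - r) :=
          (ENNReal.add_lt_add_iff_left (measure_ne_top _ _)).2 hz'
      _ ≤ r + (ν {y | (z, y) ∈ G} - r) := by gcongr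
  rw [add_tsub_cancel_of_le (le_of_lt hz)] at h2
  exact lt_irrefl _ h2

private theorem K3_max (β : Ordinal.{0}) (hβ : 1 < β) (γ : ℕ → Ordinal.{0}) (hγ : ∀ n, γ n < β) (N : ℕ) :
    ∃ δ, 1 ≤ δ ∧ δ < β ∧ ∀ n, n < N → γ n ≤ δ := by
  induction N with
  | zero => exact ⟨1, le_rfl, hβ, fun n hn => absurd hn (Nat.not_lt_zero n)⟩
  | succ N ih =>
    obtain ⟨δ, h1, h2, h3⟩ := ih
    refine ⟨max δ (γ N), le_max_of_le_left h1, max_lt h2 (hγ N), fun n hn => ?_⟩
    rcases Nat.lt_succ_iff_lt_or_eq.1 hn with h4 | rfl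
    · exact le_max_of_le_left (h3 n h4)
    · exact le_max_right _ _

theorem sg_meas {Y : Type*} [MeasurableSpace Y] (ν : Measure Y) [IsProbabilityMeasure ν]
    (β : Ordinal.{0}) (E : Set (Cn × Y)) (hE : SG (CM ν) β E) (r : ENNReal) :
    SG (Clop Cn) β {z | r < ν {y | (z, y) ∈ E}} := by
  induction β using WellFoundedLT.induction generalizing E r with
  | ind β ih =>
  have hβ1 := hE.one_le
  rcases eq_or_lt_of_le hβ1 with hβ | hβ
  · subst hβ
    obtain ⟨f, hf, rfl⟩ := SG.one_iff.1 hE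
    apply isOpen_sg
    have h1 : {z : Cn | r < ν {y | (z, y) ∈ ⋃ n, f n}} =
        ⋃ N, {z : Cn | r < ν {y | (z, y) ∈ ⋃ n, ⋃ (_ : n < N), f n}} := by
      ext z
      have h2 : {y | (z, y) ∈ ⋃ n, f n} = ⋃ N, {y | (z, y) ∈ ⋃ n, ⋃ (_ : n < N), f n} := by
        ext y
        rw [mem_iUnion]
        constructor
        · intro hy
          obtain ⟨n, hn⟩ := mem_iUnion.1 (show (z, y) ∈ ⋃ n, f n from hy)
          exact ⟨n + 1, mem_iUnion₂.2 ⟨n, Nat.lt_succ_self n, hn⟩⟩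
        · rintro ⟨N, hy⟩
          obtain ⟨n, -, hn⟩ := mem_iUnion₂.1 (show (z, y) ∈ ⋃ n, ⋃ (_ : n < N), f n from hy)
          exact mem_iUnion.2 ⟨n, hn⟩
      have hmono : Monotone fun N => {y | (z, y) ∈ ⋃ n, ⋃ (_ : n < N), f n} := by
        intro N M hNM y hy
        obtain ⟨n, hn, hy⟩ := mem_iUnion₂.1 (show (z, y) ∈ ⋃ n, ⋃ (_ : n < N), f n from hy)
        exact mem_iUnion₂.2 ⟨n, lt_of_lt_of_le hn hNM, hy⟩
      rw [mem_iUnion]
      show r < ν {y | (z, y) ∈ ⋃ n, f n} ↔ _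
      rw [h2, hmono.measure_iUnion, lt_iSup_iff]
      rfl
    rw [h1]
    exact isOpen_iUnion fun N => K3_open ν (K3_alg (isAlg_CM ν) f hf N) r
  · obtain ⟨f, γ, hγ, hf, rfl⟩ := (SG.gt_iff hβ).1 hE
    set D : ℕ → Set (Cn × Y) := fun N => ⋂ n, ⋂ (_ : n < N), f n with hD
    have hDm : ∀ N z, MeasurableSet {y | (z, y) ∈ D N} := by
      intro N z
      have h1 : {y | (z, y) ∈ D N} = ⋂ n, ⋂ (_ : n < N), {y | (z, y) ∈ f n} := by
        ext y
        simp only [mem_iInter]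
        exact Iff.rfl.trans (by simp [hD])
      rw [h1]
      exact MeasurableSet.iInter fun n => MeasurableSet.iInter fun _ => K3_sec ν (hf n) z
    have h1 : {z : Cn | r < ν {y | (z, y) ∈ ⋃ n, (f n)ᶜ}} =
        ⋃ i : ℕ × {q : ℚ // ((Real.toNNReal q : NNReal) : ENNReal) < 1 - r},
          {z : Cn | ((Real.toNNReal i.2.1 : NNReal) : ENNReal) < ν {y | (z, y) ∈ D i.1}}ᶜ := by
      ext z
      have h2 : {y | (z, y) ∈ ⋃ n, (f n)ᶜ} = ⋃ N, {y | (z, y) ∈ D N}ᶜ := by
        ext y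
        rw [mem_iUnion]
        constructor
        · intro hy
          obtain ⟨n, hn⟩ := mem_iUnion.1 (show (z, y) ∈ ⋃ n, (f n)ᶜ from hy)
          refine ⟨n + 1, fun h => hn ?_⟩
          exact mem_iInter₂.1 (show (z, y) ∈ ⋂ m, ⋂ (_ : m < n + 1), f m from h) n (Nat.lt_succ_self n)
        · rintro ⟨N, hy⟩
          have h3 : ¬ ((z, y) ∈ ⋂ m, ⋂ (_ : m < N), f m) := hy
          rw [mem_iInter₂] at h3
          push Not at h3
          obtain ⟨n, -, hn⟩ := h3
          exact mem_iUnion.2 ⟨n, hn⟩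
      have hmono : Monotone fun N => {y | (z, y) ∈ D N}ᶜ := by
        intro N M hNM y hy hy2
        apply hy
        show (z, y) ∈ ⋂ m, ⋂ (_ : m < N), f m
        rw [mem_iInter₂]
        intro n hn
        exact mem_iInter₂.1 (show (z, y) ∈ ⋂ m, ⋂ (_ : m < M), f m from hy2) n (lt_of_lt_of_le hn hNM)
      rw [mem_iUnion]
      show r < ν {y | (z, y) ∈ ⋃ n, (f n)ᶜ} ↔ _
      rw [h2, hmono.measure_iUnion, lt_iSup_iff]
      have h4 : ∀ N, r < ν {y | (z, y) ∈ D N}ᶜ ↔ ν {y | (z, y) ∈ D N} < 1 - r := by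
        intro N
        rw [prob_compl_eq_one_sub (hDm N z)]
        exact lt_tsub_iff_right.trans lt_tsub_iff_left.symm
      constructor
      · rintro ⟨N, hN⟩
        rw [h4] at hN
        obtain ⟨q, -, hq1, hq2⟩ := ENNReal.lt_iff_exists_rat_btwn.1 hN
        exact ⟨⟨N, ⟨q, hq2⟩⟩, fun h => absurd (lt_trans h hq1) (lt_irrefl _)⟩
      · rintro ⟨⟨N, ⟨q, hq⟩⟩, hN⟩
        refine ⟨N, (h4 N).2 ?_⟩
        exact lt_of_le_of_lt (not_lt.1 hN) hq
    rw [h1]
    apply SG.iUnion_countable (isAlg_clop Cn) hβ1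
    rintro ⟨N, ⟨q, hq⟩⟩
    obtain ⟨δ, hδ1, hδ, hδN⟩ := K3_max β hβ γ hγ N
    refine SG.compl hδ (ih δ hδ (D N) ?_ _)
    exact SG.iInter_lt (isAlg_CM ν) hδ1 N f fun n hn => (hf n).mono (isAlg_CM ν) (hδN n hn)

end Pool.Agent.LibBd83
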