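import Pool.Agent.LibBd83.M2
import Pool.Agent.LibBd83.M4
import Pool.Agent.LibBd83.S3

/-!
BD83 K4. Continuity in measure.

Plan. `cm_rect`: sections are measurable (`measurable_mx`). Continuity at `z`: let `ε > 0` and take
`K`, `V` for `U` with `mu {w | ¬ (w ∈ U ↔ w ∈ V)} < ε / 2` (`exists_cyl`; `ε / 2 > 0`). For `z'` near
`z`, `z ∈ C c.2.1 ↔ z' ∈ C c.2.1` for all `c ∈ K` (the sets `C i` are clopen, `K` is finite:
`IsClopen` gives `∀ᶠ z' in nhds z, (z ∈ C i ↔ z' ∈ C i)`), so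
`mx (Dz F C z) w u c = mx (Dz F C z') w u c` for `c ∈ K`, and `mx (Dz F C z) w u ∈ V ↔
mx (Dz F C z') w u ∈ V`. Hence the set of the `p` where membership differs is contained in the union
of `{p | ¬ (mx (Dz F C z) p.1 p.2 ∈ U ↔ mx (Dz F C z) p.1 p.2 ∈ V)}` and the same for `z'`, which have
measure `< ε / 2` (`mp_mx`).
`sg_Ez`: `SG.preimage` with `g (z, p) = (mx (Dz F C z) p.1 p.2, f p.1)`. For `D ∈ RB MS`,
`D = {(w, x) | w ∈ U (seg x m)}`, the preimage is `⋃ s : List ℕ, {(z, p) | mx (Dz F C z) p.1 p.2 ∈ U s ∧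
seg (f p.1) m = s}`, a countable union of sets in `CM` (`cm_rect`, `N = {p | seg (f p.1) m = s}`).
-/

namespace Pool.Agent.LibBd83

open MeasureTheory Set Filter

theorem cm_rect (F : Set ℕ) (C : ℕ → Set Cn) (hC : ∀ i, IsClopen (C i)) (U : Set W)
    (hU : MeasurableSet U) (N : Set (W × W)) (hN : MeasurableSet N) :
    {q : Cn × (W × W) | mx (Dz F C q.1) q.2.1 q.2.2 ∈ U ∧ q.2 ∈ N} ∈ CM (mu.prod mu) := by
  refine ⟨fun z => ?_, fun z ε hε => ?_⟩
  · exact ((measurable_mx (Dz F C z)) hU).inter hN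
  · obtain ⟨K, V, hVm, hVd, hV⟩ := exists_cyl U hU (ε / 2) (ENNReal.half_pos hε.ne')
    have hev : ∀ᶠ z' in nhds z, ∀ c ∈ K, (z ∈ C c.2.1 ↔ z' ∈ C c.2.1) := by
      rw [Filter.eventually_all_finset]
      intro c _
      by_cases hz : z ∈ C c.2.1
      · filter_upwards [(hC c.2.1).isOpen.mem_nhds hz] with z' hz'
        exact ⟨fun _ => hz', fun _ => hz⟩
      · filter_upwards [(hC c.2.1).compl.isOpen.mem_nhds hz] with z' hz'
        exact ⟨fun h => absurd h hz, fun h => absurd h hz'⟩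
    filter_upwards [hev] with z' hz'
    have key : ∀ w u : W, (mx (Dz F C z) w u ∈ V ↔ mx (Dz F C z') w u ∈ V) := by
      intro w u
      apply hVd
      intro c hc
      have hcc := hz' c hc
      by_cases h : c ∈ Dz F C z
      · have h' : c ∈ Dz F C z' := ⟨h.1, fun hh => h.2 (hcc.2 hh)⟩
        rw [mx_of_mem h, mx_of_mem h']
      · have h' : c ∉ Dz F C z' := fun hh => h ⟨hh.1, fun hhh => hh.2 (hcc.1 hhh)⟩
        rw [mx_of_notMem h, mx_of_notMem h']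
    have hmeas : MeasurableSet {w : W | ¬ (w ∈ U ↔ w ∈ V)} := by
      have : {w : W | ¬ (w ∈ U ↔ w ∈ V)} = (U \ V) ∪ (V \ U) := by
        ext w
        simp only [mem_ofPred_eq, mem_union, Set.mem_sdiff]
        tauto
      rw [this]
      exact (hU.diff hVm).union (hVm.diff hU)
    have m1 : (mu.prod mu) ((fun p : W × W => mx (Dz F C z) p.1 p.2) ⁻¹'
        {w | ¬ (w ∈ U ↔ w ∈ V)}) = mu {w | ¬ (w ∈ U ↔ w ∈ V)} :=
      (mp_mx (Dz F C z)).measure_preimage hmeas.nullMeasurableSet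
    have m2 : (mu.prod mu) ((fun p : W × W => mx (Dz F C z') p.1 p.2) ⁻¹'
        {w | ¬ (w ∈ U ↔ w ∈ V)}) = mu {w | ¬ (w ∈ U ↔ w ∈ V)} :=
      (mp_mx (Dz F C z')).measure_preimage hmeas.nullMeasurableSet
    refine lt_of_le_of_lt (measure_mono (t := ((fun p : W × W => mx (Dz F C z) p.1 p.2) ⁻¹'
        {w | ¬ (w ∈ U ↔ w ∈ V)}) ∪ ((fun p : W × W => mx (Dz F C z') p.1 p.2) ⁻¹'
        {w | ¬ (w ∈ U ↔ w ∈ V)})) ?_) ?_
    · intro p hp
      have hk := key p.1 p.2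
      simp only [mem_ofPred_eq] at hp
      simp only [mem_union, mem_preimage, mem_ofPred_eq]
      by_contra hcon
      push Not at hcon
      apply hp
      rw [hcon.1, hcon.2, hk]
    · refine lt_of_le_of_lt (measure_union_le _ _) ?_
      rw [m1, m2]
      calc mu {w | ¬ (w ∈ U ↔ w ∈ V)} + mu {w | ¬ (w ∈ U ↔ w ∈ V)} < ε / 2 + ε / 2 :=
            ENNReal.add_lt_add hV hV
        _ = ε := ENNReal.add_halves ε

theorem sg_Ez (F : Set ℕ) (C : ℕ → Set Cn) (hC : ∀ i, IsClopen (C i)) (f : W → ℕ → ℕ)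
    (hf : Measurable f) {α : Ordinal.{0}} {R : Set (W × (ℕ → ℕ))} (hR : SG (RB MS) α R) :
    SG (CM (mu.prod mu)) α {q : Cn × (W × W) | q.2 ∈ Ez F C f R q.1} := by
  have hpre : {q : Cn × (W × W) | q.2 ∈ Ez F C f R q.1} =
      (fun q : Cn × (W × W) => (mx (Dz F C q.1) q.2.1 q.2.2, f q.2.1)) ⁻¹' R := rfl
  rw [hpre]
  refine SG.preimage _ ?_ hR
  rintro D ⟨m, U, hU, rfl⟩
  have hun : (fun q : Cn × (W × W) => (mx (Dz F C q.1) q.2.1 q.2.2, f q.2.1)) ⁻¹'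
      {p : W × (ℕ → ℕ) | p.1 ∈ U (seg p.2 m)} =
      ⋃ s : List ℕ, {q : Cn × (W × W) | mx (Dz F C q.1) q.2.1 q.2.2 ∈ U s ∧
        q.2 ∈ {p : W × W | seg (f p.1) m = s}} := by
    ext q
    simp only [mem_preimage, mem_ofPred_eq, mem_iUnion]
    constructor
    · intro h
      exact ⟨_, h, rfl⟩
    · rintro ⟨s, h, rfl⟩
      exact h
  rw [hun]
  refine SG.iUnion_countable (isAlg_CM _) le_rfl _ fun s =>
    SG.of_mem (isAlg_CM _) (cm_rect F C hC (U s) (hU s) _ ?_) le_rfl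
  exact (hf.comp measurable_fst) (measurableSet_seg m s)

end Pool.Agent.LibBd83
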