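import Pool.Agent.LibBd83.K2
import Pool.Agent.LibBd83.K3
import Pool.Agent.LibBd83.K4

/-!
BD83 K5. The main theorem of the measure-theoretic part: if a proper `Σ⁰_α` or `Π⁰_α` set is a limit
of clopen sets along `𝓕`, then an invariant `R` of the class `α` without members depending on the
blocks in `F₀` has no members at all.

Plan. `core_sig`: let `C` be given by `hP`. `R` is measurable (`SG.measurable`,
`measurable_of_mem_RB`). Suppose that the conclusion fails for `f`; so `ρ = mu {w | (w, f w) ∈ R} ≠ 0`.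
By `ez_pos` and `ez_zero`, `P = {z | 0 < (mu.prod mu) (Ez F' C f R z)}`, which is in
`SG (Clop Cn) α` by `sg_meas` and `sg_Ez`; contradiction.
`core_pi`: the sets `Ez F' C f Rᶜ z` are the complements of `Ez F' C f R z`, so their measure is
`1 - ρ` for `z ∈ P` and `1` for `z ∉ P` (`prob_compl_eq_one_sub`), and
`Pᶜ = {z | 1 - ρ < (mu.prod mu) (Ez F' C f Rᶜ z)}` since `ρ > 0`.
-/

namespace Pool.Agent.LibBd83

open MeasureTheory Set Filter

private theorem K5_meas (F' : Set ℕ) (C : ℕ → Set Cn) {f : W → ℕ → ℕ} (hf : Measurable f)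
    {R : Set (W × (ℕ → ℕ))} (hR : MeasurableSet R) (z : Cn) : MeasurableSet (Ez F' C f R z) := by
  have h : Measurable (fun p : W × W => (mx (Dz F' C z) p.1 p.2, f p.1)) :=
    (measurable_mx _).prodMk (hf.comp measurable_fst)
  exact h hR

private theorem K5_ne {R : Set (W × (ℕ → ℕ))} {f : W → ℕ → ℕ}
    (h : ¬ ∀ᵐ w ∂mu, (w, f w) ∉ R) : mu {w | (w, f w) ∈ R} ≠ 0 := by
  intro h0
  apply h
  rw [ae_iff]
  simpa only [not_not] using h0

theorem core_sig {𝓕 : Filter ℕ} {α : Ordinal.{0}} {R : Set (W × (ℕ → ℕ))} {F₀ F' : Set ℕ}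
    {P : Set Cn} (hP : LimRep 𝓕 P) (hn : ¬ SG (Clop Cn) α P) (hR : SG (RB MS) α R)
    (hI : InvR 𝓕 F₀ F' R)
    (h0 : ∀ f : W → ℕ → ℕ, Measurable f → Dp (cs F₀) f → ∀ᵐ w ∂mu, (w, f w) ∉ R)
    (f : W → ℕ → ℕ) (hf : Measurable f) (hd : Dp (cs (F₀ ∪ F')) f) :
    ∀ᵐ w ∂mu, (w, f w) ∉ R := by
  obtain ⟨C, hC, hpos, hzero⟩ := hP
  have hRm : MeasurableSet R := hR.measurable (fun D hD => measurable_of_mem_RB hD)
  by_contra hcon
  have hρ := K5_ne hcon
  apply hn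
  have h1 := sg_meas (mu.prod mu) α _ (sg_Ez F' C hC f hf hR) 0
  have h2 : P = {z | 0 < (mu.prod mu) {y | (z, y) ∈ {q : Cn × (W × W) | q.2 ∈ Ez F' C f R q.1}}} := by
    ext z
    have e : {y | (z, y) ∈ {q : Cn × (W × W) | q.2 ∈ Ez F' C f R q.1}} = Ez F' C f R z := rfl
    rw [mem_setOf_eq, e]
    constructor
    · intro hz
      rw [ez_pos hRm hI f hf hd C z (hpos z hz)]
      exact pos_iff_ne_zero.2 hρ
    · intro hlt
      by_contra hz
      rw [ez_zero hRm hI h0 f hf hd C z (hzero z hz)] at hlt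
      exact lt_irrefl _ hlt
  rw [h2]
  exact h1

theorem core_pi {𝓕 : Filter ℕ} {α : Ordinal.{0}} {R : Set (W × (ℕ → ℕ))} {F₀ F' : Set ℕ}
    {P : Set Cn} (hP : LimRep 𝓕 P) (hn : ¬ SG (Clop Cn) α Pᶜ) (hR : SG (RB MS) α Rᶜ)
    (hI : InvR 𝓕 F₀ F' R)
    (h0 : ∀ f : W → ℕ → ℕ, Measurable f → Dp (cs F₀) f → ∀ᵐ w ∂mu, (w, f w) ∉ R)
    (f : W → ℕ → ℕ) (hf : Measurable f) (hd : Dp (cs (F₀ ∪ F')) f) :
    ∀ᵐ w ∂mu, (w, f w) ∉ R := by
  obtain ⟨C, hC, hpos, hzero⟩ := hP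
  have hRm : MeasurableSet R := (hR.measurable (fun D hD => measurable_of_mem_RB hD)).of_compl
  by_contra hcon
  have hρ := K5_ne hcon
  apply hn
  have h1 := sg_meas (mu.prod mu) α _ (sg_Ez F' C hC f hf hR) (1 - mu {w | (w, f w) ∈ R})
  have h2 : Pᶜ = {z | 1 - mu {w | (w, f w) ∈ R} <
      (mu.prod mu) {y | (z, y) ∈ {q : Cn × (W × W) | q.2 ∈ Ez F' C f Rᶜ q.1}}} := by
    ext z
    have e : {y | (z, y) ∈ {q : Cn × (W × W) | q.2 ∈ Ez F' C f Rᶜ q.1}} =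
        (Ez F' C f R z)ᶜ := rfl
    rw [mem_setOf_eq, e, prob_compl_eq_one_sub (K5_meas F' C hf hRm z), mem_compl_iff]
    constructor
    · intro hz
      rw [ez_zero hRm hI h0 f hf hd C z (hzero z hz), tsub_zero]
      exact ENNReal.sub_lt_self ENNReal.one_ne_top one_ne_zero hρ
    · intro hlt hz
      rw [ez_pos hRm hI f hf hd C z (hpos z hz)] at hlt
      exact lt_irrefl _ hlt
  rw [h2]
  exact h1

end Pool.Agent.LibBd83
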