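import Pool.Agent.LibBd83.F3

/-!
A coherent choice of the filters for the countable ordinals.
-/

namespace Pool.Agent.LibBd83

open Set Filter

open Classical in
/-- A cofinal sequence in `α`. -/
noncomputable def cof (α : Ordinal.{0}) : ℕ → Ordinal.{0} :=
  if h : 1 < α ∧ (Set.Iio α).Countable then (exists_cof α h.1 h.2).choose else fun _ => 0

theorem cof_spec {α : Ordinal.{0}} (h1 : 1 < α) (hc : (Set.Iio α).Countable) :
    (∀ m, 1 ≤ cof α m ∧ cof α m < α) ∧ Monotone (cof α) ∧
      ∀ β < α, ∀ᶠ m in atTop, β ≤ cof α m := by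
  have h : 1 < α ∧ (Set.Iio α).Countable := ⟨h1, hc⟩
  rw [cof, dif_pos h]
  exact (exists_cof α h.1 h.2).choose_spec

open Classical in
/-- The filter for `α`. -/
noncomputable def Fl (α : Ordinal.{0}) : Filter ℕ :=
  if h : 1 < α ∧ (Set.Iio α).Countable then sumF fun m =>
    have : cof α m < α := ((cof_spec h.1 h.2).1 m).2
    Fl (cof α m)
  else cofinite
termination_by α

theorem Fl_one : Fl 1 = cofinite := by
  rw [Fl, dif_neg (fun h => lt_irrefl _ h.1)]

theorem Fl_gt {α : Ordinal.{0}} (h1 : 1 < α) (hc : (Set.Iio α).Countable) :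
    Fl α = sumF fun m => Fl (cof α m) := by
  rw [Fl, dif_pos ⟨h1, hc⟩]

end Pool.Agent.LibBd83
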