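import Pool.Agent.LibBd83.L0

/-!
BD83 L1. The filters `Fl α`: elementary properties.
-/

namespace Pool.Agent.LibBd83

open Set Filter

theorem Fl_cofinite (α : Ordinal.{0}) : Fl α ≤ cofinite := by
  induction α using WellFoundedLT.induction with
  | ind α ih =>
    by_cases h : 1 < α ∧ (Set.Iio α).Countable
    · rw [Fl_gt h.1 h.2]
      exact sum_cofinite _ fun m => ih _ ((cof_spec h.1 h.2).1 m).2
    · rw [Fl, dif_neg h]

theorem Fl_neBot (α : Ordinal.{0}) : (Fl α).NeBot := by
  induction α using WellFoundedLT.induction with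
  | ind α ih =>
    by_cases h : 1 < α ∧ (Set.Iio α).Countable
    · rw [Fl_gt h.1 h.2]
      refine ⟨fun hb => ?_⟩
      have h1 : ∀ᶠ i in sumF (fun m => Fl (cof α m)), False := by
        rw [hb]
        exact eventually_bot
      rw [eventually_sumF] at h1
      obtain ⟨m, hm⟩ := h1.exists
      have := ih _ ((cof_spec h.1 h.2).1 m).2
      exact (hm.exists).choose_spec
    · rw [Fl, dif_neg h]
      infer_instance

theorem Fl_limRep (α : Ordinal.{0}) (h1 : 1 ≤ α) (hc : (Set.Iio α).Countable) (P : Set Cn)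
    (hP : SG (Clop Cn) α P) : LimRep (Fl α) P := by
  induction α using WellFoundedLT.induction generalizing P with
  | ind α ih =>
    rcases h1.eq_or_lt with h | h
    · subst h
      rw [Fl_one, Nat.cofinite_eq_atTop]
      obtain ⟨f, hf, rfl⟩ := SG.one_iff.1 hP
      refine ⟨fun i => ⋃ n ∈ Finset.range i, f n, ?_, ?_, ?_⟩
      · intro i
        exact isClopen_biUnion_finset fun n _ => hf n
      · intro z hz
        obtain ⟨n, hn⟩ := Set.mem_iUnion.1 hz
        filter_upwards [eventually_gt_atTop n] with i hi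
        exact Set.mem_iUnion₂.2 ⟨n, Finset.mem_range.2 hi, hn⟩
      · intro z hz
        filter_upwards with i hi
        obtain ⟨n, -, hn⟩ := Set.mem_iUnion₂.1 hi
        exact hz (Set.mem_iUnion.2 ⟨n, hn⟩)
    · rw [Fl_gt h hc]
      refine sum_limRep h (cof α) (cof_spec h hc).2.2 _ (fun m P hP => ?_) P hP
      exact ih _ ((cof_spec h hc).1 m).2 ((cof_spec h hc).1 m).1
        (hc.mono (Set.Iio_subset_Iio ((cof_spec h hc).1 m).2.le)) P hP

end Pool.Agent.LibBd83
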