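import Pool.Agent.LibBd83.L0

/-!
BD83 L2. Projections between the filters `Fl α`.

Plan. Strong induction on `δ`. If `γ = δ` take `id`. If `γ < δ` then `1 < δ`, `Fl δ = sumF (Fl (cof δ m))`,
and for almost all `m`, `γ ≤ cof δ m`; for these `m` let `p m` be given by induction, and
`p (Nat.pair m j) = p m j` if `γ ≤ cof δ m`, and `0` otherwise (use `Nat.unpair`). It is surjective
because some `p m` is, and for `A ∈ Fl γ`: for almost all `m`, for almost all `j` (in
`Fl (cof δ m)`), `p m j ∈ A` (`eventually_sumF`).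
-/

namespace Pool.Agent.LibBd83

open Set Filter

theorem exists_proj (γ δ : Ordinal.{0}) (h1 : 1 ≤ γ) (h : γ ≤ δ) (hc : (Set.Iio δ).Countable) :
    ∃ p : ℕ → ℕ, Function.Surjective p ∧ Tendsto p (Fl δ) (Fl γ) := by
  classical
  induction δ using WellFoundedLT.induction with
  | ind δ ih =>
    rcases h.eq_or_lt with rfl | hlt
    · exact ⟨id, Function.surjective_id, tendsto_id⟩
    · have hδ : 1 < δ := h1.trans_lt hlt
      obtain ⟨hcof, -, hev⟩ := cof_spec hδ hc
      have key : ∀ m, ∃ q : ℕ → ℕ, γ ≤ cof δ m →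
          Function.Surjective q ∧ Tendsto q (Fl (cof δ m)) (Fl γ) := by
        intro m
        by_cases hm : γ ≤ cof δ m
        · obtain ⟨q, hq⟩ := ih (cof δ m) (hcof m).2 hm
            (hc.mono (Set.Iio_subset_Iio (hcof m).2.le))
          exact ⟨q, fun _ => hq⟩
        · exact ⟨id, fun h => absurd h hm⟩
      choose q hq using key
      refine ⟨fun i => if γ ≤ cof δ i.unpair.1 then q i.unpair.1 i.unpair.2 else 0, ?_, ?_⟩
      · obtain ⟨m, hm⟩ := (hev γ hlt).exists
        intro y
        obtain ⟨j, hj⟩ := (hq m hm).1 y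
        refine ⟨Nat.pair m j, ?_⟩
        simp only [Nat.unpair_pair]
        rw [if_pos hm]
        exact hj
      · rw [Fl_gt hδ hc]
        intro A hA
        change ∀ᶠ i in sumF (fun m => Fl (cof δ m)),
          (if γ ≤ cof δ i.unpair.1 then q i.unpair.1 i.unpair.2 else 0) ∈ A
        rw [eventually_sumF]
        filter_upwards [hev γ hlt] with m hm
        filter_upwards [(hq m hm).2.eventually_mem hA] with j hj
        simp only [Nat.unpair_pair]
        rw [if_pos hm]
        exact hj

end Pool.Agent.LibBd83
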