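import Pool.Agent.LibBd83.L0

/-!
BD83 L3. The Borel rank of the filters `Fl α`.

`TF α` is the set of the members of `Fl α`, as a subset of the Cantor space.
Plan. `TF_one`: `{x | ∀ᶠ i in cofinite, x i = true} = ⋃ k, (⋃ i, ⋃ (_ : k ≤ i), {x | x i = true}ᶜ)ᶜ`
(`Nat.cofinite_eq_atTop`), in `SG (Clop Cn) 2`. `TF_gt`: for `1 < α`: if for all `m ≥ m₀`,
`SG (Clop Cn) ρ (TF (cof α m))`, then `SG (Clop Cn) (ρ + 2) (TF α)`:
`TF α = ⋃ k, (⋃ m, ⋃ (_ : max k m₀ ≤ m), {x | (fun j => x (Nat.pair m j)) ∈ TF (cof α m)}ᶜ)ᶜ`; the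
complement of a set in the class `ρ` is in `ρ + 1` (`SG.compl`), a countable union of such sets is in
`ρ + 1`, its complement and the union in `ρ + 2` (`SG.preimage` for the continuous maps
`x ↦ (fun j => x (Nat.pair m j))`: preimages of clopen sets are clopen).
`TF_rank`: strong induction on `γ`, for the statement: there is `ρ` with `1 ≤ ρ`, `ρ < l` for all limit
ordinals `l > γ`, and `SG (Clop Cn) ρ (TF δ)` for all `1 ≤ δ ≤ γ`. `γ = 1`: `ρ = 2`. `γ = γ' + 1`
(`1 ≤ γ'`): take `ρ'` for `γ'`; `cof γ m ≤ γ'` for all `m`, so `TF_gt` (`m₀ = 0`) gives `ρ' + 2` for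
`TF γ`; put `ρ = ρ' + 2`. `γ` a limit: for each `m` the `ρ` of `cof γ m` is `< γ`, so
`SG (Clop Cn) γ (TF δ)` for all `δ < γ` (`SG.mono`), and `TF_gt` gives `γ + 2` for `TF γ`; put
`ρ = γ + 2`. (Here limit is: `∀ γ < l, γ + 1 < l`; so if `γ < l` then `γ + 2 < l`.)
-/

namespace Pool.Agent.LibBd83

open Set Filter

/-- The members of `Fl α`. -/
def TF (α : Ordinal.{0}) : Set Cn := {x | ∀ᶠ i in Fl α, x i = true}

private theorem L3_lt (ρ : Ordinal.{0}) : ρ < ρ + 1 :=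
  (lt_add_iff_pos_right ρ).2 zero_lt_one

private theorem L3_two (ρ : Ordinal.{0}) : ρ + 2 = ρ + 1 + 1 := by
  rw [add_assoc, one_add_one_eq_two]

private theorem L3_lim {l δ : Ordinal.{0}} (hl : ∀ δ < l, δ + 1 < l) (h : δ < l) : δ + 2 < l := by
  rw [L3_two]
  exact hl _ (hl _ h)

private theorem L3_step (ρ : Ordinal.{0}) (A : ℕ → Set Cn) (h : ∀ m, SG (Clop Cn) (ρ + 1) (A m)ᶜ) :
    SG (Clop Cn) (ρ + 2) {x | ∀ᶠ m in atTop, x ∈ A m} := by
  classical
  have hE : {x : Cn | ∀ᶠ m in atTop, x ∈ A m} =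
      ⋃ k : ℕ, (⋃ m : ℕ, (if k ≤ m then (A m)ᶜ else ∅))ᶜ := by
    ext x
    simp only [Set.mem_ofPred_eq, Set.mem_iUnion, Set.mem_compl_iff, not_exists,
      Filter.eventually_atTop]
    constructor
    · rintro ⟨k, hk⟩
      refine ⟨k, fun m hm => ?_⟩
      by_cases hkm : k ≤ m
      · rw [if_pos hkm] at hm
        exact hm (hk m hkm)
      · rw [if_neg hkm] at hm
        exact hm
    · rintro ⟨k, hk⟩
      refine ⟨k, fun m hm => ?_⟩
      by_contra hx
      refine hk m ?_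
      rw [if_pos hm]
      exact hx
  rw [hE]
  have h2 : ρ + 1 < ρ + 2 := by
    rw [L3_two]
    exact L3_lt _
  have h1 : (1 : Ordinal.{0}) ≤ ρ + 1 := SG.one_le (h 0)
  refine SG.step (ρ + 2) (h1.trans_lt h2) _ (fun _ => ρ + 1) (fun _ => h2) (fun k => ?_)
  refine SG.iUnion _ (fun m => ?_)
  by_cases hkm : k ≤ m
  · rw [if_pos hkm]
    exact h m
  · rw [if_neg hkm]
    exact SG.of_mem (isAlg_clop Cn) isClopen_empty h1

theorem TF_one : SG (Clop Cn) 2 (TF 1) := by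
  have h0 : TF 1 = {x : Cn | ∀ᶠ m in atTop, x ∈ {x : Cn | x m = true}} := by
    unfold TF
    rw [Fl_one, Nat.cofinite_eq_atTop]
    rfl
  have h1 : ∀ m : ℕ, SG (Clop Cn) (0 + 1) {x : Cn | x m = true}ᶜ := by
    intro m
    rw [zero_add]
    have h : IsClopen ({true} : Set Bool) := isClopen_discrete {true}
    have h' : IsClopen {x : Cn | x m = true} := h.preimage (continuous_apply m)
    exact SG.of_mem (isAlg_clop Cn) h'.compl le_rfl
  have h2 := L3_step 0 _ h1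
  rw [zero_add] at h2
  rw [h0]
  exact h2

theorem TF_gt {α ρ : Ordinal.{0}} (h1 : 1 < α) (hc : (Set.Iio α).Countable)
    (h : ∀ m, SG (Clop Cn) ρ (TF (cof α m))) : SG (Clop Cn) (ρ + 2) (TF α) := by
  have h0 : TF α = {x : Cn | ∀ᶠ m in atTop,
      x ∈ (fun x : Cn => fun j => x (Nat.pair m j)) ⁻¹' (TF (cof α m))} := by
    unfold TF
    rw [Fl_gt h1 hc]
    ext x
    simp only [Set.mem_ofPred_eq, Set.mem_preimage]
    rw [eventually_sumF]
  rw [h0]
  refine L3_step ρ _ fun m => ?_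
  refine SG.compl (L3_lt ρ) ?_
  refine SG.preimage _ (fun D hD => ?_) (h m)
  refine SG.of_mem (isAlg_clop Cn) ?_ le_rfl
  have hcont : Continuous (fun x : Cn => fun j => x (Nat.pair m j)) :=
    continuous_pi fun j => continuous_apply _
  exact IsClopen.preimage hD hcont

theorem TF_rank (γ : Ordinal.{0}) (h1 : 1 ≤ γ) (hc : (Set.Iio γ).Countable) :
    ∃ ρ : Ordinal.{0}, 1 ≤ ρ ∧ (∀ l : Ordinal.{0}, (∀ δ < l, δ + 1 < l) → γ < l → ρ < l) ∧
      ∀ δ, 1 ≤ δ → δ ≤ γ → SG (Clop Cn) ρ (TF δ) := by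
  induction γ using WellFoundedLT.induction with
  | ind γ ih =>
    have h22 : ∀ ρ : Ordinal.{0}, ρ ≤ ρ + 2 := fun ρ => by
      rw [L3_two]
      exact (L3_lt ρ).le.trans (L3_lt _).le
    rcases h1.eq_or_lt with rfl | hγ
    · refine ⟨2, ?_, ?_, ?_⟩
      · rw [← one_add_one_eq_two]
        exact (L3_lt 1).le
      · intro l hl h
        rw [← one_add_one_eq_two]
        exact hl _ h
      · intro δ hδ hδ'
        rw [le_antisymm hδ' hδ]
        exact TF_one
    · obtain ⟨hcof, -, -⟩ := cof_spec hγ hc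
      by_cases hlim : ∀ δ < γ, δ + 1 < γ
      · have hlow : ∀ δ, 1 ≤ δ → δ < γ → SG (Clop Cn) γ (TF δ) := by
          intro δ hδ hδ'
          obtain ⟨ρ, -, hρ, hT⟩ := ih δ hδ' hδ (hc.mono (Set.Iio_subset_Iio hδ'.le))
          exact SG.mono (isAlg_clop Cn) (hρ γ hlim hδ').le (hT δ hδ le_rfl)
        refine ⟨γ + 2, h1.trans (h22 γ), fun l hl h => L3_lim hl h, ?_⟩
        intro δ hδ hδ'
        rcases hδ'.eq_or_lt with rfl | h
        · exact TF_gt hγ hc fun m => hlow _ (hcof m).1 (hcof m).2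
        · exact SG.mono (isAlg_clop Cn) (h22 γ) (hlow δ hδ h)
      · push Not at hlim
        obtain ⟨γ', hγ', hle⟩ := hlim
        have heq : γ = γ' + 1 := le_antisymm hle (Order.add_one_le_of_lt hγ')
        have h1' : 1 ≤ γ' := by
          rw [heq] at hγ
          exact Order.lt_add_one_iff.mp hγ
        obtain ⟨ρ, hρ1, hρ, hT⟩ := ih γ' hγ' h1' (hc.mono (Set.Iio_subset_Iio hγ'.le))
        refine ⟨ρ + 2, hρ1.trans (h22 ρ), fun l hl h => L3_lim hl (hρ l hl (hγ'.trans h)), ?_⟩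
        intro δ hδ hδ'
        rcases hδ'.eq_or_lt with rfl | h
        · refine TF_gt hγ hc fun m => hT _ (hcof m).1 ?_
          have := (hcof m).2
          rw [heq] at this
          rw [heq]
          exact Order.lt_add_one_iff.mp this
        · rw [heq] at h
          exact SG.mono (isAlg_clop Cn) (h22 ρ) (hT δ hδ (Order.lt_add_one_iff.mp h))

end Pool.Agent.LibBd83
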