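import Mathlib

/-!
BD83 L4. The inverse limit of a sequence of surjections of `ℕ`.

Plan. Let `s m` be a right inverse of `p m`. (1) For all `k` and `j` there is `x : ℕ → ℕ` with `x k = j`
and `x m = p m (x (m + 1))` for all `m`: upwards from `k` put `x (m + 1) = s m (x m)`, downwards
`x m = p m (x (m + 1))`; formally e.g. by induction on `k` for the statement with a given upper part:
first `up : ℕ → ℕ → ℕ` with `up k j (k + i)` by recursion on `i`, and `down k j i` (the value at `k - i`) by
recursion on `i`. (2) Choose such `x` for each pair `(k, j)` and put `q m (Nat.pair k j) = x m`. Then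
`q m (Nat.pair m j) = j`, so `q m` is surjective.
-/

namespace Pool.Agent.LibBd83

theorem exists_thread (p : ℕ → ℕ → ℕ) (hp : ∀ m, Function.Surjective (p m)) (k j : ℕ) :
    ∃ x : ℕ → ℕ, x k = j ∧ ∀ m, x m = p m (x (m + 1)) := by
  induction k generalizing p with
  | zero =>
    choose s hs using hp
    refine ⟨fun n => Nat.rec j (fun m a => s m a) n, rfl, fun m => ?_⟩
    exact (hs m _).symm
  | succ k ih =>
    obtain ⟨x', h1, h2⟩ := ih (fun m => p (m + 1)) (fun m => hp (m + 1))
    refine ⟨fun n => Nat.casesOn n (p 0 (x' 0)) (fun m => x' m), h1, fun m => ?_⟩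
    cases m with
    | zero => rfl
    | succ m => exact h2 m

theorem exists_limit (p : ℕ → ℕ → ℕ) (hp : ∀ m, Function.Surjective (p m)) :
    ∃ q : ℕ → ℕ → ℕ, (∀ m, Function.Surjective (q m)) ∧ ∀ m i, q m i = p m (q (m + 1) i) := by
  choose x hx1 hx2 using exists_thread p hp
  refine ⟨fun m i => x i.unpair.1 i.unpair.2 m, fun m j => ⟨Nat.pair m j, ?_⟩, fun m i => hx2 _ _ m⟩
  show x (Nat.pair m j).unpair.1 (Nat.pair m j).unpair.2 m = j
  rw [Nat.unpair_pair]
  exact hx1 m j

end Pool.Agent.LibBd83
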