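import Pool.Agent.LibBd83.S3

/-!
BD83 L5a. Preimages under maps of the second class.

Plan. `preimage_two`: induction on the predicate, as in `SG.preimage` (`S2.lean`): `ρ = 1`:
`g ⁻¹' (⋃ f n) = ⋃ g ⁻¹' (f n)`, `SG.iUnion`, `1 + 1 = 2`; `1 < ρ`: `1 + γ n < 1 + ρ`, constructor `step`.
`gpre`: `{x | ∀ i, q i = j → x i = false}` is the complement of `⋃ i with q i = j, {x | x i = true}`, which
is in `SG (Clop Cn) 1`; so this set and its complement are in `SG (Clop Cn) 2` (`SG.compl`, `SG.mono`).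
A clopen set `D` of `Cn` depends on finitely many coordinates (compactness; see the plan of
`clopen_dep` in `G2.lean`, which may be proved here again under the name `L5a_clopen_dep`), so it is a
finite union of finite intersections of sets `{y | y j = true}` and `{y | y j = false}`
(`SG.union`, `SG.inter` or `SG.iUnion_countable`, `SG.iInter_lt`: e.g. for `m` with
`clopen_dep`, `D = ⋃ (t : Fin m → Bool) with (t extended by false) ∈ D, ⋂ j < m, {y | y j = t j}`).
-/

namespace Pool.Agent.LibBd83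

open Set Filter

private theorem L5a_clopen_dep (D : Set Cn) (hD : IsClopen D) :
    ∃ m : ℕ, ∀ x y : Cn, (∀ i < m, x i = y i) → (x ∈ D ↔ y ∈ D) := by
  classical
  have h1 : ∀ x : Cn, ∃ m : ℕ, ∀ y : Cn, y ∈ PiNat.cylinder x m → (y ∈ D ↔ x ∈ D) := by
    intro x
    have hop : ∀ U : Set Cn, IsOpen U → x ∈ U → ∃ m : ℕ, PiNat.cylinder x m ⊆ U := by
      intro U hU hx
      obtain ⟨v, ⟨z, m, rfl⟩, hxv, hvU⟩ :=
        (PiNat.isTopologicalBasis_cylinders (fun _ : ℕ => Bool)).exists_subset_of_mem_open hx hU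
      exact ⟨m, by rw [PiNat.mem_cylinder_iff_eq.1 hxv]; exact hvU⟩
    by_cases hx : x ∈ D
    · obtain ⟨m, hm⟩ := hop D hD.isOpen hx
      exact ⟨m, fun y hy => ⟨fun _ => hx, fun _ => hm hy⟩⟩
    · obtain ⟨m, hm⟩ := hop Dᶜ hD.compl.isOpen hx
      exact ⟨m, fun y hy => ⟨fun h => absurd h (hm hy), fun h => absurd h hx⟩⟩
  choose m hm using h1
  obtain ⟨t, ht⟩ := isCompact_univ.elim_finite_subcover (fun x : Cn => PiNat.cylinder x (m x))
    (fun x => PiNat.isOpen_cylinder _ x (m x))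
    (fun x _ => Set.mem_iUnion.2 ⟨x, PiNat.self_mem_cylinder x (m x)⟩)
  refine ⟨t.sup m, fun x y hxy => ?_⟩
  obtain ⟨z, hz, hxz⟩ := Set.mem_iUnion₂.1 (ht (Set.mem_univ x))
  have hmz : m z ≤ t.sup m := Finset.le_sup hz
  have hyz : y ∈ PiNat.cylinder z (m z) := by
    rw [PiNat.mem_cylinder_iff] at hxz ⊢
    intro i hi
    rw [← hxy i (lt_of_lt_of_le hi hmz)]
    exact hxz i hi
  exact (hm z x hxz).trans (hm z y hyz).symm

private theorem L5a_E1 (q : ℕ → ℕ) (j : ℕ) :
    SG (Clop Cn) 1 {x : Cn | ∀ i, q i = j → x i = false}ᶜ := by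
  have e : {x : Cn | ∀ i, q i = j → x i = false}ᶜ = ⋃ i : {i : ℕ // q i = j}, {x : Cn | x i = true} := by
    ext x
    simp only [mem_compl_iff, mem_ofPred_eq, mem_iUnion, Subtype.exists]
    push Not
    constructor
    · rintro ⟨i, hi, hx⟩
      exact ⟨i, hi, by simpa using hx⟩
    · rintro ⟨i, hi, hx⟩
      exact ⟨i, hi, by rw [hx]; simp⟩
  rw [e]
  refine SG.iUnion_countable (isAlg_clop Cn) le_rfl _ fun i => SG.of_mem (isAlg_clop Cn) ?_ le_rfl
  show IsClopen {x : Cn | x i = true}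
  have h2 : Continuous fun x : Cn => x i := continuous_apply _
  exact (isClopen_discrete ({true} : Set Bool)).preimage h2

private theorem L5a_lt : (1 : Ordinal.{0}) < 2 := one_lt_two

private theorem L5a_E (q : ℕ → ℕ) (j : ℕ) (b : Bool) :
    SG (Clop Cn) 2 {x : Cn | @decide (∀ i, q i = j → x i = false) (Classical.dec _) = b} := by
  have h1 := L5a_E1 q j
  cases b
  · have e : {x : Cn | @decide (∀ i, q i = j → x i = false) (Classical.dec _) = false} =
        {x : Cn | ∀ i, q i = j → x i = false}ᶜ := by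
      ext x
      simp only [mem_compl_iff, mem_ofPred_eq]
      exact @decide_eq_false_iff_not _ (Classical.dec _)
    rw [e]
    exact SG.mono (isAlg_clop Cn) L5a_lt.le h1
  · have e : {x : Cn | @decide (∀ i, q i = j → x i = false) (Classical.dec _) = true} =
        {x : Cn | ∀ i, q i = j → x i = false}ᶜᶜ := by
      rw [compl_compl]
      ext x
      simp only [mem_ofPred_eq]
      exact @decide_eq_true_iff _ (Classical.dec _)
    rw [e]
    exact SG.compl L5a_lt h1

private def L5a_ext (m : ℕ) (t : Fin m → Bool) : Cn := fun j => if h : j < m then t ⟨j, h⟩ else false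

theorem preimage_two (g : Cn → Cn) (h : ∀ D, IsClopen D → SG (Clop Cn) 2 (g ⁻¹' D))
    {ρ : Ordinal.{0}} {T : Set Cn} (hT : SG (Clop Cn) ρ T) : SG (Clop Cn) (1 + ρ) (g ⁻¹' T) := by
  induction hT with
  | base f hf =>
    rw [preimage_iUnion]
    refine SG.iUnion _ fun n => ?_
    rw [one_add_one_eq_two]
    exact h _ (hf n)
  | step β hβ f γ hγ _ ih =>
    rw [preimage_iUnion]
    have e : ⋃ n, g ⁻¹' (f n)ᶜ = ⋃ n, (g ⁻¹' (f n))ᶜ := rfl
    rw [e]
    exact SG.step (1 + β) (hβ.trans_le (le_add_of_nonneg_left zero_le_one)) (fun n => g ⁻¹' (f n)) (fun n => 1 + γ n)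
      (fun n => (add_lt_add_iff_left 1).2 (hγ n)) ih

theorem gpre (q : ℕ → ℕ) (D : Set Cn) (hD : IsClopen D) : SG (Clop Cn) 2
    ((fun (x : Cn) (j : ℕ) => @decide (∀ i, q i = j → x i = false) (Classical.dec _)) ⁻¹' D) := by
  obtain ⟨m, hm⟩ := L5a_clopen_dep D hD
  set G : Cn → Cn := fun (x : Cn) (j : ℕ) =>
    @decide (∀ i, q i = j → x i = false) (Classical.dec _) with hG
  have e : G ⁻¹' D = ⋃ t : {t : Fin m → Bool // L5a_ext m t ∈ D},
      ⋂ j, ⋂ (_ : j < m), {x : Cn | G x j = L5a_ext m t.1 j} := by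
    ext x
    simp only [mem_preimage, mem_iUnion, mem_iInter, mem_ofPred_eq]
    constructor
    · intro hx
      have h1 : ∀ i < m, G x i = L5a_ext m (fun j : Fin m => G x j) i := by
        intro i hi
        unfold L5a_ext
        rw [dif_pos hi]
      exact ⟨⟨fun j : Fin m => G x j, (hm _ _ h1).1 hx⟩, h1⟩
    · rintro ⟨t, ht⟩
      exact (hm _ _ ht).2 t.2
  rw [e]
  refine SG.iUnion_countable (isAlg_clop Cn) L5a_lt.le _ fun t => ?_
  exact SG.iInter_lt (isAlg_clop Cn) L5a_lt.le m _ fun j _ => L5a_E q j _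

end Pool.Agent.LibBd83
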