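import Pool.Agent.LibBd83.L1
import Pool.Agent.LibBd83.L2
import Pool.Agent.LibBd83.L3
import Pool.Agent.LibBd83.L4
import Pool.Agent.LibBd83.L5a

/-!
BD83 L5. The filter for a limit ordinal.

Plan. Let `e m = cof l m` (monotone, cofinal in `l`, `1 ≤ e m < l`), `p m` from `exists_proj` for
`e m ≤ e (m + 1)`, `q` from `exists_limit`. Let `𝓕 = ⨅ m, comap (q m) (Fl (e m))`. The sequence
`comap (q m) (Fl (e m))` is decreasing in `m` (`q m = p m ∘ q (m + 1)`, `comap_comap`,
`Tendsto.le_comap`), so directed, and `∀ᶠ i in 𝓕, φ i` iff there is `m` with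
`∀ᶠ i in comap (q m) (Fl (e m)), φ i` (`mem_iInf_of_directed`), iff there is `m` with
`∀ᶠ j in Fl (e m), ∀ i, q m i = j → φ i` (`eventually_comap`).
(1) `𝓕 ≤ cofinite`: for each `i₀`, `i ≠ i₀` holds if `q 0 i ≠ q 0 i₀`, which is true for almost all
`i` since `Fl (e 0) ≤ cofinite` (`Fl_cofinite`). (2) For `γ < l`, `SG (Clop Cn) γ P`: choose `m` with
`γ ≤ e m`; `LimRep (Fl (e m)) P` (`SG.mono`, `Fl_limRep`) with sets `C j`; take `C (q m i)`.
(3) `Q = {x | ¬ ∀ᶠ i in 𝓕, x i = false}`. `Good`: `top`: `𝓕` is `NeBot`: for each `m`,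
`comap (q m) (Fl (e m))` is (`Fl_neBot`, `q m` surjective: `NeBot.comap_of_surj`); `inv`: clear;
`inf`: if `{i | x i = true}` is finite then `∀ᶠ i in cofinite, x i = false`, so in `𝓕`.
(4) `Qᶜ = ⋃ m, {x | ∀ᶠ j in Fl (e m), ∀ i, q m i = j → x i = false} = ⋃ m, g m ⁻¹' TF (e m)` with
`g m x = fun j => decide (∀ i, q m i = j → x i = false)` (`gpre`, `preimage_two`). Here `ρ < l` is from `TF_rank (e m)`, and `1 + ρ < l` (`l` is a limit
ordinal, so `l = 1 + l`: `Ordinal.one_add_of_omega0_le`, `ω ≤ l`; or: `1 + ρ ≤ ρ + 1 < l`).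
-/

namespace Pool.Agent.LibBd83

open Set Filter

private theorem L5_one_add {ρ l : Ordinal.{0}} (h : ρ < l) (hl : ∀ δ < l, δ + 1 < l) :
    1 + ρ < l := by
  rcases lt_or_ge ρ Ordinal.omega0 with h1 | h1
  · obtain ⟨n, rfl⟩ := Ordinal.lt_omega0.1 h1
    have h2 := hl _ h
    have h3 : (1 : Ordinal.{0}) + n = n + 1 := by
      exact_mod_cast congrArg (Nat.cast : ℕ → Ordinal.{0}) (Nat.add_comm 1 n)
    rw [h3]
    exact h2
  · rw [Ordinal.one_add_of_omega0_le h1]
    exact h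

theorem fil_lim (l : Ordinal.{0}) (h1 : 1 < l) (hl : ∀ δ < l, δ + 1 < l)
    (hc : (Set.Iio l).Countable) :
    ∃ 𝓕 : Filter ℕ, 𝓕 ≤ cofinite ∧
      (∀ γ < l, ∀ P, SG (Clop Cn) γ P → LimRep 𝓕 P) ∧
      ∃ Q, SG (Clop Cn) l Qᶜ ∧ Good 𝓕 Q := by
  obtain ⟨he, hmono, hcof⟩ := cof_spec h1 hc
  have hce : ∀ m, (Set.Iio (cof l m)).Countable := fun m =>
    hc.mono (Set.Iio_subset_Iio (he m).2.le)
  choose p hps hpt using fun m =>
    exists_proj (cof l m) (cof l (m + 1)) (he m).1 (hmono (Nat.le_succ m)) (hce (m + 1))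
  obtain ⟨q, hqs, hq⟩ := exists_limit p hps
  have hstep : ∀ m, comap (q (m + 1)) (Fl (cof l (m + 1))) ≤ comap (q m) (Fl (cof l m)) := by
    intro m
    have hqm : q m = p m ∘ q (m + 1) := funext fun i => hq m i
    rw [hqm, ← comap_comap]
    exact comap_mono (hpt m).le_comap
  have hanti : Antitone fun m => comap (q m) (Fl (cof l m)) := antitone_nat_of_succ_le hstep
  have hmem : ∀ φ : ℕ → Prop, (∀ᶠ i in ⨅ m, comap (q m) (Fl (cof l m)), φ i) ↔
      ∃ m, ∀ᶠ j in Fl (cof l m), ∀ i, q m i = j → φ i := by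
    intro φ
    have h2 : {i | φ i} ∈ (⨅ m, comap (q m) (Fl (cof l m))) ↔
        ∃ m, {i | φ i} ∈ comap (q m) (Fl (cof l m)) :=
      mem_iInf_of_directed hanti.directed_ge _
    refine h2.trans (exists_congr fun m => ?_)
    exact eventually_comap
  have hne : (⨅ m, comap (q m) (Fl (cof l m))).NeBot := by
    refine iInf_neBot_of_directed hanti.directed_ge fun m => ?_
    have := Fl_neBot (cof l m)
    exact NeBot.comap_of_surj this (hqs m)
  have hcofin : (⨅ m, comap (q m) (Fl (cof l m))) ≤ cofinite := by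
    rw [le_cofinite_iff_eventually_ne]
    intro i₀
    rw [hmem]
    refine ⟨0, ?_⟩
    have h2 : ∀ᶠ j in Fl (cof l 0), j ≠ q 0 i₀ :=
      le_cofinite_iff_eventually_ne.1 (Fl_cofinite (cof l 0)) (q 0 i₀)
    filter_upwards [h2] with j hj i hi hii
    exact hj (by rw [← hi, hii])
  refine ⟨⨅ m, comap (q m) (Fl (cof l m)), hcofin, ?_, ?_⟩
  · intro γ hγ P hP
    obtain ⟨m, hm⟩ := (hcof γ hγ).exists
    obtain ⟨C, hC, h2, h3⟩ := Fl_limRep (cof l m) (he m).1 (hce m) P
      (SG.mono (isAlg_clop Cn) hm hP)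
    refine ⟨fun i => C (q m i), fun i => hC _, fun z hz => ?_, fun z hz => ?_⟩
    · rw [hmem]
      refine ⟨m, ?_⟩
      filter_upwards [h2 z hz] with j hj i hi
      rw [hi]
      exact hj
    · rw [hmem]
      refine ⟨m, ?_⟩
      filter_upwards [h3 z hz] with j hj i hi
      rw [hi]
      exact hj
  · refine ⟨{x : Cn | ¬ ∀ᶠ i in ⨅ m, comap (q m) (Fl (cof l m)), x i = false}, ?_, ?_, ?_, ?_⟩
    · choose ρ hρ1 hρl hρ using fun m => TF_rank (cof l m) (he m).1 (hce m)
      have h2 : {x : Cn | ¬ ∀ᶠ i in ⨅ m, comap (q m) (Fl (cof l m)), x i = false}ᶜ =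
          ⋃ m, (fun (x : Cn) (j : ℕ) =>
            @decide (∀ i, q m i = j → x i = false) (Classical.dec _)) ⁻¹' TF (cof l m) := by
        ext x
        rw [Set.mem_compl_iff, Set.mem_ofPred_eq, not_not, hmem, Set.mem_iUnion]
        refine exists_congr fun m => ?_
        refine eventually_congr (Eventually.of_forall fun j => ?_)
        exact (@decide_eq_true_iff _ (Classical.dec _)).symm
      rw [h2]
      refine SG.iUnion _ fun m => ?_
      have h3 : 1 + ρ m < l := L5_one_add (hρl m l hl (he m).2) hl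
      exact SG.mono (isAlg_clop Cn) h3.le
        (preimage_two _ (fun D hD => gpre (q m) D hD) (hρ m (cof l m) (he m).1 le_rfl))
    · intro h2
      have h3 : ∀ᶠ i : ℕ in ⨅ m, comap (q m) (Fl (cof l m)), False :=
        h2.mono fun i hi => Bool.noConfusion hi
      exact hne.ne (eventually_false_iff_eq_bot.1 h3)
    · intro x y hxy hx hy
      refine hx ?_
      filter_upwards [hxy, hy] with i hi hi'
      rw [hi, hi']
    · intro x hx hfin
      refine hx (hcofin ?_)
      have h2 : ∀ᶠ i in cofinite, i ∉ {i | x i = true} := hfin.eventually_cofinite_notMem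
      filter_upwards [h2] with i hi
      exact Bool.eq_false_iff.2 hi

end Pool.Agent.LibBd83
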