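import Pool.Agent.LibBd83.Def

/-!
BD83 M1. Translations and the shear preserve the measure.
-/

namespace Pool.Agent.LibBd83

open MeasureTheory Set Filter

theorem tr_tr (γ w : W) : tr γ (tr γ w) = w := by
  funext c
  simp [tr]

theorem tr_comm (γ w : W) : tr γ w = tr w γ := by
  funext c
  simp [tr, Bool.xor_comm]

theorem tr_assoc (γ δ w : W) : tr γ (tr δ w) = tr (tr γ δ) w := by
  funext c
  simp [tr]

theorem measurable_tr (γ : W) : Measurable (tr γ) := by
  refine measurable_pi_iff.2 fun c => ?_
  exact (measurable_of_countable (fun b : Bool => xor (γ c) b)).comp (measurable_pi_apply c)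

theorem measurable_tr' : Measurable fun p : W × W => tr p.1 p.2 := by
  refine measurable_pi_iff.2 fun c => ?_
  have h1 : Measurable fun p : W × W => (p.1 c, p.2 c) :=
    ((measurable_pi_apply c).comp measurable_fst).prodMk
      ((measurable_pi_apply c).comp measurable_snd)
  exact (measurable_of_countable (fun b : Bool × Bool => xor b.1 b.2)).comp h1

private theorem M1_coin (a : Bool) : coin.map (fun b => xor a b) = coin := by
  have hinj : Function.Injective (fun b : Bool => xor a b) := fun b b' h => by
    cases a <;> cases b <;> cases b' <;> simp_all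
  refine Measure.ext_of_singleton fun b => ?_
  rw [Measure.map_apply (measurable_of_countable _) (MeasurableSet.singleton b)]
  have h1 : (fun b => xor a b) ⁻¹' {b} = {xor a b} := by
    ext c
    cases a <;> cases b <;> cases c <;> simp
  rw [h1]
  unfold coin
  rw [PMF.toMeasure_apply_singleton _ _ (MeasurableSet.singleton _),
    PMF.toMeasure_apply_singleton _ _ (MeasurableSet.singleton _)]
  simp

theorem mp_tr (γ : W) : MeasurePreserving (tr γ) mu mu := by
  refine ⟨measurable_tr γ, ?_⟩
  unfold mu
  have h := Measure.infinitePi_map_pi (μ := fun _ : Jx => coin)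
    (f := fun c b => xor (γ c) b) (fun c => measurable_of_countable _)
  have h2 : (fun i : Jx => Measure.map ((fun c b => xor (γ c) b) i) coin) = fun _ : Jx => coin := by
    funext c
    exact M1_coin (γ c)
  rw [h2] at h
  exact h

theorem mp_shear :
    MeasurePreserving (fun p : W × W => (p.1, tr p.1 p.2)) (mu.prod mu) (mu.prod mu) := by
  refine MeasurePreserving.skew_product (f := id) (g := fun w u => tr w u)
    (MeasurePreserving.id mu) measurable_tr' ?_
  exact Filter.Eventually.of_forall fun w => (mp_tr w).map_eq

end Pool.Agent.LibBd83
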