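import Pool.Agent.LibBd83.B3
import Pool.Agent.LibBc83.RE

/-!
BD83 N1. Names of reals from measurable functions.

`nm X f` is the name of the real whose value at `n` is `m` on the set `{w | f w n = m}`.
Plan. `smul_cl_f`: `smul_cl`. `symF_sf`: if `Dp (cs F) f` and `γ ∈ fixS 𝓕 F` then `f (tr γ w) = f w`
(`tr γ w c = w c` for `c ∈ cs F`). `realV_f`: unfold `realV` (`LibBc83/Br.lean`):
`⨅ n, ((⨆ m, x n m) ⊓ ...)`; `⨆ m, cl {f w n = m} = cl univ = ⊤` (`cl_iUnion`), and two different values
are disjoint (`cl_inter`, `cl_empty`). `vReal_nm`: `vReal_rn`. `act_nm`: `act_rn` and `smul_cl`.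
`supp_nm`: `supp_rn`. `str_f`: unfold `str` (`LibBc83/Br.lean`); `cl_iInter` over the countable set of
`l < s.length` (for `s = []`: both sides are `⊤`).
-/

namespace Pool.Agent.LibBd83

open MeasureTheory Set Filter Pool.Agent.LibTk83 Pool.Agent.LibBc83

variable {𝓕 : Filter ℕ}

/-- The truth values of `f n = m`. -/
def fB (f : W → ℕ → ℕ) (n m : ℕ) : MB := cl {w | f w n = m}

theorem measurableSet_f {f : W → ℕ → ℕ} (hf : Measurable f) (n m : ℕ) :
    MeasurableSet {w | f w n = m} := by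
  exact (measurable_pi_iff.1 hf n) (measurableSet_singleton m)

theorem smul_fB (γ : Gp 𝓕) {f : W → ℕ → ℕ} (hf : Measurable f) (n m : ℕ) :
    γ • fB f n m = fB (fun w => f (tr γ.1 w)) n m := by
  unfold fB
  rw [smul_cl γ (measurableSet_f hf n m)]
  rfl

theorem fix_fB {F : Set ℕ} {f : W → ℕ → ℕ} (hf : Measurable f) (hd : Dp (cs F) f) (γ : Gp 𝓕)
    (hγ : γ ∈ fixS 𝓕 F) (n m : ℕ) : γ • fB f n m = fB f n m := by
  rw [smul_fB γ hf]
  have e : (fun w => f (tr γ.1 w)) = f := by
    funext w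
    refine hd _ _ fun c hc => ?_
    have h1 : γ.1 c = false := hγ c hc
    simp [tr, h1]
  rw [e]

theorem symF_sf (f : SF) : SM.SymF (famD 𝓕) (fB f.1) := by
  obtain ⟨F, hF, hd⟩ := f.2.2
  exact ⟨fixS 𝓕 F, fixS_mem hF, fun γ hγ n m => fix_fB f.2.1 hd γ hγ n m⟩

theorem realV_fB {f : W → ℕ → ℕ} (hf : Measurable f) : realV (fB f) = ⊤ := by
  unfold realV
  rw [iInf_eq_top]
  intro n
  rw [inf_eq_top_iff]
  constructor
  · unfold fB
    rw [← cl_iUnion _ (fun m => measurableSet_f hf n m)]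
    have e : (⋃ m, {w | f w n = m}) = (univ : Set W) := by
      ext w
      simp
    rw [e, cl_univ]
  · rw [iInf_eq_top]
    intro m
    rw [iInf_eq_top]
    intro m'
    rw [iInf_eq_top]
    intro hm
    unfold fB
    rw [← cl_inter (measurableSet_f hf n m) (measurableSet_f hf n m')]
    have e : ({w | f w n = m} ∩ {w | f w n = m'}) = (∅ : Set W) := by
      ext w
      constructor
      · rintro ⟨h1, h2⟩
        have h1' : f w n = m := h1
        have h2' : f w n = m' := h2
        exact absurd (h1'.symm.trans h2') hm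
      · intro h
        exact absurd h (Set.notMem_empty w)
    rw [e, cl_empty, compl_bot]

private theorem N1_seg (x : ℕ → ℕ) (s : List ℕ) :
    seg x s.length = s ↔ ∀ i m, s[i]? = some m → x i = m := by
  constructor
  · intro h i m him
    have hlt : i < s.length := (List.getElem?_eq_some_iff.1 him).1
    rw [← h] at him
    simpa [seg, hlt] using him
  · intro h
    refine List.ext_getElem (by simp [seg]) fun i h1 h2 => ?_
    have h3 := h i s[i] (List.getElem?_eq_getElem h2)
    simpa [seg] using h3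

theorem str_fB {f : W → ℕ → ℕ} (hf : Measurable f) (s : List ℕ) :
    str (fB f) s = cl {w | seg (f w) s.length = s} := by
  classical
  let B : ℕ → ℕ → Set W := fun i m => if s[i]? = some m then {w | f w i = m} else univ
  have hB : ∀ i m, MeasurableSet (B i m) := by
    intro i m
    show MeasurableSet (if s[i]? = some m then {w | f w i = m} else univ)
    split_ifs
    · exact measurableSet_f hf i m
    · exact MeasurableSet.univ
  have h1 : ∀ i m, (⨅ (_ : s[i]? = some m), fB f i m) = cl (B i m) := by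
    intro i m
    show _ = cl (if s[i]? = some m then {w | f w i = m} else univ)
    by_cases h : s[i]? = some m
    · rw [if_pos h, iInf_pos h]
      rfl
    · rw [if_neg h, iInf_neg h, cl_univ]
  have h2 : ∀ i, (⨅ m, ⨅ (_ : s[i]? = some m), fB f i m) = cl (⋂ m, B i m) := by
    intro i
    rw [cl_iInter _ (hB i)]
    exact iInf_congr fun m => h1 i m
  unfold str
  have h3 : (⨅ i, ⨅ m, ⨅ (_ : s[i]? = some m), fB f i m) = cl (⋂ i, ⋂ m, B i m) := by
    rw [cl_iInter _ (fun i => MeasurableSet.iInter (hB i))]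
    exact iInf_congr fun i => h2 i
  rw [h3]
  congr 1
  ext w
  rw [mem_iInter]
  have h4 : (w ∈ {w | seg (f w) s.length = s}) = (seg (f w) s.length = s) := rfl
  rw [h4, N1_seg]
  refine forall_congr' fun i => ?_
  rw [mem_iInter]
  refine forall_congr' fun m => ?_
  show w ∈ (if s[i]? = some m then {w | f w i = m} else univ) ↔ _
  by_cases h : s[i]? = some m
  · rw [if_pos h]
    exact ⟨fun h5 _ => h5, fun h5 => h5 h⟩
  · rw [if_neg h]
    exact ⟨fun _ h5 => absurd h5 h, fun _ => mem_univ w⟩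

/-- The translate of a symmetric function. -/
def trf (γ : Gp 𝓕) (f : SF) : SF := ⟨fun w => f.1 (tr γ.1 w), f.2.1.comp (measurable_tr γ.1), by
  obtain ⟨F, hF, h⟩ := f.2.2
  refine ⟨F, hF, fun w w' hw => h _ _ fun c hc => ?_⟩
  simp only [tr]
  rw [hw c hc]⟩

variable (X : SM MB (Gp 𝓕) (famD 𝓕))

/-- The name of the real given by `f`. -/
noncomputable def nm (f : SF) : X.N := X.rn (fB f.1) (symF_sf f)

theorem dig_nm (f : SF) (n m : ℕ) : X.dig (nm X f) n m = cl {w | f.1 w n = m} := by
  exact X.dig_rn (fB f.1) (symF_sf f) n m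

theorem vReal_nm (f : SF) : X.vReal (nm X f) = ⊤ := by
  unfold nm
  rw [X.vReal_rn, realV_fB f.2.1]

theorem supp_nm (f : SF) {F : Set ℕ} (hd : Dp (cs F) f.1) : X.Supp (fixS 𝓕 F) (nm X f) := by
  exact X.supp_rn (fB f.1) (symF_sf f) fun γ hγ n m => fix_fB f.2.1 hd γ hγ n m

theorem act_nm (γ : Gp 𝓕) (f : SF) : X.eq (X.act γ (nm X f)) (nm X (trf γ f)) = ⊤ := by
  have e : (fun n m => γ • fB f.1 n m) = fB (trf γ f).1 := by
    funext n m
    exact smul_fB γ f.2.1 n m
  have hx' : SM.SymF (famD 𝓕) (fun n m => γ • fB f.1 n m) := by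
    rw [e]
    exact symF_sf _
  have h1 := X.act_rn γ (fB f.1) (symF_sf f) hx'
  have h2 : ∀ (y : ℕ → ℕ → MB) (hy : SM.SymF (famD 𝓕) y), y = fB (trf γ f).1 →
      X.rn y hy = X.rn (fB (trf γ f).1) (symF_sf (trf γ f)) := by
    rintro y hy rfl
    rfl
  rw [h2 _ hx' e] at h1
  exact h1

theorem str_nm (f : SF) (s : List ℕ) :
    str (X.dig (nm X f)) s = cl {w | seg (f.1 w) s.length = s} := by
  have e : X.dig (nm X f) = fB f.1 := by
    funext n m
    exact X.dig_rn (fB f.1) (symF_sf f) n m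
  rw [e, str_fB f.2.1]

end Pool.Agent.LibBd83
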