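import Pool.Agent.LibBd83.N1

/-!
BD83 N2. Every name of a real is equal to `nm X f` for a symmetric function `f`.

Plan. `exists_sf`: for all `n`, `m` let `A n m` be measurable, depending only on `cs F`, with
`cl (A n m) = Y n m` (`exists_dep`). Let `f w n` be the least `m` with `w ∈ A n m`, and `0` if there is
none (`Nat.find` with `Classical`); it is measurable (countable unions: for each `n`, `m` the set
`{w | f w n = m}` is a boolean combination of the `A n k`; `measurable_pi_iff`,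
`measurable_to_countable'`) and depends only on `cs F`. Below `realV Y` the sets `A n m`, `m : ℕ`, are a
partition: `realV Y ⊓ Y n m ≤ cl {w | f w n = m}`: `Y n m ⊓ (cl {w | f w n = m})ᶜ` is
`cl (A n m \ {w | f w n = m}) ≤ ⨆ k ≠ m, Y n k ⊓ Y n m` which is disjoint from `realV Y`; and conversely
`realV Y ⊓ cl {w | f w n = m} ≤ Y n m` (`realV Y ≤ ⨆ k, Y n k`, and `Y n k ⊓ realV Y ≤ cl {f w n = k}`,
disjoint from `cl {f w n = m}` for `k ≠ m`).
`exists_nm`: with `Y = X.dig u`: `X.vReal u ≤ X.eq u (X.rn (X.dig u) _)` (`SM.vReal_le_eq`),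
`X.vReal u ≤ realV (X.dig u)` (`SM.vReal_le`) and `SM.rn_le_eq`.
-/

namespace Pool.Agent.LibBd83

open MeasureTheory Set Filter Pool.Agent.LibTk83 Pool.Agent.LibBc83

variable {𝓕 : Filter ℕ}

open Classical in
/-- The least `m` with `w ∈ A n m`. -/
private noncomputable def N2_f (A : ℕ → ℕ → Set W) (w : W) (n : ℕ) : ℕ :=
  if h : ∃ m, w ∈ A n m then Nat.find h else 0

private theorem N2_f_iff (A : ℕ → ℕ → Set W) (w : W) (n m : ℕ) :
    N2_f A w n = m ↔ (w ∈ A n m ∧ ∀ k < m, w ∉ A n k) ∨ (m = 0 ∧ ∀ k, w ∉ A n k) := by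
  classical
  unfold N2_f
  by_cases h : ∃ m, w ∈ A n m
  · rw [dif_pos h, Nat.find_eq_iff]
    constructor
    · exact fun h' => Or.inl h'
    · rintro (h' | ⟨-, h'⟩)
      · exact h'
      · obtain ⟨k, hk⟩ := h
        exact absurd hk (h' k)
  · rw [dif_neg h]
    constructor
    · intro h'
      exact Or.inr ⟨h'.symm, fun k hk => h ⟨k, hk⟩⟩
    · rintro (⟨h', -⟩ | ⟨h', -⟩)
      · exact absurd ⟨m, h'⟩ h
      · exact h'.symm

private theorem N2_meas {A : ℕ → ℕ → Set W} (hA : ∀ n m, MeasurableSet (A n m)) :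
    Measurable (N2_f A) := by
  refine measurable_pi_iff.2 fun n => measurable_to_countable' fun m => ?_
  have h : (fun w => N2_f A w n) ⁻¹' {m} =
      (A n m ∩ ⋂ k, ⋂ (_ : k < m), (A n k)ᶜ) ∪ ({_w | m = 0} ∩ ⋂ k, (A n k)ᶜ) := by
    ext w
    simp only [mem_preimage, mem_singleton_iff, N2_f_iff, mem_union, mem_inter_iff, mem_iInter,
      mem_compl_iff, mem_ofPred_eq]
  rw [h]
  exact ((hA n m).inter (MeasurableSet.iInter fun k => MeasurableSet.iInter fun _ =>
    (hA n k).compl)).union ((MeasurableSet.const _).inter (MeasurableSet.iInter fun k =>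
      (hA n k).compl))

theorem exists_sf (h𝓕 : 𝓕 ≤ cofinite) {F : Set ℕ} (hF : F.Finite) (Y : ℕ → ℕ → MB)
    (hY : ∀ γ ∈ fixS 𝓕 F, ∀ n m, γ • Y n m = Y n m) :
    ∃ f : SF, Dp (cs F) f.1 ∧ ∀ n m, realV Y ≤ (Y n m ⇨ fB f.1 n m) ⊓ (fB f.1 n m ⇨ Y n m) := by
  classical
  choose A hA hD hcl using fun n m => exists_dep h𝓕 F (Y n m) fun γ hγ => hY γ hγ n m
  have hm : Measurable (N2_f A) := N2_meas hA
  have hd : Dp (cs F) (N2_f A) := by
    intro w w' hw
    funext n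
    rw [N2_f_iff]
    have h1 : ∀ k, w ∈ A n k ↔ w' ∈ A n k := fun k => hD n k w w' hw
    simp only [h1]
    exact (N2_f_iff A w' n _).1 rfl
  refine ⟨⟨N2_f A, hm, F, hF, hd⟩, hd, fun n m => ?_⟩
  have hE : MeasurableSet {w | N2_f A w n = m} := measurableSet_f hm n m
  have hU : MeasurableSet (⋃ k, A n k) := MeasurableSet.iUnion fun k => hA n k
  have hr1 : realV Y ≤ ⨆ k, Y n k := (iInf_le _ n).trans inf_le_left
  have hr2 : ∀ k k', k ≠ k' → realV Y ≤ (Y n k ⊓ Y n k')ᶜ := fun k k' hk =>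
    (iInf_le _ n).trans (inf_le_right.trans ((iInf_le _ k).trans ((iInf_le _ k').trans
      (iInf_le _ hk))))
  refine le_inf (le_himp_iff.2 ?_) (le_himp_iff.2 ?_)
  · have h1 : Y n m ≤ fB (N2_f A) n m ⊔ ⨆ k : {k // k < m}, Y n k.1 ⊓ Y n m := by
      have h2 : A n m ⊆ {w | N2_f A w n = m} ∪ ⋃ k : {k // k < m}, A n k.1 ∩ A n m := by
        intro w hw
        by_cases h : ∀ k < m, w ∉ A n k
        · exact Or.inl ((N2_f_iff A w n m).2 (Or.inl ⟨hw, h⟩))
        · push Not at h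
          obtain ⟨k, hk, hwk⟩ := h
          exact Or.inr (mem_iUnion.2 ⟨⟨k, hk⟩, hwk, hw⟩)
      have h3 : MeasurableSet (⋃ k : {k // k < m}, A n k.1 ∩ A n m) :=
        MeasurableSet.iUnion fun k => (hA n k.1).inter (hA n m)
      have h4 := cl_mono (hA n m) (hE.union h3) h2
      rw [cl_union hE h3, cl_iUnion (fun k : {k // k < m} => A n k.1 ∩ A n m)
        (fun k => (hA n k.1).inter (hA n m)), hcl] at h4
      refine h4.trans (sup_le_sup le_rfl (iSup_mono fun k => ?_))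
      rw [cl_inter (hA n k.1) (hA n m), hcl, hcl]
    calc realV Y ⊓ Y n m ≤
        realV Y ⊓ (fB (N2_f A) n m ⊔ ⨆ k : {k // k < m}, Y n k.1 ⊓ Y n m) :=
          inf_le_inf_left _ h1
      _ ≤ fB (N2_f A) n m := by
          rw [inf_sup_left, inf_iSup_eq]
          refine sup_le inf_le_right (iSup_le fun k => ?_)
          refine (inf_le_inf_right _ (hr2 k.1 m k.2.ne)).trans ?_
          rw [compl_inf_self]
          exact bot_le
  · have h1 : fB (N2_f A) n m ≤ Y n m ⊔ (⨆ k, Y n k)ᶜ := by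
      have h2 : {w | N2_f A w n = m} ⊆ A n m ∪ (⋃ k, A n k)ᶜ := by
        intro w hw
        rcases (N2_f_iff A w n m).1 hw with h | h
        · exact Or.inl h.1
        · refine Or.inr fun hw' => ?_
          obtain ⟨k, hk⟩ := mem_iUnion.1 hw'
          exact h.2 k hk
      have h4 := cl_mono hE ((hA n m).union hU.compl) h2
      rw [cl_union (hA n m) hU.compl, cl_compl hU, cl_iUnion _ (hA n), hcl] at h4
      simp only [hcl] at h4
      exact h4
    calc realV Y ⊓ fB (N2_f A) n m ≤ realV Y ⊓ (Y n m ⊔ (⨆ k, Y n k)ᶜ) :=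
          inf_le_inf_left _ h1
      _ ≤ Y n m := by
          rw [inf_sup_left]
          refine sup_le inf_le_right ?_
          refine (inf_le_inf_right _ hr1).trans ?_
          rw [inf_compl_self]
          exact bot_le

theorem exists_nm (h𝓕 : 𝓕 ≤ cofinite) (X : SM MB (Gp 𝓕) (famD 𝓕)) {F : Set ℕ} (hF : F.Finite)
    (u : X.N) (hu : X.Supp (fixS 𝓕 F) u) :
    ∃ f : SF, Dp (cs F) f.1 ∧ X.vReal u ≤ X.eq u (nm X f) := by
  obtain ⟨f, hd, hf⟩ := exists_sf h𝓕 hF (X.dig u) fun γ hγ n m => X.dig_inv hu hγ n m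
  refine ⟨f, hd, ?_⟩
  have hs : SM.SymF (famD 𝓕) (X.dig u) := X.symF_dig u
  have h1 : X.vReal u ≤ X.eq u (X.rn (X.dig u) hs) := SM.vReal_le_eq u hs
  have h2 : X.vReal u ≤ X.eq (X.rn (X.dig u) hs) (nm X f) :=
    (SM.vReal_le u).trans ((le_iInf fun n => le_iInf fun m => hf n m).trans
      (X.rn_le_eq (X.dig u) (fB f.1) hs (symF_sf f)))
  exact (le_inf h1 h2).trans (X.eqax.trans _ _ _)

/-- The values on the names `nm X f` are enough. -/
theorem le_iSup_nm (h𝓕 : 𝓕 ≤ cofinite) (X : SM MB (Gp 𝓕) (famD 𝓕)) (φ : X.N → MB)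
    (hφ : X.Ext φ) (u : X.N) : X.vReal u ⊓ φ u ≤ ⨆ f : SF, X.eq u (nm X f) ⊓ φ (nm X f) := by
  obtain ⟨S, ⟨F, hF, rfl⟩, hS⟩ := X.supp u
  obtain ⟨f, -, hf⟩ := exists_nm h𝓕 X hF u hS
  refine le_iSup_of_le f (le_inf (inf_le_left.trans hf) ?_)
  exact (inf_le_inf_right _ hf).trans (hφ u (nm X f))

end Pool.Agent.LibBd83
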