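import Pool.Agent.LibBc83.NG

/-!
BD83 Y1. Names of the ordinals.

Plan. `exists_onm`: by well-founded recursion on the ordinals build
`o : Ordinal → {x : X.N // ∀ S, X.Supp S x}` (`WellFounded.fix Ordinal.lt_wf` or
`WellFoundedLT.fix`, with `choose`); it is enough to show: if `o' : Set.Iio β → X.N` is a family of names with
`∀ γ S, X.Supp S (o' γ)` then there is a name `u` with `∀ S, X.Supp S u` and
`∀ x, X.mem x u = ⨆ γ, X.eq x (o' γ)`. The index set `Set.Iio β` is in `Type 1`, but it is the image of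
`β.ToType : Type` (`Ordinal.ToType.mk : Set.Iio β ≃o β.ToType`), so `SM.comp_bdd` applies with the family
indexed by `β.ToType` (one `S ∈ Fam` exists by `X.fam.ne`; `Inv`: `Inv.eq`, as the private lemma
`NF_inv_om` in `LibBc83/NF.lean`), and `SM.supp_of_mem` gives the support for all `S`.
`eq_onm_ne`: for `γ < β`: show `mem (onm γ) (onm β) = ⊤` and `mem (onm β) (onm β) = ⊥` (by induction on
`β`, or by foundation: `eq (onm β) (onm γ) ⊓ ..`): by strong induction on `β`: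
`∀ γ < β, eq (onm β) (onm γ) = ⊥`: `eq (onm β) (onm γ) ≤ mem (onm γ) (onm γ)` (since `mem (onm γ) (onm β) = ⊤`,
`X.eqax.memr`) `= ⨆ δ < γ, eq (onm γ) (onm δ) = ⊥` by induction.
`onm_nat`: induction on `k`: `mem x (onm (k + 1)) = mem x (onm k) ⊔ eq x (onm k)`, compare with
`SM.mem_nat_succ` (`SM.eq_top_of`). `onm_omega`: `SM.mem_om`, `Ordinal.lt_omega0`.
`iInf_onm`, `iSup_onm`: as `SM.iInf_om`, `SM.iSup_om`, by `SM.iInf_mem`, `SM.iSup_mem` (families indexed by
`β.ToType`), or directly.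
-/

namespace Pool.Agent.LibBd83

open Pool.Agent.LibBc83

variable {B : Type} [CompleteBooleanAlgebra B] {G : Type} [Group G] [MulAction G B]
  [OrdAct G B] {Fam : Set (Set G)} (X : SM B G Fam)

private theorem Y1_step (β : Ordinal.{0}) (o' : Set.Iio β → X.N) (h : ∀ γ S, X.Supp S (o' γ)) :
    ∃ u : X.N, (∀ S, X.Supp S u) ∧ ∀ x, X.mem x u = ⨆ γ, X.eq x (o' γ) := by
  obtain ⟨S, hS⟩ := X.fam.ne
  have hi : ∀ S, X.Inv S (fun x => ⨆ γ, X.eq x (o' γ)) := by
    intro S g hg x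
    change (⨆ γ, X.eq (X.act g x) (o' γ)) = g • ⨆ γ, X.eq x (o' γ)
    rw [smul_iSup']
    exact iSup_congr fun γ => SM.Inv.eq (h γ S) g hg x
  obtain ⟨u, -, hu⟩ := SM.comp_bdd (X := X) (φ := fun x => ⨆ γ, X.eq x (o' γ))
    (SM.Ext.iSup fun γ => SM.Ext.eq_left (o' γ)) hS (hi S)
    (fun i : β.ToType => o' (Ordinal.ToType.mk.symm i)) (fun x => iSup_le fun γ => by
      refine le_iSup_of_le (Ordinal.ToType.mk γ) ?_
      rw [OrderIso.symm_apply_apply])
  exact ⟨u, fun S => SM.supp_of_mem hu (hi S), hu⟩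

theorem exists_onm : ∃ o : Ordinal.{0} → X.N, (∀ β S, X.Supp S (o β)) ∧
    ∀ β x, X.mem x (o β) = ⨆ γ : Set.Iio β, X.eq x (o γ.1) := by
  choose u hu1 hu2 using fun (β : Ordinal.{0})
    (o' : Set.Iio β → {x : X.N // ∀ S, X.Supp S x}) =>
    Y1_step X β (fun γ => (o' γ).1) (fun γ => (o' γ).2)
  obtain ⟨o, ho⟩ : ∃ o : Ordinal.{0} → {x : X.N // ∀ S, X.Supp S x},
      ∀ β, o β = ⟨u β (fun γ => o γ.1), hu1 β _⟩ := by
    refine ⟨WellFounded.fix Ordinal.lt_wf fun β r => ⟨u β (fun γ => r γ.1 γ.2), hu1 β _⟩,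
      fun β => ?_⟩
    rw [WellFounded.fix_eq]
  refine ⟨fun β => (o β).1, fun β S => (o β).2 S, fun β x => ?_⟩
  change X.mem x (o β).1 = _
  rw [ho β]
  exact hu2 β _ x

/-- The names of the ordinals. -/
noncomputable def onm : Ordinal.{0} → X.N := (exists_onm X).choose

theorem supp_onm (β : Ordinal.{0}) (S : Set G) : X.Supp S (onm X β) :=
  (exists_onm X).choose_spec.1 β S

theorem mem_onm (β : Ordinal.{0}) (x : X.N) :
    X.mem x (onm X β) = ⨆ γ : Set.Iio β, X.eq x (onm X γ.1) := (exists_onm X).choose_spec.2 β x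

theorem mem_onm_lt {γ β : Ordinal.{0}} (h : γ < β) : X.mem (onm X γ) (onm X β) = ⊤ := by
  rw [mem_onm, eq_top_iff]
  refine le_iSup_of_le ⟨γ, h⟩ ?_
  rw [X.eqax.refl]

private theorem Y1_eq_le {γ β : Ordinal.{0}} (h : γ < β) :
    X.eq (onm X β) (onm X γ) ≤ X.mem (onm X γ) (onm X γ) := by
  have h1 := X.eqax.memr (onm X γ) (onm X β) (onm X γ)
  rwa [mem_onm_lt X h, inf_top_eq] at h1

private theorem Y1_self (β : Ordinal.{0}) : X.mem (onm X β) (onm X β) = ⊥ := by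
  induction β using WellFoundedLT.induction with
  | _ β ih =>
    rw [mem_onm, eq_bot_iff]
    refine iSup_le fun γ => ?_
    exact (Y1_eq_le X γ.2).trans (ih γ.1 γ.2).le

theorem eq_onm_ne {γ β : Ordinal.{0}} (h : γ ≠ β) : X.eq (onm X γ) (onm X β) = ⊥ := by
  rcases lt_or_gt_of_ne h with h1 | h1
  · rw [eq_bot_iff, X.eqax.symm]
    exact (Y1_eq_le X h1).trans (Y1_self X γ).le
  · rw [eq_bot_iff]
    exact (Y1_eq_le X h1).trans (Y1_self X β).le

theorem mem_onm_le {γ β : Ordinal.{0}} (h : β ≤ γ) : X.mem (onm X γ) (onm X β) = ⊥ := by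
  rw [mem_onm, eq_bot_iff]
  refine iSup_le fun δ => ?_
  rw [eq_onm_ne X (lt_of_lt_of_le δ.2 h).ne']

theorem onm_nat (k : ℕ) : X.eq (onm X k) (X.nat k) = ⊤ := by
  induction k using Nat.strong_induction_on with
  | _ k ih =>
    refine SM.eq_top_of _ _ fun t => ?_
    rw [mem_onm, SM.mem_nat']
    apply le_antisymm
    · refine iSup_le fun γ => ?_
      obtain ⟨γ, hγ⟩ := γ
      obtain ⟨j, rfl⟩ := Ordinal.lt_omega0.1 (lt_trans hγ (Ordinal.natCast_lt_omega0 k))
      have hj : j < k := by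
        have := Set.mem_Iio.1 hγ
        exact_mod_cast this
      refine le_iSup_of_le j (le_iSup_of_le hj ?_)
      exact ((SM.Ext.eq_right t).congr (ih j hj)).le
    · refine iSup_le fun j => iSup_le fun hj => ?_
      refine le_iSup_of_le ⟨(j : Ordinal.{0}), Set.mem_Iio.2 (by exact_mod_cast hj)⟩ ?_
      exact ((SM.Ext.eq_right t).congr (ih j hj)).ge

theorem onm_omega : X.eq (onm X Ordinal.omega0) X.om = ⊤ := by
  refine SM.eq_top_of _ _ fun t => ?_
  rw [mem_onm, SM.mem_om]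
  apply le_antisymm
  · refine iSup_le fun γ => ?_
    obtain ⟨γ, hγ⟩ := γ
    obtain ⟨j, rfl⟩ := Ordinal.lt_omega0.1 hγ
    refine le_iSup_of_le j ?_
    exact ((SM.Ext.eq_right t).congr (onm_nat X j)).le
  · refine iSup_le fun j => ?_
    refine le_iSup_of_le ⟨(j : Ordinal.{0}), Ordinal.natCast_lt_omega0 j⟩ ?_
    exact ((SM.Ext.eq_right t).congr (onm_nat X j)).ge

variable {X} in
theorem iInf_onm {φ : X.N → B} (h : X.Ext φ) (β : Ordinal.{0}) :
    (⨅ x, X.mem x (onm X β) ⇨ φ x) = ⨅ γ : Set.Iio β, φ (onm X γ.1) := by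
  apply le_antisymm
  · refine le_iInf fun γ => (iInf_le _ (onm X γ.1)).trans ?_
    rw [mem_onm_lt X γ.2, top_himp]
  · refine le_iInf fun x => ?_
    rw [le_himp_iff, mem_onm, inf_iSup_eq]
    refine iSup_le fun γ => ?_
    rw [inf_comm, X.eqax.symm]
    exact (inf_le_inf_left _ (iInf_le _ γ)).trans (h _ _)

variable {X} in
theorem iSup_onm {φ : X.N → B} (h : X.Ext φ) (β : Ordinal.{0}) :
    (⨆ x, X.mem x (onm X β) ⊓ φ x) = ⨆ γ : Set.Iio β, φ (onm X γ.1) := by
  apply le_antisymm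
  · refine iSup_le fun x => ?_
    rw [mem_onm, iSup_inf_eq]
    exact iSup_mono fun γ => h _ _
  · refine iSup_le fun γ => le_iSup_of_le (onm X γ.1) ?_
    rw [mem_onm_lt X γ.2, top_inf_eq]

end Pool.Agent.LibBd83
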