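import Pool.Agent.LibBd83.Def2
import Pool.Agent.LibBd83.Y1
import Pool.Agent.LibBd83.H2
import Pool.Agent.LibBc83.ZB

/-!
BD83 P1. From symmetric names to a two-valued model in which the countable ordinal `α` is
standard (typed by helper32).
-/

namespace Pool.Agent.LibBd83

open Pool.Agent.LibBc83

variable {B : Type} [CompleteBooleanAlgebra B] {G : Type} [Group G] [MulAction G B]
  [OrdAct G B] {Fam : Set (Set G)} (X : SM B G Fam)

/-- The assignment `ω, β, ω, ω, ...`. -/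
noncomputable def asgO (β : Ordinal.{0}) : ℕ → X.N := cons X.om (cons (onm X β) fun _ => X.om)

private theorem P1_trans (α : Ordinal.{0}) (x y : X.N) :
    X.mem x y ⊓ X.mem y (onm X α) ≤ X.mem x (onm X α) := by
  rw [mem_onm X α y, inf_iSup_eq]
  refine iSup_le fun γ => ?_
  rw [inf_comm]
  refine (X.eqax.memr x y (onm X γ.1)).trans ?_
  rw [mem_onm X γ.1 x, mem_onm X α x]
  refine iSup_le fun δ => ?_
  exact le_iSup (fun ε : Set.Iio α => X.eq x (onm X ε.1)) ⟨δ.1, Set.mem_Iio.2 (lt_trans (Set.mem_Iio.1 δ.2) (Set.mem_Iio.1 γ.2))⟩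

private theorem P1_suc (α : Ordinal.{0}) (t : X.N) :
    X.mem t (onm X (α + 1)) = X.mem t (onm X α) ⊔ X.eq t (onm X α) := by
  rw [mem_onm X (α + 1) t, mem_onm X α t]
  apply le_antisymm
  · refine iSup_le fun γ => ?_
    rcases (Order.lt_add_one_iff.1 (Set.mem_Iio.1 γ.2)).lt_or_eq with h | h
    · exact le_sup_of_le_left (le_iSup (fun ε : Set.Iio α => X.eq t (onm X ε.1)) ⟨γ.1, h⟩)
    · rw [h]
      exact le_sup_right
  · refine sup_le (iSup_le fun γ => ?_) ?_
    · exact le_iSup (fun ε : Set.Iio (α + 1) => X.eq t (onm X ε.1))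
        ⟨γ.1, Set.mem_Iio.2 (lt_trans (Set.mem_Iio.1 γ.2) (Order.lt_add_one_iff.2 le_rfl))⟩
    · exact le_iSup (fun ε : Set.Iio (α + 1) => X.eq t (onm X ε.1))
        ⟨α, Set.mem_Iio.2 (Order.lt_add_one_iff.2 le_rfl)⟩

private theorem P1_asg {N : Type*} (v : ℕ → N) (i : ℕ) :
    asg v [0, i] = cons (v 0) (cons (v i) fun _ => v 0) := by
  funext n
  match n with
  | 0 => rfl
  | 1 => rfl
  | n + 2 => simp [asg, cons]

theorem model_of (hB : (⊤ : B) ≠ ⊥) (α : Ordinal.{0}) (h0 : 0 < α)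
    (hc : (Set.Iio α).Countable) :
    ∃ (M : Type) (E : M → M → Prop) (w a a' : M), IsZF E ∧ Om E w ∧ IsoOrd E α a ∧ Suc E a' a ∧
      (∀ f : Fm, X.val f (asgO X α) = ⊤ → Sat E f (cons w (cons a fun _ => w))) ∧
      (∀ f : Fm, X.val f (asgO X (α + 1)) = ⊤ → Sat E f (cons w (cons a' fun _ => w))) := by
  have hne : (Set.Iio α).Nonempty := ⟨0, h0⟩
  obtain ⟨e, he⟩ := (Set.countable_iff_exists_surjective hne).1 hc
  let v₀ : ℕ → X.N := fun n =>
    match n with
    | 0 => X.om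
    | 1 => onm X α
    | 2 => onm X (α + 1)
    | k + 3 => onm X (e k).1
  have v0 : v₀ 0 = X.om := rfl
  have v1 : v₀ 1 = onm X α := rfl
  have v2 : v₀ 2 = onm X (α + 1) := rfl
  have v3 : ∀ k, v₀ (k + 3) = onm X (e k).1 := fun _ => rfl
  obtain ⟨M, E, c, h1, h2, h3⟩ := henkin2 X.eqax ⊤ hB v₀ (by
    intro x
    rw [v1, mem_onm]
    refine iSup_le fun γ => ?_
    obtain ⟨k, hk⟩ := he γ
    refine le_iSup_of_le k ?_
    rw [v3, hk])
  have : Nonempty M := ⟨c 0⟩
  have hmem : ∀ i j, X.mem (v₀ i) (v₀ j) = ⊤ → E (c i) (c j) := by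
    intro i j h
    have h4 := h2 (.mem 0 1) [i, j] (by
      change ⊤ ≤ X.mem (v₀ i) (v₀ j)
      rw [h])
    exact h4
  have hnmem : ∀ i j, X.mem (v₀ i) (v₀ j) = ⊥ → ¬ E (c i) (c j) := by
    intro i j h
    have h4 := h2 (.neg (.mem 0 1)) [i, j] (by
      change ⊤ ≤ (X.mem (v₀ i) (v₀ j))ᶜ
      rw [h, compl_bot])
    exact h4
  have heq : ∀ i j, X.eq (v₀ i) (v₀ j) = ⊤ → c i = c j := by
    intro i j h
    have h4 := h2 (.eq 0 1) [i, j] (by
      change ⊤ ≤ X.eq (v₀ i) (v₀ j)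
      rw [h])
    exact h4
  have hse : ∀ γ, e (Function.surjInv he γ) = γ := Function.surjInv_eq he
  refine ⟨M, E, c 0, c 1, c 2, isZF_of_ax (fun f hf v => h1 f (fun v => (val_ax X f hf v).ge) v),
    ?_, ⟨?_, fun γ => c (Function.surjInv he γ + 3), ?_, ?_⟩, ?_, ?_, ?_⟩
  · have h4 := h2 (.om 0) [0, 1] (by
      rw [P1_asg]
      exact (SM.val_om (cons (v₀ 0) (cons (v₀ 1) fun _ => v₀ 0)) 0 rfl).ge)
    rw [P1_asg, sat_om] at h4
    exact h4
  · have h4 := h2 (.all (.all (.imp (.mem 1 0) (.imp (.mem 0 3) (.mem 1 3))))) [0, 1] (by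
      rw [P1_asg]
      simp only [ev_all, ev_imp, ev_mem, cons_zero, cons_succ]
      refine le_iInf fun x => le_iInf fun y => ?_
      have h5 := P1_trans X α x y
      change ⊤ ≤ X.mem x y ⇨ X.mem y (onm X α) ⇨ X.mem x (onm X α)
      rw [le_himp_iff, le_himp_iff, top_inf_eq]
      exact h5)
    rw [P1_asg] at h4
    simp only [sat_all, sat_imp, sat_mem, cons_zero, cons_succ] at h4
    exact fun x y hx hy => h4 x y hx hy
  · intro x
    constructor
    · intro hx
      obtain ⟨k, hk⟩ := h3 x hx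
      refine ⟨e k, ?_⟩
      rw [hk]
      apply heq
      rw [v3, v3, hse]
      exact X.eqax.refl _
    · rintro ⟨γ, rfl⟩
      apply hmem
      rw [v3, v1]
      exact mem_onm_lt X (e _).2
  · intro γ δ
    constructor
    · intro h
      by_contra hcon
      refine hnmem _ _ ?_ h
      rw [v3, v3, hse, hse]
      exact mem_onm_le X (not_lt.1 hcon)
    · intro h
      apply hmem
      rw [v3, v3, hse, hse]
      exact mem_onm_lt X h
  · have h4 := h2 (.suc 0 1) [2, 1] (by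
      simp only [Fm.suc, ev_all, ev_iff, ev_or, ev_mem, ev_eq, cons_zero, cons_succ]
      refine le_iInf fun t => ?_
      change ⊤ ≤ (X.mem t (onm X (α + 1)) ⇨ X.mem t (onm X α) ⊔ X.eq t (onm X α)) ⊓
        (X.mem t (onm X α) ⊔ X.eq t (onm X α) ⇨ X.mem t (onm X (α + 1)))
      rw [P1_suc, himp_self, inf_top_eq])
    rw [sat_suc] at h4
    exact h4
  · intro f hf
    have h4 := h2 f [0, 1] (by
      rw [P1_asg]
      exact hf.ge)
    rw [P1_asg] at h4
    exact h4
  · intro f hf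
    have h4 := h2 f [0, 2] (by
      rw [P1_asg]
      exact hf.ge)
    rw [P1_asg] at h4
    exact h4

end Pool.Agent.LibBd83
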