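import Pool.Agent.LibBd83.Y3
import Pool.Agent.LibBd83.Z5

/-!
BD83 Y5. The truth value of the statement of choice for the class of an ordinal.

Plan. The same as `Z5.lean` (use its proof as a model), with `Fm'.acO`, `val_clO` instead of `Fm'.acF`,
`val_clF`. First `val_tmsO`, the version of `val_tms` (`Z4.lean`, copy its proof) where the hypothesis
on the formula `P` is only for assignments `u` with `u w' = X.om` and `u (w' + 1) = v (w + 1)`.
-/

namespace Pool.Agent.LibBd83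

open Pool.Agent.LibBc83

variable {B : Type} [CompleteBooleanAlgebra B] {G : Type} [Group G] [MulAction G B]
  [OrdAct G B] {Fam : Set (Set G)} (X : SM B G Fam)

private theorem Y5_iInf {ι : Type*} {S : B} {a b : ι → B} (h : ∀ i, S ⊓ a i = S ⊓ b i) :
    S ⊓ ⨅ i, a i = S ⊓ ⨅ i, b i := by
  apply le_antisymm
  · refine le_inf inf_le_left (le_iInf fun i => ?_)
    exact ((inf_le_inf_left S (iInf_le a i)).trans (h i).le).trans inf_le_right
  · refine le_inf inf_le_left (le_iInf fun i => ?_)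
    exact ((inf_le_inf_left S (iInf_le b i)).trans (h i).ge).trans inf_le_right

private theorem Y5_rel (v : ℕ → X.N) (f x y : ℕ) :
    ev X.mem X.eq (.rel f x y) v = X.rl (v f) (v x) (v y) := SM.val_rel v f x y

private theorem Y5_seq (v : ℕ → X.N) (w g : ℕ) (h : v w = X.om) :
    ev X.mem X.eq (.seq w g) v = X.vSeq (v g) := SM.val_seq v w g h

private theorem Y5_om (f : X.N → X.N → B) (hf : ∀ A, X.Ext fun n => f n A) :
    (⨅ n, ⨅ A, X.mem n X.om ⇨ f n A) = ⨅ n : ℕ, ⨅ A, f (X.nat n) A := by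
  rw [← SM.iInf_om (X := X) (φ := fun n => ⨅ A, f n A) (SM.Ext.iInf hf)]
  refine iInf_congr fun n => ?_
  rw [himp_iInf_eq]

theorem val_tmsO (P : ℕ → ℕ → Fm) (V : X.N → B) (hV : X.Ext V) (v : ℕ → X.N) (w t : ℕ)
    (hw : v w = X.om)
    (h : ∀ (u : ℕ → X.N) (w' z : ℕ), u w' = X.om → u (w' + 1) = v (w + 1) →
      X.val (P w' z) u = V (u z)) :
    X.vSeq (v t) ⊓ X.val (Fm'.tms P w t) v =
      X.vSeq (v t) ⊓ ⨅ n : ℕ, ⨆ A, X.rl (v t) (X.nat n) A ⊓ V A := by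
  have h0 : X.val (Fm'.tms P w t) v = ⨅ n : ℕ, ⨅ A, X.rl (v t) (X.nat n) A ⇨ V A := by
    have h1 := Y5_om X (fun n A => X.rl (v t) n A ⇨ V A)
      (fun A => SM.Ext.himp (X.ext_rl_mid (v t) A) (SM.Ext.const _))
    beta_reduce at h1
    rw [← h1]
    unfold SM.val Fm'.tms
    simp only [ev_all, ev_imp, ev_mem, Y5_rel, cons_zero, cons_succ]
    rw [hw]
    refine iInf_congr fun n => iInf_congr fun A => ?_
    have h2 := h (cons A (cons n v)) (w + 2) 0 hw rfl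
    unfold SM.val at h2
    rw [h2]
    rfl
  rw [h0]
  refine Y5_iInf fun n => ?_
  apply le_antisymm
  · refine le_inf inf_le_left ?_
    calc _ ≤ (⨆ A, X.rl (v t) (X.nat n) A) ⊓ (⨅ A, X.rl (v t) (X.nat n) A ⇨ V A) :=
          inf_le_inf_right _ (SM.vSeq_ex (X := X) (v t) n)
      _ ≤ _ := by
          rw [iSup_inf_eq]
          refine iSup_mono fun A => le_inf inf_le_left ?_
          rw [inf_comm, ← le_himp_iff]
          exact iInf_le _ A
  · refine le_inf inf_le_left (le_iInf fun A => ?_)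
    rw [le_himp_iff, inf_assoc, inf_comm (⨆ A, X.rl (v t) (X.nat n) A ⊓ V A), ← inf_assoc,
      inf_iSup_eq]
    refine iSup_le fun U => ?_
    refine le_trans ?_ (hV U A)
    refine le_inf ?_ (inf_le_right.trans inf_le_right)
    refine le_trans ?_ (SM.vSeq_uniq (X := X) (v t) U A n)
    exact le_inf (le_inf (inf_le_left.trans inf_le_left) (inf_le_right.trans inf_le_left))
      (inf_le_left.trans inf_le_right)

private theorem Y5_val (s : Bool) (v : ℕ → X.N) (w : ℕ) (hw : v w = X.om) :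
    X.val (Fm'.acO s w) v = ⨅ t, X.vSeq t ⇨ (X.val (Fm'.tms Fm'.nem (w+1) 0) (cons t v) ⇨
      (X.val (Fm'.tms (Fm'.clO s) (w+1) 0) (cons t v) ⇨
        ⨆ f, X.val (.choice (w+2) 1 0) (cons f (cons t v)))) := by
  have h1 : ∀ t : X.N, ev X.mem X.eq (.seq (w+1) 0) (cons t v) = X.vSeq t :=
    fun t => SM.val_seq (cons t v) (w+1) 0 hw
  unfold Fm'.acO SM.val
  simp only [ev_all, ev_imp, ev_ex, h1]

omit [OrdAct G B] in
private theorem Y5_nem (u : ℕ → X.N) (w' z : ℕ) :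
    X.val (Fm'.nem w' z) u = ⨆ x, X.mem x (u z) := by
  unfold Fm'.nem SM.val
  simp only [ev_ex, ev_mem, cons_zero, cons_succ]

private theorem Y5_ne (v : ℕ → X.N) (w : ℕ) (hw : v w = X.om) (t : X.N) :
    X.vSeq t ⊓ X.val (Fm'.tms Fm'.nem (w+1) 0) (cons t v) =
      X.vSeq t ⊓ ⨅ n : ℕ, ⨆ A, X.rl t (X.nat n) A ⊓ ⨆ x, X.mem x A :=
  val_tms X Fm'.nem (fun A => ⨆ x, X.mem x A) (SM.Ext.iSup fun x => SM.Ext.mem_right x)
    (cons t v) (w+1) 0 hw fun u w' z _ => Y5_nem X u w' z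

private theorem Y5_cl (s : Bool) (α : Ordinal.{0}) (v : ℕ → X.N) (w : ℕ) (hw : v w = X.om)
    (ha : v (w + 1) = onm X α) (t : X.N) :
    X.vSeq t ⊓ X.val (Fm'.tms (Fm'.clO s) (w+1) 0) (cons t v) =
      X.vSeq t ⊓ ⨅ n : ℕ, ⨆ A, X.rl t (X.nat n) A ⊓ vC X s α A :=
  val_tmsO X (Fm'.clO s) (vC X s α) (ext_vC X s α)
    (cons t v) (w+1) 0 hw fun u w' z hu hu' => val_clO X s u w' z α hu (hu'.trans ha)

private theorem Y5_ch (v : ℕ → X.N) (w : ℕ) (hw : v w = X.om) (t f : X.N) :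
    X.vSeq t ⊓ X.val (.choice (w+2) 1 0) (cons f (cons t v)) = X.vSeq t ⊓ chV X t f :=
  val_choice X (cons f (cons t v)) (w+2) 1 0 hw

private theorem Y5_hyp (V : X.N → B) (hV : X.Ext V) (t : X.N) (n : ℕ) :
    X.vSeq t ⊓ (⨆ A, X.rl t (X.nat n) A ⊓ ⨆ x, X.mem x A) ⊓
      (⨆ A, X.rl t (X.nat n) A ⊓ V A) ≤ hypV X V t n := by
  rw [inf_iSup_eq]
  refine iSup_le fun C => ?_
  rw [inf_iSup_eq, iSup_inf_eq]
  refine iSup_le fun A => ?_
  unfold hypV
  refine le_iSup_of_le A ?_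
  have h1 : X.vSeq t ⊓ (X.rl t (X.nat n) A ⊓ ⨆ x, X.mem x A) ⊓ (X.rl t (X.nat n) C ⊓ V C) ≤
      X.eq C A :=
    le_trans (le_inf (le_inf (inf_le_left.trans inf_le_left) (inf_le_right.trans inf_le_left))
      (inf_le_left.trans (inf_le_right.trans inf_le_left))) (SM.vSeq_uniq t C A n)
  refine le_inf (inf_le_left.trans (inf_le_right.trans inf_le_left)) (le_inf ?_ ?_)
  · exact inf_le_left.trans (inf_le_right.trans inf_le_right)
  · exact (le_inf h1 (inf_le_right.trans inf_le_right)).trans (hV C A)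

theorem val_acO_top (s : Bool) (α : Ordinal.{0}) (v : ℕ → X.N) (w : ℕ) (hw : v w = X.om)
    (ha : v (w + 1) = onm X α)
    (h : ∀ t : X.N, ∃ f : X.N, X.vSeq t ⊓ (⨅ n, hypV X (vC X s α) t n) ≤ chV X t f) :
    X.val (Fm'.acO s w) v = ⊤ := by
  rw [Y5_val X s v w hw, eq_top_iff]
  refine le_iInf fun t => ?_
  rw [le_himp_iff, le_himp_iff, le_himp_iff, top_inf_eq]
  obtain ⟨f, hf⟩ := h t
  have h1 := Y5_ne X v w hw t
  have h2 := Y5_cl X s α v w hw ha t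
  have h3 := Y5_ch X v w hw t f
  have e1 : X.vSeq t ⊓ X.val (Fm'.tms Fm'.nem (w+1) 0) (cons t v) ⊓
      X.val (Fm'.tms (Fm'.clO s) (w+1) 0) (cons t v) ≤
      ⨅ n : ℕ, ⨆ A, X.rl t (X.nat n) A ⊓ ⨆ x, X.mem x A :=
    inf_le_left.trans (h1.le.trans inf_le_right)
  have e2 : X.vSeq t ⊓ X.val (Fm'.tms Fm'.nem (w+1) 0) (cons t v) ⊓
      X.val (Fm'.tms (Fm'.clO s) (w+1) 0) (cons t v) ≤
      ⨅ n : ℕ, ⨆ A, X.rl t (X.nat n) A ⊓ vC X s α A :=
    (inf_le_inf_right _ inf_le_left).trans (h2.le.trans inf_le_right)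
  have e3 : X.vSeq t ⊓ X.val (Fm'.tms Fm'.nem (w+1) 0) (cons t v) ⊓
      X.val (Fm'.tms (Fm'.clO s) (w+1) 0) (cons t v) ≤ X.vSeq t :=
    inf_le_left.trans inf_le_left
  have e4 : X.vSeq t ⊓ X.val (Fm'.tms Fm'.nem (w+1) 0) (cons t v) ⊓
      X.val (Fm'.tms (Fm'.clO s) (w+1) 0) (cons t v) ≤ ⨅ n, hypV X (vC X s α) t n := by
    refine le_iInf fun n => ?_
    refine le_trans ?_ (Y5_hyp X (vC X s α) (ext_vC X s α) t n)
    exact le_inf (le_inf e3 (e1.trans (iInf_le _ n))) (e2.trans (iInf_le _ n))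
  refine le_iSup_of_le f ?_
  exact (le_inf e3 ((le_inf e3 e4).trans hf)).trans (h3.ge.trans inf_le_right)

theorem val_acO_bot (s : Bool) (α : Ordinal.{0}) (v : ℕ → X.N) (w : ℕ) (hw : v w = X.om)
    (ha : v (w + 1) = onm X α)
    (t : X.N) (A : ℕ → X.N) (ht : ∀ n y, X.rl t (X.nat n) y = X.eq y (A n))
    (ht' : X.vSeq t = ⊤) (hc : ∀ n, vC X s α (A n) = ⊤) (hne : ∀ n, (⨆ x, X.mem x (A n)) = ⊤)
    (hno : ∀ f : X.N, (X.vSeq f ⊓ ⨅ n, ⨅ y, (X.rl f (X.nat n) y ⇨ X.mem y (A n))) = ⊥) :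
    X.val (Fm'.acO s w) v = ⊥ := by
  rw [Y5_val X s v w hw, eq_bot_iff]
  refine (iInf_le _ t).trans ?_
  have h1 := Y5_ne X v w hw t
  have h2 := Y5_cl X s α v w hw ha t
  have h3 := fun f => Y5_ch X v w hw t f
  rw [ht', top_inf_eq, top_inf_eq] at h1 h2
  simp only [ht', top_inf_eq] at h3
  have r : ∀ n, X.rl t (X.nat n) (A n) = ⊤ := fun n => by rw [ht]; exact X.eqax.refl _
  have g1 : (⨅ n : ℕ, ⨆ A, X.rl t (X.nat n) A ⊓ ⨆ x, X.mem x A) = ⊤ := by
    rw [eq_top_iff]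
    refine le_iInf fun n => le_iSup_of_le (A n) ?_
    rw [r, hne, top_inf_eq]
  have g2 : (⨅ n : ℕ, ⨆ A, X.rl t (X.nat n) A ⊓ vC X s α A) = ⊤ := by
    rw [eq_top_iff]
    refine le_iInf fun n => le_iSup_of_le (A n) ?_
    rw [r, hc, top_inf_eq]
  have hi : ∀ n y, X.inh t n y = X.mem y (A n) := by
    intro n y
    unfold SM.inh
    refine le_antisymm (iSup_le fun U => ?_) ?_
    · rw [ht]
      exact (SM.Ext.mem_right (X := X) y) U (A n)
    · refine le_iSup_of_le (A n) ?_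
      rw [r, top_inf_eq]
  have g3 : (⨆ f, X.val (.choice (w+2) 1 0) (cons f (cons t v))) = ⊥ := by
    rw [eq_bot_iff]
    refine iSup_le fun f => ?_
    rw [h3 f]
    unfold chV
    simp only [hi]
    exact (hno f).le
  rw [h1, g1, h2, g2, g3, ht', top_himp, top_himp, top_himp]

end Pool.Agent.LibBd83
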