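import Pool.Agent.LibBd83.Y3
import Pool.Agent.LibBd83.Z6

/-!
BD83 Y6. The truth value of the statement of choice for sequences uniformly in the class of an
ordinal.

Plan. The same as `Z6.lean` (use its proof as a model), with `Fm'.acuO`, `Fm'.unifO`, `val_clO` (for
`s = true`, `vC X true α = vS X α`) instead of `Fm'.acuF`, `Fm'.unif`, `val_sigF`. First
`val_tmsO'`, the version of `val_tms` (`Z4.lean`, copy its proof) where the hypothesis on the formula `P`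
is only for assignments `u` with `u w' = X.om` and `u (w' + 1) = v (w + 1)`.
-/

namespace Pool.Agent.LibBd83

open Pool.Agent.LibBc83

variable {B : Type} [CompleteBooleanAlgebra B] {G : Type} [Group G] [MulAction G B]
  [OrdAct G B] {Fam : Set (Set G)} (X : SM B G Fam)

private theorem Y6_iInf {ι : Type*} {S : B} {a b : ι → B} (h : ∀ i, S ⊓ a i = S ⊓ b i) :
    S ⊓ (⨅ i, a i) = S ⊓ ⨅ i, b i := by
  apply le_antisymm
  · refine le_inf inf_le_left (le_iInf fun i => ?_)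
    exact ((inf_le_inf_left S (iInf_le a i)).trans (h i).le).trans inf_le_right
  · refine le_inf inf_le_left (le_iInf fun i => ?_)
    exact ((inf_le_inf_left S (iInf_le b i)).trans (h i).ge).trans inf_le_right

private theorem Y6_rel (v : ℕ → X.N) (f x y : ℕ) :
    ev X.mem X.eq (.rel f x y) v = X.rl (v f) (v x) (v y) := SM.val_rel v f x y

private theorem Y6_om (f : X.N → X.N → B) (hf : ∀ A, X.Ext fun n => f n A) :
    (⨅ n, ⨅ A, X.mem n X.om ⇨ f n A) = ⨅ n : ℕ, ⨅ A, f (X.nat n) A := by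
  rw [← SM.iInf_om (X := X) (φ := fun n => ⨅ A, f n A) (SM.Ext.iInf hf)]
  refine iInf_congr fun n => ?_
  rw [himp_iInf_eq]

theorem val_tmsO' (P : ℕ → ℕ → Fm) (V : X.N → B) (hV : X.Ext V) (v : ℕ → X.N) (w t : ℕ)
    (hw : v w = X.om)
    (h : ∀ (u : ℕ → X.N) (w' z : ℕ), u w' = X.om → u (w' + 1) = v (w + 1) →
      X.val (P w' z) u = V (u z)) :
    X.vSeq (v t) ⊓ X.val (Fm'.tms P w t) v =
      X.vSeq (v t) ⊓ ⨅ n : ℕ, ⨆ A, X.rl (v t) (X.nat n) A ⊓ V A := by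
  have h0 : X.val (Fm'.tms P w t) v = ⨅ n : ℕ, ⨅ A, X.rl (v t) (X.nat n) A ⇨ V A := by
    have h1 := Y6_om X (fun n A => X.rl (v t) n A ⇨ V A)
      (fun A => SM.Ext.himp (X.ext_rl_mid (v t) A) (SM.Ext.const _))
    beta_reduce at h1
    rw [← h1]
    unfold SM.val Fm'.tms
    simp only [ev_all, ev_imp, ev_mem, Y6_rel, cons_zero, cons_succ]
    rw [hw]
    refine iInf_congr fun n => iInf_congr fun A => ?_
    have h2 := h (cons A (cons n v)) (w + 2) 0 hw rfl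
    unfold SM.val at h2
    rw [h2]
    rfl
  rw [h0]
  refine Y6_iInf fun n => ?_
  apply le_antisymm
  · refine le_inf inf_le_left ?_
    calc _ ≤ (⨆ A, X.rl (v t) (X.nat n) A) ⊓ (⨅ A, X.rl (v t) (X.nat n) A ⇨ V A) :=
          inf_le_inf_right _ (SM.vSeq_ex (X := X) (v t) n)
      _ ≤ _ := by
          rw [iSup_inf_eq]
          refine iSup_mono fun A => le_inf inf_le_left ?_
          rw [inf_comm, ← le_himp_iff]
          exact iInf_le _ A
  · refine le_inf inf_le_left (le_iInf fun A => ?_)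
    rw [le_himp_iff, inf_assoc, inf_comm (⨆ A, X.rl (v t) (X.nat n) A ⊓ V A), ← inf_assoc,
      inf_iSup_eq]
    refine iSup_le fun U => ?_
    refine le_trans ?_ (hV U A)
    refine le_inf ?_ (inf_le_right.trans inf_le_right)
    refine le_trans ?_ (SM.vSeq_uniq (X := X) (v t) U A n)
    exact le_inf (le_inf (inf_le_left.trans inf_le_left) (inf_le_right.trans inf_le_left))
      (inf_le_left.trans inf_le_right)

omit [OrdAct G B] in
private theorem Y6_unfold (v : ℕ → X.N) (w : ℕ) :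
    X.val (Fm'.acuO w) v = ⨅ t, X.val (.seq (w+1) 0) (cons t v) ⇨
      (X.val (Fm'.tms Fm'.nem (w+1) 0) (cons t v) ⇨
        (X.val (Fm'.tms (Fm'.clO true) (w+1) 0) (cons t v) ⊓
          (⨆ a, X.val (Fm'.hat (w+2) 1 0) (cons a (cons t v)) ⊓
            X.val (Fm'.clO true (w+2) 0) (cons a (cons t v))) ⇨
          ⨆ f, X.val (.choice (w+2) 1 0) (cons f (cons t v)))) := by
  simp only [SM.val, Fm'.acuO, Fm'.unifO, ev_all, ev_imp, ev_ex, ev_and]

omit [OrdAct G B] in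
private theorem Y6_ext_ne : X.Ext (fun A => ⨆ x, X.mem x A) :=
  SM.Ext.iSup fun x => SM.Ext.mem_right x

private theorem Y6_seq (v : ℕ → X.N) (w : ℕ) (hw : v w = X.om) (t : X.N) :
    X.val (.seq (w+1) 0) (cons t v) = X.vSeq t :=
  SM.val_seq (cons t v) (w+1) 0 hw

private theorem Y6_nem (v : ℕ → X.N) (w : ℕ) (hw : v w = X.om) (t : X.N) :
    X.vSeq t ⊓ X.val (Fm'.tms Fm'.nem (w+1) 0) (cons t v) =
      X.vSeq t ⊓ ⨅ n : ℕ, ⨆ A, X.rl t (X.nat n) A ⊓ ⨆ x, X.mem x A :=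
  val_tms X Fm'.nem (fun A => ⨆ x, X.mem x A) (Y6_ext_ne X) (cons t v) (w+1) 0 hw
    fun u w' z _ => by
      simp only [SM.val, Fm'.nem, ev_ex, ev_mem]
      rfl

private theorem Y6_sig (α : Ordinal.{0}) (v : ℕ → X.N) (w : ℕ) (hw : v w = X.om)
    (ha : v (w + 1) = onm X α) (t : X.N) :
    X.vSeq t ⊓ X.val (Fm'.tms (Fm'.clO true) (w+1) 0) (cons t v) =
      X.vSeq t ⊓ ⨅ n : ℕ, ⨆ A, X.rl t (X.nat n) A ⊓ vS X α A :=
  val_tmsO' X (Fm'.clO true) (vS X α) (ext_vS X α) (cons t v) (w+1) 0 hw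
    fun u w' z hu hu' => val_clO X true u w' z α hu (hu'.trans ha)

private theorem Y6_tr (V : X.N → B) (hV : X.Ext V) (t A A' : X.N) (n : ℕ) :
    X.vSeq t ⊓ X.rl t (X.nat n) A ⊓ X.rl t (X.nat n) A' ⊓ V A ≤ V A' :=
  (inf_le_inf_right _ (SM.vSeq_uniq t A A' n)).trans (hV A A')

private theorem Y6_real (k : Ordinal.{0}) (t x : X.N) (n : ℕ) :
    (X.vSeq t ⊓ ⨆ A, X.rl t (X.nat n) A ⊓ vS X k A) ⊓ X.inh t n x ≤ X.vReal x := by
  unfold SM.inh
  rw [inf_iSup_eq]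
  refine iSup_le fun U => ?_
  rw [inf_iSup_eq, iSup_inf_eq]
  refine iSup_le fun A => ?_
  refine le_trans (le_inf ?_ ?_) (vS_real X k U x)
  · refine le_trans ?_ (Y6_tr X (vS X k) (ext_vS X k) t A U n)
    refine le_inf (le_inf (le_inf ?_ ?_) ?_) ?_
    · exact inf_le_left.trans inf_le_left
    · exact inf_le_left.trans (inf_le_right.trans inf_le_left)
    · exact inf_le_right.trans inf_le_left
    · exact inf_le_left.trans (inf_le_right.trans inf_le_right)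
  · exact inf_le_right.trans inf_le_right

private theorem Y6_hyp (k : Ordinal.{0}) (t : X.N) (n : ℕ) :
    (X.vSeq t ⊓ ⨆ A, X.rl t (X.nat n) A ⊓ ⨆ x, X.mem x A) ⊓
      (⨆ A, X.rl t (X.nat n) A ⊓ vS X k A) ≤ hypV X (vC X true k) t n := by
  unfold hypV
  rw [inf_iSup_eq]
  refine iSup_le fun U => ?_
  refine le_iSup_of_le U ?_
  rw [inf_iSup_eq, iSup_inf_eq]
  refine iSup_le fun A => ?_
  refine le_inf (inf_le_right.trans inf_le_left) (le_inf ?_ ?_)
  · refine le_trans ?_ (Y6_tr X (fun A => ⨆ x, X.mem x A) (Y6_ext_ne X) t A U n)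
    refine le_inf (le_inf (le_inf ?_ ?_) ?_) ?_
    · exact inf_le_left.trans inf_le_left
    · exact inf_le_left.trans (inf_le_right.trans inf_le_left)
    · exact inf_le_right.trans inf_le_left
    · exact inf_le_left.trans (inf_le_right.trans inf_le_right)
  · exact inf_le_right.trans inf_le_right

theorem val_acuO_top (α : Ordinal.{0}) (hα : 1 < α) (v : ℕ → X.N) (w : ℕ) (hw : v w = X.om)
    (ha : v (w + 1) = onm X α)
    (h : ∀ t a g : X.N, ∃ f : X.N, X.vSeq t ⊓ (⨅ n, hypV X (vC X true α) t n) ⊓ vHat X t a ⊓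
      (X.vSeq g ⊓ (vTm X α g ⊓ X.vUn a g)) ≤ chV X t f) :
    X.val (Fm'.acuO w) v = ⊤ := by
  rw [Y6_unfold, eq_top_iff]
  refine le_iInf fun t => ?_
  rw [le_himp_iff, le_himp_iff, le_himp_iff, top_inf_eq, Y6_seq X v w hw t]
  have hN := Y6_nem X v w hw t
  have hC := Y6_sig X α v w hw ha t
  rw [inf_iSup_eq, inf_iSup_eq]
  refine iSup_le fun a => ?_
  have hS : X.val (Fm'.clO true (w+2) 0) (cons a (cons t v)) =
      ⨆ g, X.vSeq g ⊓ (vTm X α g ⊓ X.vUn a g) :=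
    (val_clO X true (cons a (cons t v)) (w+2) 0 α hw ha).trans (vS_gt X hα a)
  rw [hS, inf_iSup_eq, inf_iSup_eq, inf_iSup_eq]
  refine iSup_le fun g => ?_
  obtain ⟨f, hf⟩ := h t a g
  have hch : X.vSeq t ⊓ X.val (.choice (w+2) 1 0) (cons f (cons t v)) =
      X.vSeq t ⊓ chV X t f := val_choice X (cons f (cons t v)) (w+2) 1 0 hw
  have hH : vRT X t ⊓ X.val (Fm'.hat (w+2) 1 0) (cons a (cons t v)) =
      vRT X t ⊓ vHat X t a := val_hat X (cons a (cons t v)) (w+2) 1 0 hw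
  refine le_iSup_of_le f ?_
  generalize X.val (Fm'.tms Fm'.nem (w+1) 0) (cons t v) = N at hN ⊢
  generalize X.val (Fm'.tms (Fm'.clO true) (w+1) 0) (cons t v) = C at hC ⊢
  generalize X.val (Fm'.hat (w+2) 1 0) (cons a (cons t v)) = H at hH ⊢
  generalize X.val (.choice (w+2) 1 0) (cons f (cons t v)) = D at hch ⊢
  obtain ⟨L, hL⟩ : ∃ L : B, L = X.vSeq t ⊓ N ⊓
      (C ⊓ (H ⊓ (X.vSeq g ⊓ (vTm X α g ⊓ X.vUn a g)))) := ⟨_, rfl⟩
  rw [← hL]
  have l1 : L ≤ X.vSeq t := hL.le.trans (inf_le_left.trans inf_le_left)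
  have l2 : L ≤ N := hL.le.trans (inf_le_left.trans inf_le_right)
  have l3 : L ≤ C := hL.le.trans (inf_le_right.trans inf_le_left)
  have l4 : L ≤ H := hL.le.trans (inf_le_right.trans (inf_le_right.trans inf_le_left))
  have l5 : L ≤ X.vSeq g ⊓ (vTm X α g ⊓ X.vUn a g) :=
    hL.le.trans (inf_le_right.trans (inf_le_right.trans inf_le_right))
  have m2 : ∀ n : ℕ, L ≤ ⨆ A, X.rl t (X.nat n) A ⊓ ⨆ x, X.mem x A := fun n =>
    (le_inf l1 l2).trans (hN.le.trans (inf_le_right.trans (iInf_le _ n)))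
  have m3 : ∀ n : ℕ, L ≤ ⨆ A, X.rl t (X.nat n) A ⊓ vS X α A := fun n =>
    (le_inf l1 l3).trans (hC.le.trans (inf_le_right.trans (iInf_le _ n)))
  have m4 : L ≤ vRT X t := by
    refine le_iInf fun n => le_iInf fun x => ?_
    rw [le_himp_iff]
    exact (inf_le_inf_right _ (le_inf l1 (m3 n))).trans (Y6_real X α t x n)
  have m5 : L ≤ vHat X t a := (le_inf m4 l4).trans (hH.le.trans inf_le_right)
  have m6 : L ≤ ⨅ n, hypV X (vC X true α) t n :=
    le_iInf fun n => (le_inf (le_inf l1 (m2 n)) (m3 n)).trans (Y6_hyp X α t n)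
  have m7 : L ≤ X.vSeq t ⊓ chV X t f :=
    le_inf l1 ((le_inf (le_inf (le_inf l1 m6) m5) l5).trans hf)
  exact (m7.trans hch.ge).trans inf_le_right

theorem val_acuO_bot (α : Ordinal.{0}) (v : ℕ → X.N) (w : ℕ) (hw : v w = X.om)
    (ha : v (w + 1) = onm X α)
    (t a : X.N) (A : ℕ → X.N) (ht : ∀ n y, X.rl t (X.nat n) y = X.eq y (A n))
    (ht' : X.vSeq t = ⊤) (hc : ∀ n, vC X true α (A n) = ⊤)
    (hne : ∀ n, (⨆ x, X.mem x (A n)) = ⊤) (hat : vHat X t a = ⊤) (ha' : vS X α a = ⊤)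
    (hno : ∀ f : X.N, (X.vSeq f ⊓ ⨅ n, ⨅ y, (X.rl f (X.nat n) y ⇨ X.mem y (A n))) = ⊥) :
    X.val (Fm'.acuO w) v = ⊥ := by
  have hcS : ∀ n, vS X α (A n) = ⊤ := fun n => hc n
  have hA : ∀ n, X.rl t (X.nat n) (A n) = ⊤ := fun n => by rw [ht, X.eqax.refl]
  have hN := Y6_nem X v w hw t
  have hC := Y6_sig X α v w hw ha t
  rw [ht', top_inf_eq, top_inf_eq] at hN hC
  have hN' : X.val (Fm'.tms Fm'.nem (w+1) 0) (cons t v) = ⊤ := by
    rw [hN, eq_top_iff]
    refine le_iInf fun n => le_iSup_of_le (A n) ?_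
    rw [hA, hne, top_inf_eq]
  have hC' : X.val (Fm'.tms (Fm'.clO true) (w+1) 0) (cons t v) = ⊤ := by
    rw [hC, eq_top_iff]
    refine le_iInf fun n => le_iSup_of_le (A n) ?_
    rw [hA, hcS, top_inf_eq]
  have hinh : ∀ n x, X.inh t n x ≤ X.mem x (A n) := by
    intro n x
    unfold SM.inh
    refine iSup_le fun U => ?_
    rw [ht]
    exact X.eqax.memr x U (A n)
  have hRT : vRT X t = ⊤ := by
    rw [eq_top_iff]
    refine le_iInf fun n => le_iInf fun x => ?_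
    rw [le_himp_iff, top_inf_eq]
    have h1 := vS_real X α (A n) x
    rw [hcS, top_inf_eq] at h1
    exact (hinh n x).trans h1
  have hH : vRT X t ⊓ X.val (Fm'.hat (w+2) 1 0) (cons a (cons t v)) =
      vRT X t ⊓ vHat X t a := val_hat X (cons a (cons t v)) (w+2) 1 0 hw
  rw [hRT, top_inf_eq, top_inf_eq, hat] at hH
  have hS : X.val (Fm'.clO true (w+2) 0) (cons a (cons t v)) = ⊤ :=
    (val_clO X true (cons a (cons t v)) (w+2) 0 α hw ha).trans ha'
  have hex : (⨆ a, X.val (Fm'.hat (w+2) 1 0) (cons a (cons t v)) ⊓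
      X.val (Fm'.clO true (w+2) 0) (cons a (cons t v))) = ⊤ := by
    rw [eq_top_iff]
    refine le_iSup_of_le a ?_
    rw [hH, hS, top_inf_eq]
  rw [Y6_unfold, eq_bot_iff]
  refine (iInf_le _ t).trans ?_
  rw [Y6_seq X v w hw t, ht', hN', hC', hex, top_inf_eq, top_himp, top_himp, top_himp]
  refine iSup_le fun f => ?_
  have hch : X.vSeq t ⊓ X.val (.choice (w+2) 1 0) (cons f (cons t v)) =
      X.vSeq t ⊓ chV X t f := val_choice X (cons f (cons t v)) (w+2) 1 0 hw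
  rw [ht', top_inf_eq, top_inf_eq] at hch
  rw [hch, ← hno f]
  refine inf_le_inf_left _ (iInf_mono fun n => iInf_mono fun y => ?_)
  exact himp_le_himp_left (hinh n y)

end Pool.Agent.LibBd83
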