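import Pool.Agent.LibBd83.A1
import Pool.Agent.LibBd83.Fin
import Pool.Agent.LibBd83.P1
import Pool.Agent.LibBd83.Y5
import Pool.Agent.LibBd83.Y6
import Pool.Agent.LibBd83.L5

/-!
The positive answers for the countable ordinals.
-/

namespace Pool.Agent.LibBd83

open MeasureTheory Set Filter Pool.Agent.LibTk83 Pool.Agent.LibBc83

/-- For each countable ordinal `α ≥ 1` there is a model of ZF with countable choice for `Σ⁰_α` and
`Π⁰_α`, but not for `Σ⁰_{α+1}` and not for `Π⁰_{α+1}`. -/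
theorem pos_one (α : Ordinal.{0}) (h1 : 1 ≤ α) (hc : (Set.Iio α).Countable) :
    ∃ (M : Type) (E : M → M → Prop) (a a' : M), IsZF E ∧ IsoOrd E α a ∧ Suc E a' a ∧
      ACRo E a ∧ ACPo E a ∧ ¬ ACRo E a' ∧ ¬ ACPo E a' ∧ ACUo E a' := by
  obtain ⟨𝓕, h𝓕, hL, ⟨Q₁, hQ₁, hG₁⟩, ⟨Q₂, hQ₂, hG₂⟩⟩ := fil α h1 hc
  let X : SM MB (Gp 𝓕) (famD 𝓕) := mkSM isFam
  have hsm : ∀ (s : Bool) (γ : Ordinal.{0}), 1 ≤ γ → γ ≤ α → Small 𝓕 s γ :=
    fun s γ h1 h2 => small_of h𝓕 hc hL s h1 h2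
  obtain ⟨M, E, w, a, a', hZF, hw, ha, ha', ht, ht'⟩ :=
    model_of X top_ne_bot_MB α (lt_of_lt_of_le zero_lt_one h1) hc
  have e1 : X.val (Fm'.acO true 0) (asgO X α) = ⊤ :=
    val_acO_top X true α _ 0 rfl rfl fun t => ac_pos h𝓕 X true h1 (hsm _ _ h1 le_rfl) t
  have e2 : X.val (Fm'.acO false 0) (asgO X α) = ⊤ :=
    val_acO_top X false α _ 0 rfl rfl fun t => ac_pos h𝓕 X false h1 (hsm _ _ h1 le_rfl) t
  have e3 : X.val (Fm'.acO true 0) (asgO X (α + 1)) = ⊥ := by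
    obtain ⟨t, A, h⟩ := ac_neg h𝓕 X true _ Q₁ hG₁ (by simpa using hQ₁)
    exact val_acO_bot X true (α + 1) _ 0 rfl rfl t A h.rl h.seq h.cls h.ne h.no
  have e4 : X.val (Fm'.acO false 0) (asgO X (α + 1)) = ⊥ := by
    obtain ⟨t, A, h⟩ := ac_neg h𝓕 X false _ Q₂ hG₂ (by simpa using hQ₂)
    exact val_acO_bot X false (α + 1) _ 0 rfl rfl t A h.rl h.seq h.cls h.ne h.no
  have e5 : X.val (Fm'.acuO 0) (asgO X (α + 1)) = ⊤ := by
    refine val_acuO_top X (α + 1) (lt_of_le_of_lt h1 (lt_add_one α)) _ 0 rfl rfl fun t a g => ?_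
    exact acu_pos h𝓕 X (fun γ h1 h2 => hsm false γ h1 (Order.lt_add_one_iff.1 h2)) t a g
  have s1 := ht _ e1
  have s2 := ht _ e2
  have s3 := ht' (.neg (Fm'.acO true 0)) (by
    change (X.val (Fm'.acO true 0) _)ᶜ = ⊤
    rw [e3, compl_bot])
  have s4 := ht' (.neg (Fm'.acO false 0)) (by
    change (X.val (Fm'.acO false 0) _)ᶜ = ⊤
    rw [e4, compl_bot])
  have s5 := ht' _ e5
  rw [sat_neg] at s3 s4
  rw [sat_acO hZF _ _ _ (by exact hw)] at s1 s2 s3 s4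
  rw [sat_acuO hZF _ _ (by exact hw)] at s5
  exact ⟨M, E, a, a', hZF, ha, ha', by simpa using s1, by simpa using s2, by simpa using s3,
    by simpa using s4, by simpa using s5⟩

/-- If all sets of the classes below `β` have small members, and there is an invariant set whose
complement is in the class `β`. -/
theorem pos_two_of {𝓕 : Filter ℕ} (h𝓕 : 𝓕 ≤ cofinite) (β : Ordinal.{0}) (h1 : 1 ≤ β)
    {α : Ordinal.{0}} (hc : (Set.Iio α).Countable) (hα : 1 < α)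
    (hs : ∀ γ, 1 ≤ γ → γ < α → Small 𝓕 false γ) (hβ : α = β)
    (Q : Set Cn) (hQ : Good 𝓕 Q) (hQ' : SG (Clop Cn) β Qᶜ) :
    ∃ (M : Type) (E : M → M → Prop) (a a' : M), IsZF E ∧ IsoOrd E α a ∧ Suc E a' a ∧
      ACUo E a ∧ ¬ ACUo E a' := by
  subst hβ
  let X : SM MB (Gp 𝓕) (famD 𝓕) := mkSM isFam
  obtain ⟨M, E, w, a, a', hZF, hw, ha, ha', ht, ht'⟩ :=
    model_of X top_ne_bot_MB α (lt_trans zero_lt_one hα) hc
  have e1 : X.val (Fm'.acuO 0) (asgO X α) = ⊤ :=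
    val_acuO_top X α hα _ 0 rfl rfl fun t a g => acu_pos h𝓕 X hs t a g
  have e2 : X.val (Fm'.acuO 0) (asgO X (α + 1)) = ⊥ := by
    obtain ⟨t, b, A, h, hb, hb'⟩ := acu_neg h𝓕 X α Q hQ hQ'
    exact val_acuO_bot X (α + 1) _ 0 rfl rfl t b A h.rl h.seq h.cls h.ne hb hb' h.no
  have s1 := ht _ e1
  have s2 := ht' (.neg (Fm'.acuO 0)) (by
    change (X.val (Fm'.acuO 0) _)ᶜ = ⊤
    rw [e2, compl_bot])
  rw [sat_neg] at s2
  rw [sat_acuO hZF _ _ (by exact hw)] at s1 s2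
  exact ⟨M, E, a, a', hZF, ha, ha', by simpa using s1, by simpa using s2⟩

/-- For each countable ordinal `α ≥ 2` there is a model of ZF with countable choice for the sequences
uniformly in `Σ⁰_α`, but not for those uniformly in `Σ⁰_{α+1}`. -/
theorem pos_two (α : Ordinal.{0}) (h1 : 1 < α) (hc : (Set.Iio α).Countable) : Q2 α := by
  by_cases hl : ∀ δ < α, δ + 1 < α
  · obtain ⟨𝓕, h𝓕, hL, Q, hQ, hG⟩ := fil_lim α h1 hl hc
    have hsm : ∀ γ, 1 ≤ γ → γ < α → Small 𝓕 false γ := fun γ h1 h2 =>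
      small_of h𝓕 (hc.mono (Iio_subset_Iio h2.le)) (hL γ h2) false h1 le_rfl
    exact pos_two_of h𝓕 α h1.le hc h1 hsm rfl Q hG hQ
  · push Not at hl
    obtain ⟨β, hβ, hβ'⟩ := hl
    have hαβ : β + 1 = α := le_antisymm (Order.add_one_le_iff.2 hβ) hβ'
    subst hαβ
    have hβ1 : 1 ≤ β := Order.lt_add_one_iff.1 h1
    have hcβ : (Set.Iio β).Countable := hc.mono (Iio_subset_Iio hβ.le)
    obtain ⟨𝓕, h𝓕, hL, -, ⟨Q₂, hQ₂, hG₂⟩⟩ := fil β hβ1 hcβ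
    refine pos_two_of h𝓕 (β + 1) (h1.le) hc h1 (fun γ g1 g2 => ?_) rfl Q₂ hG₂ hQ₂
    exact small_of h𝓕 hcβ hL false g1 (Order.lt_add_one_iff.1 g2)

end Pool.Agent.LibBd83
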