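import Pool.Agent.LibBd83.V1

/-!
BD83 V1b. Elementary facts on the truth values `vS`, `vP`.

`ext_vS`: cases on `β = 1` (`vOpen` is the value of a
formula), `1 < β` (`vUn` is the value of a formula in `A`), `β = 0`. `vS_act`: strong induction on `β`;
reindex the suprema over `g` and `c` and the infimum over `z` by the action. `vS_real`: `β = 1`:
unfold `vOpen`; `1 < β`: `SM.vUn_mem`, and each term `z` is a complement,
so `vCo z c ⊓ mem x z ≤ vReal x`. `vP_real`: in the same way.
-/

namespace Pool.Agent.LibBd83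

open Pool.Agent.LibBc83

variable {B : Type} [CompleteBooleanAlgebra B] {G : Type} [Group G] [MulAction G B]
  [OrdAct G B] {Fam : Set (Set G)} (X : SM B G Fam)

private theorem V1b_lt {β : Ordinal.{0}} (A : X.N) (h1 : β ≠ 1) (h2 : ¬ 1 < β) :
    vS X β A = ⊥ := by
  rw [vS, if_neg h1, if_neg h2]

theorem ext_vS (β : Ordinal.{0}) : X.Ext (vS X β) := by
  by_cases h1 : β = 1
  · subst h1
    have h : vS X 1 = X.vOpen := funext fun A => vS_one X A
    rw [h]
    exact SM.Ext.val _ _
  · by_cases h2 : 1 < β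
    · have h : vS X β = fun A => ⨆ g, X.vSeq g ⊓ (vTm X β g ⊓ X.vUn A g) :=
        funext fun A => vS_gt X h2 A
      rw [h]
      exact SM.Ext.iSup fun g => SM.Ext.inf (SM.Ext.const _)
        (SM.Ext.inf (SM.Ext.const _) (SM.Ext.val _ _))
    · have h : vS X β = fun _ => ⊥ := funext fun A => V1b_lt X A h1 h2
      rw [h]
      exact SM.Ext.const _

theorem ext_vP (β : Ordinal.{0}) : X.Ext (vP X β) := by
  have h : vP X β = fun A => ⨆ c, vS X β c ⊓ vCo X A c := funext fun A => by rw [vP]
  rw [h]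
  exact SM.Ext.iSup fun c => SM.Ext.inf (SM.Ext.const _) (ext_vCo_left X c)

private theorem V1b_om_act (g : G) : X.eq (X.act g X.om) X.om = ⊤ :=
  X.supp_om Set.univ g (Set.mem_univ g)

private theorem V1b_open_act (g : G) (U : X.N) : X.vOpen (X.act g U) = g • X.vOpen U := by
  unfold SM.vOpen
  rw [← SM.val_act]
  refine ev_congr_top X.eqax _ _ _ fun n => ?_
  match n with
  | 0 => exact X.eqax.refl _
  | n + 1 =>
    change X.eq X.om (X.act g X.om) = ⊤
    rw [X.eqax.symm]
    exact V1b_om_act X g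

private theorem V1b_un_act (h : G) (A g : X.N) :
    X.vUn (X.act h A) (X.act h g) = h • X.vUn A g := by
  unfold SM.vUn
  rw [← SM.val_act]
  refine ev_congr_top X.eqax _ _ _ fun n => ?_
  match n with
  | 0 => exact X.eqax.refl _
  | 1 => exact X.eqax.refl _
  | n + 2 =>
    change X.eq X.om (X.act h X.om) = ⊤
    rw [X.eqax.symm]
    exact V1b_om_act X h

private theorem V1b_vP_of {β : Ordinal.{0}} (g : G)
    (hS : ∀ A : X.N, vS X β (X.act g A) = g • vS X β A) (A : X.N) :
    vP X β (X.act g A) = g • vP X β A := by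
  rw [vP, vP, smul_iSup', ← (SM.act_surj (X := X) g).iSup_comp]
  refine iSup_congr fun c => ?_
  rw [smul_inf', hS, vCo_act]

private theorem V1b_tm_act {β : Ordinal.{0}} (h : G)
    (hP : ∀ γ : Ordinal.{0}, γ < β → ∀ A : X.N, vP X γ (X.act h A) = h • vP X γ A) (g : X.N) :
    vTm X β (X.act h g) = h • vTm X β g := by
  unfold vTm
  rw [smul_iInf']
  refine iInf_congr fun n => ?_
  rw [smul_iInf', ← (SM.act_surj (X := X) h).iInf_comp]
  refine iInf_congr fun z => ?_
  rw [smul_himp', smul_iSup', ← X.rl_act]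
  congr 1
  · exact ((X.ext_rl_mid (X.act h g) (X.act h z)).congr
      (X.supp_nat Set.univ n h (Set.mem_univ h))).symm
  · exact iSup_congr fun γ => hP γ.1 γ.2 z

theorem vS_act (β : Ordinal.{0}) (g : G) (A : X.N) : vS X β (X.act g A) = g • vS X β A := by
  induction β using WellFoundedLT.induction generalizing A with
  | ind β ih =>
    by_cases h1 : β = 1
    · subst h1
      rw [vS_one, vS_one]
      exact V1b_open_act X g A
    · by_cases h2 : 1 < β
      · rw [vS_gt X h2, vS_gt X h2, smul_iSup', ← (SM.act_surj (X := X) g).iSup_comp]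
        refine iSup_congr fun f => ?_
        rw [smul_inf', smul_inf', SM.vSeq_act, V1b_un_act,
          V1b_tm_act X g (fun γ hγ => V1b_vP_of X g (ih γ hγ)) f]
      · rw [V1b_lt X _ h1 h2, V1b_lt X _ h1 h2, smul_bot']

theorem vP_act (β : Ordinal.{0}) (g : G) (A : X.N) : vP X β (X.act g A) = g • vP X β A :=
  V1b_vP_of X g (vS_act X β g) A

theorem vP_real (β : Ordinal.{0}) (A x : X.N) : vP X β A ⊓ X.mem x A ≤ X.vReal x := by
  rw [vP, iSup_inf_eq]
  refine iSup_le fun c => ?_
  rw [inf_assoc]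
  exact inf_le_right.trans (vCo_real X A c x)

private theorem V1b_open_real (U x : X.N) : X.vOpen U ⊓ X.mem x U ≤ X.vReal x := by
  have hr : ∀ (v : ℕ → X.N) (w x : ℕ), v w = X.om →
      ev X.mem X.eq (.real w x) v = X.vReal (v x) := fun v w x h => SM.val_real v w x h
  have h2 : ∀ x : X.N, ev X.mem X.eq (.real 2 0) (cons x (cons U fun _ => X.om)) = X.vReal x :=
    fun x => hr _ 2 0 rfl
  have h : X.vOpen U ≤ ⨅ x, X.mem x U ⇨ X.vReal x := by
    unfold SM.vOpen SM.val Fm.opn
    simp only [ev_and, ev_all, ev_imp, ev_ex, ev_mem]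
    refine inf_le_left.trans (le_of_eq ?_)
    refine iInf_congr fun x => ?_
    exact congrArg (fun a => X.mem x U ⇨ a) (h2 x)
  exact (inf_le_inf_right _ (h.trans (iInf_le _ x))).trans himp_inf_le

theorem vS_real (β : Ordinal.{0}) (A x : X.N) : vS X β A ⊓ X.mem x A ≤ X.vReal x := by
  by_cases h1 : β = 1
  · subst h1
    rw [vS_one]
    exact V1b_open_real X A x
  · by_cases h2 : 1 < β
    · rw [vS_gt X h2, iSup_inf_eq]
      refine iSup_le fun g => ?_
      have h3 : X.vSeq g ⊓ (vTm X β g ⊓ X.vUn A g) ⊓ X.mem x A ≤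
          vTm X β g ⊓ ⨆ k, ⨆ C, X.rl g (X.nat k) C ⊓ X.mem x C := by
        refine le_inf (inf_le_left.trans (inf_le_right.trans inf_le_left)) ?_
        exact (inf_le_inf_right _ (inf_le_right.trans inf_le_right)).trans (SM.vUn_mem A g x)
      refine h3.trans ?_
      rw [inf_iSup_eq]
      refine iSup_le fun k => ?_
      rw [inf_iSup_eq]
      refine iSup_le fun C => ?_
      have h4 : vTm X β g ⊓ X.rl g (X.nat k) C ≤ ⨆ γ : Set.Iio β, vP X γ.1 C := by
        rw [← le_himp_iff]
        unfold vTm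
        exact (iInf_le _ k).trans (iInf_le _ C)
      rw [← inf_assoc]
      refine (inf_le_inf_right _ h4).trans ?_
      rw [iSup_inf_eq]
      exact iSup_le fun γ => vP_real X γ.1 C x
    · rw [V1b_lt X _ h1 h2, bot_inf_eq]
      exact bot_le

end Pool.Agent.LibBd83
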