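import Pool.Agent.LibBd83.N2
import Pool.Agent.LibBd83.V1b
import Pool.Agent.LibBd83.S3

/-!
BD83 R1. Representation of sets of reals by subsets of `W × (ℕ → ℕ)`: elementary facts.

Plan. For `R` in `SG (RB MS) β` the set `{w | (w, f w) ∈ R}` is measurable (`SG.measurable`,
`measurable_of_mem_RB`, preimage under a measurable map). `compl`: `Rᶜ` (`SG.compl`, `cl_compl`), and
`b ⊓ xᶜ = b ⊓ (b ⊓ x)ᶜ` in a Boolean algebra. `iUnion`: `⋃ n, R n` (`SG.iUnion`, `cl_iUnion`,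
`inf_iSup_eq`). `inter_set`: `R ∩ (A ×ˢ univ)`, where `A ×ˢ univ ∈ RB MS` (`m = 0`, `U s = A`), `SG.inter`,
`SG.of_mem`, `SG.one_le`, `cl_inter`. `iSup` (countable mixing): by `exists_countable_sup` there is a
countable `s` with `⨆ i, b i ≤ ⨆ i : s, b i`; if `s` is empty the supremum is `⊥` and any `R` will do
(`univ`, `SG.of_mem`). Otherwise enumerate `s` (`i n`), let `b (i n) = cl (A n)` (`exists_cl`) and make
them disjoint: `A' n = A n \ ⋃ m < n, A m` (`disjointed`); let `R n` represent `φ` below `b (i n)` and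
`R = ⋃ n, R n ∩ (A' n ×ˢ univ)`. For each `f`, with `M n = {w | (w, f w) ∈ R n}`:
`(⨆ b) ⊓ φ = ⨆ n, cl (A' n) ⊓ φ = ⨆ n, cl (A' n) ⊓ cl (M n)` (`cl (A' n) ≤ b (i n)`), and
`{w | (w, f w) ∈ R} = ⋃ n, M n ∩ A' n`, so `(⨆ b) ⊓ cl {..} = ⨆ n, cl (A' n) ⊓ cl (M n)` too.
-/

namespace Pool.Agent.LibBd83

open MeasureTheory Set Filter Pool.Agent.LibTk83 Pool.Agent.LibBc83

variable {𝓕 : Filter ℕ} (X : SM MB (Gp 𝓕) (famD 𝓕))

/-- `R` in the class `Σ⁰_β` represents `φ` below `b`. -/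
def Rep (β : Ordinal.{0}) (φ : X.N → MB) (b : MB) : Prop :=
  ∃ R : Set (W × (ℕ → ℕ)), SG (RB MS) β R ∧
    ∀ f : SF, b ⊓ φ (nm X f) = b ⊓ cl {w | (w, f.1 w) ∈ R}

private theorem R1_bool {B : Type*} [BooleanAlgebra B] (b x : B) : b ⊓ (b ⊓ x)ᶜ = b ⊓ xᶜ := by
  rw [compl_inf, inf_sup_left, inf_compl_self, bot_sup_eq]

private theorem R1_inter {β : Ordinal.{0}} {A : Set W} (hA : MeasurableSet A)
    {R : Set (W × (ℕ → ℕ))} (hR : SG (RB MS) β R) : SG (RB MS) β (R ∩ {p | p.1 ∈ A}) := by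
  have alg : IsAlg (RB MS) := isAlg_RB isAlg_MS
  refine SG.inter alg hR (SG.of_mem alg ?_ hR.one_le)
  exact ⟨0, fun _ => A, fun _ => hA, rfl⟩

theorem meas_R {R : Set (W × (ℕ → ℕ))} {β : Ordinal.{0}} (hR : SG (RB MS) β R) (f : W → ℕ → ℕ)
    (hf : Measurable f) : MeasurableSet {w | (w, f w) ∈ R} := by
  have hm : MeasurableSet R := SG.measurable (fun D hD => measurable_of_mem_RB hD) hR
  exact (measurable_id.prodMk hf) hm

variable {X} {β β' : Ordinal.{0}} {φ ψ : X.N → MB} {b b' : MB}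

theorem Rep.anti (h : Rep X β φ b) (hb : b' ≤ b) : Rep X β φ b' := by
  obtain ⟨R, hR, h⟩ := h
  refine ⟨R, hR, fun f => ?_⟩
  rw [← inf_eq_left.2 hb, inf_assoc, inf_assoc, h f]

theorem Rep.congr (h : Rep X β φ b) (h' : ∀ f : SF, b ⊓ φ (nm X f) = b ⊓ ψ (nm X f)) :
    Rep X β ψ b := by
  obtain ⟨R, hR, h⟩ := h
  exact ⟨R, hR, fun f => (h' f).symm.trans (h f)⟩

theorem Rep.mono (h : Rep X β φ b) (hβ : β ≤ β') : Rep X β' φ b := by
  obtain ⟨R, hR, h⟩ := h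
  exact ⟨R, SG.mono (isAlg_RB isAlg_MS) hβ hR, h⟩

theorem Rep.compl (h : Rep X β φ b) (hβ : β < β') : Rep X β' (fun x => (φ x)ᶜ) b := by
  obtain ⟨R, hR, h⟩ := h
  refine ⟨Rᶜ, SG.compl hβ hR, fun f => ?_⟩
  have h1 : {w | (w, f.1 w) ∈ Rᶜ} = {w | (w, f.1 w) ∈ R}ᶜ := rfl
  rw [h1, cl_compl (meas_R hR f.1 f.2.1), ← R1_bool b (φ (nm X f)), h f, R1_bool]

theorem Rep.iUnion (φ : ℕ → X.N → MB) (h : ∀ n, Rep X β (φ n) b) :
    Rep X β (fun x => ⨆ n, φ n x) b := by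
  choose R hR h using h
  refine ⟨⋃ n, R n, SG.iUnion R hR, fun f => ?_⟩
  have h1 : {w | (w, f.1 w) ∈ ⋃ n, R n} = ⋃ n, {w | (w, f.1 w) ∈ R n} := by
    ext w
    simp
  rw [h1, cl_iUnion _ (fun n => meas_R (hR n) f.1 f.2.1), inf_iSup_eq, inf_iSup_eq]
  exact iSup_congr fun n => h n f

theorem Rep.iSup (h1 : 1 ≤ β) {ι : Type*} (b : ι → MB) (h : ∀ i, Rep X β φ (b i)) :
    Rep X β φ (⨆ i, b i) := by
  obtain ⟨s, hs, hsup⟩ := exists_countable_sup b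
  have alg : IsAlg (RB MS) := isAlg_RB isAlg_MS
  have heq : (⨆ i, b i) = ⨆ i : s, b i.1 :=
    le_antisymm hsup (iSup_le fun i => le_iSup b i.1)
  rcases s.eq_empty_or_nonempty with hne | hne
  · have h2 : (⨆ i, b i) = ⊥ := by
      rw [heq]
      subst hne
      exact iSup_of_empty _
    refine ⟨univ, SG.of_mem alg alg.univ h1, fun f => ?_⟩
    rw [h2, bot_inf_eq, bot_inf_eq]
  · obtain ⟨i, hi⟩ := hs.exists_eq_range hne
    have h3 : (⨆ i, b i) = ⨆ n, b (i n) := by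
      rw [heq]
      apply le_antisymm
      · refine iSup_le fun j => ?_
        have hj : j.1 ∈ range i := by
          rw [← hi]
          exact j.2
        obtain ⟨n, hn⟩ := hj
        rw [← hn]
        exact le_iSup (fun n => b (i n)) n
      · refine iSup_le fun n => ?_
        exact le_iSup (fun j : s => b j.1) ⟨i n, by rw [hi]; exact mem_range_self n⟩
    choose A hAm hA using fun n => exists_cl (b (i n))
    choose R hR hRep using fun n => h (i n)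
    refine ⟨⋃ n, (R n ∩ {p | p.1 ∈ A n}), SG.iUnion _ fun n => R1_inter (hAm n) (hR n),
      fun f => ?_⟩
    have h4 : {w | (w, f.1 w) ∈ ⋃ n, (R n ∩ {p | p.1 ∈ A n})} =
        ⋃ n, ({w | (w, f.1 w) ∈ R n} ∩ A n) := by
      ext w
      simp
    have h5 : cl {w | (w, f.1 w) ∈ ⋃ n, (R n ∩ {p | p.1 ∈ A n})} =
        (⨆ n, b (i n)) ⊓ φ (nm X f) := by
      rw [h4, cl_iUnion _ (fun n => (meas_R (hR n) f.1 f.2.1).inter (hAm n)), iSup_inf_eq]
      refine iSup_congr fun n => ?_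
      rw [cl_inter (meas_R (hR n) f.1 f.2.1) (hAm n), hA n, inf_comm, hRep n f]
    rw [h5, h3, ← inf_assoc, inf_idem]

theorem Rep.inter_set {A : Set W} (hA : MeasurableSet A) {R : Set (W × (ℕ → ℕ))}
    (hR : SG (RB MS) β R) : SG (RB MS) β (R ∩ {p | p.1 ∈ A}) := by
  exact R1_inter hA hR

end Pool.Agent.LibBd83
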