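import Pool.Agent.LibBd83.R1

/-!
BD83 R2. The sets in `Σ⁰_β` are represented.

Plan. `rep_open`: for each `s : List ℕ` let `U s` be measurable with
`cl (U s) = ⨅ y, X.vReal y ⊓ str (X.dig y) s ⇨ X.mem y A` (`exists_cl`), and
`R = ⋃ s, {p | p.1 ∈ U s ∧ seg p.2 s.length = s}` (each in `RB MS`: `m = s.length`, `U' t = U s` if
`t = s` and `∅` otherwise; `SG.iUnion_countable`). For `f : SF`:
`X.vOpen A ⊓ X.mem (nm X f) A ≤ ⨆ s, str (X.dig (nm X f)) s ⊓ cl (U s)` (`SM.open_str`), and
conversely `str (X.dig (nm X f)) s ⊓ cl (U s) ≤ X.mem (nm X f) A` (`iInf_le` at `nm X f`, `vReal_nm`);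
`str (X.dig (nm X f)) s ⊓ cl (U s) = cl {w | w ∈ U s ∧ seg (f w) s.length = s}` (`str_nm`, `cl_inter`),
`cl_iUnion`.
-/

namespace Pool.Agent.LibBd83

open MeasureTheory Set Filter Pool.Agent.LibTk83 Pool.Agent.LibBc83

variable {𝓕 : Filter ℕ} (X : SM MB (Gp 𝓕) (famD 𝓕))

theorem rep_open (A : X.N) : Rep X 1 (fun x => X.mem x A) (X.vOpen A) := by
  classical
  choose U hUm hU using fun s : List ℕ =>
    exists_cl (⨅ y', X.vReal y' ⊓ str (X.dig y') s ⇨ X.mem y' A)
  have halg : IsAlg (RB MS) := isAlg_RB isAlg_MS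
  refine ⟨⋃ s : List ℕ, {p | p.1 ∈ U s ∧ seg p.2 s.length = s}, ?_, fun f => ?_⟩
  · refine SG.iUnion_countable halg le_rfl _ fun s => SG.of_mem halg ?_ le_rfl
    refine ⟨s.length, fun t => if t = s then U s else ∅, fun t => ?_, ?_⟩
    · by_cases h : t = s
      · simp only [h, if_true]
        exact hUm s
      · simp only [h, if_false]
        exact (MeasurableSet.empty : MeasurableSet (∅ : Set W))
    · ext p
      by_cases h : seg p.2 s.length = s
      · simp [h]
      · simp [h]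
  · have hseg : ∀ s : List ℕ, MeasurableSet {w | seg (f.1 w) s.length = s} := fun s =>
      f.2.1 (measurableSet_seg s.length s)
    have hterm : ∀ s : List ℕ, str (X.dig (nm X f)) s ⊓ cl (U s) =
        cl ({w | seg (f.1 w) s.length = s} ∩ U s) := fun s => by
      rw [str_nm, cl_inter (hseg s) (hUm s)]
    have hset : {w | (w, f.1 w) ∈ ⋃ s : List ℕ, {p : W × (ℕ → ℕ) | p.1 ∈ U s ∧
        seg p.2 s.length = s}} = ⋃ s : List ℕ, ({w | seg (f.1 w) s.length = s} ∩ U s) := by
      ext w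
      simp only [mem_ofPred_eq, mem_iUnion, mem_inter_iff]
      exact exists_congr fun s => and_comm
    have hcl : cl {w | (w, f.1 w) ∈ ⋃ s : List ℕ, {p : W × (ℕ → ℕ) | p.1 ∈ U s ∧
        seg p.2 s.length = s}} = ⨆ s : List ℕ, str (X.dig (nm X f)) s ⊓ cl (U s) := by
      rw [hset, cl_iUnion _ fun s => (hseg s).inter (hUm s)]
      exact iSup_congr fun s => (hterm s).symm
    rw [hcl]
    refine le_antisymm (le_inf inf_le_left ?_) (le_inf inf_le_left ?_)
    · refine (SM.open_str A (nm X f)).trans (iSup_mono fun s => ?_)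
      rw [hU s]
    · refine inf_le_right.trans (iSup_le fun s => ?_)
      rw [hU s]
      refine (inf_le_inf_left _ (iInf_le _ (nm X f))).trans ?_
      rw [vReal_nm, top_inf_eq]
      exact inf_himp_le

end Pool.Agent.LibBd83
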