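import Pool.Agent.LibBd83.R2

/-!
BD83 R3. The sets in `Σ⁰_β` and `Π⁰_β` are represented.

Plan. `rep_vS`: strong induction on `β`. `β = 1`: `rep_open`, `vS_one`. `1 < β`: by `vS_gt` and `Rep.iSup` it is
enough to treat, for fixed `g`, `b = vSeq g ⊓ (vTm β g ⊓ vUn A g)`. Here
`b ⊓ mem x A = b ⊓ ⨆ n, inh g n x` (`SM.inh`; `SM.vUn_mem`, `SM.mem_of_vUn`), so by `Rep.congr` and
`Rep.iUnion` it is enough that `Rep X β (X.inh g n) b` for each `n`. Now `b ≤ ⨆ z, ⨆ γ, ⨆ c, b z γ c`,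
`b z γ c = b ⊓ rl g (nat n) z ⊓ (vS γ c ⊓ vCo z c)` (`SM.vSeq_ex`, `vTm`, `vP`); by `Rep.iSup`
(for the triples; then `Rep.anti`) it is enough that `Rep X β (X.inh g n) (b z γ c)`. By induction
`Rep X γ (fun x => X.mem x c) (vS X γ c)` (if `γ = 0` then `vS = ⊥` (`vS_zero`) and the claim is trivial:
`b z γ c = ⊥`, take `R = univ`); by `Rep.compl` (`γ < β`), `Rep X β (fun x => (X.mem x c)ᶜ) (vS X γ c)`;
below `b z γ c`, for `x = nm X f`: `inh g n x = mem x z` (`SM.vSeq_uniq`, `Ext.mem_right`) `= (mem x c)ᶜ`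
(`vCo_mem`, `vReal_nm`).
`rep_vP`: `Rep.iSup` over `c`, `rep_vS`, `vCo_mem`, `Rep.congr`, `Rep.anti`.
-/

namespace Pool.Agent.LibBd83

open MeasureTheory Set Filter Pool.Agent.LibTk83 Pool.Agent.LibBc83

variable {𝓕 : Filter ℕ} (X : SM MB (Gp 𝓕) (famD 𝓕))

private theorem R3_compl {a y z : MB} (h : a ⊓ y = a ⊓ zᶜ) : a ⊓ z = a ⊓ yᶜ := by
  have h1 : a ⊓ yᶜ = a ⊓ (a ⊓ y)ᶜ := by
    rw [compl_inf, inf_sup_left, inf_compl_eq_bot, bot_sup_eq]
  rw [h1, h, compl_inf, compl_compl, inf_sup_left, inf_compl_eq_bot, bot_sup_eq]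

private theorem R3_co {a : MB} (z c : X.N) (f : SF) (ha : a ≤ vCo X z c) :
    a ⊓ X.mem (nm X f) z = a ⊓ (X.mem (nm X f) c)ᶜ := by
  have h1 := vCo_mem X z c (nm X f)
  rw [vReal_nm, inf_top_eq] at h1
  calc a ⊓ X.mem (nm X f) z = a ⊓ (vCo X z c ⊓ X.mem (nm X f) z) := by
        rw [← inf_assoc, inf_eq_left.2 ha]
    _ = a ⊓ (X.mem (nm X f) c)ᶜ := by
        rw [h1, ← inf_assoc, inf_eq_left.2 ha]

private theorem R3_inh {a : MB} (g z x : X.N) (n : ℕ) (h1 : a ≤ X.vSeq g)
    (h2 : a ≤ X.rl g (X.nat n) z) : a ⊓ X.inh g n x = a ⊓ X.mem x z := by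
  apply le_antisymm
  · refine le_inf inf_le_left ?_
    unfold SM.inh
    rw [inf_iSup_eq]
    refine iSup_le fun U => ?_
    refine le_trans (le_inf ?_ ?_) (X.eqax.memr x U z)
    · refine le_trans (le_inf (le_inf ?_ ?_) ?_) (SM.vSeq_uniq g U z n)
      · exact inf_le_left.trans h1
      · exact inf_le_right.trans inf_le_left
      · exact inf_le_left.trans h2
    · exact inf_le_right.trans inf_le_right
  · refine le_inf inf_le_left ?_
    unfold SM.inh
    exact le_iSup_of_le z (inf_le_inf_right _ h2)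

theorem rep_vS (β : Ordinal.{0}) (h1 : 1 ≤ β) (A : X.N) :
    Rep X β (fun x => X.mem x A) (vS X β A) := by
  induction β using WellFoundedLT.induction generalizing A with
  | ind β ih =>
  rcases h1.eq_or_lt with h | h
  · subst h
    rw [vS_one]
    exact rep_open X A
  · rw [vS_gt X h]
    refine Rep.iSup h1 _ fun g => ?_
    set b := X.vSeq g ⊓ (vTm X β g ⊓ X.vUn A g) with hb
    have hb1 : b ≤ X.vSeq g := inf_le_left
    have hb2 : b ≤ vTm X β g := inf_le_right.trans inf_le_left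
    have hb3 : b ≤ X.vUn A g := inf_le_right.trans inf_le_right
    refine Rep.congr (Rep.iUnion (fun n x => X.inh g n x) fun n => ?_) fun f => ?_
    · have hle : b ≤ ⨆ t : X.N × Set.Iio β × X.N, b ⊓ X.rl g (X.nat n) t.1 ⊓
          (vS X t.2.1.1 t.2.2 ⊓ vCo X t.1 t.2.2) := by
        have h2 : b ≤ b ⊓ ⨆ z, X.rl g (X.nat n) z := le_inf le_rfl (hb1.trans (SM.vSeq_ex g n))
        refine h2.trans ?_
        rw [inf_iSup_eq]
        refine iSup_le fun z => ?_
        have h3 : b ⊓ X.rl g (X.nat n) z ≤ ⨆ γ : Set.Iio β, vP X γ.1 z := by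
          rw [← le_himp_iff]
          exact hb2.trans ((iInf_le _ n).trans (iInf_le _ z))
        have h4 : b ⊓ X.rl g (X.nat n) z ≤ b ⊓ X.rl g (X.nat n) z ⊓
            ⨆ γ : Set.Iio β, vP X γ.1 z := le_inf le_rfl h3
        refine h4.trans ?_
        rw [inf_iSup_eq]
        refine iSup_le fun γ => ?_
        unfold vP
        rw [inf_iSup_eq]
        exact iSup_le fun c => le_iSup_of_le (z, γ, c) le_rfl
      refine Rep.anti (Rep.iSup h1 _ fun t => ?_) hle
      obtain ⟨z, γ, c⟩ := t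
      dsimp only
      by_cases hγ : 1 ≤ γ.1
      · have h2 := (ih γ.1 γ.2 hγ c).compl γ.2
        have h3 := h2.anti (b' := b ⊓ X.rl g (X.nat n) z ⊓ (vS X γ.1 c ⊓ vCo X z c))
          (inf_le_right.trans inf_le_left)
        refine h3.congr fun f => ?_
        rw [R3_inh X g z (nm X f) n ((inf_le_left.trans inf_le_left).trans hb1)
          (inf_le_left.trans inf_le_right)]
        exact (R3_co X z c f (inf_le_right.trans inf_le_right)).symm
      · have h2 : γ.1 = 0 := Ordinal.lt_one_iff_zero.1 (not_le.1 hγ)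
        have h3 := Rep.iSup (X := X) (φ := fun x => X.inh g n x) h1 (fun _ : Empty => (⊥ : MB))
          fun i => i.elim
        refine h3.anti ?_
        rw [h2, vS_zero, bot_inf_eq, inf_bot_eq]
        exact bot_le
    · apply le_antisymm
      · refine le_inf inf_le_left ?_
        rw [inf_iSup_eq]
        refine iSup_le fun n => ?_
        unfold SM.inh
        rw [inf_iSup_eq]
        refine iSup_le fun C => ?_
        rw [← inf_assoc]
        exact (inf_le_inf_right _ (inf_le_inf_right _ hb3)).trans (SM.mem_of_vUn A g _ C n)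
      · refine le_inf inf_le_left ?_
        exact (inf_le_inf_right _ hb3).trans (SM.vUn_mem A g _)

theorem rep_vP (β : Ordinal.{0}) (h1 : 1 ≤ β) (A : X.N) :
    Rep X β (fun x => (X.mem x A)ᶜ) (vP X β A) := by
  unfold vP
  refine Rep.iSup h1 _ fun c => ?_
  refine ((rep_vS X β h1 c).anti inf_le_left).congr fun f => ?_
  exact R3_compl (R3_co X A c f inf_le_right)

end Pool.Agent.LibBd83
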