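import Pool.Agent.LibBd83.Def

/-!
BD83 S1. The classes `SG 𝓑 β`: elementary facts.

Plan. `zero`, `one_iff`, `gt_iff`: cases on the hypothesis (generalize the index: `SG 𝓑 β A` with
`hβ : β = 0` etc.; the other constructor is excluded by `1 < β`). `one_le`: cases. `mono`: if
`1 = β < β'`: `A = ⋃ f n` with `f n ∈ 𝓑`, and `f n = ((f n)ᶜ)ᶜ`, `(f n)ᶜ ∈ 𝓑`, so
`(f n)ᶜ = ⋃ _ : ℕ, (f n)ᶜ` is in `SG 𝓑 1`; if `1 < β ≤ β'` use `gt_iff`. `compl`: a constant sequence.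
`of_mem`: a constant sequence and `mono`. `iUnion`: choose the sequences for each `n` and reindex by
`Nat.unpair` (or `Nat.pairEquiv`, `iUnion_prod`-like lemmas). `iUnion_countable`: if `ι` is empty the
union is `∅ = univᶜ`, which is in `𝓑` (`of_mem`); otherwise take a surjection `ℕ → ι`
(`exists_surjective_nat`, `Function.Surjective.iUnion_comp`).
-/

namespace Pool.Agent.LibBd83

open Set

variable {X : Type*} {𝓑 : Set (Set X)} {β β' : Ordinal.{0}} {A A' : Set X}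

private theorem S1_ex (h : SG 𝓑 β A) :
    (β = 1 ∧ ∃ f : ℕ → Set X, (∀ n, f n ∈ 𝓑) ∧ A = ⋃ n, f n) ∨
    (1 < β ∧ ∃ (f : ℕ → Set X) (γ : ℕ → Ordinal.{0}),
      (∀ n, γ n < β) ∧ (∀ n, SG 𝓑 (γ n) (f n)) ∧ A = ⋃ n, (f n)ᶜ) := by
  cases h with
  | base f h => exact Or.inl ⟨rfl, f, h, rfl⟩
  | step β hβ f γ hγ h => exact Or.inr ⟨hβ, f, γ, hγ, h, rfl⟩

private theorem S1_unpair (g : ℕ → ℕ → Set X) :
    ⋃ n, ⋃ m, g n m = ⋃ k : ℕ, g k.unpair.1 k.unpair.2 := by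
  ext x
  simp only [mem_iUnion]
  constructor
  · rintro ⟨n, m, h⟩
    exact ⟨Nat.pair n m, by rw [Nat.unpair_pair]; exact h⟩
  · rintro ⟨k, h⟩
    exact ⟨_, _, h⟩

theorem SG.zero : ¬ SG 𝓑 0 A := by
  intro h
  rcases S1_ex h with ⟨h1, _⟩ | ⟨h1, _⟩
  · exact zero_ne_one h1
  · exact absurd (zero_lt_one.trans h1) (lt_irrefl _)

theorem SG.one_iff : SG 𝓑 1 A ↔ ∃ f : ℕ → Set X, (∀ n, f n ∈ 𝓑) ∧ A = ⋃ n, f n := by
  constructor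
  · intro h
    rcases S1_ex h with ⟨_, h1⟩ | ⟨h1, _⟩
    · exact h1
    · exact absurd h1 (lt_irrefl _)
  · rintro ⟨f, hf, rfl⟩
    exact SG.base f hf

theorem SG.gt_iff (hβ : 1 < β) : SG 𝓑 β A ↔ ∃ (f : ℕ → Set X) (γ : ℕ → Ordinal.{0}),
    (∀ n, γ n < β) ∧ (∀ n, SG 𝓑 (γ n) (f n)) ∧ A = ⋃ n, (f n)ᶜ := by
  constructor
  · intro h
    rcases S1_ex h with ⟨h1, _⟩ | ⟨_, h1⟩
    · exact absurd h1 hβ.ne'
    · exact h1
  · rintro ⟨f, γ, hγ, hf, rfl⟩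
    exact SG.step β hβ f γ hγ hf

theorem SG.one_le (h : SG 𝓑 β A) : 1 ≤ β := by
  rcases S1_ex h with ⟨h1, _⟩ | ⟨h1, _⟩
  · exact h1.ge
  · exact h1.le

theorem SG.mono (hB : IsAlg 𝓑) (h : β ≤ β') (hA : SG 𝓑 β A) : SG 𝓑 β' A := by
  rcases h.eq_or_lt with rfl | hlt
  · exact hA
  rcases S1_ex hA with ⟨h1, f, hf, rfl⟩ | ⟨h1, f, γ, hγ, hf, rfl⟩
  · subst h1
    have e : ⋃ n, f n = ⋃ n, ((fun n => (f n)ᶜ) n)ᶜ := by simp
    rw [e]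
    refine SG.step β' hlt (fun n => (f n)ᶜ) (fun _ => 1) (fun _ => hlt) fun n => ?_
    have e2 : (f n)ᶜ = ⋃ _ : ℕ, (f n)ᶜ := by rw [iUnion_const]
    show SG 𝓑 1 (f n)ᶜ
    rw [e2]
    exact SG.base (fun _ => (f n)ᶜ) fun _ => hB.compl _ (hf n)
  · exact SG.step β' (h1.trans hlt) f γ (fun n => (hγ n).trans hlt) hf

theorem SG.of_mem (hB : IsAlg 𝓑) (hA : A ∈ 𝓑) (hβ : 1 ≤ β) : SG 𝓑 β A := by
  refine SG.mono hB hβ ?_
  have e2 : A = ⋃ _ : ℕ, A := by rw [iUnion_const]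
  rw [e2]
  exact SG.base (fun _ => A) fun _ => hA

theorem SG.compl (h : β < β') (hA : SG 𝓑 β A) : SG 𝓑 β' Aᶜ := by
  have e2 : Aᶜ = ⋃ _ : ℕ, Aᶜ := by rw [iUnion_const]
  rw [e2]
  exact SG.step β' ((SG.one_le hA).trans_lt h) (fun _ => A) (fun _ => β) (fun _ => h) fun _ => hA

theorem SG.iUnion (f : ℕ → Set X) (h : ∀ n, SG 𝓑 β (f n)) : SG 𝓑 β (⋃ n, f n) := by
  rcases (SG.one_le (h 0)).eq_or_lt with h1 | h1
  · subst h1
    have h2 : ∀ n, ∃ g : ℕ → Set X, (∀ m, g m ∈ 𝓑) ∧ f n = ⋃ m, g m := fun n =>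
      SG.one_iff.1 (h n)
    choose g hg hfg using h2
    have e : ⋃ n, f n = ⋃ k : ℕ, g k.unpair.1 k.unpair.2 := by
      rw [← S1_unpair]
      exact iUnion_congr hfg
    rw [e]
    exact SG.base _ fun k => hg _ _
  · have h2 : ∀ n, ∃ (g : ℕ → Set X) (γ : ℕ → Ordinal.{0}),
        (∀ m, γ m < β) ∧ (∀ m, SG 𝓑 (γ m) (g m)) ∧ f n = ⋃ m, (g m)ᶜ := fun n =>
      (SG.gt_iff h1).1 (h n)
    choose g γ hγ hg hfg using h2
    have e : ⋃ n, f n = ⋃ k : ℕ, (g k.unpair.1 k.unpair.2)ᶜ := by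
      rw [← S1_unpair fun n m => (g n m)ᶜ]
      exact iUnion_congr hfg
    rw [e]
    exact SG.step β h1 (fun k => g k.unpair.1 k.unpair.2) (fun k => γ k.unpair.1 k.unpair.2)
      (fun k => hγ _ _) fun k => hg _ _

theorem SG.iUnion_countable (hB : IsAlg 𝓑) (hβ : 1 ≤ β) {ι : Type*} [Countable ι]
    (f : ι → Set X) (h : ∀ i, SG 𝓑 β (f i)) : SG 𝓑 β (⋃ i, f i) := by
  rcases isEmpty_or_nonempty ι with hι | hι
  · rw [iUnion_of_empty]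
    refine SG.of_mem hB ?_ hβ
    have := hB.compl _ hB.univ
    rwa [compl_univ] at this
  · obtain ⟨g, hg⟩ := exists_surjective_nat ι
    rw [← hg.iUnion_comp f]
    exact SG.iUnion _ fun n => h (g n)

theorem SG.alg_mono {𝓑' : Set (Set X)} (h : 𝓑 ⊆ 𝓑') (hA : SG 𝓑 β A) : SG 𝓑' β A := by
  induction hA with
  | base f hf => exact SG.base f fun n => h (hf n)
  | step β hβ f γ hγ _ ih => exact SG.step β hβ f γ hγ ih

end Pool.Agent.LibBd83
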