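import Pool.Agent.LibBd83.S1

/-!
BD83 S2. The classes `SG 𝓑 β` are closed under finite unions and intersections; preimages;
measurability.

Plan. `union`: `SG.iUnion_countable` with `ι = Bool` (or `ℕ` and a sequence `A, A', A', ...`).
`inter`: for `β = 1`: `(⋃ f n) ∩ (⋃ f' m) = ⋃ (n, m), f n ∩ f' m` and `𝓑` is closed under
intersections; for `1 < β`: `(⋃ (f n)ᶜ) ∩ (⋃ (f' m)ᶜ) = ⋃ (n, m), (f n ∪ f' m)ᶜ`; `f n` and `f' m` are in
the class of `max (γ n) (γ' m) < β` (`mono`), so `f n ∪ f' m` is (`union`). Reindex by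
`Nat.unpair`. `iInter_lt`: induction on `N`; for `N = 0` the set is `univ` (`of_mem`).
`preimage`: induction on `hA`: `g ⁻¹' (⋃ f n) = ⋃ g ⁻¹' (f n)`, `SG.iUnion`;
`g ⁻¹' (⋃ (f n)ᶜ) = ⋃ (g ⁻¹' (f n))ᶜ`, constructor `step`. `measurable`: induction.
-/

namespace Pool.Agent.LibBd83

open Set

variable {X Y : Type*} {𝓑 : Set (Set X)} {𝓒 : Set (Set Y)} {β β' : Ordinal.{0}} {A A' : Set X}

theorem SG.union (hB : IsAlg 𝓑) (hA : SG 𝓑 β A) (hA' : SG 𝓑 β A') : SG 𝓑 β (A ∪ A') := by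
  have h1 : A ∪ A' = ⋃ b : Bool, cond b A A' := Set.union_eq_iUnion
  rw [h1]
  apply SG.iUnion_countable hB hA.one_le
  intro b
  cases b
  · exact hA'
  · exact hA

theorem SG.inter (hB : IsAlg 𝓑) (hA : SG 𝓑 β A) (hA' : SG 𝓑 β A') : SG 𝓑 β (A ∩ A') := by
  rcases hA.one_le.eq_or_lt with hβ | hβ
  · subst hβ
    obtain ⟨f, hf, rfl⟩ := SG.one_iff.1 hA
    obtain ⟨f', hf', rfl⟩ := SG.one_iff.1 hA'
    have h1 : (⋃ n, f n) ∩ (⋃ n, f' n) = ⋃ p : ℕ × ℕ, f p.1 ∩ f' p.2 := by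
      ext x
      simp only [Set.mem_inter_iff, Set.mem_iUnion, Prod.exists]
      constructor
      · rintro ⟨⟨n, hn⟩, m, hm⟩
        exact ⟨n, m, hn, hm⟩
      · rintro ⟨n, m, hn, hm⟩
        exact ⟨⟨n, hn⟩, m, hm⟩
    rw [h1]
    exact SG.iUnion_countable hB le_rfl _ fun p => SG.of_mem hB (hB.inter _ (hf _) _ (hf' _)) le_rfl
  · obtain ⟨f, γ, hγ, hf, rfl⟩ := (SG.gt_iff hβ).1 hA
    obtain ⟨f', γ', hγ', hf', rfl⟩ := (SG.gt_iff hβ).1 hA'
    have h1 : (⋃ n, (f n)ᶜ) ∩ (⋃ n, (f' n)ᶜ) = ⋃ p : ℕ × ℕ, (f p.1 ∪ f' p.2)ᶜ := by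
      ext x
      simp only [Set.mem_inter_iff, Set.mem_iUnion, Prod.exists, Set.mem_compl_iff, Set.mem_union, not_or]
      constructor
      · rintro ⟨⟨n, hn⟩, m, hm⟩
        exact ⟨n, m, hn, hm⟩
      · rintro ⟨n, m, hn, hm⟩
        exact ⟨⟨n, hn⟩, m, hm⟩
    rw [h1]
    refine SG.iUnion_countable hB hβ.le _ fun p => ?_
    refine SG.compl (β := max (γ p.1) (γ' p.2)) (max_lt (hγ _) (hγ' _)) ?_
    exact SG.union hB (SG.mono hB (le_max_left _ _) (hf _)) (SG.mono hB (le_max_right _ _) (hf' _))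

theorem SG.iInter_lt (hB : IsAlg 𝓑) (hβ : 1 ≤ β) (N : ℕ) (f : ℕ → Set X)
    (h : ∀ n, n < N → SG 𝓑 β (f n)) : SG 𝓑 β (⋂ n, ⋂ (_ : n < N), f n) := by
  induction N with
  | zero =>
    have h1 : (⋂ n, ⋂ (_ : n < 0), f n) = Set.univ := by simp
    rw [h1]
    exact SG.of_mem hB hB.univ hβ
  | succ N ih =>
    have h1 : (⋂ n, ⋂ (_ : n < N + 1), f n) = (⋂ n, ⋂ (_ : n < N), f n) ∩ f N := by
      ext x
      simp only [Set.mem_inter_iff, Set.mem_iInter]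
      constructor
      · intro hx
        exact ⟨fun n hn => hx n (by omega), hx N (by omega)⟩
      · rintro ⟨h2, h3⟩ n hn
        rcases Nat.lt_succ_iff_lt_or_eq.1 hn with h4 | h4
        · exact h2 n h4
        · rw [h4]
          exact h3
    rw [h1]
    exact SG.inter hB (ih fun n hn => h n (by omega)) (h N (by omega))

theorem SG.preimage (g : X → Y) (h : ∀ D ∈ 𝓒, SG 𝓑 1 (g ⁻¹' D)) {D : Set Y} (hD : SG 𝓒 β D) :
    SG 𝓑 β (g ⁻¹' D) := by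
  induction hD with
  | base f hf =>
    rw [Set.preimage_iUnion]
    exact SG.iUnion _ fun n => h _ (hf n)
  | step β hβ f γ hγ hf ih =>
    rw [Set.preimage_iUnion]
    exact SG.step β hβ (fun n => g ⁻¹' f n) γ hγ ih

theorem SG.measurable [MeasurableSpace X] (h : ∀ D ∈ 𝓑, MeasurableSet D) (hA : SG 𝓑 β A) :
    MeasurableSet A := by
  induction hA with
  | base f hf => exact MeasurableSet.iUnion fun n => h _ (hf n)
  | step β hβ f γ hγ hf ih => exact MeasurableSet.iUnion fun n => (ih n).compl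

end Pool.Agent.LibBd83
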