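import Pool.Agent.LibBd83.R3
import Pool.Agent.LibBd83.K5

/-!
Definition: each nonempty set of a class has a member with the same support.
-/

namespace Pool.Agent.LibBd83

open MeasureTheory Set Filter Pool.Agent.LibTk83 Pool.Agent.LibBc83

/-- `φ`, or its complement. -/
noncomputable def sgn (s : Bool) {N : Type 1} (φ : N → MB) : N → MB := fun x => if s then φ x else (φ x)ᶜ

/-- If a set with the support `F₀`, in the class `Σ⁰_α` (`s = true`) or `Π⁰_α` (`s = false`), has no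
member with the support `F₀`, then it is empty. -/
def Small (𝓕 : Filter ℕ) (s : Bool) (α : Ordinal.{0}) : Prop :=
  ∀ (X : SM MB (Gp 𝓕) (famD 𝓕)) (F₀ : Set ℕ), F₀.Finite → ∀ φ : X.N → MB, X.Ext φ →
    X.Inv (fixS 𝓕 F₀) φ → ∀ b : MB, (∀ γ ∈ fixS 𝓕 F₀, γ • b = b) → Rep X α (sgn s φ) b →
    (∀ f : SF, Dp (cs F₀) f.1 → b ⊓ φ (nm X f) = ⊥) → ∀ f : SF, b ⊓ φ (nm X f) = ⊥

end Pool.Agent.LibBd83
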