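import Pool.Agent.LibBd83.T0

/-!
BD83 T1. Invariance of the representing set.

Plan. Let `f`, `γ` be as in `InvR`; `f' : SF` is `⟨f, _⟩` (`F₀ ∪ F'` is finite) and `γ' = ⟨γ, _⟩ : Gp 𝓕`, in
`fixS 𝓕 F₀` because `F₀` and `F'` are disjoint. For `g = trf γ' f'`:
`cl {w | (w, g w) ∈ R} = b ⊓ φ (nm X g)`, `φ (nm X g) = φ (X.act γ' (nm X f')) = γ' • φ (nm X f')`
(`act_nm`, `SM.Ext.congr`, `hi`), so it is `γ' • (b ⊓ φ (nm X f')) = γ' • cl {w | (w, f w) ∈ R} =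
cl {w | (tr γ w, f (tr γ w)) ∈ R}` (`smul_inf'`, `hb`, `smul_cl`), and `g w = f (tr γ w)`. So
(`cl_eq_iff`) for almost all `w`: `(w, f (tr γ w)) ∈ R ↔ (tr γ w, f (tr γ w)) ∈ R`. Replace `w` by
`tr γ w` (`(mp_tr γ).quasiMeasurePreserving.ae`, `tr_tr`): for almost all `w`:
`(tr γ w, f w) ∈ R ↔ (w, f w) ∈ R`.
-/

namespace Pool.Agent.LibBd83

open MeasureTheory Set Filter Pool.Agent.LibTk83 Pool.Agent.LibBc83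

theorem invR_of {𝓕 : Filter ℕ} (X : SM MB (Gp 𝓕) (famD 𝓕)) {F₀ F' : Set ℕ} (hF₀ : F₀.Finite)
    (hF' : F'.Finite) (hd : ∀ i ∈ F', i ∉ F₀) (φ : X.N → MB) (hφ : X.Ext φ)
    (hi : X.Inv (fixS 𝓕 F₀) φ) (b : MB) (hb : ∀ γ ∈ fixS 𝓕 F₀, γ • b = b)
    (R : Set (W × (ℕ → ℕ))) (hR : MeasurableSet R)
    (h : ∀ f : SF, cl {w | (w, f.1 w) ∈ R} = b ⊓ φ (nm X f)) : InvR 𝓕 F₀ F' R := by
  intro f hf hdf γ hγ hγ'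
  obtain ⟨f', hf'⟩ : ∃ f' : SF, f'.1 = f := ⟨⟨f, hf, F₀ ∪ F', hF₀.union hF', hdf⟩, rfl⟩
  obtain ⟨γ', hγe⟩ : ∃ γ' : Gp 𝓕, γ'.1 = γ := ⟨⟨γ, hγ'⟩, rfl⟩
  have hγS : γ' ∈ fixS 𝓕 F₀ := by
    intro c hc
    rw [hγe]
    exact hγ c fun hc' => hd c.1 hc' hc
  have hM : MeasurableSet {w | (w, f'.1 w) ∈ R} :=
    (measurable_id.prodMk f'.2.1) hR
  have hM' : MeasurableSet {w | (w, (trf γ' f').1 w) ∈ R} :=
    (measurable_id.prodMk (trf γ' f').2.1) hR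
  have h1 : φ (nm X (trf γ' f')) = γ' • φ (nm X f') := by
    rw [← hi γ' hγS]
    exact (hφ.congr (act_nm X γ' f')).symm
  have h2 : cl {w | (w, (trf γ' f').1 w) ∈ R} = cl (tr γ'.1 ⁻¹' {w | (w, f'.1 w) ∈ R}) := by
    rw [h, h1, ← smul_cl γ' hM, h, smul_inf', hb γ' hγS]
  rw [cl_eq_iff hM' (measurable_tr γ'.1 hM)] at h2
  have h3 := (mp_tr γ'.1).quasiMeasurePreserving.ae h2
  filter_upwards [h3] with w hw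
  change ((tr γ'.1 w, f'.1 (tr γ'.1 (tr γ'.1 w))) ∈ R ↔
    (tr γ'.1 (tr γ'.1 w), f'.1 (tr γ'.1 (tr γ'.1 w))) ∈ R) at hw
  rw [tr_tr, hf', hγe] at hw
  exact hw.symm

end Pool.Agent.LibBd83
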