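import Pool.Agent.LibBd83.T0
import Pool.Agent.LibBc83.RG

/-!
BD83 T3. Among the symmetric functions with a given support there is one for which the truth value
of `φ` is greatest.

Plan. By `SM.mix` for `S = fixS 𝓕 F₀` (`fixS_mem`) there is `x : ℕ → ℕ → MB`, fixed by `S`, with
`φ (X.rn y _) ≤ φ (X.rn x _)` for all `y` fixed by `S`. Let `f` be given by `exists_sf` for `Y = x`. Then
`b ⊓ φ (rn x) ≤ vReal (rn x) = realV x ≤ eq (rn x) (nm f)` (`hreal`, `SM.vReal_rn`, `SM.rn_le_eq`), so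
`b ⊓ φ (rn x) ≤ φ (nm f)` (`hφ`). For `f' : SF` with `Dp (cs F₀) f'.1`: `φ (nm f') ≤ φ (rn x)`
(`nm f'` is `rn (fB f')`, fixed by `fix_fB`).
-/

namespace Pool.Agent.LibBd83

open MeasureTheory Set Filter Pool.Agent.LibTk83 Pool.Agent.LibBc83

variable {𝓕 : Filter ℕ} (h𝓕 : 𝓕 ≤ cofinite) (X : SM MB (Gp 𝓕) (famD 𝓕))

include h𝓕

theorem exists_max {F₀ : Set ℕ} (hF₀ : F₀.Finite) (φ : X.N → MB) (hφ : X.Ext φ)
    (hi : X.Inv (fixS 𝓕 F₀) φ) (b : MB) (hreal : ∀ x, b ⊓ φ x ≤ X.vReal x) :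
    ∃ f : SF, Dp (cs F₀) f.1 ∧ ∀ f' : SF, Dp (cs F₀) f'.1 → b ⊓ φ (nm X f') ≤ φ (nm X f) := by
  have hS : fixS 𝓕 F₀ ∈ famD 𝓕 := fixS_mem hF₀
  obtain ⟨x, hx, hmax⟩ := X.mix hS hφ hi
  obtain ⟨f, hf, hY⟩ := exists_sf h𝓕 hF₀ x hx
  have hsx : SM.SymF (famD 𝓕) x := ⟨_, hS, hx⟩
  have h1 : b ⊓ φ (X.rn x hsx) ≤ X.eq (X.rn x hsx) (nm X f) := by
    refine (hreal _).trans ?_
    rw [X.vReal_rn]
    exact (le_iInf fun n => le_iInf fun m => hY n m).trans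
      (X.rn_le_eq x (fB f.1) hsx (symF_sf f))
  have h2 : b ⊓ φ (X.rn x hsx) ≤ φ (nm X f) := (le_inf h1 inf_le_right).trans (hφ _ _)
  refine ⟨f, hf, fun f' hf' => ?_⟩
  have h3 : φ (nm X f') ≤ φ (X.rn x hsx) :=
    hmax (fB f'.1) (fun γ hγ n m => fix_fB f'.2.1 hf' γ hγ n m)
  exact (inf_le_inf_left b h3).trans h2

end Pool.Agent.LibBd83
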