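import Pool.Agent.LibBd83.T3

/-!
BD83 T3b. Members with the given support, in the case that the class is only known up to a choice
of cases.

Plan. Let `f` be given by `exists_max` (`T3.lean`). Claim: `d = b ⊓ (φ (nm f))ᶜ` is `⊥`. `d` is fixed by
`fixS 𝓕 F₀` (`smul_inf'`, `smul_compl'`, `SM.Inv.of_supp` with `supp_nm`). For `f' : SF` with
`Dp (cs F₀) f'.1`: `b ⊓ φ (nm f') ≤ φ (nm f)`, so `d ⊓ φ (nm f') = ⊥`. For each `i`, `Small` applied to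
`d ⊓ c i` (`Rep.anti`) gives `d ⊓ c i ⊓ φ (nm f') = ⊥` for all `f' : SF`; since `d ≤ ⨆ i, c i`,
`d ⊓ φ (nm f') = ⊥` for all `f'`. By `le_iSup_nm` and `hreal`, `d ⊓ φ x = ⊥` for all names `x`, and
`d ≤ ⨆ x, φ x`.
-/

namespace Pool.Agent.LibBd83

open MeasureTheory Set Filter Pool.Agent.LibTk83 Pool.Agent.LibBc83

variable {𝓕 : Filter ℕ} (h𝓕 : 𝓕 ≤ cofinite) (X : SM MB (Gp 𝓕) (famD 𝓕))

include h𝓕

theorem exists_small {F₀ : Set ℕ} (hF₀ : F₀.Finite) (φ : X.N → MB) (hφ : X.Ext φ)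
    (hi : X.Inv (fixS 𝓕 F₀) φ) (b : MB) (hb : ∀ γ ∈ fixS 𝓕 F₀, γ • b = b) {ι : Type*}
    (s : ι → Bool) (α : ι → Ordinal.{0}) (hs : ∀ i, Small 𝓕 (s i) (α i)) (c : ι → MB)
    (hc : ∀ i, ∀ γ ∈ fixS 𝓕 F₀, γ • c i = c i) (hrep : ∀ i, Rep X (α i) (sgn (s i) φ) (c i))
    (hbc : b ≤ ⨆ i, c i) (hreal : ∀ x, b ⊓ φ x ≤ X.vReal x) (hne : b ≤ ⨆ x, φ x) :
    ∃ f : SF, Dp (cs F₀) f.1 ∧ b ≤ φ (nm X f) := by
  obtain ⟨f, hf, hmax⟩ := exists_max h𝓕 X hF₀ φ hφ hi b hreal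
  refine ⟨f, hf, ?_⟩
  have hd : ∀ γ ∈ fixS 𝓕 F₀, γ • (b ⊓ (φ (nm X f))ᶜ) = b ⊓ (φ (nm X f))ᶜ := by
    intro γ hγ
    rw [smul_inf', hb γ hγ, smul_compl', SM.Inv.of_supp hi hφ (supp_nm X f hf) hγ]
  generalize hdd : b ⊓ (φ (nm X f))ᶜ = d at hd
  have hdb : d ≤ b := hdd ▸ inf_le_left
  have hdf : d ≤ (φ (nm X f))ᶜ := hdd ▸ inf_le_right
  have h1 : ∀ f' : SF, Dp (cs F₀) f'.1 → d ⊓ φ (nm X f') = ⊥ := by
    intro f' hf'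
    rw [← le_bot_iff]
    calc d ⊓ φ (nm X f') ≤ (φ (nm X f))ᶜ ⊓ φ (nm X f) :=
          le_inf (inf_le_left.trans hdf) ((inf_le_inf_right _ hdb).trans (hmax f' hf'))
      _ ≤ ⊥ := by rw [compl_inf_eq_bot]
  have h2 : ∀ i, ∀ f' : SF, d ⊓ c i ⊓ φ (nm X f') = ⊥ := by
    intro i
    refine hs i X F₀ hF₀ φ hφ hi (d ⊓ c i) ?_ ((hrep i).anti inf_le_right) ?_
    · intro γ hγ
      rw [smul_inf', hd γ hγ, hc i γ hγ]
    · intro f' hf'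
      rw [← le_bot_iff, ← h1 f' hf']
      exact inf_le_inf_right _ inf_le_left
  have h3 : ∀ f' : SF, d ⊓ φ (nm X f') = ⊥ := by
    intro f'
    rw [← le_bot_iff]
    calc d ⊓ φ (nm X f') ≤ (d ⊓ ⨆ i, c i) ⊓ φ (nm X f') :=
          inf_le_inf_right _ (le_inf le_rfl (hdb.trans hbc))
      _ = ⨆ i, d ⊓ c i ⊓ φ (nm X f') := by rw [inf_iSup_eq, iSup_inf_eq]
      _ ≤ ⊥ := iSup_le fun i => (h2 i f').le
  have h4 : ∀ x, d ⊓ φ x = ⊥ := by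
    intro x
    rw [← le_bot_iff]
    calc d ⊓ φ x ≤ d ⊓ (X.vReal x ⊓ φ x) :=
          le_inf inf_le_left (le_inf ((inf_le_inf_right _ hdb).trans (hreal x)) inf_le_right)
      _ ≤ d ⊓ ⨆ f' : SF, X.eq x (nm X f') ⊓ φ (nm X f') :=
          inf_le_inf_left _ (le_iSup_nm h𝓕 X φ hφ x)
      _ = ⨆ f' : SF, d ⊓ (X.eq x (nm X f') ⊓ φ (nm X f')) := inf_iSup_eq _ _
      _ ≤ ⊥ := iSup_le fun f' => by
          rw [← h3 f']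
          exact inf_le_inf_left _ inf_le_right
  have h5 : d = ⊥ := by
    rw [← le_bot_iff]
    calc d ≤ d ⊓ ⨆ x, φ x := le_inf le_rfl (hdb.trans hne)
      _ = ⨆ x, d ⊓ φ x := inf_iSup_eq _ _
      _ ≤ ⊥ := iSup_le fun x => (h4 x).le
  rw [← disjoint_compl_right_iff, disjoint_iff, hdd, h5]

end Pool.Agent.LibBd83
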