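import Pool.Agent.LibBd83.T3b

/-!
BD83 T4. Members with the same support for the terms of a sequence.

Plan. Let `F` be a finite set of blocks with `X.Supp (fixS 𝓕 F) t` (`X.supp t`, `famD`). Fix `n` and apply
`exists_small` with `φ = X.inh t n` (`SM.ext_inh`; `X.Inv`: `SM.inh_act` and the support of `t`, as in
`SM.nbh_supp`; `φ (act g x) = inh (act g t) n (act g x)` up to `eq t (act g t) = ⊤`),
`b = X.vSeq t ⊓ hypV X V t n`, `c i = X.vSeq t ⊓ ⨆ A, rl t (nat n) A ⊓ vC X (s i) (α i) A`.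
`b` and `c i` are fixed by `fixS 𝓕 F` (`SM.vSeq_act`, reindex `⨆ A` by the action: `SM.act_surj`,
`SM.rl_act`, `SM.supp_nat`, `vS_act`, `vP_act`, `SM.mem_act`; or: `b` is the value at `t` of an
`Ext` predicate `t ↦ ..` with `φ (act g t) = g • φ t`). `hrep`: `Rep.iSup` over `A`; for each `A` `rep_vS`
or `rep_vP`, `Rep.anti`, and below `vSeq t ⊓ rl t (nat n) A`, `inh t n x = mem x A` (`SM.vSeq_uniq`,
`Rep.congr`). `hreal`: `vS_real`, `vP_real`, `SM.vSeq_uniq`. `hne`: immediate. `vC_real`, `ext_vC`,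
`vC_act`: by cases on `s`.
-/

namespace Pool.Agent.LibBd83

open MeasureTheory Set Filter Pool.Agent.LibTk83 Pool.Agent.LibBc83

section

variable {B : Type} [CompleteBooleanAlgebra B] {G : Type} [Group G] [MulAction G B]
  [OrdAct G B] {Fam : Set (Set G)} (X : SM B G Fam)

/-- The truth value of: the `n`-th term of `t` is a nonempty set with the property `V`. -/
noncomputable def hypV (V : X.N → B) (t : X.N) (n : ℕ) : B :=
  ⨆ A, X.rl t (X.nat n) A ⊓ ((⨆ x, X.mem x A) ⊓ V A)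

theorem ext_vC (s : Bool) (β : Ordinal.{0}) : X.Ext (vC X s β) := by
  cases s
  · exact ext_vP X β
  · exact ext_vS X β

theorem vC_act (s : Bool) (β : Ordinal.{0}) (g : G) (A : X.N) :
    vC X s β (X.act g A) = g • vC X s β A := by
  cases s
  · exact vP_act X β g A
  · exact vS_act X β g A

theorem vC_real (s : Bool) (β : Ordinal.{0}) (A x : X.N) :
    vC X s β A ⊓ X.mem x A ≤ X.vReal x := by
  cases s
  · exact vP_real X β A x
  · exact vS_real X β A x

private theorem T4_rl_nat (g : G) (t A : X.N) (n : ℕ) :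
    X.rl (X.act g t) (X.nat n) (X.act g A) = g • X.rl t (X.nat n) A := by
  rw [← X.rl_act]
  exact ((X.ext_rl_mid (X.act g t) (X.act g A)).congr
    (X.supp_nat Set.univ n g (Set.mem_univ g))).symm

/-- A supremum over all names which is compatible with the action. -/
private theorem T4_iSup_act (g : G) (φ ψ : X.N → B) (h : ∀ A, φ (X.act g A) = g • ψ A) :
    (⨆ A, φ A) = g • ⨆ A, ψ A := by
  rw [smul_iSup']
  apply le_antisymm
  · refine iSup_le fun A => ?_
    obtain ⟨A', rfl⟩ := SM.act_surj (X := X) g A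
    rw [h]
    exact le_iSup (fun A => g • ψ A) A'
  · refine iSup_le fun A => ?_
    rw [← h]
    exact le_iSup φ (X.act g A)

omit [OrdAct G B] in
private theorem T4_fix {S : Set G} {t : X.N} (ht : X.Supp S t) (φ : X.N → B) (hφ : X.Ext φ)
    (ha : ∀ g x, φ (X.act g x) = g • φ x) (g : G) (hg : g ∈ S) : g • φ t = φ t := by
  rw [← ha]
  exact hφ.congr (ht g hg)

private theorem T4_ext_hyp (V : X.N → B) (n : ℕ) :
    X.Ext (fun t => ⨆ A, X.rl t (X.nat n) A ⊓ V A) :=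
  SM.Ext.iSup fun A => SM.Ext.inf (X.ext_rl_left (X.nat n) A) (SM.Ext.const _)

private theorem T4_hyp_act (V : X.N → B) (hV : ∀ g A, V (X.act g A) = g • V A) (n : ℕ) (g : G)
    (t : X.N) : (⨆ A, X.rl (X.act g t) (X.nat n) A ⊓ V A) =
      g • ⨆ A, X.rl t (X.nat n) A ⊓ V A := by
  refine T4_iSup_act X g _ _ fun A => ?_
  rw [smul_inf', hV, T4_rl_nat]

private theorem T4_ne_act (g : G) (A : X.N) :
    (⨆ x, X.mem x (X.act g A)) = g • ⨆ x, X.mem x A :=
  T4_iSup_act X g _ _ fun x => X.mem_act g x A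

private theorem T4_inv_inh {S : Set G} {t : X.N} (ht : X.Supp S t) (n : ℕ) :
    X.Inv S (X.inh t n) := by
  intro g hg x
  rw [← X.inh_act]
  have h1 : X.Ext (fun h => X.inh h n (X.act g x)) := by
    unfold SM.inh
    exact SM.Ext.iSup fun U => SM.Ext.inf (X.ext_rl_left (X.nat n) U) (SM.Ext.const _)
  exact (h1.congr (ht g hg)).symm

private theorem T4_inh_eq (t A x : X.N) (n : ℕ) :
    X.vSeq t ⊓ X.rl t (X.nat n) A ⊓ X.inh t n x = X.vSeq t ⊓ X.rl t (X.nat n) A ⊓ X.mem x A := by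
  apply le_antisymm
  · refine le_inf inf_le_left ?_
    unfold SM.inh
    rw [inf_iSup_eq]
    refine iSup_le fun U => ?_
    rw [← inf_assoc]
    refine (inf_le_inf_right _ (X.vSeq_uniq t A U n)).trans ?_
    rw [X.eqax.symm]
    exact X.eqax.memr _ _ _
  · refine le_inf inf_le_left ?_
    unfold SM.inh
    refine le_trans ?_ (le_iSup _ A)
    exact inf_le_inf_right _ inf_le_right

end

variable {𝓕 : Filter ℕ} (h𝓕 : 𝓕 ≤ cofinite) (X : SM MB (Gp 𝓕) (famD 𝓕))

include h𝓕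

theorem exists_choice {ι : Type*} (s : ι → Bool) (α : ι → Ordinal.{0}) (h1 : ∀ i, 1 ≤ α i)
    (hs : ∀ i, Small 𝓕 (s i) (α i)) (t : X.N) :
    ∃ F : Set ℕ, F.Finite ∧ ∀ n, ∃ f : SF, Dp (cs F) f.1 ∧
      X.vSeq t ⊓ hypV X (fun A => ⨆ i, vC X (s i) (α i) A) t n ≤ X.inh t n (nm X f) := by
  obtain ⟨S, ⟨F, hF, rfl⟩, hsupp⟩ := X.supp t
  have ht : X.Supp (fixS 𝓕 F) t := hsupp
  refine ⟨F, hF, fun n => ?_⟩
  have hseq : ∀ γ ∈ fixS 𝓕 F, γ • X.vSeq t = X.vSeq t := fun γ hγ =>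
    T4_fix X ht X.vSeq X.ext_vSeq (fun g x => X.vSeq_act g x) γ hγ
  refine exists_small h𝓕 X hF (X.inh t n) (X.ext_inh t n) (T4_inv_inh X ht n)
    (X.vSeq t ⊓ hypV X (fun A => ⨆ i, vC X (s i) (α i) A) t n) ?_ s α hs
    (fun i => X.vSeq t ⊓ ⨆ A, X.rl t (X.nat n) A ⊓ vC X (s i) (α i) A) ?_ ?_ ?_ ?_ ?_
  · intro γ hγ
    rw [smul_inf', hseq γ hγ]
    congr 1
    refine T4_fix X ht (fun t => hypV X (fun A => ⨆ i, vC X (s i) (α i) A) t n)
      (T4_ext_hyp X _ n) ?_ γ hγ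
    intro g x
    refine T4_hyp_act X (fun A => (⨆ x, X.mem x A) ⊓ ⨆ i, vC X (s i) (α i) A) ?_ n g x
    intro g A
    rw [smul_inf', T4_ne_act, smul_iSup' g (fun i => vC X (s i) (α i) A)]
    congr 1
    exact iSup_congr fun i => vC_act X _ _ g A
  · intro i γ hγ
    rw [smul_inf', hseq γ hγ]
    congr 1
    exact T4_fix X ht (fun t => ⨆ A, X.rl t (X.nat n) A ⊓ vC X (s i) (α i) A)
      (T4_ext_hyp X _ n) (fun g x => T4_hyp_act X _ (fun g A => vC_act X _ _ g A) n g x) γ hγ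
  · intro i
    rw [inf_iSup_eq]
    refine Rep.iSup (h1 i) _ fun A => ?_
    have hle : X.vSeq t ⊓ (X.rl t (X.nat n) A ⊓ vC X (s i) (α i) A) ≤
        X.vSeq t ⊓ X.rl t (X.nat n) A := inf_le_inf_left _ inf_le_left
    have hle' : X.vSeq t ⊓ (X.rl t (X.nat n) A ⊓ vC X (s i) (α i) A) ≤
        vC X (s i) (α i) A := inf_le_right.trans inf_le_right
    have key : ∀ x, (X.vSeq t ⊓ (X.rl t (X.nat n) A ⊓ vC X (s i) (α i) A)) ⊓ X.mem x A =
        (X.vSeq t ⊓ (X.rl t (X.nat n) A ⊓ vC X (s i) (α i) A)) ⊓ X.inh t n x := by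
      intro x
      have h := T4_inh_eq X t A x n
      rw [← inf_eq_left.2 hle, inf_assoc _ (X.vSeq t ⊓ X.rl t (X.nat n) A) (X.mem x A),
        inf_assoc _ (X.vSeq t ⊓ X.rl t (X.nat n) A) (X.inh t n x), h]
    generalize X.vSeq t ⊓ (X.rl t (X.nat n) A ⊓ vC X (s i) (α i) A) = b at hle hle' key
    cases hsi : s i with
    | true =>
      rw [hsi] at hle'
      exact ((rep_vS X (α i) (h1 i) A).anti hle').congr fun f => key _
    | false =>
      rw [hsi] at hle'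
      refine ((rep_vP X (α i) (h1 i) A).anti hle').congr fun f => ?_
      change b ⊓ (X.mem (nm X f) A)ᶜ = b ⊓ (X.inh t n (nm X f))ᶜ
      have h2 : ∀ y : MB, b ⊓ yᶜ = b ⊓ (b ⊓ y)ᶜ := by
        intro y
        rw [compl_inf, inf_sup_left, inf_compl_eq_bot, bot_sup_eq]
      rw [h2, h2 (X.inh t n (nm X f)), key]
  · unfold hypV
    rw [inf_iSup_eq]
    refine iSup_le fun A => ?_
    have h3 : X.vSeq t ⊓ (X.rl t (X.nat n) A ⊓ ((⨆ x, X.mem x A) ⊓
        ⨆ i, vC X (s i) (α i) A)) ≤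
        ⨆ i, X.vSeq t ⊓ (X.rl t (X.nat n) A ⊓ vC X (s i) (α i) A) := by
      rw [← inf_iSup_eq, ← inf_iSup_eq]
      exact inf_le_inf_left _ (inf_le_inf_left _ inf_le_right)
    refine h3.trans (iSup_mono fun i => inf_le_inf_left _ ?_)
    exact le_iSup (fun A => X.rl t (X.nat n) A ⊓ vC X (s i) (α i) A) A
  · intro x
    unfold hypV
    rw [inf_iSup_eq, iSup_inf_eq]
    refine iSup_le fun A => ?_
    have h3 : X.vSeq t ⊓ (X.rl t (X.nat n) A ⊓ ((⨆ x, X.mem x A) ⊓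
        ⨆ i, vC X (s i) (α i) A)) ⊓ X.inh t n x ≤
        (⨆ i, vC X (s i) (α i) A) ⊓ X.mem x A := by
      refine le_inf ?_ ?_
      · exact inf_le_left.trans (inf_le_right.trans (inf_le_right.trans inf_le_right))
      · have h4 : X.vSeq t ⊓ (X.rl t (X.nat n) A ⊓ ((⨆ x, X.mem x A) ⊓
            ⨆ i, vC X (s i) (α i) A)) ⊓ X.inh t n x ≤
            X.vSeq t ⊓ X.rl t (X.nat n) A ⊓ X.inh t n x :=
          inf_le_inf_right _ (inf_le_inf_left _ inf_le_left)
        rw [T4_inh_eq] at h4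
        exact h4.trans inf_le_right
    refine h3.trans ?_
    rw [iSup_inf_eq]
    exact iSup_le fun i => vC_real X _ _ A x
  · unfold hypV
    refine inf_le_right.trans (iSup_le fun A => ?_)
    refine (inf_le_inf_left _ inf_le_left).trans ?_
    rw [inf_iSup_eq]
    refine iSup_mono fun x => ?_
    unfold SM.inh
    exact le_iSup (fun U => X.rl t (X.nat n) U ⊓ X.mem x U) A

end Pool.Agent.LibBd83
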