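import Pool.Agent.LibBd83.Def2
import Pool.Agent.LibBc83.Main2

/-!
Question Q2 for `α = 1`: `AC_ω(ℝ; unif Σ⁰₂)` is a theorem of ZF.
-/

namespace Pool.Agent.LibBd83

open Pool.Agent.LibBc83

variable {M : Type} {E : M → M → Prop}

theorem emp_of_isoOrd_zero {a x : M} (ha : IsoOrd E 1 a) (hx : E x a) : Emp E x := by
  obtain ⟨htr, f, hf, hlt⟩ := ha
  intro t ht
  have hta := htr t x ht hx
  obtain ⟨γ, rfl⟩ := (hf x).1 hx
  obtain ⟨δ, rfl⟩ := (hf t).1 hta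
  have h1 := (hlt δ γ).1 ht
  have h2 : γ.1 = 0 := Ordinal.lt_one_iff_zero.1 γ.2
  have h3 : δ.1 < γ.1 := h1
  rw [h2] at h3
  exact absurd h3 (not_lt.2 bot_le)

theorem isOne_of_isoOrd {a : M} (hZ : IsZF E) (ha : IsoOrd E 1 a) : IsOne E a := by
  intro t
  refine ⟨fun ht => emp_of_isoOrd_zero ha ht, fun ht => ?_⟩
  obtain ⟨-, f, hf, -⟩ := id ha
  have h0 : E (f ⟨0, by simp⟩) a := (hf _).2 ⟨_, rfl⟩
  have h1 := emp_of_isoOrd_zero ha h0
  have : t = f ⟨0, by simp⟩ := hZ.ext _ _ fun u => ⟨fun hu => absurd hu (ht u), fun hu => absurd hu (h1 u)⟩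
  rw [this]
  exact h0

theorem not_gtOne_of_isoOrd {a : M} (ha : IsoOrd E 1 a) : ¬ GtOne E a := by
  rintro ⟨o, ho, hoa⟩
  have h1 := emp_of_isoOrd_zero ha hoa
  obtain ⟨-, f, hf, -⟩ := id ha
  have h0 : E (f ⟨0, by simp⟩) a := (hf _).2 ⟨_, rfl⟩
  exact h1 _ ((ho _).2 (emp_of_isoOrd_zero ha h0))

theorem not_step_emp {w F b A : M} (hb : Emp E b) (hZ : IsZF E) {a : M} (ha : IsoOrd E 1 a) :
    ¬ StepO E w F b A := by
  rintro (⟨h1, -⟩ | ⟨⟨o, -, ho⟩, -⟩)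
  · obtain ⟨-, f, hf, -⟩ := id ha
    have h0 : E (f ⟨0, by simp⟩) a := (hf _).2 ⟨_, rfl⟩
    exact hb _ ((h1 _).2 (emp_of_isoOrd_zero ha h0))
  · exact hb _ ho

theorem sig_two_of_sigO {w a a' A : M} (hZ : IsZF E) (ha : IsoOrd E 1 a) (ha' : Suc E a' a)
    (h : SigO E a' w A) : Sig E 2 w A := by
  obtain ⟨F, hF, hA⟩ := h
  have haa' : E a a' := (ha' a).2 (Or.inr rfl)
  have hs := (hF a' A (Or.inl rfl)).1 hA
  rcases hs with ⟨h1, -⟩ | ⟨-, g, hg, hg1, hg2⟩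
  · have h2 : Emp E a := (h1 a).1 haa'
    obtain ⟨-, f, hf, -⟩ := id ha
    exact absurd ((hf _).2 ⟨_, rfl⟩) (h2 (f ⟨0, by simp⟩))
  · change SigStep E w 1 (PiUpTo E w 1) A
    rw [SigStep, if_neg one_ne_zero]
    refine ⟨g, hg, fun n z hn hz => ?_, hg2⟩
    obtain ⟨d, c, hd, hdc, hc⟩ := hg1 n z hn hz
    have hs := (hF d c (Or.inr hd)).1 hdc
    right
    rcases (ha' d).1 hd with hd | rfl
    · exact absurd hs (not_step_emp (emp_of_isoOrd_zero ha hd) hZ ha)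
    · rcases hs with ⟨-, ho⟩ | ⟨h2, -⟩
      · refine ⟨c, ?_, hc⟩
        rw [SigStep, if_pos rfl]
        exact ho
      · exact absurd h2 (not_gtOne_of_isoOrd ha)

/-- In every model of ZF, countable choice holds for the sequences which are uniformly in
`Σ⁰₂`. -/
theorem acuo_two (hZ : IsZF E) {a a' : M} (ha : IsoOrd E 1 a) (ha' : Suc E a' a) :
    ACUo E a' := by
  intro w s hw hs hne hu
  refine acu2 hZ w s hw hs hne ?_
  obtain ⟨h1, b, hb, hb'⟩ := hu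
  exact ⟨fun n A hn hA => sig_two_of_sigO hZ ha ha' (h1 n A hn hA), b, hb,
    sig_two_of_sigO hZ ha ha' hb'⟩

end Pool.Agent.LibBd83
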