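import Pool.Agent.LibBc83.RE

/-!
The truth values of: `A` is in the class `Σ⁰_β`, `A` is in the class `Π⁰_β` (`β` an ordinal).
-/

namespace Pool.Agent.LibBd83

open Pool.Agent.LibBc83

variable {B : Type} [CompleteBooleanAlgebra B] {G : Type} [Group G] [MulAction G B]
  [OrdAct G B] {Fam : Set (Set G)} (X : SM B G Fam)

/-- The truth value of: `z` is the complement of `c` in the set of the reals. -/
noncomputable def vCo (z c : X.N) : B :=
  ⨅ x, (X.mem x z ⇨ X.vReal x ⊓ (X.mem x c)ᶜ) ⊓ (X.vReal x ⊓ (X.mem x c)ᶜ ⇨ X.mem x z)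

/-- The truth value of: `A` is in the class `Σ⁰_β`. -/
noncomputable def vS (β : Ordinal.{0}) (A : X.N) : B :=
  if β = 1 then X.vOpen A
  else if 1 < β then ⨆ g, X.vSeq g ⊓
    ((⨅ n : ℕ, ⨅ z, X.rl g (X.nat n) z ⇨ ⨆ γ : Set.Iio β, ⨆ c, vS γ.1 c ⊓ vCo X z c) ⊓
      X.vUn A g)
  else ⊥
termination_by β
decreasing_by exact γ.2

/-- The truth value of: `A` is in the class `Π⁰_β`. -/
noncomputable def vP (β : Ordinal.{0}) (A : X.N) : B := ⨆ c, vS X β c ⊓ vCo X A c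

/-- The truth value of: all terms of `g` are in classes `Π⁰_γ`, `γ < β`. -/
noncomputable def vTm (β : Ordinal.{0}) (g : X.N) : B :=
  ⨅ n : ℕ, ⨅ z, X.rl g (X.nat n) z ⇨ ⨆ γ : Set.Iio β, vP X γ.1 z

/-- The classes: `Σ⁰_β` for `s = true` and `Π⁰_β` for `s = false`. -/
noncomputable def vC (s : Bool) (β : Ordinal.{0}) (A : X.N) : B :=
  if s then vS X β A else vP X β A

theorem vS_zero (A : X.N) : vS X 0 A = ⊥ := by
  rw [vS, if_neg (by simp), if_neg (by simp)]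

theorem vS_one (A : X.N) : vS X 1 A = X.vOpen A := by
  rw [vS, if_pos rfl]

theorem vS_gt {β : Ordinal.{0}} (hβ : 1 < β) (A : X.N) :
    vS X β A = ⨆ g, X.vSeq g ⊓ (vTm X β g ⊓ X.vUn A g) := by
  rw [vS, if_neg hβ.ne', if_pos hβ]
  rfl

end Pool.Agent.LibBd83
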