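import Pool.Agent.LibBd83.V0

/-!
BD83 V1. Elementary facts on the truth value `vCo`.

Plan. `val_compl`: unfold `Fm.compl` (`LibBc83/Deep.lean`) with `SM.val_real`. `ext_vCo`: `vCo` is the
value of `.compl` (`val_compl`), so `ev_congr` (or `Ext.iInf`, `Ext.inf`, `Ext.himp`,
`Ext.mem_right`, ...). `vCo_act`: `SM.val_act`, or reindex the infimum by the surjective action
(`SM.act_surj`, `SM.mem_act`, `SM.vReal_act`). -/

namespace Pool.Agent.LibBd83

open Pool.Agent.LibBc83

variable {B : Type} [CompleteBooleanAlgebra B] {G : Type} [Group G] [MulAction G B]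
  [OrdAct G B] {Fam : Set (Set G)} (X : SM B G Fam)

theorem val_compl (v : ℕ → X.N) (w A c : ℕ) (h : v w = X.om) :
    X.val (.compl w A c) v = vCo X (v A) (v c) := by
  unfold SM.val Fm.compl vCo
  simp only [ev_all, ev_iff, ev_and, ev_neg, ev_mem, cons_zero, cons_succ]
  refine iInf_congr fun x => ?_
  have h1 : ev X.mem X.eq (.real (w + 1) 0) (cons x v) = X.vReal x :=
    SM.val_real (cons x v) (w + 1) 0 h
  rw [h1]

theorem ext_vCo_left (c : X.N) : X.Ext (fun z => vCo X z c) :=
  SM.Ext.iInf fun x => SM.Ext.inf (SM.Ext.himp (SM.Ext.mem_right x) (SM.Ext.const _))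
    (SM.Ext.himp (SM.Ext.const _) (SM.Ext.mem_right x))

theorem ext_vCo_right (z : X.N) : X.Ext (fun c => vCo X z c) :=
  SM.Ext.iInf fun x => SM.Ext.inf
    (SM.Ext.himp (SM.Ext.const _) (SM.Ext.inf (SM.Ext.const _)
      (SM.Ext.compl (SM.Ext.mem_right x))))
    (SM.Ext.himp (SM.Ext.inf (SM.Ext.const _) (SM.Ext.compl (SM.Ext.mem_right x)))
      (SM.Ext.const _))

theorem vCo_act (g : G) (z c : X.N) : vCo X (X.act g z) (X.act g c) = g • vCo X z c := by
  unfold vCo
  rw [smul_iInf', ← (SM.act_surj (X := X) g).iInf_comp]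
  refine iInf_congr fun x => ?_
  rw [smul_inf', smul_himp', smul_himp', smul_inf', smul_compl', X.mem_act, X.mem_act,
    SM.vReal_act]

private theorem V1_le1 (z c x : X.N) : vCo X z c ⊓ X.mem x z ≤ X.vReal x ⊓ (X.mem x c)ᶜ :=
  le_himp_iff.1 ((iInf_le _ x).trans inf_le_left)

private theorem V1_le2 (z c x : X.N) : vCo X z c ⊓ (X.vReal x ⊓ (X.mem x c)ᶜ) ≤ X.mem x z :=
  le_himp_iff.1 ((iInf_le _ x).trans inf_le_right)

/-- On a real, the complement is the complement. -/
theorem vCo_mem (z c x : X.N) :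
    vCo X z c ⊓ X.vReal x ⊓ X.mem x z = vCo X z c ⊓ X.vReal x ⊓ (X.mem x c)ᶜ := by
  apply le_antisymm
  · refine le_inf inf_le_left ?_
    refine le_trans ?_ ((V1_le1 X z c x).trans inf_le_right)
    exact le_inf (inf_le_left.trans inf_le_left) inf_le_right
  · refine le_inf inf_le_left ?_
    refine le_trans ?_ (V1_le2 X z c x)
    exact le_inf (inf_le_left.trans inf_le_left)
      (le_inf (inf_le_left.trans inf_le_right) inf_le_right)

theorem vCo_real (z c x : X.N) : vCo X z c ⊓ X.mem x z ≤ X.vReal x :=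
  (V1_le1 X z c x).trans inf_le_left

end Pool.Agent.LibBd83
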