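import Pool.Agent.LibBc83.CoreDef

/-!
Formulas for the Borel classes of finite order, for `Hat`, and for the statements of choice. The
arguments are the numbers of the variables.
-/

namespace Pool.Agent.LibBd83

open Pool.Agent.LibBc83

namespace Fm'

open Fm

/-- The class `Σ⁰ₖ₊₁`, if `P` is the formula for the union of the classes `Π⁰₁, ..., Π⁰ₖ`. -/
def stepF (k : ℕ) (P : ℕ → ℕ → Fm) (w A : ℕ) : Fm :=
  if k = 0 then opn w A
  else ex (and (seq (w+1) 0) (and
    (all (all (imp (mem 1 (w+3)) (imp (rel 2 1 0) (P (w+3) 0))))) (union (w+1) (A+1) 0)))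

/-- The union of the classes `Π⁰₁, ..., Π⁰ₖ`. -/
def piU : ℕ → ℕ → ℕ → Fm
  | 0, _, z => neg (eq z z)
  | k + 1, w, z =>
    or (piU k w z) (ex (and (stepF k (piU k) (w+1) 0) (compl (w+1) (z+1) 0)))

/-- The class `Σ⁰ₖ`. -/
def sigF (k w A : ℕ) : Fm := stepF (k - 1) (piU (k - 1)) w A

/-- The class `Π⁰ₖ`. -/
def piF (k w A : ℕ) : Fm := ex (and (sigF k (w+1) 0) (compl (w+1) (A+1) 0))

/-- The class `Σ⁰ₖ` for `s = true`, `Π⁰ₖ` for `s = false`. -/
def clF (s : Bool) (k w A : ℕ) : Fm := if s then sigF k w A else piF k w A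

/-- `z` is the concatenation of `n` and `x`. -/
def prep (w n x z : ℕ) : Fm :=
  and (real w z) (and (all (imp (emp 0) (rel (z+1) 0 (n+1))))
    (all (all (all (imp (mem 2 (w+3)) (imp (suc 1 2) (imp (rel (x+3) 2 0) (rel (z+3) 1 0))))))))

/-- `a` is the set of the reals `n⌢x` with `x` in the `n`-th term of `s`. -/
def hat (w s a : ℕ) : Fm :=
  all (iff (mem 0 (a+1)) (ex (ex (ex (and (mem 2 (w+4)) (and (rel (s+4) 2 1)
    (and (mem 0 1) (prep (w+4) 2 0 3))))))))

/-- All terms of `s` have the property `P`. -/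
def tms (P : ℕ → ℕ → Fm) (w s : ℕ) : Fm :=
  all (all (imp (mem 1 (w+2)) (imp (rel (s+2) 1 0) (P (w+2) 0))))

/-- `A` is not empty. -/
def nem (_ A : ℕ) : Fm := ex (mem 0 (A+1))

/-- `s` is uniformly in the class `Σ⁰ₖ`. -/
def unif (k w s : ℕ) : Fm :=
  and (tms (sigF k) w s) (ex (and (hat (w+1) (s+1) 0) (sigF k (w+1) 0)))

/-- Choice for the sequences in the class. -/
def acF (s : Bool) (k w : ℕ) : Fm :=
  all (imp (seq (w+1) 0) (imp (tms nem (w+1) 0) (imp (tms (clF s k) (w+1) 0)
    (ex (choice (w+2) 1 0)))))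

/-- Choice for the sequences uniformly in the class `Σ⁰ₖ`. -/
def acuF (k w : ℕ) : Fm :=
  all (imp (seq (w+1) 0) (imp (tms nem (w+1) 0) (imp (unif k (w+1) 0)
    (ex (choice (w+2) 1 0)))))

end Fm'

section

variable {M : Type} {E : M → M → Prop} (v : ℕ → M)

theorem sat_stepF (k : ℕ) (P : ℕ → ℕ → Fm) (Q : M → Prop)
    (w A : ℕ) (h : ∀ (u : ℕ → M) (w' z : ℕ), u w' = v w → (Sat E (P w' z) u ↔ Q (u z))) :
    Sat E (Fm'.stepF k P w A) v ↔ SigStep E (v w) k Q (v A) := by
  unfold Fm'.stepF SigStep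
  split_ifs with hk
  · simp
  · simp only [sat_ex, sat_and, sat_all, sat_imp, sat_seq, sat_mem, sat_rel, sat_union, cons_succ,
      cons_zero]
    refine exists_congr fun g => ?_
    refine and_congr_right fun _ => and_congr_left fun _ => ?_
    refine forall_congr' fun n => forall_congr' fun z => ?_
    rw [h _ _ _ (by simp)]
    simp

theorem sat_piU (k : ℕ) (w z : ℕ) :
    Sat E (Fm'.piU k w z) v ↔ PiUpTo E (v w) k (v z) := by
  induction k generalizing w z v with
  | zero => simp [Fm'.piU, PiUpTo]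
  | succ k ih =>
    simp only [Fm'.piU, PiUpTo, sat_or, sat_ex, sat_and, sat_compl, cons_succ, cons_zero]
    rw [ih]
    refine or_congr_right (exists_congr fun c => and_congr_left fun _ => ?_)
    rw [sat_stepF (cons c v) k (Fm'.piU k) (PiUpTo E (v w) k) (w+1) 0]
    · simp
    · intro u w' z hu
      rw [ih, hu]
      simp

@[simp] theorem sat_sigF (k w A : ℕ) : Sat E (Fm'.sigF k w A) v ↔ Sig E k (v w) (v A) := by
  unfold Fm'.sigF Sig
  refine sat_stepF v _ _ _ _ _ fun u w' z hu => ?_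
  rw [sat_piU, hu]

@[simp] theorem sat_piF (k w A : ℕ) : Sat E (Fm'.piF k w A) v ↔ Pi E k (v w) (v A) := by
  simp [Fm'.piF, Pi]

@[simp] theorem sat_clF (s : Bool) (k w A : ℕ) : Sat E (Fm'.clF s k w A) v ↔
    if s then Sig E k (v w) (v A) else Pi E k (v w) (v A) := by
  cases s <;> simp [Fm'.clF]

@[simp] theorem sat_prep (w n x z : ℕ) :
    Sat E (Fm'.prep w n x z) v ↔ Prep E (v w) (v n) (v x) (v z) := by
  simp [Fm'.prep, Prep]

@[simp] theorem sat_hat (w s a : ℕ) :
    Sat E (Fm'.hat w s a) v ↔ Hat E (v w) (v s) (v a) := by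
  simp [Fm'.hat, Hat]

@[simp] theorem sat_tms (P : ℕ → ℕ → Fm) (w s : ℕ) : Sat E (Fm'.tms P w s) v ↔
    ∀ n A, E n (v w) → Rel E (v s) n A → Sat E (P (w+2) 0) (cons A (cons n v)) := by
  simp [Fm'.tms]

@[simp] theorem sat_unif (k w s : ℕ) :
    Sat E (Fm'.unif k w s) v ↔ UnifIn E (Sig E k) (v w) (v s) := by
  simp [Fm'.unif, UnifIn, InCls]

end

/-- In a model, all sets `w` of natural numbers are equal, so it is enough to look at one. -/
theorem om_unique {M : Type} {E : M → M → Prop} (h : IsZF E) {w w' : M} (hw : Om E w)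
    (hw' : Om E w') : w = w' :=
  h.ext w w' fun x => ⟨fun hx => hw.2 w' hw'.1 x hx, fun hx => hw'.2 w hw.1 x hx⟩

theorem sat_acF {M : Type} {E : M → M → Prop} (h : IsZF E) (s : Bool) (k w : ℕ) (v : ℕ → M)
    (hw : Om E (v w)) : Sat E (Fm'.acF s k w) v ↔ if s then ACR E k else ACP E k := by
  have key : Sat E (Fm'.acF s k w) v ↔ CC E (InCls E (if s then Sig E k else Pi E k)) := by
    simp only [Fm'.acF, sat_all, sat_imp, sat_seq, sat_tms, sat_ex, sat_choice, cons_zero,
      cons_succ, Fm'.nem, sat_mem, sat_clF, Choice]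
    constructor
    · intro H w' t hw' ht hne hcl
      obtain rfl := om_unique h hw hw'
      refine H t ht hne ?_
      intro n A hn hA
      have := hcl n A hn hA
      cases s <;> simpa using this
    · intro H t ht hne hcl
      refine H (v w) t hw ht hne ?_
      intro n A hn hA
      have := hcl n A hn hA
      cases s <;> simpa using this
  rw [key]
  cases s <;> simp [ACR, ACP]

theorem sat_acuF {M : Type} {E : M → M → Prop} (h : IsZF E) (k w : ℕ) (v : ℕ → M)
    (hw : Om E (v w)) : Sat E (Fm'.acuF k w) v ↔ ACU E k := by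
  simp only [Fm'.acuF, sat_all, sat_imp, sat_seq, sat_tms, sat_ex, sat_choice, cons_zero,
    cons_succ, Fm'.nem, sat_mem, sat_unif, Choice, ACU]
  constructor
  · intro H w' t hw' ht hne hcl
    obtain rfl := om_unique h hw hw'
    exact H t ht hne hcl
  · intro H t ht hne hcl
    exact H (v w) t hw ht hne hcl

end Pool.Agent.LibBd83
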