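import Pool.Agent.LibBd83.Def2
import Pool.Agent.LibBd83.Z0

/-!
Formulas for the Borel classes of all orders.
-/

namespace Pool.Agent.LibBd83

open Pool.Agent.LibBc83

namespace Fm'

open Fm

def isOneF (b : ℕ) : Fm := all (iff (mem 0 (b+1)) (emp 0))

def gtOneF (b : ℕ) : Fm := ex (and (isOneF 0) (mem 0 (b+1)))

def stepO (w F b A : ℕ) : Fm :=
  or (and (isOneF b) (opn w A)) (and (gtOneF b) (ex (and (seq (w+1) 0) (and
    (all (all (imp (mem 1 (w+3)) (imp (rel 2 1 0) (ex (ex (and (mem 1 (b+5))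
      (and (rel (F+5) 1 0) (compl (w+5) 2 0)))))))))
    (union (w+1) (A+1) 0)))))

def hierF (w a F : ℕ) : Fm :=
  all (all (imp (or (eq 1 (a+2)) (mem 1 (a+2))) (iff (rel (F+2) 1 0) (stepO (w+2) (F+2) 1 0))))

def sigO (a w A : ℕ) : Fm := ex (and (hierF (w+1) (a+1) 0) (rel 0 (a+1) (A+1)))

def piO (a w A : ℕ) : Fm := ex (and (sigO (a+1) (w+1) 0) (compl (w+1) (A+1) 0))

/-- The class `Σ⁰_a` for `s = true`, `Π⁰_a` for `s = false`; the ordinal `a` is the value of the
variable `w + 1`. -/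
def clO (s : Bool) (w A : ℕ) : Fm := if s then sigO (w+1) w A else piO (w+1) w A

def unifO (w s : ℕ) : Fm :=
  and (tms (clO true) w s) (ex (and (hat (w+1) (s+1) 0) (clO true (w+1) 0)))

/-- Choice for the sequences in the class. -/
def acO (s : Bool) (w : ℕ) : Fm :=
  all (imp (seq (w+1) 0) (imp (tms nem (w+1) 0) (imp (tms (clO s) (w+1) 0)
    (ex (choice (w+2) 1 0)))))

/-- Choice for the sequences uniformly in the class `Σ⁰_a`. -/
def acuO (w : ℕ) : Fm :=
  all (imp (seq (w+1) 0) (imp (tms nem (w+1) 0) (imp (unifO (w+1) 0)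
    (ex (choice (w+2) 1 0)))))

end Fm'

section

variable {M : Type} {E : M → M → Prop} (v : ℕ → M)

@[simp] theorem sat_isOneF (b : ℕ) : Sat E (Fm'.isOneF b) v ↔ IsOne E (v b) := by
  simp [Fm'.isOneF, IsOne]

@[simp] theorem sat_gtOneF (b : ℕ) : Sat E (Fm'.gtOneF b) v ↔ GtOne E (v b) := by
  simp [Fm'.gtOneF, GtOne]

@[simp] theorem sat_stepO (w F b A : ℕ) :
    Sat E (Fm'.stepO w F b A) v ↔ StepO E (v w) (v F) (v b) (v A) := by
  simp [Fm'.stepO, StepO]

@[simp] theorem sat_hierF (w a F : ℕ) :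
    Sat E (Fm'.hierF w a F) v ↔ Hier E (v w) (v a) (v F) := by
  simp [Fm'.hierF, Hier]

@[simp] theorem sat_sigO (a w A : ℕ) :
    Sat E (Fm'.sigO a w A) v ↔ SigO E (v a) (v w) (v A) := by
  simp [Fm'.sigO, SigO]

@[simp] theorem sat_piO (a w A : ℕ) :
    Sat E (Fm'.piO a w A) v ↔ PiO E (v a) (v w) (v A) := by
  simp [Fm'.piO, PiO]

@[simp] theorem sat_clO (s : Bool) (w A : ℕ) : Sat E (Fm'.clO s w A) v ↔
    if s then SigO E (v (w+1)) (v w) (v A) else PiO E (v (w+1)) (v w) (v A) := by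
  cases s <;> simp [Fm'.clO]

@[simp] theorem sat_unifO (w s : ℕ) :
    Sat E (Fm'.unifO w s) v ↔ UnifIn E (SigO E (v (w+1))) (v w) (v s) := by
  simp [Fm'.unifO, UnifIn, InCls]

end

theorem sat_acO {M : Type} {E : M → M → Prop} (h : IsZF E) (s : Bool) (w : ℕ) (v : ℕ → M)
    (hw : Om E (v w)) :
    Sat E (Fm'.acO s w) v ↔ if s then ACRo E (v (w+1)) else ACPo E (v (w+1)) := by
  have key : Sat E (Fm'.acO s w) v ↔
      CC E (InCls E (if s then SigO E (v (w+1)) else PiO E (v (w+1)))) := by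
    simp only [Fm'.acO, sat_all, sat_imp, sat_seq, sat_tms, sat_ex, sat_choice, cons_zero,
      cons_succ, Fm'.nem, sat_mem, sat_clO, Choice]
    constructor
    · intro H w' t hw' ht hne hcl
      obtain rfl := om_unique h hw hw'
      refine H t ht hne ?_
      intro n A hn hA
      have := hcl n A hn hA
      cases s <;> simpa using this
    · intro H t ht hne hcl
      refine H (v w) t hw ht hne ?_
      intro n A hn hA
      have := hcl n A hn hA
      cases s <;> simpa using this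
  rw [key]
  cases s <;> simp [ACRo, ACPo]

theorem sat_acuO {M : Type} {E : M → M → Prop} (h : IsZF E) (w : ℕ) (v : ℕ → M)
    (hw : Om E (v w)) : Sat E (Fm'.acuO w) v ↔ ACUo E (v (w+1)) := by
  simp only [Fm'.acuO, sat_all, sat_imp, sat_seq, sat_tms, sat_ex, sat_choice, cons_zero,
    cons_succ, Fm'.nem, sat_mem, sat_unifO, Choice, ACUo]
  constructor
  · intro H w' t hw' ht hne hcl
    obtain rfl := om_unique h hw hw'
    exact H t ht hne hcl
  · intro H t ht hne hcl
    exact H (v w) t hw ht hne hcl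

end Pool.Agent.LibBd83
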