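import Pool.Agent.LibBd83.Y0
import Pool.Agent.LibBd83.Y1
import Pool.Agent.LibBd83.V1

/-!
BD83 Y2. The truth value of one step of the Borel hierarchy.
-/

namespace Pool.Agent.LibBd83

open Pool.Agent.LibBc83

variable {B : Type} [CompleteBooleanAlgebra B] {G : Type} [Group G] [MulAction G B]
  [OrdAct G B] {Fam : Set (Set G)} (X : SM B G Fam)

open Classical in
/-- The truth value of `StepO` at the ordinal `β`. -/
noncomputable def vStep (F : X.N) (β : Ordinal.{0}) (A : X.N) : B :=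
  if β = 1 then X.vOpen A
  else if 1 < β then ⨆ g, X.vSeq g ⊓
    ((⨅ n : ℕ, ⨅ z, X.rl g (X.nat n) z ⇨
      ⨆ γ : Set.Iio β, ⨆ c, X.rl F (onm X γ.1) c ⊓ vCo X z c) ⊓ X.vUn A g)
  else ⊥

private theorem Y2_mem_zero (t : X.N) : X.mem t (onm X 0) = ⊥ := by
  rw [mem_onm, eq_bot_iff]
  refine iSup_le fun γ => ?_
  have h : γ.1 < 0 := γ.2
  exact absurd h (not_lt.2 zero_le)

private theorem Y2_mem_one (t : X.N) : X.mem t (onm X 1) = X.eq t (onm X 0) := by
  rw [mem_onm]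
  apply le_antisymm
  · refine iSup_le fun γ => ?_
    have h : γ.1 = 0 := Order.lt_one_iff.1 γ.2
    rw [h]
  · exact le_iSup (fun γ : Set.Iio (1 : Ordinal.{0}) => X.eq t (onm X γ.1))
      ⟨0, Set.mem_Iio.2 zero_lt_one⟩

private theorem Y2_emp (v : ℕ → X.N) (t : ℕ) :
    ev X.mem X.eq (.emp t) v = X.eq (v t) (onm X 0) := by
  rw [SM.eq_eq]
  unfold Fm.emp
  simp only [ev_all, ev_neg, ev_mem, cons_zero, cons_succ]
  refine iInf_congr fun s => ?_
  rw [Y2_mem_zero, himp_bot, bot_himp, inf_top_eq]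

private theorem Y2_one (v : ℕ → X.N) (b : ℕ) :
    ev X.mem X.eq (Fm'.isOneF b) v = X.eq (v b) (onm X 1) := by
  rw [SM.eq_eq]
  unfold Fm'.isOneF
  simp only [ev_all, ev_iff, ev_mem, cons_zero, cons_succ, Y2_emp]
  refine iInf_congr fun t => ?_
  rw [Y2_mem_one]

private theorem Y2_gt (v : ℕ → X.N) (b : ℕ) :
    ev X.mem X.eq (Fm'.gtOneF b) v = X.mem (onm X 1) (v b) := by
  unfold Fm'.gtOneF
  simp only [ev_ex, ev_and, ev_mem, cons_zero, cons_succ, Y2_one]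
  apply le_antisymm
  · exact iSup_le fun o => X.eqax.meml o (onm X 1) (v b)
  · refine le_iSup_of_le (onm X 1) ?_
    rw [X.eqax.refl, top_inf_eq]

open Classical in
theorem val_isOneF (v : ℕ → X.N) (b : ℕ) (β : Ordinal.{0}) (hb : v b = onm X β) :
    X.val (Fm'.isOneF b) v = if β = 1 then ⊤ else ⊥ := by
  unfold SM.val
  rw [Y2_one, hb]
  split_ifs with h
  · rw [h, X.eqax.refl]
  · exact eq_onm_ne X h

open Classical in
theorem val_gtOneF (v : ℕ → X.N) (b : ℕ) (β : Ordinal.{0}) (hb : v b = onm X β) :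
    X.val (Fm'.gtOneF b) v = if 1 < β then ⊤ else ⊥ := by
  unfold SM.val
  rw [Y2_gt, hb]
  split_ifs with h
  · exact mem_onm_lt X h
  · exact mem_onm_le X (not_lt.1 h)

private def Y2_rho (w x : ℕ) : ℕ → ℕ
  | 0 => x
  | _ + 1 => w

private theorem Y2_val1 (f : Fm) (v : ℕ → X.N) (w x : ℕ) (h : v w = X.om) :
    X.val (f.ren (Y2_rho w x)) v = X.val f (cons (v x) fun _ => X.om) := by
  unfold SM.val
  rw [ev_ren]
  congr 1
  funext n
  cases n with
  | zero => rfl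
  | succ n => exact h

private theorem Y2_opn (v : ℕ → X.N) (w U : ℕ) (h : v w = X.om) :
    ev X.mem X.eq (.opn w U) v = X.vOpen (v U) :=
  Y2_val1 X (.opn 1 0) v w U h

private theorem Y2_union (v : ℕ → X.N) (w A g : ℕ) (h : v w = X.om) :
    ev X.mem X.eq (.union w A g) v = X.vUn (v A) (v g) := by
  have hr : ∀ (u : ℕ → X.N) (f x y : ℕ),
      ev X.mem X.eq (.rel f x y) u = X.rl (u f) (u x) (u y) := fun u f x y => SM.val_rel u f x y
  unfold SM.vUn SM.val Fm.union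
  simp only [ev_and, ev_all, ev_ex, ev_iff, ev_mem, hr, cons_zero, cons_succ, h]

theorem val_stepO (v : ℕ → X.N) (w F b A : ℕ) (β : Ordinal.{0}) (hw : v w = X.om)
    (hb : v b = onm X β) : X.val (Fm'.stepO w F b A) v = vStep X (v F) β (v A) := by
  have hr : ∀ (u : ℕ → X.N) (f x y : ℕ),
      ev X.mem X.eq (.rel f x y) u = X.rl (u f) (u x) (u y) := fun u f x y => SM.val_rel u f x y
  have hs : ∀ (u : ℕ → X.N) (w g : ℕ), u w = X.om →
      ev X.mem X.eq (.seq w g) u = X.vSeq (u g) := fun u w g h => SM.val_seq u w g h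
  have hc : ∀ (u : ℕ → X.N) (w A c : ℕ), u w = X.om →
      ev X.mem X.eq (.compl w A c) u = vCo X (u A) (u c) := fun u w A c h => val_compl X u w A c h
  have h1 : ev X.mem X.eq (Fm'.isOneF b) v = if β = 1 then ⊤ else ⊥ := val_isOneF X v b β hb
  have h2 : ev X.mem X.eq (Fm'.gtOneF b) v = if 1 < β then ⊤ else ⊥ := val_gtOneF X v b β hb
  unfold SM.val Fm'.stepO
  rw [ev_or, ev_and, ev_and, h1, h2, Y2_opn X v w A hw, ev_ex]
  have h3 : (⨆ g, ev X.mem X.eq (.and (.seq (w+1) 0) (.and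
    (.all (.all (.imp (.mem 1 (w+3)) (.imp (.rel 2 1 0) (.ex (.ex (.and (.mem 1 (b+5))
      (.and (.rel (F+5) 1 0) (.compl (w+5) 2 0)))))))))
    (.union (w+1) (A+1) 0))) (cons g v)) = ⨆ g, X.vSeq g ⊓
    ((⨅ n : ℕ, ⨅ z, X.rl g (X.nat n) z ⇨
      ⨆ γ : Set.Iio β, ⨆ c, X.rl (v F) (onm X γ.1) c ⊓ vCo X z c) ⊓ X.vUn (v A) g) := by
    refine iSup_congr fun g => ?_
    rw [ev_and, ev_and, hs _ _ _ (by exact hw), Y2_union X _ _ _ _ (by exact hw)]
    refine congrArg (fun t => X.vSeq g ⊓ (t ⊓ X.vUn (v A) g)) ?_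
    simp only [ev_all, ev_imp, ev_ex, ev_and, ev_mem, hr, cons_zero, cons_succ]
    have h4 : ∀ (n z : X.N), (⨆ d, ⨆ c, X.mem d (v b) ⊓ (X.rl (v F) d c ⊓
        ev X.mem X.eq (.compl (w+5) 2 0) (cons c (cons d (cons z (cons n (cons g v)))))))
        = ⨆ γ : Set.Iio β, ⨆ c, X.rl (v F) (onm X γ.1) c ⊓ vCo X z c := by
      intro n z
      rw [hb]
      have h5 : X.Ext (fun d => ⨆ c, X.rl (v F) d c ⊓ vCo X z c) :=
        SM.Ext.iSup fun c => SM.Ext.inf (X.ext_rl_mid (v F) c) (SM.Ext.const _)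
      rw [← iSup_onm h5 β]
      refine iSup_congr fun d => ?_
      rw [inf_iSup_eq]
      refine iSup_congr fun c => ?_
      rw [hc _ _ _ _ (by exact hw)]
      rfl
    simp only [h4, hw]
    have h6 : X.Ext (fun n => ⨅ z, X.rl g n z ⇨
        ⨆ γ : Set.Iio β, ⨆ c, X.rl (v F) (onm X γ.1) c ⊓ vCo X z c) :=
      SM.Ext.iInf fun z => SM.Ext.himp (X.ext_rl_mid g z) (SM.Ext.const _)
    rw [← SM.iInf_om h6]
    refine iInf_congr fun n => ?_
    rw [himp_iInf_eq]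
  rw [h3]
  unfold vStep
  by_cases e1 : β = 1
  · subst e1
    simp
  · by_cases e2 : 1 < β
    · rw [if_neg e1, if_pos e2, if_neg e1, if_pos e2, bot_inf_eq, bot_sup_eq, top_inf_eq]
    · rw [if_neg e1, if_neg e2, if_neg e1, if_neg e2, bot_inf_eq, bot_inf_eq, sup_bot_eq]

end Pool.Agent.LibBd83
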