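import Pool.Agent.LibBd83.Y2
import Pool.Agent.LibBd83.V1b
import Pool.Agent.LibBc83.NB

/-!
BD83 Y3. The name of the Borel hierarchy up to `α`, and the truth value of `SigO`.

Plan. `val_hierF`: unfold; the quantifier over `b` (with `eq b (onm α) ⊔ mem b (onm α)`, which is
`mem b (onm (α + 1))`: `mem_onm`) is an infimum over the `onm β`, `β ≤ α` (`iInf_onm`; the predicate
`b ↦ ⨅ A, (rl F b A ⇔ stepO F b A)` is the value of a formula, `Ext.val`), then `val_stepO`.
`hier_eq` by strong induction on `β`: below `vHier F`, `rl F (onm β) A = vStep F β A`, and `vStep F β A` and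
`vS β A` (`vS_one`, `vS_gt`, `vS_zero`, `vTm`, `vP`) differ only by `rl F (onm γ) c` instead of `vS γ c` for
`γ < β`, which are the same below `vHier F` by induction.
`exists_hier`: let `φ p = ⨆ β : Iio (α + 1), ⨆ A : X.N, vS β A ⊓ eq p (opN (onm β) A)`; it is `Ext` and
invariant under all `g` (`vS_act`, `supp_onm`, `SM.act_opN`, reindex `A`). It is bounded by a small
family: the name `P` of the set of the sets of reals (`SM.ax_power` applied to the name of the set of the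
reals, `SM.exists_rset`) is given by a small family `A i` (`SM.exists_rep`), and
`vS β A ≤ mem A P ≤ ⨆ i, eq A (A i)` (`vS_real`); so `φ p ≤ ⨆ (β, i), eq p (opN (onm β) (A i))`, where `β`
ranges over `(α + 1).ToType`. `SM.comp_bdd` gives `F` with `mem p F = φ p`, and
`rl F (onm β) A = ⨆ β', ⨆ A', vS β' A' ⊓ (eq (onm β) (onm β') ⊓ eq A A') = vS β A` for `β ≤ α`
(`SM.eq_opN`, `eq_onm_ne`, `ext_vS`). Then `vHier F = ⊤` (`vStep F β A = vS β A`).
`val_sigO`: `⨆ F, vHier F ⊓ rl F (onm α) A`: `≤` by `hier_eq`, `≥` by `exists_hier`.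
`val_piO`, `val_clO`: `val_compl`.
-/

namespace Pool.Agent.LibBd83

open Pool.Agent.LibBc83

variable {B : Type} [CompleteBooleanAlgebra B] {G : Type} [Group G] [MulAction G B]
  [OrdAct G B] {Fam : Set (Set G)} (X : SM B G Fam)

/-- The truth value of: `F` is the Borel hierarchy up to `α`. -/
noncomputable def vHier (α : Ordinal.{0}) (F : X.N) : B :=
  ⨅ β : Set.Iio (α + 1), ⨅ A, (X.rl F (onm X β.1) A ⇨ vStep X F β.1 A) ⊓
    (vStep X F β.1 A ⇨ X.rl F (onm X β.1) A)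

private theorem Y3_mem_succ (α : Ordinal.{0}) (b : X.N) :
    X.mem b (onm X (α + 1)) = X.eq b (onm X α) ⊔ X.mem b (onm X α) := by
  rw [mem_onm, mem_onm]
  apply le_antisymm
  · refine iSup_le fun γ => ?_
    have h1 : γ.1 < α + 1 := γ.2
    rcases lt_or_eq_of_le (Order.lt_add_one_iff.1 h1) with h2 | h2
    · exact le_sup_of_le_right (le_iSup (fun γ : Set.Iio α => X.eq b (onm X γ.1)) ⟨γ.1, h2⟩)
    · rw [h2]
      exact le_sup_left
  · refine sup_le ?_ (iSup_le fun γ => ?_)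
    · exact le_iSup (fun γ : Set.Iio (α + 1) => X.eq b (onm X γ.1))
        ⟨α, Set.mem_Iio.2 (Order.lt_add_one_iff.2 le_rfl)⟩
    · have h1 : γ.1 < α := γ.2
      exact le_iSup (fun γ : Set.Iio (α + 1) => X.eq b (onm X γ.1))
        ⟨γ.1, Order.lt_add_one_iff.2 h1.le⟩

theorem val_hierF (v : ℕ → X.N) (w a F : ℕ) (α : Ordinal.{0}) (hw : v w = X.om)
    (ha : v a = onm X α) : X.val (Fm'.hierF w a F) v = vHier X α (v F) := by
  have hr : ∀ (u : ℕ → X.N) (f x y : ℕ),
      ev X.mem X.eq (.rel f x y) u = X.rl (u f) (u x) (u y) := fun u f x y => SM.val_rel u f x y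
  have h1 : X.val (Fm'.hierF w a F) v = ⨅ b, X.mem b (onm X (α + 1)) ⇨
      X.val (.all (.iff (.rel (F+2) 1 0) (Fm'.stepO (w+2) (F+2) 1 0))) (cons b v) := by
    unfold SM.val Fm'.hierF
    simp only [ev_all, ev_imp, ev_or, ev_eq, ev_mem, cons_zero, cons_succ]
    refine iInf_congr fun b => ?_
    rw [Y3_mem_succ, ← ha, ← himp_iInf_eq]
  rw [h1, iInf_onm (SM.Ext.val _ v) (α + 1)]
  unfold vHier
  refine iInf_congr fun γ => ?_
  unfold SM.val
  rw [ev_all]
  refine iInf_congr fun A => ?_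
  have h2 : ev X.mem X.eq (Fm'.stepO (w+2) (F+2) 1 0) (cons A (cons (onm X γ.1) v)) =
      vStep X (v F) γ.1 A := val_stepO X (cons A (cons (onm X γ.1) v)) (w+2) (F+2) 1 0 γ.1 hw rfl
  rw [ev_iff, hr, h2]
  rfl

private theorem Y3_iSup {ι : Sort*} {h : B} {a b : ι → B} (H : ∀ i, h ⊓ a i = h ⊓ b i) :
    h ⊓ (⨆ i, a i) = h ⊓ ⨆ i, b i := by
  rw [inf_iSup_eq, inf_iSup_eq]
  exact iSup_congr H

private theorem Y3_iInf_le {ι : Sort*} {h : B} {a b : ι → B} (H : ∀ i, h ⊓ a i = h ⊓ b i) :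
    h ⊓ (⨅ i, a i) ≤ h ⊓ ⨅ i, b i := by
  refine le_inf inf_le_left (le_iInf fun i => ?_)
  refine (inf_le_inf_left h (iInf_le a i)).trans ?_
  rw [H i]
  exact inf_le_right

private theorem Y3_iInf {ι : Sort*} {h : B} {a b : ι → B} (H : ∀ i, h ⊓ a i = h ⊓ b i) :
    h ⊓ (⨅ i, a i) = h ⊓ ⨅ i, b i :=
  le_antisymm (Y3_iInf_le H) (Y3_iInf_le fun i => (H i).symm)

private theorem Y3_himp_le {h a b b' : B} (H : h ⊓ b = h ⊓ b') :
    h ⊓ (a ⇨ b) ≤ h ⊓ (a ⇨ b') := by
  refine le_inf inf_le_left ?_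
  rw [le_himp_iff]
  have h1 : h ⊓ (a ⇨ b) ⊓ a ≤ h ⊓ b :=
    le_inf (inf_le_left.trans inf_le_left)
      ((inf_le_inf_right a inf_le_right).trans himp_inf_le)
  refine h1.trans ?_
  rw [H]
  exact inf_le_right

private theorem Y3_himp {h a b b' : B} (H : h ⊓ b = h ⊓ b') :
    h ⊓ (a ⇨ b) = h ⊓ (a ⇨ b') := le_antisymm (Y3_himp_le H) (Y3_himp_le H.symm)

private theorem Y3_inf {h a a' b b' : B} (H : h ⊓ a = h ⊓ a') (H' : h ⊓ b = h ⊓ b') :
    h ⊓ (a ⊓ b) = h ⊓ (a' ⊓ b') := by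
  rw [inf_inf_distrib_left, H, H', ← inf_inf_distrib_left]

private theorem Y3_step (h : B) (F : X.N) (β : Ordinal.{0})
    (H : ∀ γ : Ordinal.{0}, γ < β → ∀ c, h ⊓ X.rl F (onm X γ) c = h ⊓ vS X γ c) (A : X.N) :
    h ⊓ vStep X F β A = h ⊓ vS X β A := by
  unfold vStep
  by_cases h1 : β = 1
  · subst h1
    rw [if_pos rfl, vS_one]
  · rw [if_neg h1]
    by_cases h2 : 1 < β
    · rw [if_pos h2, vS_gt X h2]
      refine Y3_iSup fun g => Y3_inf rfl (Y3_inf ?_ rfl)
      unfold vTm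
      refine Y3_iInf fun n => Y3_iInf fun z => Y3_himp (Y3_iSup fun γ => ?_)
      rw [vP]
      exact Y3_iSup fun c => Y3_inf (H γ.1 γ.2 c) rfl
    · rw [if_neg h2, vS, if_neg h1, if_neg h2]

theorem hier_eq (α : Ordinal.{0}) (F : X.N) (β : Ordinal.{0}) (hβ : β ≤ α) (A : X.N) :
    vHier X α F ⊓ X.rl F (onm X β) A = vHier X α F ⊓ vS X β A := by
  induction β using WellFoundedLT.induction generalizing A with
  | ind β ih =>
    have h1 : vHier X α F ≤ (X.rl F (onm X β) A ⇨ vStep X F β A) ⊓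
        (vStep X F β A ⇨ X.rl F (onm X β) A) :=
      (iInf_le _ (⟨β, Order.lt_add_one_iff.2 hβ⟩ : Set.Iio (α + 1))).trans (iInf_le _ A)
    have h2 : vHier X α F ⊓ X.rl F (onm X β) A = vHier X α F ⊓ vStep X F β A := by
      apply le_antisymm
      · refine le_inf inf_le_left ?_
        rw [← le_himp_iff]
        exact h1.trans inf_le_left
      · refine le_inf inf_le_left ?_
        rw [← le_himp_iff]
        exact h1.trans inf_le_right
    rw [h2]
    exact Y3_step X _ F β (fun γ hγ c => ih γ hγ (hγ.le.trans hβ) c) A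

theorem exists_hier (α : Ordinal.{0}) : ∃ F : X.N, vHier X α F = ⊤ := by
  obtain ⟨S, hS⟩ := X.fam.ne
  obtain ⟨φ, hφ⟩ : ∃ φ : X.N → B, φ = fun p => ⨆ β : Set.Iio (α + 1), ⨆ A,
    vS X β.1 A ⊓ X.eq p (X.opN (onm X β.1) A) := ⟨_, rfl⟩
  have hext : X.Ext φ := by
    rw [hφ]
    exact SM.Ext.iSup fun β => SM.Ext.iSup fun A => SM.Ext.inf (SM.Ext.const _) (SM.Ext.eq_left _)
  have hinv : X.Inv S φ := by
    intro g _ p
    rw [hφ]
    change (⨆ β : Set.Iio (α + 1), ⨆ A, vS X β.1 A ⊓ X.eq (X.act g p) (X.opN (onm X β.1) A)) =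
      g • ⨆ β : Set.Iio (α + 1), ⨆ A, vS X β.1 A ⊓ X.eq p (X.opN (onm X β.1) A)
    rw [smul_iSup']
    refine iSup_congr fun β => ?_
    rw [smul_iSup', ← (SM.act_surj (X := X) g).iSup_comp]
    refine iSup_congr fun A => ?_
    rw [smul_inf', vS_act, ← X.eq_act]
    have h1 : X.eq (X.act g (X.opN (onm X β.1) A)) (X.opN (onm X β.1) (X.act g A)) = ⊤ := by
      have h2 := X.act_opN g (onm X β.1) A
      have h3 : X.eq (X.opN (X.act g (onm X β.1)) (X.act g A))
          (X.opN (onm X β.1) (X.act g A)) = ⊤ := by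
        rw [X.eq_opN, X.eqax.refl, inf_top_eq]
        exact supp_onm X β.1 Set.univ g (Set.mem_univ g)
      have h4 := X.eqax.trans (X.act g (X.opN (onm X β.1) A))
        (X.opN (X.act g (onm X β.1)) (X.act g A)) (X.opN (onm X β.1) (X.act g A))
      rw [h2, h3, inf_top_eq] at h4
      exact top_unique h4
    rw [(SM.Ext.eq_right (X.act g p)).congr h1]
  obtain ⟨R, -, hR⟩ := SM.exists_rset (X := X) (φ := fun _ => (⊤ : B)) (SM.Ext.const ⊤) hS
    (fun g _ _ => (smul_top' g).symm)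
  obtain ⟨P, hP⟩ := X.ax_power R
  obtain ⟨ι, Ai, bi, hrep⟩ := X.exists_rep P
  have hbd : ∀ (β : Ordinal.{0}) (A : X.N), vS X β A ≤ ⨆ i, X.eq A (Ai i) := by
    intro β A
    have h1 : vS X β A ≤ X.mem A P := by
      rw [hP]
      refine le_iInf fun s => ?_
      rw [le_himp_iff, hR]
      exact le_inf (vS_real X β A s) le_top
    refine h1.trans ?_
    rw [hrep]
    exact iSup_mono fun i => inf_le_right
  obtain ⟨F, -, hF⟩ := SM.comp_bdd (X := X) hext hS hinv
    (ι := (α + 1).ToType × ι)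
    (fun q => X.opN (onm X ((Ordinal.ToType.mk.symm q.1 : Set.Iio (α + 1)) : Ordinal.{0})) (Ai q.2))
    (fun p => by
      rw [hφ]
      refine iSup_le fun β => iSup_le fun A => ?_
      refine (inf_le_inf_right _ (hbd β.1 A)).trans ?_
      rw [iSup_inf_eq]
      refine iSup_le fun i => ?_
      refine le_iSup_of_le (Ordinal.ToType.mk β, i) ?_
      have h1 : ((Ordinal.ToType.mk.symm (Ordinal.ToType.mk β) : Set.Iio (α + 1)) : Ordinal.{0}) =
          β.1 := by
        rw [OrderIso.symm_apply_apply]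
      change _ ≤ X.eq p (X.opN (onm X ((Ordinal.ToType.mk.symm (Ordinal.ToType.mk β) :
        Set.Iio (α + 1)) : Ordinal.{0})) (Ai i))
      rw [h1]
      have h2 : X.eq A (Ai i) = X.eq (X.opN (onm X β.1) A) (X.opN (onm X β.1) (Ai i)) := by
        rw [X.eq_opN, X.eqax.refl, top_inf_eq]
      rw [h2, inf_comm]
      exact X.eqax.trans _ _ _)
  have hrl : ∀ β : Ordinal.{0}, β ≤ α → ∀ A, X.rl F (onm X β) A = vS X β A := by
    intro β hβ A
    unfold SM.rl
    rw [hF, hφ]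
    apply le_antisymm
    · refine iSup_le fun β' => iSup_le fun A' => ?_
      rw [X.eq_opN]
      by_cases h1 : β = β'.1
      · rw [← h1, X.eqax.refl, top_inf_eq, inf_comm, X.eqax.symm]
        exact ext_vS X β A' A
      · rw [eq_onm_ne X h1, bot_inf_eq, inf_bot_eq]
        exact bot_le
    · refine le_iSup_of_le (⟨β, Order.lt_add_one_iff.2 hβ⟩ : Set.Iio (α + 1))
        (le_iSup_of_le A ?_)
      rw [X.eqax.refl, inf_top_eq]
  refine ⟨F, ?_⟩
  unfold vHier
  rw [iInf_eq_top]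
  intro β
  rw [iInf_eq_top]
  intro A
  have hβ : β.1 ≤ α := Order.lt_add_one_iff.1 β.2
  have h1 := Y3_step X (⊤ : B) F β.1 (fun γ hγ c => by rw [hrl γ (hγ.le.trans hβ) c]) A
  rw [top_inf_eq, top_inf_eq] at h1
  rw [h1, hrl β.1 hβ A, himp_self, inf_top_eq]

theorem val_sigO (v : ℕ → X.N) (a w A : ℕ) (α : Ordinal.{0}) (hw : v w = X.om)
    (ha : v a = onm X α) : X.val (Fm'.sigO a w A) v = vS X α (v A) := by
  have hr : ∀ (u : ℕ → X.N) (f x y : ℕ),
      ev X.mem X.eq (.rel f x y) u = X.rl (u f) (u x) (u y) := fun u f x y => SM.val_rel u f x y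
  have h1 : ∀ F : X.N, ev X.mem X.eq (Fm'.hierF (w+1) (a+1) 0) (cons F v) = vHier X α F :=
    fun F => val_hierF X (cons F v) (w+1) (a+1) 0 α hw ha
  have h2 : X.val (Fm'.sigO a w A) v = ⨆ F, vHier X α F ⊓ X.rl F (onm X α) (v A) := by
    unfold SM.val Fm'.sigO
    rw [ev_ex]
    refine iSup_congr fun F => ?_
    rw [ev_and, h1, hr]
    change _ ⊓ X.rl F (v a) (v A) = _
    rw [ha]
  rw [h2]
  apply le_antisymm
  · refine iSup_le fun F => ?_
    rw [hier_eq X α F α le_rfl]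
    exact inf_le_right
  · obtain ⟨F, hF⟩ := exists_hier X α
    refine le_iSup_of_le F ?_
    rw [hier_eq X α F α le_rfl, hF, top_inf_eq]

theorem val_piO (v : ℕ → X.N) (a w A : ℕ) (α : Ordinal.{0}) (hw : v w = X.om)
    (ha : v a = onm X α) : X.val (Fm'.piO a w A) v = vP X α (v A) := by
  have h1 : ∀ c : X.N, ev X.mem X.eq (Fm'.sigO (a+1) (w+1) 0) (cons c v) = vS X α c :=
    fun c => val_sigO X (cons c v) (a+1) (w+1) 0 α hw ha
  have h2 : ∀ c : X.N, ev X.mem X.eq (.compl (w+1) (A+1) 0) (cons c v) = vCo X (v A) c :=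
    fun c => val_compl X (cons c v) (w+1) (A+1) 0 hw
  rw [vP]
  unfold SM.val Fm'.piO
  rw [ev_ex]
  refine iSup_congr fun c => ?_
  rw [ev_and, h1, h2]

theorem val_clO (s : Bool) (v : ℕ → X.N) (w A : ℕ) (α : Ordinal.{0}) (hw : v w = X.om)
    (ha : v (w+1) = onm X α) : X.val (Fm'.clO s w A) v = vC X s α (v A) := by
  cases s with
  | false => exact val_piO X v (w+1) w A α hw ha
  | true => exact val_sigO X v (w+1) w A α hw ha

end Pool.Agent.LibBd83
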