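import Pool.Agent.LibBd83.Z0
import Pool.Agent.LibBd83.V1b

/-!
BD83 Z1. The truth values of the formulas for the classes of finite order.

Plan. `val_stepF`: for `k = 0` the value of `.opn w A` with `v w = X.om` is `X.vOpen (v A)` (as the private
lemmas `RD_val1`, `RD_val_opn` in `LibBc83/RD.lean`: rename the variables and use `ev_ren`, `ev_bd`,
or unfold both sides). For `k ≠ 0` unfold: `ev_ex`, `ev_and`, `ev_all`, `ev_imp`, `SM.val_seq`,
`SM.val_rel`, the value of `.union` (as `RD_vUn_eq`), and `SM.iInf_om` for the predicate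
`n ↦ ⨅ z, rl g n z ⇨ V z` (`SM.ext_rl_mid`). `val_piU`: induction on `k`;
`⨆ γ : Iio (k + 1)` is the supremum over `Iio k` and the value at `γ = k`
(`Order.lt_add_one_iff`/`Ordinal.lt_add_one...`, `le_iff_lt_or_eq`); `vP X 0 = ⊥` (`vS_zero`); by
`val_stepF` and `vS_gt` (for `k ≥ 1`, `β = k + 1`) or `vS_one` (`k = 0`) the value of
`stepF k (piU k)` is `vS X (k + 1)`; `val_compl`. Careful: `piU (k + 1)` adds the class `Π⁰ₖ₊₁`.
-/

namespace Pool.Agent.LibBd83

open Pool.Agent.LibBc83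

variable {B : Type} [CompleteBooleanAlgebra B] {G : Type} [Group G] [MulAction G B]
  [OrdAct G B] {Fam : Set (Set G)} (X : SM B G Fam)

private def Z1_rho (w x : ℕ) : ℕ → ℕ
  | 0 => x
  | _ + 1 => w

private def Z1_rho2 (w a g : ℕ) : ℕ → ℕ
  | 0 => a
  | 1 => g
  | _ + 2 => w

private theorem Z1_val1 (f : Fm) (v : ℕ → X.N) (w x : ℕ) (h : v w = X.om) :
    X.val (f.ren (Z1_rho w x)) v = X.val f (cons (v x) fun _ => X.om) := by
  unfold SM.val
  rw [ev_ren]
  congr 1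
  funext n
  cases n with
  | zero => rfl
  | succ n => exact h

private theorem Z1_val2 (f : Fm) (v : ℕ → X.N) (w a g : ℕ) (h : v w = X.om) :
    X.val (f.ren (Z1_rho2 w a g)) v = X.val f (cons (v a) (cons (v g) fun _ => X.om)) := by
  unfold SM.val
  rw [ev_ren]
  congr 1
  funext n
  match n with
  | 0 => rfl
  | 1 => rfl
  | n + 2 => exact h

private theorem Z1_opn (v : ℕ → X.N) (w U : ℕ) (h : v w = X.om) :
    X.val (.opn w U) v = X.vOpen (v U) :=
  Z1_val1 X (.opn 1 0) v w U h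

private theorem Z1_union (v : ℕ → X.N) (w A g : ℕ) (h : v w = X.om) :
    X.val (.union w A g) v = X.vUn (v A) (v g) :=
  Z1_val2 X (.union 2 0 1) v w A g h

theorem val_stepF (k : ℕ) (P : ℕ → ℕ → Fm) (V : X.N → B) (v : ℕ → X.N) (w A : ℕ)
    (hw : v w = X.om)
    (h : ∀ (u : ℕ → X.N) (w' z : ℕ), u w' = X.om → X.val (P w' z) u = V (u z)) :
    X.val (Fm'.stepF k P w A) v = if k = 0 then X.vOpen (v A) else
      ⨆ g, X.vSeq g ⊓ ((⨅ n : ℕ, ⨅ z, X.rl g (X.nat n) z ⇨ V z) ⊓ X.vUn (v A) g) := by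
  unfold Fm'.stepF
  split_ifs with hk
  · exact Z1_opn X v w A hw
  · have e1 : ∀ f u, X.val (Fm.ex f) u = ⨆ a, X.val f (cons a u) := fun f u => ev_ex f u
    have e2 : ∀ f g u, X.val (Fm.and f g) u = X.val f u ⊓ X.val g u := fun f g u => ev_and f g u
    have e3 : ∀ f u, X.val (Fm.all f) u = ⨅ a, X.val f (cons a u) := fun f u => ev_all f u
    have e4 : ∀ f g u, X.val (Fm.imp f g) u = X.val f u ⇨ X.val g u := fun f g u => ev_imp f g u
    have e5 : ∀ i j u, X.val (Fm.mem i j) u = X.mem (u i) (u j) := fun i j u => rfl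
    rw [e1]
    refine iSup_congr fun g => ?_
    rw [e2, e2, SM.val_seq (cons g v) (w+1) 0 (by simpa using hw),
      Z1_union X (cons g v) (w+1) (A+1) 0 (by simpa using hw)]
    congr 2
    have h1 : X.Ext (fun j => ⨅ z, X.rl g j z ⇨ V z) :=
      SM.Ext.iInf fun z => SM.Ext.himp (X.ext_rl_mid g z) (SM.Ext.const _)
    rw [← SM.iInf_om h1]
    rw [e3]
    refine iInf_congr fun n => ?_
    rw [himp_iInf_eq, e3]
    refine iInf_congr fun z => ?_
    rw [e4, e4, e5, SM.val_rel, h _ (w+3) 0 (by simpa using hw)]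
    simp only [cons_zero, cons_succ]
    rw [hw]

private theorem Z1_vP_zero (z : X.N) : vP X 0 z = ⊥ := by
  unfold vP
  simp [vS_zero]

private theorem Z1_step (k : ℕ)
    (ih : ∀ (v : ℕ → X.N) (w z : ℕ), v w = X.om →
      X.val (Fm'.piU k w z) v = ⨆ γ : Set.Iio ((k : Ordinal.{0}) + 1), vP X γ.1 (v z))
    (v : ℕ → X.N) (w A : ℕ) (hw : v w = X.om) :
    X.val (Fm'.stepF k (Fm'.piU k) w A) v = vS X ((k : Ordinal.{0}) + 1) (v A) := by
  rw [val_stepF X k (Fm'.piU k)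
    (fun z => ⨆ γ : Set.Iio ((k : Ordinal.{0}) + 1), vP X γ.1 z) v w A hw ih]
  split_ifs with hk
  · subst hk
    simp only [Nat.cast_zero, zero_add]
    rw [vS_one]
  · have h1 : (1 : Ordinal.{0}) < (k : Ordinal.{0}) + 1 := by
      rw [Order.lt_add_one_iff]
      exact_mod_cast Nat.one_le_iff_ne_zero.2 hk
    rw [vS_gt X h1]
    rfl

private theorem Z1_iSup_succ (β : Ordinal.{0}) (f : Ordinal.{0} → B) :
    (⨆ γ : Set.Iio (β + 1), f γ.1) = (⨆ γ : Set.Iio β, f γ.1) ⊔ f β := by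
  apply le_antisymm
  · refine iSup_le fun γ => ?_
    have hγ : γ.1 < β + 1 := γ.2
    rcases (Order.lt_add_one_iff.1 hγ).lt_or_eq with h | h
    · exact (le_iSup (fun γ : Set.Iio β => f γ.1) ⟨γ.1, h⟩).trans le_sup_left
    · rw [h]
      exact le_sup_right
  · refine sup_le (iSup_le fun γ => ?_) ?_
    · exact le_iSup (fun γ : Set.Iio (β + 1) => f γ.1)
        ⟨γ.1, lt_of_lt_of_le (show γ.1 < β from γ.2) (Order.le_succ β)⟩
    · have hβ : β < β + 1 := Order.lt_add_one_iff.2 le_rfl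
      exact le_iSup (fun γ : Set.Iio (β + 1) => f γ.1) ⟨β, hβ⟩

theorem val_piU (k : ℕ) (v : ℕ → X.N) (w z : ℕ) (hw : v w = X.om) :
    X.val (Fm'.piU k w z) v = ⨆ γ : Set.Iio ((k : Ordinal.{0}) + 1), vP X γ.1 (v z) := by
  induction k generalizing v w z with
  | zero =>
    rw [Z1_iSup_succ ((0 : ℕ) : Ordinal.{0}) (fun γ => vP X γ (v z))]
    have h0 : ((0 : ℕ) : Ordinal.{0}) = 0 := Nat.cast_zero
    rw [h0, Z1_vP_zero]
    have h1 : X.val (Fm'.piU 0 w z) v = (X.eq (v z) (v z))ᶜ := rfl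
    rw [h1, X.eqax.refl, compl_top, sup_bot_eq]
    symm
    rw [iSup_eq_bot]
    intro γ
    exact absurd (show γ.1 < 0 from γ.2) (not_lt.2 zero_le)
  | succ k ih =>
    rw [Z1_iSup_succ ((k + 1 : ℕ) : Ordinal.{0}) (fun γ => vP X γ (v z))]
    have h0 : ((k + 1 : ℕ) : Ordinal.{0}) = (k : Ordinal.{0}) + 1 := Nat.cast_succ k
    rw [h0, ← ih v w z hw]
    have h1 : X.val (Fm'.piU (k + 1) w z) v = X.val (Fm'.piU k w z) v ⊔
        X.val (.ex (.and (Fm'.stepF k (Fm'.piU k) (w+1) 0) (.compl (w+1) (z+1) 0))) v :=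
      ev_or _ _ v
    have h2 : X.val (.ex (.and (Fm'.stepF k (Fm'.piU k) (w+1) 0) (.compl (w+1) (z+1) 0))) v =
        ⨆ c, X.val (.and (Fm'.stepF k (Fm'.piU k) (w+1) 0) (.compl (w+1) (z+1) 0)) (cons c v) :=
      ev_ex _ v
    rw [h1, h2]
    congr 1
    unfold vP
    refine iSup_congr fun c => ?_
    have h3 : X.val (.and (Fm'.stepF k (Fm'.piU k) (w+1) 0) (.compl (w+1) (z+1) 0)) (cons c v) =
      X.val (Fm'.stepF k (Fm'.piU k) (w+1) 0) (cons c v) ⊓
        X.val (.compl (w+1) (z+1) 0) (cons c v) := rfl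
    rw [h3, Z1_step X k ih (cons c v) (w+1) 0 (by simpa using hw),
      val_compl X (cons c v) (w+1) (z+1) 0 (by simpa using hw)]
    simp only [cons_zero, cons_succ]

theorem val_sigF (k : ℕ) (hk : 1 ≤ k) (v : ℕ → X.N) (w A : ℕ) (hw : v w = X.om) :
    X.val (Fm'.sigF k w A) v = vS X k (v A) := by
  obtain ⟨m, rfl⟩ := Nat.exists_eq_add_of_le' hk
  have h0 : ((m + 1 : ℕ) : Ordinal.{0}) = (m : Ordinal.{0}) + 1 := Nat.cast_succ m
  rw [h0]
  exact Z1_step X m (fun v w z hw => val_piU X m v w z hw) v w A hw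

theorem val_piF (k : ℕ) (hk : 1 ≤ k) (v : ℕ → X.N) (w A : ℕ) (hw : v w = X.om) :
    X.val (Fm'.piF k w A) v = vP X k (v A) := by
  have h2 : X.val (Fm'.piF k w A) v =
      ⨆ c, X.val (.and (Fm'.sigF k (w+1) 0) (.compl (w+1) (A+1) 0)) (cons c v) :=
    ev_ex _ v
  rw [h2]
  unfold vP
  refine iSup_congr fun c => ?_
  have h3 : X.val (.and (Fm'.sigF k (w+1) 0) (.compl (w+1) (A+1) 0)) (cons c v) =
      X.val (Fm'.sigF k (w+1) 0) (cons c v) ⊓ X.val (.compl (w+1) (A+1) 0) (cons c v) := rfl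
  rw [h3, val_sigF X k hk (cons c v) (w+1) 0 (by simpa using hw),
    val_compl X (cons c v) (w+1) (A+1) 0 (by simpa using hw)]
  simp only [cons_zero, cons_succ]

theorem val_clF (s : Bool) (k : ℕ) (hk : 1 ≤ k) (v : ℕ → X.N) (w A : ℕ) (hw : v w = X.om) :
    X.val (Fm'.clF s k w A) v = vC X s k (v A) := by
  unfold Fm'.clF vC
  cases s
  · simpa using val_piF X k hk v w A hw
  · simpa using val_sigF X k hk v w A hw

end Pool.Agent.LibBd83
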