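import Pool.Agent.LibBd83.Z0
import Pool.Agent.LibBc83.RE
import Pool.Agent.LibBc83.NG

/-!
BD83 Z2. Names of the reals `n⌢x`.

Plan. `symF_pd`, `realV_pd`: unfold `realV` (`LibBc83/Br.lean`): the infimum over the places splits
into the place `0` (value `⊤`) and the places `k + 1`. `dig_prepN`: `SM.dig_rn`. `eq_prepN`:
`SM.rn_le_eq`, `SM.ext_dig`. `act_prepN`: `SM.act_rn`, `SM.dig_act`, `SM.symF_...`.
`vReal_prepN`: `SM.vReal_rn`, `realV_pd`, `SM.vReal_le`. `supp_prepN`: `SM.supp_rn`, `SM.dig_inv`.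
`prepN_inj`: `eq` of two names gives equal digits (`SM.ext_dig`), so below `eq (prepN n x) (prepN m y)`
the digits at `0` give `n = m` or `⊥`, and the digits at `k + 1` give `dig x k l ⇔ dig y k l`;
`SM.vReal_le_eq`, `SM.rn_le_eq`.
-/

namespace Pool.Agent.LibBd83

open Pool.Agent.LibBc83

variable {B : Type} [CompleteBooleanAlgebra B] {G : Type} [Group G] [MulAction G B]
  [OrdAct G B] {Fam : Set (Set G)}

/-- The digits of `n⌢x`. -/
def pd (n : ℕ) (Y : ℕ → ℕ → B) : ℕ → ℕ → B
  | 0, l => if l = n then ⊤ else ⊥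
  | k + 1, l => Y k l

theorem symF_pd (n : ℕ) {Y : ℕ → ℕ → B} (h : SM.SymF Fam Y) : SM.SymF Fam (pd n Y) := by
  obtain ⟨S, hS, h⟩ := h
  refine ⟨S, hS, fun g hg k l => ?_⟩
  cases k with
  | zero =>
    change g • (if l = n then (⊤ : B) else ⊥) = if l = n then (⊤ : B) else ⊥
    split_ifs
    · exact smul_top' g
    · exact smul_bot' g
  | succ k => exact h g hg k l

omit [OrdAct G B] [MulAction G B] [Group G] in
theorem realV_pd (n : ℕ) (Y : ℕ → ℕ → B) : realV (pd n Y) = realV Y := by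
  unfold realV
  apply le_antisymm
  · exact le_iInf fun k => iInf_le _ (k + 1)
  · refine le_iInf fun k => ?_
    cases k with
    | zero =>
      refine le_trans le_top (le_inf ?_ ?_)
      · refine le_iSup_of_le n ?_
        simp [pd]
      · refine le_iInf fun m => le_iInf fun m' => le_iInf fun hmm => ?_
        by_cases h1 : m = n
        · have h2 : m' ≠ n := fun h => hmm (h1.trans h.symm)
          simp [pd, h2]
        · simp [pd, h1]
    | succ k => exact iInf_le _ k

variable (X : SM B G Fam)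

/-- The name of `n⌢x`. -/
noncomputable def prepN (n : ℕ) (x : X.N) : X.N :=
  X.rn (pd n (X.dig x)) (symF_pd n (X.symF_dig x))

theorem dig_prepN (n : ℕ) (x : X.N) (k l : ℕ) :
    X.dig (prepN X n x) k l = pd n (X.dig x) k l :=
  X.dig_rn _ _ k l

theorem eq_prepN (n : ℕ) (x y : X.N) : X.eq x y ≤ X.eq (prepN X n x) (prepN X n y) := by
  refine le_trans (le_iInf fun k => le_iInf fun l => ?_)
    (X.rn_le_eq (pd n (X.dig x)) (pd n (X.dig y)) (symF_pd n (X.symF_dig x))
      (symF_pd n (X.symF_dig y)))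
  cases k with
  | zero =>
    refine le_inf ?_ ?_
    · rw [le_himp_iff]
      exact inf_le_right
    · rw [le_himp_iff]
      exact inf_le_right
  | succ k =>
    refine le_inf ?_ ?_
    · rw [le_himp_iff]
      exact X.ext_dig k l x y
    · rw [le_himp_iff, X.eqax.symm]
      exact X.ext_dig k l y x

theorem act_prepN (n : ℕ) (g : G) (x : X.N) :
    X.eq (X.act g (prepN X n x)) (prepN X n (X.act g x)) = ⊤ := by
  have hfun : (fun k l => g • pd n (X.dig x) k l) = pd n (X.dig (X.act g x)) := by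
    funext k l
    cases k with
    | zero =>
      change g • (if l = n then (⊤ : B) else ⊥) = if l = n then (⊤ : B) else ⊥
      split_ifs
      · exact smul_top' g
      · exact smul_bot' g
    | succ k => exact (X.dig_act g x k l).symm
  have hx' : SM.SymF Fam (fun k l => g • pd n (X.dig x) k l) := by
    rw [hfun]
    exact symF_pd n (X.symF_dig _)
  have h2 : ∀ (Z W : ℕ → ℕ → B) (hZ : SM.SymF Fam Z) (hW : SM.SymF Fam W), Z = W →
      X.rn Z hZ = X.rn W hW := by
    intro Z W hZ hW h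
    subst h
    rfl
  have key := X.act_rn g (pd n (X.dig x)) (symF_pd n (X.symF_dig x)) hx'
  rw [h2 _ _ hx' (symF_pd n (X.symF_dig _)) hfun] at key
  exact key

theorem vReal_prepN (n : ℕ) (x : X.N) : X.vReal (prepN X n x) = realV (X.dig x) := by
  unfold prepN
  rw [SM.vReal_rn, realV_pd]

theorem prepN_inj (n : ℕ) (x y : X.N) :
    X.vReal x ⊓ X.vReal y ⊓ X.eq (prepN X n x) (prepN X n y) ≤ X.eq x y := by
  have h1 := SM.vReal_le_eq (X := X) x (X.symF_dig x)
  have h2 := SM.vReal_le_eq (X := X) y (X.symF_dig y)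
  have h3 : X.eq (prepN X n x) (prepN X n y) ≤
      X.eq (X.rn (X.dig x) (X.symF_dig x)) (X.rn (X.dig y) (X.symF_dig y)) := by
    refine le_trans (le_iInf fun k => le_iInf fun l => ?_)
      (X.rn_le_eq (X.dig x) (X.dig y) (X.symF_dig x) (X.symF_dig y))
    have h4 := X.ext_dig (k + 1) l (prepN X n x) (prepN X n y)
    have h5 := X.ext_dig (k + 1) l (prepN X n y) (prepN X n x)
    beta_reduce at h4 h5
    rw [dig_prepN, dig_prepN] at h4 h5
    rw [X.eqax.symm] at h5
    exact le_inf (le_himp_iff.2 h4) (le_himp_iff.2 h5)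
  have h6 : X.eq (X.rn (X.dig x) (X.symF_dig x)) (X.rn (X.dig y) (X.symF_dig y)) ⊓
      X.eq (X.rn (X.dig y) (X.symF_dig y)) y ≤ X.eq (X.rn (X.dig x) (X.symF_dig x)) y :=
    X.eqax.trans _ _ _
  have h7 : X.eq x (X.rn (X.dig x) (X.symF_dig x)) ⊓ X.eq (X.rn (X.dig x) (X.symF_dig x)) y ≤
      X.eq x y := X.eqax.trans _ _ _
  rw [X.eqax.symm y] at h2
  refine le_trans (le_inf ((inf_le_left.trans inf_le_left).trans h1) (le_trans (le_inf
    (inf_le_right.trans h3) ((inf_le_left.trans inf_le_right).trans h2)) h6)) h7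

theorem prepN_ne {n m : ℕ} (h : n ≠ m) (x y : X.N) :
    X.eq (prepN X n x) (prepN X m y) = ⊥ := by
  have h1 := X.ext_dig 0 n (prepN X n x) (prepN X m y)
  beta_reduce at h1
  rw [dig_prepN, dig_prepN] at h1
  simpa [pd, h] using h1

end Pool.Agent.LibBd83
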