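import Pool.Agent.LibBd83.Z2

/-!
BD83 Z2b. The truth value of `Prep`.

Plan. `val_prep`: unfold `Fm'.prep`: the value is `vReal z ⊓ (⨅ o, emp o ⇨ rl z o (nat n)) ⊓ ⨅ l l' m, (mem l om ⇨
suc l' l ⇨ rl x l m ⇨ rl z l' m)`. Here `o` ranges over all names: `emp o` is at most `eq o (nat 0)`
(`SM.ext`/`SM.eq_eq`, `SM.mem_nat_zero`) and it is `⊤` for `o = nat 0` (`SM.val_emp_nat`); `suc l' l` with
`l = nat k` is `eq l' (nat (k + 1))` (`SM.val_suc_nat`, `SM.mem_nat_succ`, `SM.eq_eq`). So the value is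
`vReal z ⊓ dig z 0 n ⊓ ⨅ k, ⨅ m, (rl x (nat k) m ⇨ rl z (nat (k+1)) m)`; for real `x` and `z` the names
`m` may be restricted to `nat l` (`SM.vReal_rl`), and since `x` and `z` are functions the
implication is an equivalence; compare with `SM.rn_le_eq`, `SM.vReal_le_eq`.
-/

namespace Pool.Agent.LibBd83

open Pool.Agent.LibBc83

variable {B : Type} [CompleteBooleanAlgebra B] {G : Type} [Group G] [MulAction G B]
  [OrdAct G B] {Fam : Set (Set G)} (X : SM B G Fam)

variable {X}

private theorem Z2b_emp (v : ℕ → X.N) (i : ℕ) : X.val (.emp i) v = X.eq (v i) (X.nat 0) := by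
  have h : X.val (.emp i) v = ⨅ t, (X.mem t (v i))ᶜ := by
    simp [SM.val, Fm.emp]
  rw [h, SM.eq_eq]
  simp [SM.mem_nat_zero]

private theorem Z2b_suc (v : ℕ → X.N) (y x j : ℕ) (hx : v x = X.nat j) :
    X.val (.suc y x) v = X.eq (v y) (X.nat (j + 1)) := by
  have h : X.val (.suc y x) v = ⨅ t, (X.mem t (v y) ⇨ X.mem t (v x) ⊔ X.eq t (v x)) ⊓
      (X.mem t (v x) ⊔ X.eq t (v x) ⇨ X.mem t (v y)) := by
    simp [SM.val, Fm.suc]
  rw [h, SM.eq_eq, hx]
  simp only [SM.mem_nat_succ]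

private theorem Z2b_val (v : ℕ → X.N) (w n x z : ℕ) : X.val (Fm'.prep w n x z) v =
    X.val (.real w z) v ⊓ ((⨅ o, X.val (.emp 0) (cons o v) ⇨ X.rl (v z) o (v n)) ⊓
      ⨅ l, ⨅ l', ⨅ m, X.mem l (v w) ⇨ (X.val (.suc 1 2) (cons m (cons l' (cons l v))) ⇨
        (X.rl (v x) l m ⇨ X.rl (v z) l' m))) := by
  have h2 : ∀ (w : ℕ → X.N) (z x y : ℕ),
      ev X.mem X.eq (.rel z x y) w = X.rl (w z) (w x) (w y) := fun w z x y =>
    SM.val_rel w z x y
  simp only [SM.val, Fm'.prep, ev_all, ev_imp, ev_and, ev_mem, h2, cons_zero, cons_succ]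

/-- an infimum over the names equal to `a` -/
private theorem Z2b_inf {φ : X.N → B} (h : X.Ext φ) (a : X.N) :
    (⨅ o, X.eq o a ⇨ φ o) = φ a := by
  apply le_antisymm
  · refine (iInf_le _ a).trans ?_
    rw [X.eqax.refl, top_himp]
  · refine le_iInf fun o => ?_
    rw [le_himp_iff, inf_comm, X.eqax.symm]
    exact h _ _

private theorem Z2b_val' (v : ℕ → X.N) (w n x z k : ℕ) (hw : v w = X.om) (hn : v n = X.nat k) :
    X.val (Fm'.prep w n x z) v = X.vReal (v z) ⊓ (X.dig (v z) 0 k ⊓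
      ⨅ j, ⨅ m, X.rl (v x) (X.nat j) m ⇨ X.rl (v z) (X.nat (j + 1)) m) := by
  rw [Z2b_val, SM.val_real v w z hw]
  congr 1
  congr 1
  · rw [hn]
    have h1 : ∀ o, X.val (.emp 0) (cons o v) = X.eq o (X.nat 0) := fun o => Z2b_emp (cons o v) 0
    simp only [h1]
    exact Z2b_inf (X.ext_rl_mid (v z) (X.nat k)) (X.nat 0)
  · rw [hw]
    have h1 : ∀ l, (⨅ l', ⨅ m, X.mem l X.om ⇨ (X.val (.suc 1 2) (cons m (cons l' (cons l v))) ⇨
        (X.rl (v x) l m ⇨ X.rl (v z) l' m))) = X.mem l X.om ⇨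
        ⨅ l', ⨅ m, (X.val (.suc 1 2) (cons m (cons l' (cons l v))) ⇨
        (X.rl (v x) l m ⇨ X.rl (v z) l' m)) := by
      intro l
      simp only [himp_iInf_eq]
    rw [iInf_congr h1]
    have hext : X.Ext (fun l => ⨅ l', ⨅ m, (X.val (.suc 1 2) (cons m (cons l' (cons l v))) ⇨
        (X.rl (v x) l m ⇨ X.rl (v z) l' m))) := by
      refine SM.Ext.iInf fun l' => SM.Ext.iInf fun m => SM.Ext.himp ?_
        (SM.Ext.himp (X.ext_rl_mid (v x) m) (SM.Ext.const _))
      intro a b
      refine ev_congr X.eqax _ _ _ _ fun n => ?_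
      match n with
      | 0 =>
        change _ ≤ X.eq m m
        rw [X.eqax.refl]
        exact le_top
      | 1 =>
        change _ ≤ X.eq l' l'
        rw [X.eqax.refl]
        exact le_top
      | 2 => exact le_rfl
      | n + 3 =>
        change _ ≤ X.eq (v n) (v n)
        rw [X.eqax.refl]
        exact le_top
    rw [SM.iInf_om hext]
    refine iInf_congr fun j => ?_
    have h2 : ∀ l' m, X.val (.suc 1 2) (cons m (cons l' (cons (X.nat j) v))) =
        X.eq l' (X.nat (j + 1)) := fun l' m =>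
      Z2b_suc (cons m (cons l' (cons (X.nat j) v))) 1 2 j rfl
    simp only [h2]
    rw [iInf_comm]
    refine iInf_congr fun m => ?_
    exact Z2b_inf (φ := fun l' => X.rl (v x) (X.nat j) m ⇨ X.rl (v z) l' m)
      (SM.Ext.himp (SM.Ext.const _) (X.ext_rl_mid (v z) m)) (X.nat (j + 1))

/-- two different digits -/
private theorem Z2b_two (u : X.N) (i m m' : ℕ) (h : m ≠ m') :
    X.vReal u ⊓ (X.dig u i m ⊓ X.dig u i m') ≤ ⊥ := by
  have h3 : X.vReal u ≤ (X.dig u i m ⊓ X.dig u i m')ᶜ :=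
    (SM.vReal_le u).trans ((iInf_le _ i).trans (inf_le_right.trans ((iInf_le _ m).trans
      ((iInf_le _ m').trans (iInf_le _ h)))))
  refine (inf_le_inf_right _ h3).trans ?_
  rw [compl_inf_self]

variable (X)

theorem val_prep (v : ℕ → X.N) (w n x z k : ℕ) (hw : v w = X.om) (hn : v n = X.nat k) :
    X.vReal (v x) ⊓ X.val (Fm'.prep w n x z) v =
      X.vReal (v x) ⊓ X.eq (v z) (prepN X k (v x)) := by
  rw [Z2b_val' v w n x z k hw hn]
  generalize v x = x
  generalize v z = z
  have hdx : ∀ j l, X.rl x (X.nat j) (X.nat l) = X.dig x j l := fun _ _ => rfl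
  have hdz : ∀ j l, X.rl z (X.nat j) (X.nat l) = X.dig z j l := fun _ _ => rfl
  apply le_antisymm
  · refine le_inf inf_le_left ?_
    obtain ⟨C, hC⟩ : ∃ C, C = X.vReal x ⊓ (X.vReal z ⊓ (X.dig z 0 k ⊓
      ⨅ j, ⨅ m, X.rl x (X.nat j) m ⇨ X.rl z (X.nat (j + 1)) m)) := ⟨_, rfl⟩
    rw [← hC]
    have c1 : C ≤ X.vReal x := by rw [hC]; exact inf_le_left
    have c2 : C ≤ X.vReal z := by rw [hC]; exact inf_le_right.trans inf_le_left
    have c3 : C ≤ X.dig z 0 k := by
      rw [hC]
      exact inf_le_right.trans (inf_le_right.trans inf_le_left)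
    have c4 : ∀ j l, C ≤ X.dig x j l ⇨ X.dig z (j + 1) l := by
      intro j l
      rw [hC]
      exact inf_le_right.trans (inf_le_right.trans (inf_le_right.trans
        ((iInf_le _ j).trans (iInf_le _ (X.nat l)))))
    have h1 : C ≤ X.eq z (X.rn (X.dig z) (X.symF_dig z)) :=
      c2.trans (SM.vReal_le_eq z (X.symF_dig z))
    have h2 : C ≤ X.eq (X.rn (X.dig z) (X.symF_dig z)) (prepN X k x) := by
      refine le_trans ?_ (X.rn_le_eq (X.dig z) (pd k (X.dig x)) (X.symF_dig z)
        (symF_pd k (X.symF_dig x)))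
      refine le_iInf fun i => le_iInf fun l => ?_
      cases i with
      | zero =>
        change C ≤ (X.dig z 0 l ⇨ if l = k then ⊤ else ⊥) ⊓
          ((if l = k then ⊤ else ⊥) ⇨ X.dig z 0 l)
        by_cases hlk : l = k
        · rw [if_pos hlk, himp_top, top_himp, top_inf_eq, hlk]
          exact c3
        · rw [if_neg hlk, bot_himp, inf_top_eq, le_himp_iff]
          refine le_trans ?_ (Z2b_two z 0 l k hlk)
          exact le_inf (inf_le_left.trans c2) (le_inf inf_le_right (inf_le_left.trans c3))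
      | succ j =>
        change C ≤ (X.dig z (j + 1) l ⇨ X.dig x j l) ⊓ (X.dig x j l ⇨ X.dig z (j + 1) l)
        refine le_inf ?_ (c4 j l)
        rw [le_himp_iff]
        have h3 : C ⊓ X.dig z (j + 1) l ≤ (C ⊓ X.dig z (j + 1) l) ⊓ ⨆ m, X.dig x j m := by
          refine le_inf le_rfl ?_
          exact inf_le_left.trans (c1.trans ((SM.vReal_le x).trans
            ((iInf_le _ j).trans inf_le_left)))
        refine h3.trans ?_
        rw [inf_iSup_eq]
        refine iSup_le fun m => ?_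
        by_cases hml : m = l
        · subst hml
          exact inf_le_right
        · have h4 : C ⊓ X.dig z (j + 1) l ⊓ X.dig x j m ≤ X.dig z (j + 1) m := by
            refine le_trans ?_ (himp_inf_le (a := X.dig x j m) (b := X.dig z (j + 1) m))
            exact le_inf (inf_le_left.trans (inf_le_left.trans (c4 j m))) inf_le_right
          refine le_trans ?_ ((Z2b_two z (j + 1) m l hml).trans bot_le)
          exact le_inf (inf_le_left.trans (inf_le_left.trans c2))
            (le_inf h4 (inf_le_left.trans inf_le_right))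
    exact (le_inf h1 h2).trans (X.eqax.trans _ _ _)
  · refine le_inf inf_le_left ?_
    obtain ⟨C, hC⟩ : ∃ C, C = X.vReal x ⊓ X.eq z (prepN X k x) := ⟨_, rfl⟩
    rw [← hC]
    have c1 : C ≤ X.vReal x := by rw [hC]; exact inf_le_left
    have c2 : C ≤ X.eq (prepN X k x) z := by
      rw [hC, X.eqax.symm]
      exact inf_le_right
    have hp : ∀ i l, C ⊓ pd k (X.dig x) i l ≤ X.dig z i l := by
      intro i l
      rw [← dig_prepN]
      exact (inf_le_inf_right _ c2).trans (X.ext_dig i l _ _)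
    refine le_inf ?_ (le_inf ?_ ?_)
    · have h1 : C ≤ X.vReal (prepN X k x) := by
        rw [vReal_prepN]
        exact c1.trans (SM.vReal_le x)
      exact (le_inf c2 h1).trans (SM.ext_vReal _ _)
    · have h1 := hp 0 k
      have h2 : pd k (X.dig x) 0 k = ⊤ := if_pos rfl
      rwa [h2, inf_top_eq] at h1
    · refine le_iInf fun j => le_iInf fun m => ?_
      rw [le_himp_iff]
      have h3 : C ⊓ X.rl x (X.nat j) m ≤ (C ⊓ X.rl x (X.nat j) m) ⊓ ⨆ l, X.eq m (X.nat l) :=
        le_inf le_rfl ((inf_le_inf_right _ c1).trans (SM.vReal_rl x m j))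
      refine h3.trans ?_
      rw [inf_iSup_eq]
      refine iSup_le fun l => ?_
      have h4 : C ⊓ X.rl x (X.nat j) m ⊓ X.eq m (X.nat l) ≤ X.dig x j l := by
        refine le_trans ?_ (X.ext_rl_right x (X.nat j) m (X.nat l))
        exact le_inf inf_le_right (inf_le_left.trans inf_le_right)
      have h5 : C ⊓ X.rl x (X.nat j) m ⊓ X.eq m (X.nat l) ≤ X.dig z (j + 1) l :=
        (le_inf (inf_le_left.trans inf_le_left) h4).trans (hp (j + 1) l)
      refine le_trans (le_inf ?_ h5) (X.ext_rl_right z (X.nat (j + 1)) (X.nat l) m)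
      rw [X.eqax.symm]
      exact inf_le_right

end Pool.Agent.LibBd83
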