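import Pool.Agent.LibBd83.Z1
import Pool.Agent.LibBd83.Z3
import Pool.Agent.LibBd83.T4

/-!
BD83 Z4. The truth values of: choice function; all terms have a property.

`chV t f` is the truth value of: `f` is a choice function for `t`.
Plan. `val_choice`: unfold `Fm.choice` (`LibBc83/CoreDef.lean`):
`vSeq f ⊓ ⨅ n, ⨅ A, ⨅ x, mem n om ⇨ rl t n A ⇨ rl f n x ⇨ mem x A`; `SM.iInf_om`; below `vSeq t` the value
of `⨅ A, rl t (nat n) A ⇨ (.. ⇨ mem x A)` is `.. ⇨ inh t n x` (`SM.vSeq_ex`, `SM.vSeq_uniq`,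
`Ext.mem_right`). `val_tms`: `SM.iInf_om`; below `vSeq t`, `⨅ A, rl t (nat n) A ⇨ V A = ⨆ A, rl t (nat n) A ⊓ V A`
for an `Ext` predicate `V`. 
-/

namespace Pool.Agent.LibBd83

open Pool.Agent.LibBc83

variable {B : Type} [CompleteBooleanAlgebra B] {G : Type} [Group G] [MulAction G B]
  [OrdAct G B] {Fam : Set (Set G)} (X : SM B G Fam)

private theorem Z4_iInf {ι : Type*} {S : B} {a b : ι → B} (h : ∀ i, S ⊓ a i = S ⊓ b i) :
    S ⊓ ⨅ i, a i = S ⊓ ⨅ i, b i := by
  apply le_antisymm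
  · refine le_inf inf_le_left (le_iInf fun i => ?_)
    exact ((inf_le_inf_left S (iInf_le a i)).trans (h i).le).trans inf_le_right
  · refine le_inf inf_le_left (le_iInf fun i => ?_)
    exact ((inf_le_inf_left S (iInf_le b i)).trans (h i).ge).trans inf_le_right

private theorem Z4_rel (v : ℕ → X.N) (f x y : ℕ) :
    ev X.mem X.eq (.rel f x y) v = X.rl (v f) (v x) (v y) := SM.val_rel v f x y

private theorem Z4_seq (v : ℕ → X.N) (w g : ℕ) (h : v w = X.om) :
    ev X.mem X.eq (.seq w g) v = X.vSeq (v g) := SM.val_seq v w g h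

private theorem Z4_om (f : X.N → X.N → B) (hf : ∀ A, X.Ext fun n => f n A) :
    (⨅ n, ⨅ A, X.mem n X.om ⇨ f n A) = ⨅ n : ℕ, ⨅ A, f (X.nat n) A := by
  rw [← SM.iInf_om (X := X) (φ := fun n => ⨅ A, f n A) (SM.Ext.iInf hf)]
  refine iInf_congr fun n => ?_
  rw [himp_iInf_eq]

/-- The truth value of: `f` is a choice function for `t`. -/
noncomputable def chV (t f : X.N) : B :=
  X.vSeq f ⊓ ⨅ n : ℕ, ⨅ y, (X.rl f (X.nat n) y ⇨ X.inh t n y)

theorem val_choice (v : ℕ → X.N) (w t f : ℕ) (hw : v w = X.om) :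
    X.vSeq (v t) ⊓ X.val (.choice w t f) v = X.vSeq (v t) ⊓ chV X (v t) (v f) := by
  have h0 : X.val (.choice w t f) v = X.vSeq (v f) ⊓ ⨅ n : ℕ, ⨅ A, ⨅ x,
      X.rl (v t) (X.nat n) A ⇨ (X.rl (v f) (X.nat n) x ⇨ X.mem x A) := by
    have h1 := Z4_om X (fun n A => ⨅ x, X.rl (v t) n A ⇨ (X.rl (v f) n x ⇨ X.mem x A))
      (fun A => SM.Ext.iInf fun x => SM.Ext.himp (X.ext_rl_mid (v t) A)
        (SM.Ext.himp (X.ext_rl_mid (v f) x) (SM.Ext.const _)))
    beta_reduce at h1
    rw [← h1]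
    unfold SM.val Fm.choice
    simp only [ev_and, ev_all, ev_imp, ev_mem, Z4_rel, cons_zero, cons_succ, himp_iInf_eq]
    rw [Z4_seq _ _ _ _ hw, hw]
  rw [h0]
  unfold chV
  rw [← inf_assoc, ← inf_assoc, inf_comm (X.vSeq (v t)), inf_assoc, inf_assoc]
  congr 1
  refine Z4_iInf fun n => ?_
  apply le_antisymm
  · refine le_inf inf_le_left (le_iInf fun y => ?_)
    rw [le_himp_iff]
    calc _ ≤ (⨆ A, X.rl (v t) (X.nat n) A) ⊓ ((⨅ A, ⨅ x, X.rl (v t) (X.nat n) A ⇨
          (X.rl (v f) (X.nat n) x ⇨ X.mem x A)) ⊓ X.rl (v f) (X.nat n) y) := by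
          rw [← inf_assoc]
          exact inf_le_inf_right _ (inf_le_inf_right _ (SM.vSeq_ex (X := X) (v t) n))
      _ ≤ X.inh (v t) n y := by
          unfold SM.inh
          rw [iSup_inf_eq]
          refine iSup_mono fun A => le_inf inf_le_left ?_
          rw [← inf_assoc, ← le_himp_iff, inf_comm, ← le_himp_iff]
          exact (iInf_le _ A).trans (iInf_le _ y)
  · refine le_inf inf_le_left (le_iInf fun A => le_iInf fun x => ?_)
    rw [le_himp_iff, le_himp_iff]
    have h2 : (⨅ y, X.rl (v f) (X.nat n) y ⇨ X.inh (v t) n y) ⊓ X.rl (v f) (X.nat n) x ≤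
        X.inh (v t) n x := le_himp_iff.1 (iInf_le _ x)
    calc _ ≤ (X.vSeq (v t) ⊓ X.rl (v t) (X.nat n) A) ⊓ X.inh (v t) n x := by
          refine le_inf (le_inf (inf_le_left.trans (inf_le_left.trans inf_le_left))
            (inf_le_left.trans inf_le_right)) ?_
          refine le_trans ?_ h2
          exact le_inf (inf_le_left.trans (inf_le_left.trans inf_le_right)) inf_le_right
      _ ≤ X.mem x A := by
          unfold SM.inh
          rw [inf_iSup_eq]
          refine iSup_le fun U => ?_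
          refine le_trans ?_ (X.eqax.memr x U A)
          refine le_inf ?_ (inf_le_right.trans inf_le_right)
          refine le_trans ?_ (SM.vSeq_uniq (X := X) (v t) U A n)
          exact le_inf (le_inf (inf_le_left.trans inf_le_left) (inf_le_right.trans inf_le_left))
            (inf_le_left.trans inf_le_right)

theorem val_tms (P : ℕ → ℕ → Fm) (V : X.N → B) (hV : X.Ext V) (v : ℕ → X.N) (w t : ℕ)
    (hw : v w = X.om)
    (h : ∀ (u : ℕ → X.N) (w' z : ℕ), u w' = X.om → X.val (P w' z) u = V (u z)) :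
    X.vSeq (v t) ⊓ X.val (Fm'.tms P w t) v =
      X.vSeq (v t) ⊓ ⨅ n : ℕ, ⨆ A, X.rl (v t) (X.nat n) A ⊓ V A := by
  have h0 : X.val (Fm'.tms P w t) v = ⨅ n : ℕ, ⨅ A, X.rl (v t) (X.nat n) A ⇨ V A := by
    have h1 := Z4_om X (fun n A => X.rl (v t) n A ⇨ V A)
      (fun A => SM.Ext.himp (X.ext_rl_mid (v t) A) (SM.Ext.const _))
    beta_reduce at h1
    rw [← h1]
    unfold SM.val Fm'.tms
    simp only [ev_all, ev_imp, ev_mem, Z4_rel, cons_zero, cons_succ]
    rw [hw]
    refine iInf_congr fun n => iInf_congr fun A => ?_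
    have h2 := h (cons A (cons n v)) (w + 2) 0 hw
    unfold SM.val at h2
    rw [h2]
    rfl
  rw [h0]
  refine Z4_iInf fun n => ?_
  apply le_antisymm
  · refine le_inf inf_le_left ?_
    calc _ ≤ (⨆ A, X.rl (v t) (X.nat n) A) ⊓ (⨅ A, X.rl (v t) (X.nat n) A ⇨ V A) :=
          inf_le_inf_right _ (SM.vSeq_ex (X := X) (v t) n)
      _ ≤ _ := by
          rw [iSup_inf_eq]
          refine iSup_mono fun A => le_inf inf_le_left ?_
          rw [inf_comm, ← le_himp_iff]
          exact iInf_le _ A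
  · refine le_inf inf_le_left (le_iInf fun A => ?_)
    rw [le_himp_iff, inf_assoc, inf_comm (⨆ A, X.rl (v t) (X.nat n) A ⊓ V A), ← inf_assoc,
      inf_iSup_eq]
    refine iSup_le fun U => ?_
    refine le_trans ?_ (hV U A)
    refine le_inf ?_ (inf_le_right.trans inf_le_right)
    refine le_trans ?_ (SM.vSeq_uniq (X := X) (v t) U A n)
    exact le_inf (le_inf (inf_le_left.trans inf_le_left) (inf_le_right.trans inf_le_left))
      (inf_le_left.trans inf_le_right)

end Pool.Agent.LibBd83
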